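import Pool.Agent.LIFT.Numbers

/-!
# LIFT: the numbers, version 4 (row U8, helper44)

`lam`, `b`, `c` are constants, `q = n / (3 b)`.
-/

set_option autoImplicit false

open Filter Topology

namespace LIFT

namespace h44

/-- `24 ^ (3 q)` -/
theorem pow24 (q : ℕ) : (24 : ℝ) ^ (3 * q) ≤ Real.exp (21 / 2 * q) := by
  calc (24 : ℝ) ^ (3 * q) ≤ 32 ^ (3 * q) := pow_le_pow_left₀ (by norm_num) (by norm_num) _
    _ = 2 ^ (15 * q) := by
        rw [show (32 : ℝ) = 2 ^ 5 by norm_num, ← pow_mul]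
        congr 1
        ring
    _ ≤ Real.exp (7 / 10 * ((15 * q : ℕ) : ℝ)) := two_pow_le _
    _ = Real.exp (21 / 2 * q) := by
        congr 1
        push_cast
        ring

/-- `sqrt (24 ^ (3 q) * r)` for `r <= 2 exp (q / 2)` -/
theorem sqrt24r (q : ℕ) {r : ℝ} (h0 : 0 ≤ r) (hr : r ≤ 2 * Real.exp (q / 2)) :
    Real.sqrt (24 ^ (3 * q) * r) ≤ 2 * Real.exp (11 / 2 * q) := by
  rw [Real.sqrt_le_left (by positivity)]
  calc (24 : ℝ) ^ (3 * q) * r ≤ Real.exp (21 / 2 * q) * (2 * Real.exp (q / 2)) :=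
        mul_le_mul (pow24 q) hr h0 (Real.exp_pos _).le
    _ ≤ (2 * Real.exp (11 / 2 * q)) ^ 2 := by
        have h2 : (2 * Real.exp (11 / 2 * (q : ℝ))) ^ 2 =
            4 * (Real.exp (21 / 2 * q) * Real.exp (q / 2)) := by
          rw [mul_pow, ← Real.exp_nat_mul, ← Real.exp_add]
          norm_num
          ring
        rw [h2]
        have h3 : 0 < Real.exp (21 / 2 * (q : ℝ)) * Real.exp (q / 2) := by positivity
        linarith

/-- `sqrt (24 ^ (3 q))` -/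
theorem sqrt24 (q : ℕ) : Real.sqrt (24 ^ (3 * q)) ≤ Real.exp (11 / 2 * q) := by
  rw [Real.sqrt_le_left (by positivity)]
  refine (pow24 q).trans ?_
  rw [← Real.exp_nat_mul]
  apply Real.exp_le_exp.2
  have : (0 : ℝ) ≤ q := Nat.cast_nonneg _
  push_cast
  linarith

/-- everything for one `q` -/
theorem in_q4 (β' γ : ℝ) (hβ : 0 < β') (hγ : 0 < γ) (hγ1 : γ ≤ 1) (q₀ b₀ : ℕ) :
    ∃ (lam : ℝ) (b : ℕ), 1 < lam ∧ 0 < b ∧ b₀ ≤ b ∧ lam ^ 8 ≤ 4 * b ∧
      ∃ q₁ : ℕ, ∀ q : ℕ, q₁ ≤ q → q₀ ≤ q ∧ 12 ≤ q ∧ 32 ≤ β' * q ∧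
      ∀ x : ℝ, x ≤ q / 2 →
      ∀ d k r : ℕ, β' * q ≤ d + 1 → β' * q ≤ k → 0 < r → (r : ℝ) ≤ 2 * Real.exp (q / 2) →
        2 * 2 ^ (3 * q) / lam ^ (d + 1) * Real.sqrt (24 ^ (3 * q)) ≤ γ / 2 ∧
        2 * (2 * 2 ^ (3 * q) * (4 * r / γ) / lam ^ (d + 1) * Real.sqrt (24 ^ (3 * q) * r))
          + Real.exp (-x) * (2 * 2 ^ (3 * q) / lam ^ (d + 1) * Real.sqrt (24 ^ (3 * q)))
          + Real.exp (-x) * γ / 8 + Real.sqrt (2 ^ (3 * q) / (b : ℝ) ^ k)
          < Real.exp (-x) * γ / 2 := by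
  set lam : ℝ := Real.exp (10 / β') with hlam
  have hlam1 : 1 < lam := Real.one_lt_exp_iff.2 (by positivity)
  obtain ⟨b, hb⟩ := exists_nat_ge (max (max (b₀ : ℝ) (lam ^ 8)) (max (Real.exp (5 / β')) 1))
  have hb1 : (b₀ : ℝ) ≤ b := le_trans (le_trans (le_max_left _ _) (le_max_left _ _)) hb
  have hb2 : lam ^ 8 ≤ b := le_trans (le_trans (le_max_right _ _) (le_max_left _ _)) hb
  have hb3 : Real.exp (5 / β') ≤ b := le_trans (le_trans (le_max_left _ _) (le_max_right _ _)) hb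
  have hb4 : (1 : ℝ) ≤ b := le_trans (le_trans (le_max_right _ _) (le_max_right _ _)) hb
  have hb0 : (0 : ℝ) < b := by linarith
  have hqr : Tendsto (fun q : ℕ => β' * (q : ℝ)) atTop atTop :=
    tendsto_natCast_atTop_atTop.const_mul_atTop hβ
  have hex0 : Tendsto (fun q : ℕ => Real.exp (-(q : ℝ))) atTop (𝓝 0) :=
    Real.tendsto_exp_neg_atTop_nhds_zero.comp tendsto_natCast_atTop_atTop
  have hex : Tendsto (fun q : ℕ => 64 / γ * Real.exp (-(q : ℝ))) atTop (𝓝 0) := by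
    simpa using hex0.const_mul (64 / γ)
  have hT : 0 < γ / 16 := by positivity
  have hT2 : 0 < γ ^ 2 / 256 := by positivity
  obtain ⟨q₁, hq₁⟩ := (((hex.eventually (gt_mem_nhds hT)).and
    (hex0.eventually (gt_mem_nhds hT2))).and
    ((hqr.eventually_ge_atTop 32).and (eventually_ge_atTop (q₀ + 12)))).exists_forall_of_atTop
  refine ⟨lam, b, hlam1, by exact_mod_cast hb0, by exact_mod_cast hb1, by linarith, q₁,
    fun q hq => ?_⟩
  obtain ⟨⟨h1, h1'⟩, h2, h3⟩ := hq₁ q hq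
  have hq0 : (12 : ℝ) ≤ q := by
    have : 12 ≤ q := by omega
    exact_mod_cast this
  refine ⟨by omega, by omega, h2, ?_⟩
  intro x hx d k r hd hk hr hr2
  have hr0 : (0 : ℝ) < r := by exact_mod_cast hr
  set δ : ℝ := Real.exp (-x) with hδ
  have hδ0 : 0 < δ := Real.exp_pos _
  have hδq : Real.exp (-(q / 2 : ℝ)) ≤ δ := Real.exp_le_exp.2 (by linarith)
  have g1 : (2 : ℝ) ^ (3 * q) ≤ Real.exp (21 / 10 * q) := by
    refine (two_pow_le (3 * q)).trans (Real.exp_le_exp.2 (le_of_eq ?_))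
    push_cast
    ring
  have g4 : Real.exp (10 * q) ≤ lam ^ (d + 1) := by
    rw [hlam, ← Real.exp_nat_mul]
    apply Real.exp_le_exp.2
    push_cast
    have g5 : (10 : ℝ) * q = 10 / β' * (β' * q) := by
      field_simp
    rw [g5, mul_comm ((d : ℝ) + 1)]
    exact mul_le_mul_of_nonneg_left hd (by positivity)
  -- the factor without `r`
  have fA : 2 * 2 ^ (3 * q) / lam ^ (d + 1) * Real.sqrt (24 ^ (3 * q)) ≤ γ / 16 := by
    have e1 : 2 * 2 ^ (3 * q) / lam ^ (d + 1) * Real.sqrt (24 ^ (3 * q)) ≤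
        2 * Real.exp (21 / 10 * q) / Real.exp (10 * q) * Real.exp (11 / 2 * q) := by
      have := sqrt24 q
      gcongr
    refine e1.trans ?_
    have e2 : 2 * Real.exp (21 / 10 * (q : ℝ)) / Real.exp (10 * q) * Real.exp (11 / 2 * q) =
        2 * (Real.exp (21 / 10 * q) * (Real.exp (10 * q))⁻¹ * Real.exp (11 / 2 * q)) := by ring
    rw [e2, ← Real.exp_neg, ← Real.exp_add, ← Real.exp_add]
    have e3 : Real.exp (21 / 10 * (q : ℝ) + -(10 * q) + 11 / 2 * q) ≤ Real.exp (-(q : ℝ)) :=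
      Real.exp_le_exp.2 (by linarith)
    have e4 : 2 * Real.exp (-(q : ℝ)) ≤ 64 / γ * Real.exp (-(q : ℝ)) := by
      apply mul_le_mul_of_nonneg_right _ (Real.exp_pos _).le
      rw [le_div_iff₀ hγ]
      linarith
    linarith
  -- the term with `r`
  have fB : 2 * (2 * 2 ^ (3 * q) * (4 * r / γ) / lam ^ (d + 1) *
      Real.sqrt (24 ^ (3 * q) * r)) ≤ δ * (γ / 16) := by
    have e1 : 2 * (2 * 2 ^ (3 * q) * (4 * r / γ) / lam ^ (d + 1) *
        Real.sqrt (24 ^ (3 * q) * r)) ≤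
        2 * (2 * Real.exp (21 / 10 * q) * (4 * (2 * Real.exp (q / 2)) / γ) / Real.exp (10 * q) *
          (2 * Real.exp (11 / 2 * q))) := by
      have := sqrt24r q hr0.le hr2
      gcongr
    refine e1.trans ?_
    have e2 : 2 * (2 * Real.exp (21 / 10 * (q : ℝ)) * (4 * (2 * Real.exp (q / 2)) / γ) /
        Real.exp (10 * q) * (2 * Real.exp (11 / 2 * q))) =
        64 / γ * (Real.exp (21 / 10 * q) * Real.exp (q / 2) * (Real.exp (10 * q))⁻¹ *
          Real.exp (11 / 2 * q)) := by ring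
    rw [e2, ← Real.exp_neg, ← Real.exp_add, ← Real.exp_add, ← Real.exp_add]
    have e3 : Real.exp (21 / 10 * (q : ℝ) + q / 2 + -(10 * q) + 11 / 2 * q) ≤
        Real.exp (-(q / 2 : ℝ)) * Real.exp (-(q : ℝ)) := by
      rw [← Real.exp_add]
      exact Real.exp_le_exp.2 (by linarith)
    have e4 : 64 / γ * Real.exp (21 / 10 * (q : ℝ) + q / 2 + -(10 * q) + 11 / 2 * q) ≤
        64 / γ * (Real.exp (-(q / 2 : ℝ)) * Real.exp (-(q : ℝ))) :=
      mul_le_mul_of_nonneg_left e3 (by positivity)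
    refine e4.trans ?_
    have e5 : 64 / γ * (Real.exp (-(q / 2 : ℝ)) * Real.exp (-(q : ℝ))) =
        Real.exp (-(q / 2 : ℝ)) * (64 / γ * Real.exp (-(q : ℝ))) := by ring
    rw [e5]
    exact mul_le_mul hδq h1.le (by positivity) hδ0.le
  -- the last term
  have fD : Real.sqrt (2 ^ (3 * q) / (b : ℝ) ^ k) ≤ δ * (γ / 16) := by
    rw [Real.sqrt_le_left (by positivity)]
    have k2 : Real.exp (5 * q) ≤ (b : ℝ) ^ k := by
      refine le_trans ?_ (pow_le_pow_left₀ (Real.exp_pos _).le hb3 k)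
      rw [← Real.exp_nat_mul]
      apply Real.exp_le_exp.2
      have g5 : (5 : ℝ) * q = 5 / β' * (β' * q) := by
        field_simp
      rw [g5, mul_comm (k : ℝ)]
      exact mul_le_mul_of_nonneg_left hk (by positivity)
    have k3 : (2 : ℝ) ^ (3 * q) / (b : ℝ) ^ k ≤ Real.exp (21 / 10 * q) / Real.exp (5 * q) := by
      gcongr
    refine k3.trans ?_
    have k4 : Real.exp (21 / 10 * q) / Real.exp (5 * q) ≤
        Real.exp (-(q / 2 : ℝ)) ^ 2 * Real.exp (-(q : ℝ)) := by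
      rw [← Real.exp_sub, ← Real.exp_nat_mul, ← Real.exp_add]
      apply Real.exp_le_exp.2
      push_cast
      linarith
    refine k4.trans ?_
    have k5 : (δ * (γ / 16)) ^ 2 = δ ^ 2 * (γ ^ 2 / 256) := by ring
    rw [k5]
    exact mul_le_mul (pow_le_pow_left₀ (Real.exp_pos _).le hδq 2) h1'.le (Real.exp_pos _).le
      (by positivity)
  refine ⟨by linarith, ?_⟩
  have fC : δ * (2 * 2 ^ (3 * q) / lam ^ (d + 1) * Real.sqrt (24 ^ (3 * q))) ≤ δ * (γ / 16) :=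
    mul_le_mul_of_nonneg_left fA hδ0.le
  have hpos : 0 < δ * γ := by positivity
  linarith

end h44

/-- U8: the numbers -/
theorem numbers4 (β' γ : ℝ) (hβ : 0 < β') (hγ : 0 < γ) (hγ1 : γ ≤ 1) (q₀ b₀ : ℕ) :
    ∃ (lam c : ℝ) (b : ℕ), 1 < lam ∧ 0 < c ∧ 0 < b ∧ b₀ ≤ b ∧ lam ^ 8 ≤ 4 * b ∧
      ∃ n₀ : ℕ, ∀ n : ℕ, n₀ ≤ n → ∃ q : ℕ, q₀ ≤ q ∧ 0 < q ∧ (3 * q) * b ≤ n ∧ 32 ≤ β' * q ∧
      Real.exp (-(c * n)) ≤ 1 / 8 ∧
      ∀ d k r : ℕ, β' * q ≤ d + 1 → β' * q ≤ k → 0 < r → (r : ℝ) ≤ Real.exp (c * n) + 1 →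
        2 * 2 ^ (3 * q) / lam ^ (d + 1) * Real.sqrt (24 ^ (3 * q)) ≤ γ / 2 ∧
        2 * (2 * 2 ^ (3 * q) * (4 * r / γ) / lam ^ (d + 1) * Real.sqrt (24 ^ (3 * q) * r))
          + Real.exp (-(c * n)) * (2 * 2 ^ (3 * q) / lam ^ (d + 1) * Real.sqrt (24 ^ (3 * q)))
          + Real.exp (-(c * n)) * γ / 8 + Real.sqrt (2 ^ (3 * q) / (b : ℝ) ^ k)
          < Real.exp (-(c * n)) * γ / 2 := by
  obtain ⟨lam, b, h1, h2, h3, h4, q₁, h5⟩ := h44.in_q4 β' γ hβ hγ hγ1 q₀ b₀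
  have hb0 : (0 : ℝ) < b := by exact_mod_cast h2
  refine ⟨lam, 1 / (12 * b), b, h1, by positivity, h2, h3, h4, 3 * b * (q₁ + 1), fun n hn => ?_⟩
  have hb3 : 0 < 3 * b := by omega
  set q : ℕ := n / (3 * b) with hq
  have hq1 : 3 * b * q ≤ n := Nat.mul_div_le n (3 * b)
  have hq2 : n < 3 * b * (q + 1) := by
    have := Nat.lt_mul_div_succ n hb3
    rw [← hq] at this
    exact this
  have hqq : q₁ ≤ q := by
    by_contra hc
    push Not at hc
    have h6 : 3 * b * (q + 1) ≤ 3 * b * (q₁ + 1) := Nat.mul_le_mul_left _ (by omega)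
    omega
  obtain ⟨g1, g2, g3, g4⟩ := h5 q hqq
  have hq12 : (12 : ℝ) ≤ q := by exact_mod_cast g2
  have hlo : 3 * (q : ℝ) ≤ 1 / (12 * b) * n * 12 := by
    have h6 : (3 * (b : ℝ) * q) ≤ n := by exact_mod_cast hq1
    have h7 : 1 / (12 * (b : ℝ)) * n * 12 = n / b := by
      field_simp
    rw [h7, le_div_iff₀ hb0]
    linarith
  have hhi : 1 / (12 * b) * (n : ℝ) * 12 ≤ 3 * (q + 1) := by
    have h6 : (n : ℝ) ≤ 3 * b * (q + 1) := by exact_mod_cast hq2.le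
    have h7 : 1 / (12 * (b : ℝ)) * n * 12 = n / b := by
      field_simp
    rw [h7, div_le_iff₀ hb0]
    linarith
  refine ⟨q, g1, by omega, ?_, g3, ?_, fun d k r hd hk hr hr2 => ?_⟩
  · calc 3 * q * b = 3 * b * q := by ring
      _ ≤ n := hq1
  · have e1 : Real.exp (-(1 / (12 * b) * n)) ≤ Real.exp (-3) := by
      apply Real.exp_le_exp.2
      linarith
    refine e1.trans ?_
    have e2 : (2 : ℝ) ≤ Real.exp 1 := by
      have := Real.add_one_le_exp (1 : ℝ)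
      linarith
    have e3 : (8 : ℝ) ≤ Real.exp 3 := by
      have e4 : Real.exp 3 = Real.exp 1 ^ 3 := by
        rw [← Real.exp_nat_mul]
        norm_num
      rw [e4]
      calc (8 : ℝ) = 2 ^ 3 := by norm_num
        _ ≤ Real.exp 1 ^ 3 := pow_le_pow_left₀ (by norm_num) e2 3
    rw [Real.exp_neg, one_div]
    exact inv_anti₀ (by norm_num) e3
  · refine g4 (1 / (12 * b) * n) (by linarith) d k r hd hk hr (hr2.trans ?_)
    have e2 : Real.exp (1 / (12 * b) * n) ≤ Real.exp (q / 2) := by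
      apply Real.exp_le_exp.2
      linarith
    have e3 : 1 ≤ Real.exp ((q : ℝ) / 2) := Real.one_le_exp (by positivity)
    linarith

end LIFT
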