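import Pool.Agent.LIFT.Defs
import Pool.Agent.Helper8.LIFT.RandXor

/-!
# LIFT, row R12: random XOR instances
-/

set_option autoImplicit false

open scoped BigOperators Matrix Kronecker

namespace LIFT

theorem exists_instance (ε : ℝ) (hε : 0 < ε) :
    ∃ Δ : ℕ, 0 < Δ ∧ ∃ β > (0 : ℝ), ∃ q₀ : ℕ, ∀ q : ℕ, q₀ ≤ q →
      ∃ (a : Fin (Δ * q) → Fin 3 → Fin q) (s : Fin (Δ * q) → Bool),
        (∀ y : Fin 3 × Fin q → Bool,
          (((Finset.univ : Finset (Fin (Δ * q))).filter fun e =>
            ∏ t : Fin 3, SDX.sg (y (t, a e t)) = SDX.sg (s e)).card : ℝ)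
              ≤ (1 / 2 + ε) * (Δ * q)) ∧
        ∀ C : Finset (Fin (Δ * q)), C.Nonempty → (C.card : ℝ) ≤ β * q →
          (C.card : ℝ) / 4 ≤ (((Finset.univ : Finset (Fin 3 × Fin q)).filter fun v =>
            Odd (C.filter fun e => a e v.1 = v.2).card).card : ℝ) := by
  classical
  obtain ⟨D, hD⟩ := exists_nat_gt (3 * Real.log 2 / (2 * ε ^ 2))
  have hD0 : 0 < D := by
    rcases Nat.eq_zero_or_pos D with h | h
    · exfalso
      rw [h] at hD
      have : 0 < 3 * Real.log 2 / (2 * ε ^ 2) :=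
        div_pos (mul_pos (by norm_num) (Real.log_pos (by norm_num))) (by positivity)
      push_cast at hD
      linarith
    · exact h
  have hD1 : (0 : ℝ) < D := by exact_mod_cast hD0
  set δ : ℝ := 1 / (8 * Real.exp 3 * D) with hδ
  have hδ0 : 0 < δ := by positivity
  have hδD : 8 * Real.exp 3 * D * δ ≤ 1 := by
    rw [hδ, mul_one_div_cancel (by positivity)]
  refine ⟨D, hD0, δ ^ 4, by positivity, 1, fun q hq => ?_⟩
  have hq' : (0 : ℝ) < q := by exact_mod_cast hq
  obtain ⟨F, hF⟩ := SDX.h8.expand_exists D q (D * q) δ hD0 hq hδ0 hδD ⌊δ ^ 4 * q⌋₊ (by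
    have := Nat.floor_le (a := δ ^ 4 * (q : ℝ)) (by positivity)
    have : 0 < δ ^ 4 * q := by positivity
    linarith) (Nat.mul_le_mul_left D (by omega))
  obtain ⟨s, hs⟩ := SDX.h8.signs_exist (SDX.h8.tri F) ε hε (by
    rw [Fintype.card_fin, Fintype.card_prod, Fintype.card_fin, Fintype.card_fin]
    rw [div_lt_iff₀ (by positivity)] at hD
    push_cast
    have := mul_lt_mul_of_pos_left hD hq'
    nlinarith)
  refine ⟨F, s, fun y => ?_, fun C hC hCc => ?_⟩
  · have h1 := hs y
    rw [Fintype.card_fin] at h1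
    have h2 : ∀ e, SDX.chr (SDX.h8.tri F e) y = ∏ t : Fin 3, SDX.sg (y (t, F e t)) := fun e => by
      simp [SDX.chr, SDX.h8.tri, Finset.prod_map]
    simp only [h2] at h1
    push_cast at h1
    convert h1 using 3
  · have h1 := hF C (Nat.le_floor hCc)
    have h2 : SDX.bsum (SDX.h8.tri F) C = (Finset.univ : Finset (Fin 3 × Fin q)).filter fun v =>
        Odd (C.filter fun e => F e v.1 = v.2).card := by
      ext v
      rw [SDX.h8.mem_bsum, Finset.mem_filter]
      simp only [SDX.h8.mem_tri, Finset.mem_univ, true_and]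
    rw [h2] at h1
    have h3 : (C.card : ℝ) ≤ 2 * (((Finset.univ : Finset (Fin 3 × Fin q)).filter fun v =>
        Odd (C.filter fun e => F e v.1 = v.2).card).card : ℝ) := by exact_mod_cast h1
    have h4 : (0 : ℝ) ≤ C.card := Nat.cast_nonneg _
    linarith

end LIFT
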