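import Pool.Agent.LIFT.Core4

/-!
# LIFT, row U6: rectangles (`core4` with matrices of size one)
-/

set_option autoImplicit false

open scoped BigOperators Matrix Kronecker

namespace LIFT

theorem rect4 {m b d : ℕ} (hb : 0 < b) (lam κ : ℝ) (hlam : 1 < lam) (hlb : lam ^ 8 ≤ 4 * b)
    (hκ : 0 < κ) (D : (Fin m → Bool) → ℝ) (hD : ∀ y, |D y| ≤ κ)
    (hpd : ∀ g ∈ SDX.Deg (Fin m) d, 0 ≤ ∑ y, D y * g y ^ 2)
    (u : (Fin m × Fin b → Bool) → ℝ) (hu : ∀ x, 0 ≤ u x ∧ u x ≤ 1)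
    (v : (Fin m → Fin b) → ℝ) (hv : ∀ S, 0 ≤ v S ∧ v S ≤ 1) :
    -((b : ℝ) ^ m * 2 ^ (m * b) * (2 * κ / lam ^ (d + 1) * Real.sqrt (24 ^ m)))
      ≤ ∑ S, ∑ x, v S * (u x * D (SDX.rs S x)) := by
  have hps : ∀ a : ℝ, 0 ≤ a → (a • (1 : Matrix (Fin 1) (Fin 1) ℝ)).PosSemidef := fun a ha =>
    Matrix.PosSemidef.one.smul ha
  have htr : ∀ a : ℝ, (a • (1 : Matrix (Fin 1) (Fin 1) ℝ)).trace = a := fun a => by
    rw [Matrix.trace_smul, Matrix.trace_one]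
    simp
  have h := core4 (r := 1) hb lam κ 1 hlam hlb hκ one_pos D hD hpd
    (fun S => v S • (1 : Matrix (Fin 1) (Fin 1) ℝ)) (fun S => hps _ (hv S).1)
    (fun S => by
      rw [← sub_smul]
      exact hps _ (sub_nonneg.2 (hv S).2))
    (fun x => u x • (1 : Matrix (Fin 1) (Fin 1) ℝ)) (fun x => hps _ (hu x).1) 1
    (fun x => by
      rw [htr]
      exact (hu x).2)
  have e1 : ∑ x, ∑ S, D (SDX.rs S x) * ((v S • (1 : Matrix (Fin 1) (Fin 1) ℝ)) *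
      (u x • (1 : Matrix (Fin 1) (Fin 1) ℝ))).trace =
      ∑ S, ∑ x, v S * (u x * D (SDX.rs S x)) := by
    rw [Finset.sum_comm]
    refine Finset.sum_congr rfl fun S _ => Finset.sum_congr rfl fun x _ => ?_
    rw [Matrix.smul_mul, Matrix.one_mul, smul_smul, htr]
    ring
  rw [e1] at h
  simpa using h

end LIFT
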