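import Pool.Agent.LIFT.Defs
import Pool.Agent.Helper8.LIFT.PseudoXor

/-!
# LIFT, row V11': the pseudo-density of an expanding XOR instance, with the invariance of its
low coefficients
-/

set_option autoImplicit false

open scoped BigOperators Matrix Kronecker

namespace LIFT

namespace h8

theorem xpd_inv {m M t w d : ℕ} {A : Fin M → Finset (Fin m)} (s : Fin M → Bool)
    (ht : 1 ≤ t) (hA : ∀ e, (A e).card = 3) (hG : SDX.h8.Good A t d)
    (h2 : ∀ C : Finset (Fin M), C.card ≤ 2 * t → (SDX.bsum A C).card ≤ w → C.card ≤ t)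
    (e : Fin M) (B : Finset (Fin m)) (hB : B.card + 3 ≤ w) :
    SDX.coef (symmDiff B (A e)) (SDX.xpd t A s) = SDX.sg (s e) * SDX.coef B (SDX.xpd t A s) := by
  have hsg : SDX.chr {e} s = SDX.sg (s e) := by simp [SDX.chr]
  have key : ∀ β γ : Finset (Fin m), γ = symmDiff β (A e) → γ.card ≤ w →
      SDX.coef β (SDX.xpd t A s) ≠ 0 →
      SDX.coef γ (SDX.xpd t A s) = SDX.sg (s e) * SDX.coef β (SDX.xpd t A s) := by
    intro β γ hγ hγc hβ
    obtain ⟨J, hJ, hJβ⟩ := SDX.h8.exists_of_coef_xpd hβ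
    have h1 : SDX.bsum A (symmDiff J {e}) = γ := by
      rw [SDX.h8.bsum_symmDiff, SDX.h8.bsum_singleton, hJβ, hγ]
    have h3 : (symmDiff J {e}).card ≤ t + 1 := by
      have := SDX.h8.card_symmDiff_le J {e}
      rw [Finset.card_singleton] at this
      omega
    have h4 := h2 (symmDiff J {e}) (by omega) (by rw [h1]; exact hγc)
    rw [SDX.h8.coef_xpd_of hG s h4 h1, SDX.h8.coef_xpd_of hG s hJ hJβ, ← SDX.h71.chr_mul, hsg,
      mul_comm]
  have hc : (symmDiff B (A e)).card ≤ w := by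
    have := SDX.h8.card_symmDiff_le B (A e)
    have := hA e
    omega
  by_cases h : SDX.coef B (SDX.xpd t A s) = 0
  · rw [h, mul_zero]
    by_contra hne
    have h3 := key (symmDiff B (A e)) B (by rw [symmDiff_symmDiff_cancel_right]) (by omega) hne
    rw [h] at h3
    have h4 : SDX.sg (s e) ≠ 0 := by
      rcases SDX.h71.sg_cases (s e) with h | h <;> rw [h] <;> norm_num
    exact (mul_ne_zero h4 hne) h3.symm
  · exact key B _ rfl hc h

end h8

theorem xor_pd3 {m M t w d : ℕ} (A : Fin M → Finset (Fin m)) (s : Fin M → Bool)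
    (ht : 1 ≤ t) (hw : 3 ≤ w) (hd : 2 * d ≤ w) (hA : ∀ e, (A e).card = 3)
    (h1 : ∀ C : Finset (Fin M), C.Nonempty → C.card ≤ 2 * t → (odd A C).Nonempty)
    (h2 : ∀ C : Finset (Fin M), t < C.card → C.card ≤ 2 * t → w < (odd A C).card) :
    ∃ D : (Fin m → Bool) → ℝ, (∀ B, |SDX.coef B D| ≤ 1) ∧ (∀ y, |D y| ≤ 2 ^ m) ∧
      SDX.coef ∅ D = 1 ∧
      (∀ e B, B.card + 3 ≤ w → SDX.coef (symmDiff B (A e)) D = SDX.sg (s e) * SDX.coef B D) ∧
      ∀ g ∈ SDX.Deg (Fin m) d, 0 ≤ ∑ y, D y * g y ^ 2 := by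
  have hgap : ∀ C : Finset (Fin M), C.card ≤ 2 * t → (SDX.bsum A C).card ≤ w → C.card ≤ t := by
    intro C hC h
    by_contra hcon
    have h3 := h2 C (not_le.1 hcon) hC
    change w < (SDX.bsum A C).card at h3
    omega
  have hG : SDX.h8.Good A t d :=
    { inj := fun J hJ hne => h1 J hne hJ
      gap := fun J hJ h => hgap J hJ (h.trans hd) }
  refine ⟨SDX.xpd t A s, SDX.xpd_coef_le hG s, fun y => ?_, SDX.xpd_coef_empty hG s,
    fun e B hB => h8.xpd_inv s ht hA hG hgap e B hB, fun g hg => SDX.xpd_sq hG s hg⟩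
  have := SDX.xpd_bd hG s y
  rwa [Fintype.card_fin] at this

end LIFT
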