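import Mathlib

/-! # LIFT, row U10: averaging over the relaxations, with respect to a signed measure `mu` -/

set_option autoImplicit false

open scoped BigOperators

namespace LIFT

/-- A random relaxation which is good on average contains a small relaxation with a large
rectangle with respect to the signed measure `mu`. -/
theorem average4 {Ω X Y : Type} [Fintype Ω] [Fintype X] [Fintype Y] [DecidableEq X]
    [DecidableEq Y] [Nonempty X] [Nonempty Y] (p s : Ω → ℝ) (hp : ∀ ω, 0 ≤ p ω)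
    (hp1 : ∑ ω, p ω = 1) (hs : ∀ ω, 0 ≤ s ω) (mu : Y → X → ℝ) (T : ℝ) (hT : 0 < T) (γ η α a N : ℝ)
    (hγ : 0 < γ) (hγη : γ ≤ η / 4) (hη1 : γ ≤ 1) (ha : 0 < a) (hN : ∑ ω, p ω * s ω ≤ N)
    (hNa : N / a ≤ η / 8) (hrow : ∀ y, ∑ x, mu y x = T)
    (hpos : ∀ (u : X → ℝ) (v : Y → ℝ), (∀ x, 0 ≤ u x ∧ u x ≤ 1) → (∀ y, 0 ≤ v y ∧ v y ≤ 1) →
      -(γ / 2 * (Fintype.card Y * T)) ≤ ∑ y, ∑ x, v y * (u x * mu y x))
    (𝒳 : Ω → Finset X) (𝒮 : Ω → Finset Y)
    (h𝒳 : ∀ x, α ≤ ∑ ω, if x ∈ 𝒳 ω then p ω else 0)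
    (h𝒮 : (1 - α + η) * Fintype.card Y ≤ ∑ ω, p ω * ((𝒮 ω).card : ℝ)) :
    ∃ ω, s ω ≤ a ∧ γ * (Fintype.card Y * T) ≤ ∑ y ∈ 𝒮 ω, ∑ x ∈ 𝒳 ω, mu y x := by
  classical
  have hη : 0 < η := by linarith
  have hcY : (0 : ℝ) < Fintype.card Y := by exact_mod_cast Fintype.card_pos
  have hW : (0 : ℝ) < Fintype.card Y * T := mul_pos hcY hT
  -- the bilinear form
  let B : (X → ℝ) → (Y → ℝ) → ℝ := fun u v => ∑ y, ∑ x, v y * (u x * mu y x)
  let ux : Ω → X → ℝ := fun ω x => if x ∈ 𝒳 ω then 1 else 0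
  let vy : Ω → Y → ℝ := fun ω y => if y ∈ 𝒮 ω then 1 else 0
  have hux : ∀ ω x, 0 ≤ ux ω x ∧ ux ω x ≤ 1 := by
    intro ω x
    simp only [ux]
    split_ifs <;> norm_num
  have hvy : ∀ ω y, 0 ≤ vy ω y ∧ vy ω y ≤ 1 := by
    intro ω y
    simp only [vy]
    split_ifs <;> norm_num
  have hZ : ∀ ω, ∑ y ∈ 𝒮 ω, ∑ x ∈ 𝒳 ω, mu y x = B (ux ω) (vy ω) := by
    intro ω
    simp only [B, ux, vy]
    rw [← Finset.sum_filter_add_sum_filter_not Finset.univ (fun y => y ∈ 𝒮 ω)]
    have h1 : ∑ y ∈ Finset.univ.filter (fun y => ¬ y ∈ 𝒮 ω), ∑ x,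
        (if y ∈ 𝒮 ω then (1 : ℝ) else 0) * ((if x ∈ 𝒳 ω then (1 : ℝ) else 0) * mu y x) = 0 := by
      refine Finset.sum_eq_zero fun y hy => ?_
      rw [Finset.mem_filter] at hy
      simp [hy.2]
    rw [h1, add_zero]
    have h2 : Finset.univ.filter (fun y => y ∈ 𝒮 ω) = 𝒮 ω := by
      ext y
      simp
    rw [h2]
    refine Finset.sum_congr rfl fun y hy => ?_
    simp [hy]
  have hone : ∀ v : Y → ℝ, B (fun _ => 1) v = T * ∑ y, v y := by
    intro v
    simp only [B, one_mul]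
    rw [Finset.mul_sum]
    refine Finset.sum_congr rfl fun y _ => ?_
    rw [← Finset.mul_sum, hrow, mul_comm]
  have hcard : ∀ ω, ∑ y, vy ω y = ((𝒮 ω).card : ℝ) := by
    intro ω
    simp [vy]
  have hident : ∀ ω, B (ux ω) (vy ω) = B (fun _ => 1) (vy ω)
      - B (fun x => 1 - ux ω x) (fun _ => 1)
      + B (fun x => 1 - ux ω x) (fun y => 1 - vy ω y) := by
    intro ω
    simp only [B]
    rw [← Finset.sum_sub_distrib, ← Finset.sum_add_distrib]
    refine Finset.sum_congr rfl fun y _ => ?_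
    rw [← Finset.sum_sub_distrib, ← Finset.sum_add_distrib]
    refine Finset.sum_congr rfl fun x _ => ?_
    ring
  have hident2 : ∀ ω, B (ux ω) (vy ω) = B (fun _ => 1) (vy ω)
      - B (fun x => 1 - ux ω x) (vy ω) := by
    intro ω
    simp only [B]
    rw [← Finset.sum_sub_distrib]
    refine Finset.sum_congr rfl fun y _ => ?_
    rw [← Finset.sum_sub_distrib]
    refine Finset.sum_congr rfl fun x _ => ?_
    ring
  have hlow : ∀ ω, T * ((𝒮 ω).card : ℝ) - B (fun x => 1 - ux ω x) (fun _ => 1)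
      - γ / 2 * (Fintype.card Y * T) ≤ B (ux ω) (vy ω) := by
    intro ω
    have h1 := hpos (fun x => 1 - ux ω x) (fun y => 1 - vy ω y)
      (fun x => ⟨by linarith [(hux ω x).2], by linarith [(hux ω x).1]⟩)
      (fun y => ⟨by linarith [(hvy ω y).2], by linarith [(hvy ω y).1]⟩)
    rw [hident ω, hone, hcard]
    have h2 : -(γ / 2 * (Fintype.card Y * T)) ≤
      B (fun x => 1 - ux ω x) (fun y => 1 - vy ω y) := h1
    linarith
  have hupp : ∀ ω, B (ux ω) (vy ω) ≤ (1 + γ / 2) * (Fintype.card Y * T) := by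
    intro ω
    have h1 := hpos (fun x => 1 - ux ω x) (vy ω)
      (fun x => ⟨by linarith [(hux ω x).2], by linarith [(hux ω x).1]⟩) (hvy ω)
    rw [hident2 ω, hone, hcard]
    have h2 : -(γ / 2 * (Fintype.card Y * T)) ≤ B (fun x => 1 - ux ω x) (vy ω) := h1
    have h3 : ((𝒮 ω).card : ℝ) ≤ Fintype.card Y := by
      exact_mod_cast Finset.card_le_univ _
    have h4 : T * ((𝒮 ω).card : ℝ) ≤ T * Fintype.card Y := mul_le_mul_of_nonneg_left h3 hT.le
    linarith
  -- `α` is positive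
  have hα : 0 ≤ α := by
    have h1 : ∑ ω, p ω * ((𝒮 ω).card : ℝ) ≤ ∑ ω, p ω * (Fintype.card Y : ℝ) := by
      refine Finset.sum_le_sum fun ω _ => mul_le_mul_of_nonneg_left ?_ (hp ω)
      exact_mod_cast Finset.card_le_univ _
    rw [← Finset.sum_mul, hp1, one_mul] at h1
    have h2 : (1 - α + η) * (Fintype.card Y : ℝ) ≤ 1 * Fintype.card Y := by linarith
    have h3 := le_of_mul_le_mul_right h2 hcY
    linarith
  -- expectation of the complement
  have hP : ∀ x, ∑ ω, p ω * (1 - ux ω x) ≤ 1 - α := by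
    intro x
    have h1 : ∑ ω, p ω * (1 - ux ω x) = ∑ ω, p ω - ∑ ω, if x ∈ 𝒳 ω then p ω else 0 := by
      rw [← Finset.sum_sub_distrib]
      refine Finset.sum_congr rfl fun ω _ => ?_
      simp only [ux]
      split_ifs <;> ring
    rw [h1, hp1]
    linarith [h𝒳 x]
  have hP0 : ∀ x, 0 ≤ ∑ ω, p ω * (1 - ux ω x) := by
    intro x
    exact Finset.sum_nonneg fun ω _ => mul_nonneg (hp ω) (by linarith [(hux ω x).2])
  have hcompl : ∑ ω, p ω * B (fun x => 1 - ux ω x) (fun _ => 1)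
      ≤ (1 - α + γ / 2) * (Fintype.card Y * T) := by
    have h1 := hpos (fun x => 1 - α - ∑ ω, p ω * (1 - ux ω x)) (fun _ => 1)
      (fun x => ⟨by linarith [hP x], by linarith [hP0 x]⟩) (fun _ => ⟨zero_le_one, le_rfl⟩)
    have h2 : ∑ ω, p ω * B (fun x => 1 - ux ω x) (fun _ => 1)
        = B (fun x => ∑ ω, p ω * (1 - ux ω x)) (fun _ => 1) := by
      simp only [B, one_mul, Finset.mul_sum]
      rw [Finset.sum_comm]
      refine Finset.sum_congr rfl fun y _ => ?_
      rw [Finset.sum_comm]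
      refine Finset.sum_congr rfl fun x _ => ?_
      rw [Finset.sum_mul]
      refine Finset.sum_congr rfl fun ω _ => ?_
      ring
    have h3 : B (fun x => 1 - α - ∑ ω, p ω * (1 - ux ω x)) (fun _ => 1)
        = (1 - α) * B (fun _ => 1) (fun _ => 1)
          - B (fun x => ∑ ω, p ω * (1 - ux ω x)) (fun _ => 1) := by
      simp only [B, Finset.mul_sum]
      rw [← Finset.sum_sub_distrib]
      refine Finset.sum_congr rfl fun y _ => ?_
      rw [← Finset.sum_sub_distrib]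
      refine Finset.sum_congr rfl fun x _ => ?_
      ring
    have h4 : B (fun _ => 1) (fun _ => 1) = Fintype.card Y * T := by
      rw [hone]
      simp [mul_comm]
    have h5 : -(γ / 2 * (Fintype.card Y * T)) ≤
      B (fun x => 1 - α - ∑ ω, p ω * (1 - ux ω x)) (fun _ => 1) := h1
    rw [h3, h4, ← h2] at h5
    linarith
  have hE : (η - γ) * (Fintype.card Y * T) ≤ ∑ ω, p ω * B (ux ω) (vy ω) := by
    have h1 : ∑ ω, p ω * (T * ((𝒮 ω).card : ℝ) - B (fun x => 1 - ux ω x) (fun _ => 1)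
        - γ / 2 * (Fintype.card Y * T)) ≤ ∑ ω, p ω * B (ux ω) (vy ω) :=
      Finset.sum_le_sum fun ω _ => mul_le_mul_of_nonneg_left (hlow ω) (hp ω)
    have h2 : ∑ ω, p ω * (T * ((𝒮 ω).card : ℝ) - B (fun x => 1 - ux ω x) (fun _ => 1)
        - γ / 2 * (Fintype.card Y * T)) = T * ∑ ω, p ω * ((𝒮 ω).card : ℝ)
        - ∑ ω, p ω * B (fun x => 1 - ux ω x) (fun _ => 1)
        - (∑ ω, p ω) * (γ / 2 * (Fintype.card Y * T)) := by
      rw [Finset.mul_sum, Finset.sum_mul, ← Finset.sum_sub_distrib, ← Finset.sum_sub_distrib]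
      refine Finset.sum_congr rfl fun ω _ => ?_
      ring
    rw [h2, hp1] at h1
    have h3 := mul_le_mul_of_nonneg_left h𝒮 hT.le
    linarith
  -- the small relaxations
  have hbad : ∑ ω, (if a < s ω then p ω else 0) ≤ η / 8 := by
    refine le_trans ?_ hNa
    rw [le_div_iff₀ ha, Finset.sum_mul]
    refine le_trans (Finset.sum_le_sum fun ω _ => ?_) hN
    split_ifs with h
    · exact mul_le_mul_of_nonneg_left h.le (hp ω)
    · rw [zero_mul]
      exact mul_nonneg (hp ω) (hs ω)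
  by_contra hcon
  push Not at hcon
  have h6 : ∀ ω, B (ux ω) (vy ω)
      ≤ γ * (Fintype.card Y * T) + (if a < s ω then 3 / 2 * (Fintype.card Y * T) else 0) := by
    intro ω
    by_cases h : a < s ω
    · rw [if_pos h]
      have := hupp ω
      nlinarith [hW, hγ]
    · rw [if_neg h, add_zero, ← hZ ω]
      exact (hcon ω (not_lt.1 h)).le
  have h7 : ∑ ω, p ω * B (ux ω) (vy ω) ≤ γ * (Fintype.card Y * T)
      + 3 / 2 * (Fintype.card Y * T) * (η / 8) := by
    have h8 : ∑ ω, p ω * B (ux ω) (vy ω) ≤ ∑ ω, (p ω * (γ * (Fintype.card Y * T))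
        + 3 / 2 * (Fintype.card Y * T) * (if a < s ω then p ω else 0)) := by
      refine Finset.sum_le_sum fun ω _ => ?_
      have h9 := mul_le_mul_of_nonneg_left (h6 ω) (hp ω)
      refine h9.trans (le_of_eq ?_)
      split_ifs <;> ring
    rw [Finset.sum_add_distrib, ← Finset.sum_mul, hp1, one_mul, ← Finset.mul_sum] at h8
    have h10 : (0 : ℝ) ≤ 3 / 2 * (Fintype.card Y * T) := by positivity
    have h11 := mul_le_mul_of_nonneg_left hbad h10
    linarith
  have h12 : (η - γ) * (Fintype.card Y * T) ≤ (γ + 3 / 16 * η) * (Fintype.card Y * T) := by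
    linarith
  have h13 := le_of_mul_le_mul_right h12 hW
  linarith

end LIFT
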