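import Mathlib

/-! # LIFT, row U11: averaging a real function over the renamings -/

set_option autoImplicit false

open scoped BigOperators

namespace LIFT

/-- If the mean of `G` over all permutations of `Fin n` is at least `γ`, then for some `π₀` the
mean of `G (π₀ * σ S)` is at least `γ`, where `σ S` exchanges `(j, 0)` and `(j, S j)` in each
block `j`. -/
theorem avg_perm4 {n m b : ℕ} (hb : 0 < b) (e : Fin m × Fin b ↪ Fin n)
    (G : Equiv.Perm (Fin n) → ℝ) (γ : ℝ)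
    (h : γ * (n.factorial : ℝ) ≤ ∑ π : Equiv.Perm (Fin n), G π) :
    ∃ (π₀ : Equiv.Perm (Fin n)) (σ : (Fin m → Fin b) → Equiv.Perm (Fin n)),
      (∀ S j, σ S (e (j, ⟨0, hb⟩)) = e (j, S j)) ∧ γ * (b : ℝ) ^ m ≤ ∑ S, G (π₀ * σ S) := by
  classical
  let τ : (Fin m → Fin b) → Equiv.Perm (Fin m × Fin b) := fun S =>
    Equiv.prodShear (Equiv.refl (Fin m)) fun j => Equiv.swap ⟨0, hb⟩ (S j)
  let σ : (Fin m → Fin b) → Equiv.Perm (Fin n) := fun S => (τ S).viaEmbedding e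
  have hσ : ∀ S j, σ S (e (j, ⟨0, hb⟩)) = e (j, S j) := by
    intro S j
    change (τ S).viaEmbedding e (e (j, ⟨0, hb⟩)) = e (j, S j)
    rw [Equiv.Perm.viaEmbedding_apply]
    simp [τ, Equiv.prodShear]
  by_contra hcon
  push Not at hcon
  have hlt : ∀ π₀ : Equiv.Perm (Fin n), ∑ S, G (π₀ * σ S) < γ * (b : ℝ) ^ m :=
    fun π₀ => hcon π₀ σ hσ
  have hsum : ∑ π₀ : Equiv.Perm (Fin n), ∑ S, G (π₀ * σ S)
        < ∑ _π₀ : Equiv.Perm (Fin n), γ * (b : ℝ) ^ m :=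
    Finset.sum_lt_sum_of_nonempty Finset.univ_nonempty fun π₀ _ => hlt π₀
  have hright : ∑ _π₀ : Equiv.Perm (Fin n), γ * (b : ℝ) ^ m
      = (n.factorial : ℝ) * (γ * (b : ℝ) ^ m) := by
    rw [Finset.sum_const, Finset.card_univ, Fintype.card_perm, Fintype.card_fin, nsmul_eq_mul]
  have hleft : ∑ π₀ : Equiv.Perm (Fin n), ∑ S, G (π₀ * σ S)
        = (b : ℝ) ^ m * ∑ π : Equiv.Perm (Fin n), G π := by
    have h2 : ∀ S : Fin m → Fin b,
        ∑ π₀ : Equiv.Perm (Fin n), G (π₀ * σ S) = ∑ π : Equiv.Perm (Fin n), G π := by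
      intro S
      exact Equiv.sum_comp (Equiv.mulRight (σ S)) G
    rw [Finset.sum_comm, Finset.sum_congr rfl fun S _ => h2 S, Finset.sum_const, Finset.card_univ,
      nsmul_eq_mul]
    simp
  rw [hleft, hright] at hsum
  have hb' : (0 : ℝ) ≤ (b : ℝ) ^ m := by positivity
  have h3 := mul_le_mul_of_nonneg_left h hb'
  nlinarith [h3, hsum]

end LIFT
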