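import Mathlib

/-!
# LIFT: averaging over the relaxations (row F2; the lemma of helper97's hand-in
SemidefiniteRelaxations)
-/

set_option autoImplicit false

open scoped BigOperators

namespace LIFT

/-- A random relaxation which is good on average contains a small relaxation with both
properties. -/
theorem average {Ω : Type} [Fintype Ω] (p s u v : Ω → ℝ) (hp : ∀ ω, 0 ≤ p ω)
    (hp1 : ∑ ω, p ω = 1) (hs : ∀ ω, 0 ≤ s ω) (hu1 : ∀ ω, u ω ≤ 1) (hv1 : ∀ ω, v ω ≤ 1)
    (a M η γ : ℝ) (ha : 0 < a) (hM : ∑ ω, p ω * s ω ≤ M) (hMa : M / a ≤ η / 4)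
    (hγ : γ ≤ η / 2) (hγ0 : 0 ≤ γ)
    (huv : 1 + η ≤ ∑ ω, p ω * u ω + ∑ ω, p ω * v ω) :
    ∃ ω, s ω ≤ a ∧ γ ≤ u ω ∧ γ ≤ v ω := by
  classical
  by_contra hcon
  push Not at hcon
  have hbad : ∑ ω, (if a < s ω then p ω else 0) ≤ η / 4 := by
    refine le_trans ?_ hMa
    rw [le_div_iff₀ ha, Finset.sum_mul]
    refine le_trans (Finset.sum_le_sum fun ω _ => ?_) hM
    split_ifs with h
    · exact mul_le_mul_of_nonneg_left h.le (hp ω)
    · rw [zero_mul]
      exact mul_nonneg (hp ω) (hs ω)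
  have h3 : ∀ ω, u ω + v ω ≤ 1 + γ + (if a < s ω then 1 else 0) := by
    intro ω
    by_cases h : a < s ω
    · rw [if_pos h]
      linarith [hu1 ω, hv1 ω]
    · rw [if_neg h]
      by_cases h' : γ ≤ u ω
      · linarith [hcon ω (not_lt.1 h) h', hu1 ω]
      · push Not at h'
        linarith [hv1 ω]
  have hex : ∃ ω, 0 < p ω ∧ s ω ≤ a := by
    by_contra hno
    push Not at hno
    have : ∀ ω, p ω ≤ (if a < s ω then p ω else 0) := by
      intro ω
      by_cases h : 0 < p ω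
      · rw [if_pos (hno ω h)]
      · push Not at h
        split_ifs
        · exact le_rfl
        · exact h
    have h4 : (1 : ℝ) ≤ η / 4 := by
      rw [← hp1]
      exact (Finset.sum_le_sum fun ω _ => this ω).trans hbad
    have h5 : ∑ ω, p ω * u ω + ∑ ω, p ω * v ω ≤ 2 := by
      have e1 : ∑ ω, p ω * u ω ≤ ∑ ω, p ω :=
        Finset.sum_le_sum fun ω _ => by nlinarith [hp ω, hu1 ω]
      have e2 : ∑ ω, p ω * v ω ≤ ∑ ω, p ω :=
        Finset.sum_le_sum fun ω _ => by nlinarith [hp ω, hv1 ω]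
      linarith
    linarith
  obtain ⟨ω₀, hω₀, hω₀s⟩ := hex
  have h6 : ∀ ω, s ω ≤ a → u ω + v ω < 1 + γ := by
    intro ω h
    by_cases h' : γ ≤ u ω
    · linarith [hcon ω h h', hu1 ω]
    · push Not at h'
      linarith [hv1 ω]
  have h4 : ∑ ω, p ω * (u ω + v ω)
      < ∑ ω, (p ω * (1 + γ) + (if a < s ω then p ω else 0)) := by
    refine Finset.sum_lt_sum (fun ω _ => ?_) ⟨ω₀, Finset.mem_univ _, ?_⟩
    · have h5 := mul_le_mul_of_nonneg_left (h3 ω) (hp ω)
      refine h5.trans (le_of_eq ?_)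
      split_ifs <;> ring
    · rw [if_neg (not_lt.2 hω₀s), add_zero]
      exact mul_lt_mul_of_pos_left (h6 ω₀ hω₀s) hω₀
  rw [Finset.sum_add_distrib, ← Finset.sum_mul, hp1, one_mul] at h4
  simp only [mul_add, Finset.sum_add_distrib] at h4
  have hη : 0 ≤ η := by linarith
  linarith

end LIFT
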