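import Mathlib

/-! # LIFT, row F1: averaging over the renamings (helper93) -/

set_option autoImplicit false

open scoped BigOperators

namespace LIFT

open Classical in
/-- If a fraction `γ` of all permutations of `Fin n` is good, then for some `π₀` a fraction `γ` of
the permutations `π₀ * σ S` is good, where `σ S` exchanges `(j, 0)` and `(j, S j)` in each
block `j`. -/
theorem avg_perm {n m b : ℕ} (hb : 0 < b) (e : Fin m × Fin b ↪ Fin n)
    (Good : Equiv.Perm (Fin n) → Prop) (γ : ℝ)
    (h : γ * (n.factorial : ℝ)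
      ≤ ((Finset.univ : Finset (Equiv.Perm (Fin n))).filter fun π => Good π).card) :
    ∃ (π₀ : Equiv.Perm (Fin n)) (σ : (Fin m → Fin b) → Equiv.Perm (Fin n)),
      (∀ S j, σ S (e (j, ⟨0, hb⟩)) = e (j, S j)) ∧
      γ * (b : ℝ) ^ m ≤ ((Finset.univ : Finset (Fin m → Fin b)).filter fun S =>
        Good (π₀ * σ S)).card := by
  let τ : (Fin m → Fin b) → Equiv.Perm (Fin m × Fin b) := fun S =>
    Equiv.prodShear (Equiv.refl (Fin m)) fun j => Equiv.swap ⟨0, hb⟩ (S j)
  let σ : (Fin m → Fin b) → Equiv.Perm (Fin n) := fun S => (τ S).viaEmbedding e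
  have hσ : ∀ S j, σ S (e (j, ⟨0, hb⟩)) = e (j, S j) := by
    intro S j
    change (τ S).viaEmbedding e (e (j, ⟨0, hb⟩)) = e (j, S j)
    rw [Equiv.Perm.viaEmbedding_apply]
    simp [τ, Equiv.prodShear]
  by_contra hcon
  push Not at hcon
  have hlt : ∀ π₀ : Equiv.Perm (Fin n),
      (((Finset.univ : Finset (Fin m → Fin b)).filter fun S => Good (π₀ * σ S)).card : ℝ)
        < γ * (b : ℝ) ^ m := fun π₀ => hcon π₀ σ hσ
  have hsum : ∑ π₀ : Equiv.Perm (Fin n),
      (((Finset.univ : Finset (Fin m → Fin b)).filter fun S => Good (π₀ * σ S)).card : ℝ)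
        < ∑ _π₀ : Equiv.Perm (Fin n), γ * (b : ℝ) ^ m :=
    Finset.sum_lt_sum_of_nonempty Finset.univ_nonempty fun π₀ _ => hlt π₀
  have hright : ∑ _π₀ : Equiv.Perm (Fin n), γ * (b : ℝ) ^ m
      = (n.factorial : ℝ) * (γ * (b : ℝ) ^ m) := by
    rw [Finset.sum_const, Finset.card_univ, Fintype.card_perm, Fintype.card_fin, nsmul_eq_mul]
  have hleft : ∑ π₀ : Equiv.Perm (Fin n),
      (((Finset.univ : Finset (Fin m → Fin b)).filter fun S => Good (π₀ * σ S)).card : ℝ)
        = (b : ℝ) ^ m *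
          ((Finset.univ : Finset (Equiv.Perm (Fin n))).filter fun π => Good π).card := by
    have h1 : ∀ π₀ : Equiv.Perm (Fin n),
        (((Finset.univ : Finset (Fin m → Fin b)).filter fun S => Good (π₀ * σ S)).card : ℝ)
          = ∑ S : Fin m → Fin b, if Good (π₀ * σ S) then (1 : ℝ) else 0 := by
      intro π₀
      rw [Finset.sum_boole]
    have h2 : ∀ S : Fin m → Fin b,
        ∑ π₀ : Equiv.Perm (Fin n), (if Good (π₀ * σ S) then (1 : ℝ) else 0)
          = ((Finset.univ : Finset (Equiv.Perm (Fin n))).filter fun π => Good π).card := by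
      intro S
      rw [← Finset.sum_boole]
      exact Equiv.sum_comp (Equiv.mulRight (σ S)) fun π => if Good π then (1 : ℝ) else 0
    rw [Finset.sum_congr rfl fun π₀ _ => h1 π₀, Finset.sum_comm,
      Finset.sum_congr rfl fun S _ => h2 S, Finset.sum_const, Finset.card_univ, nsmul_eq_mul]
    simp
  rw [hleft, hright] at hsum
  have hb' : (0 : ℝ) ≤ (b : ℝ) ^ m := by positivity
  have h3 := mul_le_mul_of_nonneg_left h hb'
  nlinarith [h3, hsum]

end LIFT
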