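import Pool.Agent.LIFT.Defs
import Pool.Agent.Helper71.SDX.Cube

/-!
# LIFT, row R7: the base of the induction

Every function `g` on the cube is `lo + hi` with `lo` of degree at most `d` and
`|lo|² + lam^(2(d+1)) |hi|² ≤ W g`.
-/

set_option autoImplicit false

open scoped BigOperators Matrix Kronecker

namespace LIFT

namespace BaseAux

section W
variable {V V' : Type} [AddCommGroup V] [Module ℝ V] [AddCommGroup V'] [Module ℝ V']

theorem W_mono {lam : ℝ} {q q' : V → ℝ} (h : ∀ v, q v ≤ q' v) :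
    ∀ (m : ℕ) (g : (Fin m → Bool) → V), W lam q m g ≤ W lam q' m g
  | 0, _ => h _
  | m + 1, g => by
    simp only [W]
    exact add_le_add (W_mono h m _) (mul_le_mul_of_nonneg_left (W_mono h m _) (sq_nonneg _))

theorem W_comp {lam : ℝ} {q : V' → ℝ} (L : V →ₗ[ℝ] V') :
    ∀ (m : ℕ) (g : (Fin m → Bool) → V), W lam (fun v => q (L v)) m g = W lam q m (fun y => L (g y))
  | 0, _ => rfl
  | m + 1, g => by
    simp only [W]
    rw [W_comp L m, W_comp L m]
    simp only [map_smul, map_add, map_sub]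

theorem W_sum {lam : ℝ} {κ : Type} [Fintype κ] {q : κ → V → ℝ} :
    ∀ (m : ℕ) (g : (Fin m → Bool) → V), W lam (fun v => ∑ c, q c v) m g = ∑ c, W lam (q c) m g
  | 0, _ => rfl
  | m + 1, g => by
    simp only [W]
    rw [W_sum m, W_sum m, Finset.mul_sum, ← Finset.sum_add_distrib]

theorem W_smul {lam : ℝ} {q : V → ℝ} (c : ℝ) :
    ∀ (m : ℕ) (g : (Fin m → Bool) → V), W lam (fun v => c * q v) m g = c * W lam q m g
  | 0, _ => rfl
  | m + 1, g => by
    simp only [W]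
    rw [W_smul c m, W_smul c m]
    ring

end W

theorem sum_cons {m : ℕ} (F : (Fin (m + 1) → Bool) → ℝ) :
    ∑ y, F y = ∑ y : Fin m → Bool, (F (Fin.cons false y) + F (Fin.cons true y)) := by
  rw [← (Fin.consEquiv (fun _ => Bool)).sum_comp, Fintype.sum_prod_type, Fintype.sum_bool,
    ← Finset.sum_add_distrib]
  refine Finset.sum_congr rfl fun y _ => ?_
  rw [add_comm]
  rfl

theorem chr_map {m : ℕ} (α : Finset (Fin m)) (y : Fin (m + 1) → Bool) :
    SDX.chr (α.map (Fin.succEmb m)) y = SDX.chr α (Fin.tail y) := by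
  unfold SDX.chr
  rw [Finset.prod_map]
  rfl

theorem tail_mem {m d : ℕ} {f : (Fin m → Bool) → ℝ} (hf : f ∈ SDX.Deg (Fin m) d) :
    (fun y : Fin (m + 1) → Bool => f (Fin.tail y)) ∈ SDX.Deg (Fin (m + 1)) d := by
  refine Submodule.span_induction (p := fun f _ => (fun y : Fin (m + 1) → Bool => f (Fin.tail y)) ∈
    SDX.Deg (Fin (m + 1)) d) ?_ ?_ ?_ ?_ hf
  · rintro _ ⟨α, hα, rfl⟩
    refine Submodule.subset_span ⟨α.map (Fin.succEmb m), by rwa [Finset.card_map], ?_⟩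
    ext y
    rw [chr_map]
  · exact (SDX.Deg (Fin (m + 1)) d).zero_mem
  · intro f g _ _ h1 h2
    exact (SDX.Deg (Fin (m + 1)) d).add_mem h1 h2
  · intro a f _ h1
    exact (SDX.Deg (Fin (m + 1)) d).smul_mem a h1

theorem sg_tail_mem {m d : ℕ} {f : (Fin m → Bool) → ℝ} (hf : f ∈ SDX.Deg (Fin m) d) :
    (fun y : Fin (m + 1) → Bool => SDX.sg (y 0) * f (Fin.tail y)) ∈
      SDX.Deg (Fin (m + 1)) (d + 1) := by
  refine Submodule.span_induction (p := fun f _ => (fun y : Fin (m + 1) → Bool =>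
    SDX.sg (y 0) * f (Fin.tail y)) ∈ SDX.Deg (Fin (m + 1)) (d + 1)) ?_ ?_ ?_ ?_ hf
  · rintro _ ⟨α, hα, rfl⟩
    have h0 : (0 : Fin (m + 1)) ∉ α.map (Fin.succEmb m) := by
      simp
    refine Submodule.subset_span ⟨insert 0 (α.map (Fin.succEmb m)), ?_, ?_⟩
    · rw [Finset.card_insert_of_notMem h0, Finset.card_map]
      omega
    · ext y
      rw [← chr_map]
      unfold SDX.chr
      rw [Finset.prod_insert h0]
  · simp only [Pi.zero_apply, mul_zero]
    exact (SDX.Deg (Fin (m + 1)) (d + 1)).zero_mem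
  · intro f g _ _ h1 h2
    have := (SDX.Deg (Fin (m + 1)) (d + 1)).add_mem h1 h2
    convert this using 1
    ext y
    simp only [Pi.add_apply]
    ring
  · intro a f _ h1
    have := (SDX.Deg (Fin (m + 1)) (d + 1)).smul_mem a h1
    convert this using 1
    ext y
    simp only [Pi.smul_apply, smul_eq_mul]
    ring

/-- Pythagoras -/
theorem pyth {m : ℕ} (a b : (Fin m → Bool) → ℝ) :
    (∑ y : Fin (m + 1) → Bool, (a (Fin.tail y) + SDX.sg (y 0) * b (Fin.tail y)) ^ 2) / 2 ^ (m + 1) =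
      (∑ y, a y ^ 2) / 2 ^ m + (∑ y, b y ^ 2) / 2 ^ m := by
  have h : (∑ y : Fin (m + 1) → Bool, (a (Fin.tail y) + SDX.sg (y 0) * b (Fin.tail y)) ^ 2) =
      2 * (∑ y, a y ^ 2 + ∑ y, b y ^ 2) := by
    rw [sum_cons, ← Finset.sum_add_distrib, Finset.mul_sum]
    refine Finset.sum_congr rfl fun y _ => ?_
    simp only [Fin.tail_cons, Fin.cons_zero, SDX.sg, if_true, if_false, Bool.false_eq_true]
    ring
  rw [h, pow_succ]
  field_simp

theorem norm_le_W {lam : ℝ} (hlam : 1 ≤ lam) : ∀ (m : ℕ) (g : (Fin m → Bool) → ℝ),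
    (∑ y, g y ^ 2) / 2 ^ m ≤ W lam (fun v : ℝ => v ^ 2) m g
  | 0, g => by
    simp only [W, pow_zero, div_one]
    rw [Fintype.sum_unique]
    exact le_of_eq (by congr 2)
  | m + 1, g => by
    have h1 := norm_le_W hlam m (fun y => (1 / 2 : ℝ) • (g (Fin.cons false y) + g (Fin.cons true y)))
    have h2 := norm_le_W hlam m (fun y => (1 / 2 : ℝ) • (g (Fin.cons false y) - g (Fin.cons true y)))
    have h3 := pyth (fun y => (1 / 2 : ℝ) • (g (Fin.cons false y) + g (Fin.cons true y)))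
      (fun y => (1 / 2 : ℝ) • (g (Fin.cons false y) - g (Fin.cons true y)))
    have h4 : ∀ y : Fin (m + 1) → Bool, (1 / 2 : ℝ) • (g (Fin.cons false (Fin.tail y)) +
        g (Fin.cons true (Fin.tail y))) + SDX.sg (y 0) * ((1 / 2 : ℝ) •
          (g (Fin.cons false (Fin.tail y)) - g (Fin.cons true (Fin.tail y)))) = g y := by
      intro y
      have h5 : y = Fin.cons (y 0) (Fin.tail y) := (Fin.cons_self_tail y).symm
      conv_rhs => rw [h5]
      simp only [smul_eq_mul, SDX.sg]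
      cases y 0 <;> simp <;> ring
    simp only [h4] at h3
    rw [h3]
    simp only [W]
    have h6 : (0 : ℝ) ≤ W lam (fun v : ℝ => v ^ 2) m
        (fun y => (1 / 2 : ℝ) • (g (Fin.cons false y) - g (Fin.cons true y))) :=
      le_trans (by positivity) h2
    have h7 : (1 : ℝ) ≤ lam ^ 2 := one_le_pow₀ hlam
    nlinarith

/-- the decomposition into low and high degree -/
theorem dec {lam : ℝ} (hlam : 1 ≤ lam) : ∀ (m d : ℕ) (g : (Fin m → Bool) → ℝ),
    ∃ lo hi : (Fin m → Bool) → ℝ, (∀ y, g y = lo y + hi y) ∧ lo ∈ SDX.Deg (Fin m) d ∧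
      (∑ y, lo y ^ 2) / 2 ^ m + lam ^ (2 * (d + 1)) * ((∑ y, hi y ^ 2) / 2 ^ m) ≤
        W lam (fun v : ℝ => v ^ 2) m g
  | 0, d, g => by
    refine ⟨g, 0, fun y => by simp, ?_, ?_⟩
    · have h1 : g = g Fin.elim0 • SDX.chr (∅ : Finset (Fin 0)) := by
        ext y
        have h2 : y = Fin.elim0 := Subsingleton.elim _ _
        simp [SDX.chr, h2]
      rw [h1]
      exact (SDX.Deg (Fin 0) d).smul_mem _ (SDX.chr_mem_Deg (by simp))
    · simp only [W, pow_zero, div_one, Pi.zero_apply]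
      rw [Fintype.sum_unique, Fintype.sum_unique]
      simp only [ne_eq, OfNat.ofNat_ne_zero, not_false_eq_true, zero_pow, mul_zero, add_zero]
      exact le_of_eq (by congr 2)
  | m + 1, d, g => by
    have h4 : ∀ y : Fin (m + 1) → Bool, g y = (1 / 2 : ℝ) • (g (Fin.cons false (Fin.tail y)) +
        g (Fin.cons true (Fin.tail y))) + SDX.sg (y 0) * ((1 / 2 : ℝ) •
          (g (Fin.cons false (Fin.tail y)) - g (Fin.cons true (Fin.tail y)))) := by
      intro y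
      have h5 : y = Fin.cons (y 0) (Fin.tail y) := (Fin.cons_self_tail y).symm
      conv_lhs => rw [h5]
      simp only [smul_eq_mul, SDX.sg]
      cases y 0 <;> simp <;> ring
    obtain ⟨lo0, hi0, e0, m0, n0⟩ := dec hlam m d
      (fun y => (1 / 2 : ℝ) • (g (Fin.cons false y) + g (Fin.cons true y)))
    have h7 : (1 : ℝ) ≤ lam ^ 2 := one_le_pow₀ hlam
    rcases d with _ | d
    · refine ⟨fun y => lo0 (Fin.tail y), fun y => hi0 (Fin.tail y) + SDX.sg (y 0) *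
        ((fun y => (1 / 2 : ℝ) • (g (Fin.cons false y) - g (Fin.cons true y))) (Fin.tail y)),
        fun y => ?_, tail_mem m0, ?_⟩
      · rw [h4 y, e0 (Fin.tail y)]
        ring
      · set g1 : (Fin m → Bool) → ℝ :=
          fun y => (1 / 2 : ℝ) • (g (Fin.cons false y) - g (Fin.cons true y)) with hg1
        have p1 := pyth lo0 (fun _ => 0)
        simp only [mul_zero, add_zero, ne_eq, OfNat.ofNat_ne_zero, not_false_eq_true, zero_pow,
          Finset.sum_const_zero, zero_div] at p1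
        have p2 := pyth hi0 g1
        rw [p1, p2]
        have n1 := norm_le_W hlam m g1
        simp only [W]
        rw [← hg1]
        simp only [zero_add, mul_one] at n0 ⊢
        nlinarith
    · obtain ⟨lo1, hi1, e1, m1, n1⟩ := dec hlam m d
        (fun y => (1 / 2 : ℝ) • (g (Fin.cons false y) - g (Fin.cons true y)))
      refine ⟨fun y => lo0 (Fin.tail y) + SDX.sg (y 0) * lo1 (Fin.tail y),
        fun y => hi0 (Fin.tail y) + SDX.sg (y 0) * hi1 (Fin.tail y), fun y => ?_,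
        (SDX.Deg (Fin (m + 1)) (d + 1)).add_mem (tail_mem m0) (sg_tail_mem m1), ?_⟩
      · rw [h4 y, e0 (Fin.tail y), e1 (Fin.tail y)]
        ring
      · rw [pyth, pyth]
        simp only [W]
        have h8 : lam ^ (2 * (d + 1 + 1)) = lam ^ 2 * lam ^ (2 * (d + 1)) := by
          rw [← pow_add]
          congr 1
          ring
        have h9 : (0 : ℝ) ≤ (∑ y, lo1 y ^ 2) / 2 ^ m := by positivity
        have h10 := mul_le_mul_of_nonneg_left n1 (by positivity : (0 : ℝ) ≤ lam ^ 2)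
        rw [h8] at n0 ⊢
        nlinarith

/-- the scalar base case -/
theorem scalar {m d : ℕ} (κ lam : ℝ) (hκ : 0 ≤ κ) (hlam : 1 ≤ lam) (D : (Fin m → Bool) → ℝ)
    (hD : ∀ y, |D y| ≤ κ) (hpd : ∀ g ∈ SDX.Deg (Fin m) d, 0 ≤ ∑ y, D y * g y ^ 2)
    (g : (Fin m → Bool) → ℝ) :
    -(2 * κ / lam ^ (d + 1) * W lam (fun v : ℝ => v ^ 2) m g) ≤ (∑ y, D y * g y ^ 2) / 2 ^ m := by
  obtain ⟨lo, hi, e, hm, hn⟩ := dec hlam m d g
  set L : ℝ := lam ^ (d + 1) with hL
  have hL1 : 1 ≤ L := one_le_pow₀ hlam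
  have hL0 : 0 < L := by linarith
  have h1 : ∀ y, D y * lo y ^ 2 - 2 * κ / L * (lo y ^ 2 + L ^ 2 * hi y ^ 2) ≤ D y * g y ^ 2 := by
    intro y
    have hDy := abs_le.1 (hD y)
    have h2 : -(κ * (|2 * lo y * hi y| + hi y ^ 2)) ≤ D y * (2 * lo y * hi y + hi y ^ 2) := by
      have h3 : |D y * (2 * lo y * hi y + hi y ^ 2)| ≤ κ * (|2 * lo y * hi y| + hi y ^ 2) := by
        rw [abs_mul]
        refine mul_le_mul (hD y) ?_ (abs_nonneg _) hκ
        refine (abs_add_le _ _).trans ?_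
        rw [abs_of_nonneg (sq_nonneg (hi y))]
      exact (abs_le.1 h3).1
    have h4 : κ * (|2 * lo y * hi y| + hi y ^ 2) ≤ 2 * κ / L * (lo y ^ 2 + L ^ 2 * hi y ^ 2) := by
      have h8 : 2 * κ / L * (lo y ^ 2 + L ^ 2 * hi y ^ 2) =
          κ * (2 * (lo y ^ 2 + L ^ 2 * hi y ^ 2) / L) := by ring
      rw [h8]
      refine mul_le_mul_of_nonneg_left ?_ hκ
      rw [le_div_iff₀ hL0]
      have h5 : |2 * lo y * hi y| * L ≤ lo y ^ 2 + L ^ 2 * hi y ^ 2 := by
        have h6 : |2 * lo y * hi y| = 2 * |lo y| * |hi y| := by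
          rw [abs_mul, abs_mul, abs_two]
        rw [h6]
        nlinarith [sq_nonneg (|lo y| - L * |hi y|), sq_abs (lo y), sq_abs (hi y)]
      have h7 : hi y ^ 2 * L ≤ L ^ 2 * hi y ^ 2 := by
        nlinarith [mul_nonneg (sq_nonneg (hi y)) (mul_nonneg hL0.le (sub_nonneg.2 hL1))]
      nlinarith [sq_nonneg (lo y)]
    rw [e y]
    nlinarith
  have h2 := Finset.sum_le_sum fun y (_ : y ∈ (Finset.univ : Finset (Fin m → Bool))) => h1 y
  rw [Finset.sum_sub_distrib, ← Finset.mul_sum, Finset.sum_add_distrib, ← Finset.mul_sum] at h2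
  have h3 := hpd lo hm
  have h4 : (0 : ℝ) < 2 ^ m := by positivity
  have h5 : 2 * κ / L * ((∑ y, lo y ^ 2) / 2 ^ m + L ^ 2 * ((∑ y, hi y ^ 2) / 2 ^ m)) ≤
      2 * κ / L * W lam (fun v : ℝ => v ^ 2) m g := by
    refine mul_le_mul_of_nonneg_left ?_ (by positivity)
    rw [hL, ← pow_mul, mul_comm (d + 1) 2]
    exact hn
  have h6 : 2 * κ / L * ((∑ y, lo y ^ 2) / 2 ^ m + L ^ 2 * ((∑ y, hi y ^ 2) / 2 ^ m)) =
      (2 * κ / L * (∑ y, lo y ^ 2 + L ^ 2 * ∑ y, hi y ^ 2)) / 2 ^ m := by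
    field_simp
  rw [h6, div_le_iff₀ h4] at h5
  rw [le_div_iff₀ h4]
  linarith

section quad
open Matrix
variable {ρ : Type} [Fintype ρ]

/-- the coordinates of `R v` -/
def Lr (R : Matrix ρ ρ ℝ) (a : ρ) : (Unit × ρ → ℝ) →ₗ[ℝ] ℝ where
  toFun v := ∑ c, R a c * v ((), c)
  map_add' v w := by simp only [Pi.add_apply, mul_add, Finset.sum_add_distrib]
  map_smul' t v := by
    simp only [Pi.smul_apply, smul_eq_mul, RingHom.id_apply, Finset.mul_sum]
    exact Finset.sum_congr rfl fun c _ => by ring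

theorem qf_unit (R : Matrix ρ ρ ℝ) (t : ℝ) (M : Matrix Unit Unit ℝ) (hM : M () () = t)
    (v : Unit × ρ → ℝ) :
    qf (M ⊗ₖ R) v = t * ((fun a => v ((), a)) ⬝ᵥ R *ᵥ (fun a => v ((), a))) := by
  unfold qf
  simp only [dotProduct, mulVec, Fintype.sum_prod_type, Finset.univ_unique, Finset.sum_singleton,
    PUnit.default_eq_unit, kroneckerMap_apply, hM]
  rw [Finset.mul_sum]
  refine Finset.sum_congr rfl fun a _ => ?_
  simp only [Finset.mul_sum]
  exact Finset.sum_congr rfl fun c _ => by ring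

theorem quad_sq (R : Matrix ρ ρ ℝ) (hR : R.IsHermitian) (v : Unit × ρ → ℝ) :
    ((fun a => v ((), a)) ⬝ᵥ (R * R) *ᵥ (fun a => v ((), a))) = ∑ a, Lr R a v ^ 2 := by
  have hRt : Rᵀ = R := by
    have := hR
    rwa [IsHermitian, conjTranspose_eq_transpose_of_trivial] at this
  rw [← mulVec_mulVec, dotProduct_mulVec, ← mulVec_transpose, hRt]
  unfold dotProduct
  refine Finset.sum_congr rfl fun a _ => ?_
  rw [sq]
  rfl

/-- `R² ≤ Λ R` -/
theorem sq_le [DecidableEq ρ] (R : Matrix ρ ρ ℝ) (hR : R.PosSemidef) (Λ : ℝ) (hΛ : 0 ≤ Λ)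
    (hRΛ : (Λ • (1 : Matrix ρ ρ ℝ) - R).PosSemidef) (w : ρ → ℝ) :
    w ⬝ᵥ (R * R) *ᵥ w ≤ Λ * (w ⬝ᵥ R *ᵥ w) := by
  have hRt : Rᵀ = R := by
    have := hR.1
    rwa [IsHermitian, conjTranspose_eq_transpose_of_trivial] at this
  set u : ρ → ℝ := R *ᵥ w with hu
  have e1 : w ⬝ᵥ (R * R) *ᵥ w = u ⬝ᵥ u := by
    rw [← mulVec_mulVec, dotProduct_mulVec, ← mulVec_transpose, hRt]
  have e2 : w ⬝ᵥ R *ᵥ u = u ⬝ᵥ u := by
    rw [dotProduct_mulVec, ← mulVec_transpose, hRt]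
  have h1 : 0 ≤ u ⬝ᵥ u := by
    unfold dotProduct
    exact Finset.sum_nonneg fun i _ => mul_self_nonneg _
  have h2 : u ⬝ᵥ R *ᵥ u ≤ Λ * (u ⬝ᵥ u) := by
    have := hRΛ.dotProduct_mulVec_nonneg u
    rw [sub_mulVec, dotProduct_sub, smul_mulVec, one_mulVec, dotProduct_smul, star_trivial,
      smul_eq_mul] at this
    linarith
  have h3 : ∀ t : ℝ, 0 ≤ u ⬝ᵥ R *ᵥ u - 2 * t * (u ⬝ᵥ u) + t ^ 2 * (w ⬝ᵥ R *ᵥ w) := by
    intro t
    have := hR.dotProduct_mulVec_nonneg (u - t • w)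
    rw [mulVec_sub, mulVec_smul, star_trivial, ← hu, sub_dotProduct, dotProduct_sub, dotProduct_sub,
      smul_dotProduct, smul_dotProduct, dotProduct_smul, dotProduct_smul, e2] at this
    simp only [smul_eq_mul] at this
    rw [hu] at this ⊢
    nlinarith
  have h5 : w ⬝ᵥ u = w ⬝ᵥ R *ᵥ w := by rw [hu]
  rw [e1]
  rcases hΛ.eq_or_lt with h0 | h0
  · subst h0
    have h4 := h3 1
    have h6 : w ⬝ᵥ R *ᵥ w ≤ 0 := by
      have := hRΛ.dotProduct_mulVec_nonneg w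
      rw [zero_smul, zero_sub, neg_mulVec, dotProduct_neg, star_trivial] at this
      linarith
    nlinarith
  · have h4 := h3 Λ
    have h6 : 0 ≤ Λ * (Λ * (w ⬝ᵥ R *ᵥ w) - u ⬝ᵥ u) := by nlinarith
    have h7 := nonneg_of_mul_nonneg_right h6 h0
    linarith

end quad

end BaseAux

open BaseAux Matrix in
/-- row R7 -/
theorem base {m d : ℕ} {ρ : Type} [Fintype ρ] [DecidableEq ρ] (κ Λ lam : ℝ) (hκ : 0 ≤ κ)
    (hΛ : 0 ≤ Λ) (hlam : 1 ≤ lam) (D : (Fin m → Bool) → ℝ) (hD : ∀ y, |D y| ≤ κ)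
    (hpd : ∀ g ∈ SDX.Deg (Fin m) d, 0 ≤ ∑ y, D y * g y ^ 2)
    (R : Matrix ρ ρ ℝ) (hR : R.PosSemidef) (hRΛ : (Λ • (1 : Matrix ρ ρ ℝ) - R).PosSemidef)
    (g : (Fin m → Bool) → Unit × ρ → ℝ) :
    -(2 * κ / lam ^ (d + 1) * Λ * W lam (qf (Matrix.diagonal (fun _ : Unit => (1 : ℝ)) ⊗ₖ R)) m g)
      ≤ (∑ y, qf ((Matrix.of fun _ _ : Unit => D y) ⊗ₖ (R * R)) (g y)) / 2 ^ m := by
  have h1 : ∀ y, qf ((Matrix.of fun _ _ : Unit => D y) ⊗ₖ (R * R)) (g y) =
      ∑ a, D y * Lr R a (g y) ^ 2 := by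
    intro y
    rw [qf_unit (R * R) (D y) _ rfl, quad_sq R hR.1, Finset.mul_sum]
  have h2 : W lam (fun v => ∑ a, Lr R a v ^ 2) m g ≤
      Λ * W lam (qf (Matrix.diagonal (fun _ : Unit => (1 : ℝ)) ⊗ₖ R)) m g := by
    rw [← W_smul]
    refine W_mono (fun v => ?_) m g
    rw [qf_unit R 1 _ (by simp), ← quad_sq R hR.1, one_mul]
    exact sq_le R hR Λ hΛ hRΛ _
  have h3 : W lam (fun v => ∑ a, Lr R a v ^ 2) m g =
      ∑ a, W lam (fun t : ℝ => t ^ 2) m (fun y => Lr R a (g y)) := by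
    rw [W_sum]
    exact Finset.sum_congr rfl fun a _ => W_comp (q := fun t : ℝ => t ^ 2) (Lr R a) m g
  have h4 : ∀ a, -(2 * κ / lam ^ (d + 1) * W lam (fun t : ℝ => t ^ 2) m (fun y => Lr R a (g y))) ≤
      (∑ y, D y * Lr R a (g y) ^ 2) / 2 ^ m := fun a =>
    scalar κ lam hκ hlam D hD hpd _
  have h5 := Finset.sum_le_sum fun a (_ : a ∈ (Finset.univ : Finset ρ)) => h4 a
  rw [Finset.sum_neg_distrib, ← Finset.mul_sum, ← h3, ← Finset.sum_div, Finset.sum_comm] at h5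
  simp only [h1]
  refine le_trans ?_ h5
  rw [neg_le_neg_iff, mul_assoc]
  exact mul_le_mul_of_nonneg_left h2 (by positivity)

end LIFT
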