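import Pool.Agent.LIFT.Base

/-!
# LIFT, row V7: the base of the induction, identity metric
-/

set_option autoImplicit false

open scoped BigOperators Matrix Kronecker

namespace LIFT

open scoped MatrixOrder in
theorem exists_sq {ρ : Type} [Fintype ρ] [DecidableEq ρ] {P : Matrix ρ ρ ℝ} (hP : P.PosSemidef) :
    ∃ B : Matrix ρ ρ ℝ, P = Bᵀ * B := by
  have h1 : (CFC.sqrt P).PosSemidef := Matrix.nonneg_iff_posSemidef.mp (CFC.sqrt_nonneg P)
  have h2 : CFC.sqrt P * CFC.sqrt P = P := CFC.sqrt_mul_sqrt_self P hP.nonneg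
  have h3 : (CFC.sqrt P)ᵀ = CFC.sqrt P := by
    have := h1.1.eq
    rwa [Matrix.conjTranspose_eq_transpose_of_trivial] at this
  exact ⟨CFC.sqrt P, by rw [h3, h2]⟩

open BaseAux Matrix in
/-- row V7 -/
theorem base2 {m d : ℕ} {ρ : Type} [Fintype ρ] [DecidableEq ρ] (κ Λ₂ lam : ℝ) (hκ : 0 ≤ κ)
    (hΛ : 0 ≤ Λ₂) (hlam : 1 ≤ lam) (D : (Fin m → Bool) → ℝ) (hD : ∀ y, |D y| ≤ κ)
    (hpd : ∀ g ∈ SDX.Deg (Fin m) d, 0 ≤ ∑ y, D y * g y ^ 2)
    (P : Matrix ρ ρ ℝ) (hP : P.PosSemidef) (hPΛ : (Λ₂ • (1 : Matrix ρ ρ ℝ) - P).PosSemidef)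
    (g : (Fin m → Bool) → Unit × ρ → ℝ) :
    -(2 * κ * Λ₂ / lam ^ (d + 1) *
        W lam (qf (Matrix.diagonal (fun _ : Unit => (1 : ℝ)) ⊗ₖ (1 : Matrix ρ ρ ℝ))) m g)
      ≤ (∑ y, qf ((Matrix.of fun _ _ : Unit => D y) ⊗ₖ P) (g y)) / 2 ^ m := by
  have _ := hΛ
  obtain ⟨B, hB⟩ := exists_sq hP
  have hquad : ∀ v : Unit × ρ → ℝ, ((fun a => v ((), a)) ⬝ᵥ P *ᵥ (fun a => v ((), a))) =
      ∑ a, Lr B a v ^ 2 := by
    intro v
    rw [hB, ← mulVec_mulVec, dotProduct_mulVec, ← mulVec_transpose, transpose_transpose]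
    unfold dotProduct
    refine Finset.sum_congr rfl fun a _ => ?_
    rw [sq]
    rfl
  have h1 : ∀ y, qf ((Matrix.of fun _ _ : Unit => D y) ⊗ₖ P) (g y) =
      ∑ a, D y * Lr B a (g y) ^ 2 := by
    intro y
    rw [qf_unit P (D y) _ rfl, hquad, Finset.mul_sum]
  have h2 : W lam (fun v => ∑ a, Lr B a v ^ 2) m g ≤
      Λ₂ * W lam (qf (Matrix.diagonal (fun _ : Unit => (1 : ℝ)) ⊗ₖ (1 : Matrix ρ ρ ℝ))) m g := by
    rw [← W_smul]
    refine W_mono (fun v => ?_) m g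
    rw [qf_unit 1 1 _ (by simp), ← hquad, one_mul]
    have := hPΛ.dotProduct_mulVec_nonneg (fun a => v ((), a))
    rw [sub_mulVec, dotProduct_sub, smul_mulVec, dotProduct_smul, star_trivial,
      smul_eq_mul] at this
    linarith
  have h3 : W lam (fun v => ∑ a, Lr B a v ^ 2) m g =
      ∑ a, W lam (fun t : ℝ => t ^ 2) m (fun y => Lr B a (g y)) := by
    rw [W_sum]
    exact Finset.sum_congr rfl fun a _ => W_comp (q := fun t : ℝ => t ^ 2) (Lr B a) m g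
  have h4 : ∀ a, -(2 * κ / lam ^ (d + 1) * W lam (fun t : ℝ => t ^ 2) m (fun y => Lr B a (g y))) ≤
      (∑ y, D y * Lr B a (g y) ^ 2) / 2 ^ m := fun a =>
    scalar κ lam hκ hlam D hD hpd _
  have h5 := Finset.sum_le_sum fun a (_ : a ∈ (Finset.univ : Finset ρ)) => h4 a
  rw [Finset.sum_neg_distrib, ← Finset.mul_sum, ← h3, ← Finset.sum_div, Finset.sum_comm] at h5
  simp only [h1]
  refine le_trans ?_ h5
  have h6 : 2 * κ * Λ₂ / lam ^ (d + 1) = 2 * κ / lam ^ (d + 1) * Λ₂ := by ring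
  rw [neg_le_neg_iff, h6, mul_assoc]
  exact mul_le_mul_of_nonneg_left h2 (by positivity)

end LIFT
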