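import Mathlib
import Pool.Agent.Helper71.SDX.Defs

/-!
# LIFT: definitions

`W lam q m g` is the weighted norm `∑ A, lam ^ (2 |A|) q (g_A)` of the vector polynomial
`g = ∑ A, g_A chr A` on the cube `{±1}^m` (recursive definition; bit `false` is the sign `1`).
`phi R M = R M / (R + M)` is the truncation of a positive semidefinite matrix.
-/

set_option autoImplicit false

open scoped BigOperators Matrix Kronecker

namespace LIFT

/-- weighted norm of a vector polynomial on the cube -/
noncomputable def W {V : Type} [AddCommGroup V] [Module ℝ V] (lam : ℝ) (q : V → ℝ) :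
    (m : ℕ) → ((Fin m → Bool) → V) → ℝ
  | 0, g => q (g Fin.elim0)
  | m + 1, g =>
    W lam q m (fun y => (1 / 2 : ℝ) • (g (Fin.cons false y) + g (Fin.cons true y))) +
      lam ^ 2 * W lam q m (fun y => (1 / 2 : ℝ) • (g (Fin.cons false y) - g (Fin.cons true y)))

/-- the truncation `R M / (R + M)` -/
noncomputable def phi {ι : Type} [Fintype ι] [DecidableEq ι] (R : ℝ) (M : Matrix ι ι ℝ) :
    Matrix ι ι ℝ :=
  R • 1 - (R ^ 2) • (M + R • 1)⁻¹

/-- quadratic form of a matrix -/
def qf {ι : Type} [Fintype ι] (M : Matrix ι ι ℝ) (v : ι → ℝ) : ℝ := v ⬝ᵥ M *ᵥ v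

/-- the variables which occur an odd number of times in the equations of `C` -/
def odd {m M : ℕ} (A : Fin M → Finset (Fin m)) (C : Finset (Fin M)) : Finset (Fin m) :=
  Finset.univ.filter fun v => Odd (C.filter fun e => v ∈ A e).card

end LIFT
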