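import Mathlib
import Pool.Agent.LIFT.Defs

/-!
# The matrix Khintchine inequality (trace moments of matrix Rademacher series)

For real symmetric matrices `W i` with `∑ i, W i ^ 2 ≤ s`, the average over all signs of `Tr (∑ i, ± W i) ^ (2 p)` is at
most `dim * (p * s) ^ p`.
-/

set_option autoImplicit false

set_option linter.unusedSectionVars false

namespace LIFT.Kh

open Matrix Finset

section flip
variable {ι : Type} [Fintype ι] [DecidableEq ι]

/-- the sign -/
def sg (b : Bool) : ℝ := if b then 1 else -1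

theorem sg_not (b : Bool) : sg (!b) = -sg b := by cases b <;> simp [sg]

theorem sg_mul_self (b : Bool) : sg b * sg b = 1 := by cases b <;> simp [sg]

/-- change of one sign -/
def flp (i : ι) (x : ι → Bool) : ι → Bool := Function.update x i (!(x i))

theorem flp_flp (i : ι) (x : ι → Bool) : flp i (flp i x) = x := by
  unfold flp
  simp

/-- the involution as an equivalence -/
def flpE (i : ι) : (ι → Bool) ≃ (ι → Bool) := ⟨flp i, flp i, flp_flp i, flp_flp i⟩

theorem sum_flp (i : ι) (G : (ι → Bool) → ℝ) : ∑ x, G (flp i x) = ∑ x, G x := Equiv.sum_comp (flpE i) G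

theorem upd_true (i : ι) (x : ι → Bool) : Function.update x i true = if x i then x else flp i x := by
  unfold flp
  by_cases h : x i = true
  · rw [if_pos h, ← h, Function.update_eq_self]
  · rw [if_neg h]
    rw [Bool.not_eq_true] at h
    rw [h]
    rfl

theorem upd_false (i : ι) (x : ι → Bool) : Function.update x i false = if x i then flp i x else x := by
  unfold flp
  by_cases h : x i = true
  · rw [if_pos h, h]
    rfl
  · rw [if_neg h]
    rw [Bool.not_eq_true] at h
    rw [← h, Function.update_eq_self]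

theorem sum_upd_add (i : ι) (G : (ι → Bool) → ℝ) :
    ∑ x, (G (Function.update x i true) + G (Function.update x i false)) = 2 * ∑ x, G x := by
  have h : ∀ x, G (Function.update x i true) + G (Function.update x i false) = G x + G (flp i x) := by
    intro x
    rw [upd_true, upd_false]
    by_cases h : x i = true
    · rw [if_pos h, if_pos h]
    · rw [if_neg h, if_neg h, add_comm]
  simp only [h, Finset.sum_add_distrib, sum_flp]
  ring

theorem sum_sg_mul (i : ι) (G : (ι → Bool) → ℝ) :
    ∑ x, sg (x i) * G x = (∑ x, (G (Function.update x i true) - G (Function.update x i false))) / 2 := by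
  have h : ∀ x, G (Function.update x i true) - G (Function.update x i false) = sg (x i) * (G x - G (flp i x)) := by
    intro x
    rw [upd_true, upd_false]
    by_cases h : x i = true
    · rw [if_pos h, if_pos h, h]
      simp [sg]
    · rw [if_neg h, if_neg h]
      rw [Bool.not_eq_true] at h
      rw [h]
      simp [sg]
  have h2 : ∑ x, sg (x i) * G (flp i x) = -∑ x, sg (x i) * G x := by
    rw [← sum_flp i (fun x => sg (x i) * G (flp i x)), ← Finset.sum_neg_distrib]
    refine Finset.sum_congr rfl fun x _ => ?_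
    rw [flp_flp]
    have : flp i x i = !(x i) := by simp [flp]
    rw [this, sg_not]
    ring
  simp only [h, mul_sub, Finset.sum_sub_distrib, h2]
  ring

end flip

section scalar

theorem heinz {a b : ℝ} {m q : ℕ} (hm : Even m) (hq : q ≤ m) :
    a ^ q * b ^ (m - q) + a ^ (m - q) * b ^ q ≤ a ^ m + b ^ m := by
  have h1 : a ^ m = a ^ q * a ^ (m - q) := by rw [← pow_add]; congr 1; omega
  have h2 : b ^ m = b ^ q * b ^ (m - q) := by rw [← pow_add]; congr 1; omega
  have h3 : 0 ≤ (a ^ q - b ^ q) * (a ^ (m - q) - b ^ (m - q)) := by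
    rcases Nat.even_or_odd q with he | ho
    · have he' : Even (m - q) := (Nat.even_sub hq).2 (iff_of_true hm he)
      rw [← he.pow_abs, ← he.pow_abs (a := b), ← he'.pow_abs, ← he'.pow_abs (a := b)]
      rcases le_total |a| |b| with h | h
      · exact mul_nonneg_of_nonpos_of_nonpos (sub_nonpos.2 (pow_le_pow_left₀ (abs_nonneg _) h _))
          (sub_nonpos.2 (pow_le_pow_left₀ (abs_nonneg _) h _))
      · exact mul_nonneg (sub_nonneg.2 (pow_le_pow_left₀ (abs_nonneg _) h _))
          (sub_nonneg.2 (pow_le_pow_left₀ (abs_nonneg _) h _))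
    · have ho' : Odd (m - q) := by
        rw [Nat.odd_sub hq]
        exact iff_of_false (by rw [Nat.not_odd_iff_even]; exact hm) (by rw [Nat.not_even_iff_odd]; exact ho)
      rcases le_total a b with h | h
      · exact mul_nonneg_of_nonpos_of_nonpos (sub_nonpos.2 (ho.strictMono_pow.monotone h))
          (sub_nonpos.2 (ho'.strictMono_pow.monotone h))
      · exact mul_nonneg (sub_nonneg.2 (ho.strictMono_pow.monotone h))
          (sub_nonneg.2 (ho'.strictMono_pow.monotone h))
  rw [h1, h2]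
  nlinarith [h3]

theorem heinz_sum {a b : ℝ} {m : ℕ} (hm : Even m) :
    ∑ q ∈ range (m + 1), a ^ q * b ^ (m - q) ≤ (m + 1) / 2 * (a ^ m + b ^ m) := by
  have h1 : ∑ q ∈ range (m + 1), a ^ (m - q) * b ^ q = ∑ q ∈ range (m + 1), a ^ q * b ^ (m - q) := by
    rw [← Finset.sum_range_reflect]
    refine Finset.sum_congr rfl fun q hq => ?_
    have hq' : q ≤ m := Nat.lt_succ_iff.1 (mem_range.1 hq)
    congr 2 <;> omega
  have h2 : ∑ q ∈ range (m + 1), (a ^ q * b ^ (m - q) + a ^ (m - q) * b ^ q) ≤
      ∑ q ∈ range (m + 1), (a ^ m + b ^ m) :=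
    Finset.sum_le_sum fun q hq => heinz hm (Nat.lt_succ_iff.1 (mem_range.1 hq))
  rw [Finset.sum_add_distrib, h1, Finset.sum_const, card_range, nsmul_eq_mul] at h2
  push_cast at h2
  linarith

theorem prod_odd_le (p : ℕ) : (∏ k ∈ range p, (2 * (k : ℝ) + 1)) ≤ (p : ℝ) ^ p := by
  have h0 : 0 ≤ ∏ k ∈ range p, (2 * (k : ℝ) + 1) := Finset.prod_nonneg fun k _ => by positivity
  have h1 : (∏ k ∈ range p, (2 * (k : ℝ) + 1)) ^ 2 ≤ ((p : ℝ) ^ p) ^ 2 := by
    have h2 : (∏ k ∈ range p, (2 * (k : ℝ) + 1)) ^ 2 =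
        ∏ k ∈ range p, ((2 * (k : ℝ) + 1) * (2 * ((p - 1 - k : ℕ) : ℝ) + 1)) := by
      rw [Finset.prod_mul_distrib, sq]
      congr 1
      rw [← Finset.prod_range_reflect]
    rw [h2, sq, ← mul_pow, ← Finset.card_range p, ← Finset.prod_const, Finset.card_range]
    refine Finset.prod_le_prod (fun k _ => by positivity) fun k hk => ?_
    have hk' : k < p := mem_range.1 hk
    have h3 : ((p - 1 - k : ℕ) : ℝ) = (p : ℝ) - 1 - k := by
      rw [Nat.cast_sub (by omega), Nat.cast_sub (by omega)]
      simp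
    rw [h3]
    nlinarith [sq_nonneg ((2 * (k : ℝ) + 1) - (2 * ((p : ℝ) - 1 - k) + 1))]
  exact (sq_le_sq₀ h0 (by positivity)).1 h1

end scalar

section mat
variable {n : Type} [Fintype n] [DecidableEq n]

/-- diagonalisation of a symmetric matrix and of its powers -/
theorem exists_diag {A : Matrix n n ℝ} (hA : A.IsHermitian) :
    ∃ (U : Matrix n n ℝ) (a : n → ℝ), U * Uᵀ = 1 ∧ Uᵀ * U = 1 ∧
      ∀ k : ℕ, A ^ k = U * diagonal (fun i => a i ^ k) * Uᵀ := by
  set U : Matrix n n ℝ := (hA.eigenvectorUnitary : Matrix n n ℝ) with hU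
  have e1 : star U = Uᵀ := by
    rw [star_eq_conjTranspose]
    ext i j
    simp
  have h1 : U * Uᵀ = 1 := by
    rw [← e1]
    exact Unitary.mul_star_self_of_mem hA.eigenvectorUnitary.2
  have h2 : Uᵀ * U = 1 := by
    rw [← e1]
    exact Unitary.star_mul_self_of_mem hA.eigenvectorUnitary.2
  have h3 : ∃ a : n → ℝ, A = U * diagonal a * Uᵀ := by
    refine ⟨hA.eigenvalues, ?_⟩
    have := hA.spectral_theorem
    rw [Unitary.conjStarAlgAut_apply] at this
    rw [← e1]
    exact this
  obtain ⟨a, h3⟩ := h3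
  refine ⟨U, a, h1, h2, fun k => ?_⟩
  clear_value U
  induction k with
  | zero =>
    simp only [pow_zero, Matrix.diagonal_one, Matrix.mul_one, h1]
  | succ k ih =>
    calc A ^ (k + 1) = U * diagonal (fun i => a i ^ k) * Uᵀ * (U * diagonal a * Uᵀ) := by
          rw [pow_succ, ih, ← h3]
      _ = U * diagonal (fun i => a i ^ k) * (Uᵀ * U) * diagonal a * Uᵀ := by
          simp only [Matrix.mul_assoc]
      _ = U * diagonal (fun i => a i ^ (k + 1)) * Uᵀ := by
          rw [h2, Matrix.mul_one, Matrix.mul_assoc U, diagonal_mul_diagonal]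
          congr 3

/-- the trace formula -/
theorem trace_formula {W U V : Matrix n n ℝ} (hW : Wᵀ = W) (a b : n → ℝ) :
    trace (W * (U * diagonal a * Uᵀ) * W * (V * diagonal b * Vᵀ)) =
      ∑ i, ∑ j, (Uᵀ * W * V) i j ^ 2 * (a i * b j) := by
  have h1 : W * (U * diagonal a * Uᵀ) * W * (V * diagonal b * Vᵀ) =
      (W * U * diagonal a * (Uᵀ * W * V) * diagonal b) * Vᵀ := by
    simp only [Matrix.mul_assoc]
  have h2 : Vᵀ * (W * U * diagonal a * (Uᵀ * W * V) * diagonal b) =
      (Uᵀ * W * V)ᵀ * diagonal a * (Uᵀ * W * V) * diagonal b := by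
    rw [transpose_mul, transpose_mul, transpose_transpose, hW]
    simp only [Matrix.mul_assoc]
  rw [h1, trace_mul_comm, h2, trace, Finset.sum_comm]
  refine Finset.sum_congr rfl fun j _ => ?_
  rw [diag_apply, mul_diagonal, Matrix.mul_apply, Finset.sum_mul]
  refine Finset.sum_congr rfl fun i _ => ?_
  rw [mul_diagonal, transpose_apply]
  ring

/-- the mean inequality for traces -/
theorem trace_mean {W P M : Matrix n n ℝ} (hW : Wᵀ = W) (hP : P.IsHermitian) (hM : M.IsHermitian) {m : ℕ}
    (hm : Even m) : ∑ q ∈ range (m + 1), trace (W * P ^ q * W * M ^ (m - q)) ≤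
      (m + 1) / 2 * (trace (W * W * P ^ m) + trace (W * W * M ^ m)) := by
  obtain ⟨U, a, hU1, hU2, hU⟩ := exists_diag hP
  obtain ⟨V, b, hV1, hV2, hV⟩ := exists_diag hM
  have h1 : ∀ q s : ℕ, trace (W * P ^ q * W * M ^ s) = ∑ i, ∑ j, (Uᵀ * W * V) i j ^ 2 * (a i ^ q * b j ^ s) := by
    intro q s
    rw [hU q, hV s]
    exact trace_formula hW _ _
  have h2 : trace (W * W * P ^ m) = ∑ i, ∑ j, (Uᵀ * W * V) i j ^ 2 * (a i ^ m * b j ^ 0) := by
    rw [← h1, pow_zero, Matrix.mul_one, Matrix.mul_assoc W W, trace_mul_comm W (W * P ^ m)]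
  have h3 : trace (W * W * M ^ m) = ∑ i, ∑ j, (Uᵀ * W * V) i j ^ 2 * (a i ^ 0 * b j ^ m) := by
    rw [← h1, pow_zero, Matrix.mul_one]
  rw [h2, h3]
  simp only [h1]
  rw [Finset.sum_comm, ← Finset.sum_add_distrib, Finset.mul_sum]
  refine Finset.sum_le_sum fun i _ => ?_
  rw [Finset.sum_comm, ← Finset.sum_add_distrib, Finset.mul_sum]
  refine Finset.sum_le_sum fun j _ => ?_
  rw [← Finset.mul_sum]
  have h4 := heinz_sum (a := a i) (b := b j) hm
  have h5 := mul_le_mul_of_nonneg_left h4 (sq_nonneg ((Uᵀ * W * V) i j))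
  simp only [pow_zero, mul_one, one_mul]
  calc _ ≤ _ := h5
    _ = _ := by ring

/-- noncommutative difference of powers -/
theorem pow_sub_pow_nc (P M : Matrix n n ℝ) (m : ℕ) :
    P ^ (m + 1) - M ^ (m + 1) = ∑ q ∈ range (m + 1), P ^ q * (P - M) * M ^ (m - q) := by
  induction m with
  | zero => simp
  | succ m ih =>
    rw [Finset.sum_range_succ, Nat.sub_self, pow_zero, Matrix.mul_one]
    have h1 : ∑ q ∈ range (m + 1), P ^ q * (P - M) * M ^ (m + 1 - q) =
        (∑ q ∈ range (m + 1), P ^ q * (P - M) * M ^ (m - q)) * M := by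
      rw [Finset.sum_mul]
      refine Finset.sum_congr rfl fun q hq => ?_
      have hq' : q ≤ m := Nat.lt_succ_iff.1 (mem_range.1 hq)
      rw [Matrix.mul_assoc _ _ M, ← pow_succ]
      congr 2
      omega
    rw [h1, ← ih, pow_succ P (m + 1), pow_succ M (m + 1), Matrix.sub_mul, Matrix.mul_sub]
    abel

theorem trace_mul_nonneg {A B : Matrix n n ℝ} (hA : A.PosSemidef) (hB : B.PosSemidef) : 0 ≤ trace (A * B) := by
  obtain ⟨U, a, hU1, hU2, hU⟩ := exists_diag hB.1
  have h1 := hU 1
  rw [pow_one] at h1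
  simp only [pow_one] at h1
  have ha : ∀ i, 0 ≤ a i := by
    intro i
    have h2 : Uᵀ * B * U = diagonal a := by
      rw [h1]
      calc Uᵀ * (U * diagonal a * Uᵀ) * U = (Uᵀ * U) * diagonal a * (Uᵀ * U) := by simp only [Matrix.mul_assoc]
        _ = diagonal a := by rw [hU2, Matrix.one_mul, Matrix.mul_one]
    have h3 : (Uᵀ * B * U).PosSemidef := by
      have := hB.conjTranspose_mul_mul_same U
      rwa [conjTranspose_eq_transpose_of_trivial] at this
    rw [h2, Matrix.posSemidef_diagonal_iff] at h3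
    exact h3 i
  have h4 : (Uᵀ * A * U).PosSemidef := by
    have := hA.conjTranspose_mul_mul_same U
    rwa [conjTranspose_eq_transpose_of_trivial] at this
  have h5 : trace (A * B) = trace ((Uᵀ * A * U) * diagonal a) := by
    conv_lhs => rw [h1]
    have : A * (U * diagonal a * Uᵀ) = (A * U * diagonal a) * Uᵀ := by simp only [Matrix.mul_assoc]
    rw [this, trace_mul_comm]
    simp only [Matrix.mul_assoc]
  rw [h5, trace]
  refine Finset.sum_nonneg fun i _ => ?_
  rw [diag_apply, mul_diagonal]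
  exact mul_nonneg h4.diag_nonneg (ha i)

end mat

section main
variable {n ι : Type} [Fintype n] [DecidableEq n] [Fintype ι] [DecidableEq ι]

/-- the signed sum -/
def rad (W : ι → Matrix n n ℝ) (x : ι → Bool) : Matrix n n ℝ := ∑ i, sg (x i) • W i

theorem rad_isHermitian {W : ι → Matrix n n ℝ} (hW : ∀ i, (W i).IsHermitian) (x : ι → Bool) :
    (rad W x).IsHermitian := by
  unfold rad
  rw [IsHermitian, conjTranspose_sum]
  refine Finset.sum_congr rfl fun i _ => ?_
  rw [conjTranspose_smul, hW i]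
  simp

theorem rad_sub (W : ι → Matrix n n ℝ) (x : ι → Bool) (i : ι) :
    rad W (Function.update x i true) - rad W (Function.update x i false) = (2 : ℝ) • W i := by
  unfold rad
  rw [← Finset.sum_sub_distrib, Finset.sum_eq_single i]
  · rw [Function.update_self, Function.update_self, ← sub_smul]
    congr 1
    simp [sg]
    norm_num
  · intro j _ hj
    rw [Function.update_of_ne hj, Function.update_of_ne hj, sub_self]
  · intro h
    exact absurd (mem_univ _) h

/-- the moment recursion -/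
theorem moment_succ {W : ι → Matrix n n ℝ} (hW : ∀ i, (W i).IsHermitian) {s : ℝ}
    (hs : (s • (1 : Matrix n n ℝ) - ∑ i, W i * W i).PosSemidef) (p : ℕ) :
    ∑ x : ι → Bool, trace (rad W x ^ (2 * (p + 1))) ≤
      (2 * (p : ℝ) + 1) * s * ∑ x : ι → Bool, trace (rad W x ^ (2 * p)) := by
  have hWt : ∀ i, (W i)ᵀ = W i := fun i => by
    have := hW i
    rwa [IsHermitian, conjTranspose_eq_transpose_of_trivial] at this
  have h1 : ∑ x : ι → Bool, trace (rad W x ^ (2 * (p + 1))) =
      ∑ i, ∑ x : ι → Bool, sg (x i) * trace (W i * rad W x ^ (2 * p + 1)) := by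
    rw [Finset.sum_comm]
    refine Finset.sum_congr rfl fun x _ => ?_
    have e : 2 * (p + 1) = (2 * p + 1) + 1 := by ring
    rw [e, pow_succ']
    conv_lhs =>
      rw [rad]
    rw [Finset.sum_mul, trace_sum]
    refine Finset.sum_congr rfl fun i _ => ?_
    rw [Matrix.smul_mul, trace_smul, smul_eq_mul]
    rfl
  have h2 : ∀ i, ∑ x : ι → Bool, sg (x i) * trace (W i * rad W x ^ (2 * p + 1)) ≤
      (2 * (p : ℝ) + 1) * ∑ x : ι → Bool, trace (W i * W i * rad W x ^ (2 * p)) := by
    intro i
    rw [sum_sg_mul i (fun x => trace (W i * rad W x ^ (2 * p + 1)))]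
    have h3 : ∀ x : ι → Bool, trace (W i * rad W (Function.update x i true) ^ (2 * p + 1)) -
        trace (W i * rad W (Function.update x i false) ^ (2 * p + 1)) ≤
        (2 * (p : ℝ) + 1) * (trace (W i * W i * rad W (Function.update x i true) ^ (2 * p)) +
          trace (W i * W i * rad W (Function.update x i false) ^ (2 * p))) := by
      intro x
      rw [← trace_sub, ← Matrix.mul_sub, pow_sub_pow_nc, rad_sub, Finset.mul_sum, trace_sum]
      have h4 : ∀ q, trace (W i * (rad W (Function.update x i true) ^ q * (2 : ℝ) • W i *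
          rad W (Function.update x i false) ^ (2 * p - q))) =
          2 * trace (W i * rad W (Function.update x i true) ^ q * W i *
            rad W (Function.update x i false) ^ (2 * p - q)) := by
        intro q
        rw [Matrix.mul_smul, Matrix.smul_mul, Matrix.mul_smul, trace_smul, smul_eq_mul]
        simp only [Matrix.mul_assoc]
      simp only [h4]
      rw [← Finset.mul_sum]
      have h5 := trace_mean (hWt i) (rad_isHermitian hW (Function.update x i true))
        (rad_isHermitian hW (Function.update x i false)) (m := 2 * p) (even_two_mul p)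
      push_cast at h5
      linarith
    have h6 := Finset.sum_le_sum fun x (_ : x ∈ (Finset.univ : Finset (ι → Bool))) => h3 x
    rw [← Finset.mul_sum, sum_upd_add i (fun x => trace (W i * W i * rad W x ^ (2 * p)))] at h6
    linarith
  have h7 : ∀ x : ι → Bool, ∑ i, trace (W i * W i * rad W x ^ (2 * p)) ≤ s * trace (rad W x ^ (2 * p)) := by
    intro x
    have hpos : (rad W x ^ (2 * p)).PosSemidef := by
      rw [mul_comm, pow_mul, sq]
      have h8 : ((rad W x ^ p)ᴴ * (rad W x ^ p)).PosSemidef := Matrix.posSemidef_conjTranspose_mul_self _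
      rwa [(rad_isHermitian hW x).pow p] at h8
    have h9 := trace_mul_nonneg hs hpos
    rw [Matrix.sub_mul, trace_sub, Matrix.smul_mul, Matrix.one_mul, trace_smul, smul_eq_mul, Finset.sum_mul,
      trace_sum] at h9
    linarith
  calc ∑ x : ι → Bool, trace (rad W x ^ (2 * (p + 1)))
      ≤ ∑ i, (2 * (p : ℝ) + 1) * ∑ x : ι → Bool, trace (W i * W i * rad W x ^ (2 * p)) := by
        rw [h1]
        exact Finset.sum_le_sum fun i _ => h2 i
    _ = (2 * (p : ℝ) + 1) * ∑ x : ι → Bool, ∑ i, trace (W i * W i * rad W x ^ (2 * p)) := by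
        rw [← Finset.mul_sum, Finset.sum_comm]
    _ ≤ (2 * (p : ℝ) + 1) * ∑ x : ι → Bool, s * trace (rad W x ^ (2 * p)) :=
        mul_le_mul_of_nonneg_left (Finset.sum_le_sum fun x _ => h7 x) (by positivity)
    _ = _ := by
        rw [← Finset.mul_sum]
        ring

/-- **matrix Khintchine inequality** -/
theorem khintchine {W : ι → Matrix n n ℝ} (hW : ∀ i, (W i).IsHermitian) {s : ℝ} (hs0 : 0 ≤ s)
    (hs : (s • (1 : Matrix n n ℝ) - ∑ i, W i * W i).PosSemidef) (p : ℕ) :
    ∑ x : ι → Bool, trace (rad W x ^ (2 * p)) ≤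
      2 ^ Fintype.card ι * Fintype.card n * ((p : ℝ) * s) ^ p := by
  have key : ∑ x : ι → Bool, trace (rad W x ^ (2 * p)) ≤
      2 ^ Fintype.card ι * Fintype.card n * ((∏ k ∈ range p, (2 * (k : ℝ) + 1)) * s ^ p) := by
    induction p with
    | zero =>
      simp only [mul_zero, pow_zero, trace_one, Finset.sum_const, Finset.card_univ, Fintype.card_pi, Fintype.card_bool,
        Finset.prod_const, Finset.prod_range_zero, nsmul_eq_mul]
      push_cast
      simp
    | succ p ih =>
      refine (moment_succ hW hs p).trans ?_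
      refine (mul_le_mul_of_nonneg_left ih (by positivity)).trans (le_of_eq ?_)
      rw [Finset.prod_range_succ, pow_succ]
      ring
  refine key.trans ?_
  rw [mul_pow]
  exact mul_le_mul_of_nonneg_left (mul_le_mul_of_nonneg_right (prod_odd_le p) (pow_nonneg hs0 _)) (by positivity)

open Classical in
/-- the lower tail: the number of sign vectors for which the quadratic form of the signed sum is somewhere smaller
than `-t` -/
theorem card_bad_le {W : ι → Matrix n n ℝ} (hW : ∀ i, (W i).IsHermitian) {s : ℝ} (hs0 : 0 ≤ s)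
    (hs : (s • (1 : Matrix n n ℝ) - ∑ i, W i * W i).PosSemidef) (p : ℕ) {t : ℝ} (ht : 0 < t) :
    ((Finset.univ.filter fun x : ι → Bool => ¬ (t • (1 : Matrix n n ℝ) + rad W x).PosSemidef).card : ℝ) ≤
      2 ^ Fintype.card ι * Fintype.card n * ((p : ℝ) * s / t ^ 2) ^ p := by
  have h1 : ∀ x : ι → Bool, 0 ≤ trace (rad W x ^ (2 * p)) := by
    intro x
    have hpos : (rad W x ^ (2 * p)).PosSemidef := by
      rw [mul_comm, pow_mul, sq]
      have h8 : ((rad W x ^ p)ᴴ * (rad W x ^ p)).PosSemidef := Matrix.posSemidef_conjTranspose_mul_self _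
      rwa [(rad_isHermitian hW x).pow p] at h8
    exact hpos.trace_nonneg
  have h2 : ∀ x : ι → Bool, ¬ (t • (1 : Matrix n n ℝ) + rad W x).PosSemidef →
      (t ^ 2) ^ p ≤ trace (rad W x ^ (2 * p)) := by
    intro x hx
    obtain ⟨U, a, hU1, hU2, hU⟩ := exists_diag (rad_isHermitian hW x)
    have h3 : trace (rad W x ^ (2 * p)) = ∑ i, a i ^ (2 * p) := by
      rw [hU, Matrix.mul_assoc, trace_mul_comm, Matrix.mul_assoc, hU2, Matrix.mul_one, trace_diagonal]
    have h4 : ∃ i, a i < -t := by
      by_contra hcon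
      push Not at hcon
      apply hx
      have h5 := hU 1
      rw [pow_one] at h5
      simp only [pow_one] at h5
      have h6 : t • (1 : Matrix n n ℝ) + rad W x = U * diagonal (fun i => t + a i) * Uᵀ := by
        have h7 : diagonal (fun i => t + a i) = t • (1 : Matrix n n ℝ) + diagonal a := by
          ext i j
          by_cases hij : i = j
          · subst hij
            simp
          · simp [hij]
        rw [h7, Matrix.mul_add, Matrix.add_mul, ← h5, Matrix.mul_smul, Matrix.smul_mul, Matrix.mul_one, hU1]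
      rw [h6]
      have h8 : (diagonal (fun i => t + a i)).PosSemidef := by
        rw [Matrix.posSemidef_diagonal_iff]
        intro i
        linarith [hcon i]
      have h9 := h8.mul_mul_conjTranspose_same U
      rwa [conjTranspose_eq_transpose_of_trivial] at h9
    obtain ⟨i, hi⟩ := h4
    rw [h3]
    have h10 : a i ^ (2 * p) ≤ ∑ i, a i ^ (2 * p) :=
      Finset.single_le_sum (fun j _ => (even_two_mul p).pow_nonneg (a j)) (mem_univ i)
    refine le_trans ?_ h10
    rw [pow_mul]
    refine pow_le_pow_left₀ (by positivity) ?_ p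
    nlinarith
  have h11 : ((Finset.univ.filter fun x : ι → Bool => ¬ (t • (1 : Matrix n n ℝ) + rad W x).PosSemidef).card : ℝ) *
      (t ^ 2) ^ p ≤ ∑ x : ι → Bool, trace (rad W x ^ (2 * p)) := by
    rw [← nsmul_eq_mul, ← Finset.sum_const]
    refine (Finset.sum_le_sum fun x hx => h2 x (Finset.mem_filter.1 hx).2).trans ?_
    exact Finset.sum_le_sum_of_subset_of_nonneg (Finset.filter_subset _ _) fun x _ _ => h1 x
  have h12 := h11.trans (khintchine hW hs0 hs p)
  have h13 : 0 < (t ^ 2) ^ p := by positivity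
  rw [div_pow, ← mul_div_assoc, le_div_iff₀ h13]
  exact h12

open Classical in
/-- the lower tail in exponential form: with `t ^ 2 = 2 e a s`, at most a fraction `card n * exp (-a)` of the sign
vectors is bad -/
theorem card_bad_exp {W : ι → Matrix n n ℝ} (hW : ∀ i, (W i).IsHermitian) {s : ℝ} (hs0 : 0 ≤ s)
    (hs : (s • (1 : Matrix n n ℝ) - ∑ i, W i * W i).PosSemidef) {a : ℝ} (ha : 1 ≤ a) {t : ℝ} (ht : 0 < t)
    (hts : 2 * Real.exp 1 * a * s ≤ t ^ 2) :
    ((Finset.univ.filter fun x : ι → Bool => ¬ (t • (1 : Matrix n n ℝ) + rad W x).PosSemidef).card : ℝ) ≤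
      2 ^ Fintype.card ι * Fintype.card n * Real.exp (-a) := by
  refine (card_bad_le hW hs0 hs ⌈a⌉₊ ht).trans ?_
  refine mul_le_mul_of_nonneg_left ?_ (by positivity)
  have h1 : (⌈a⌉₊ : ℝ) ≤ 2 * a := by
    have := Nat.ceil_lt_add_one (by linarith : 0 ≤ a)
    linarith
  have h2 : a ≤ (⌈a⌉₊ : ℝ) := Nat.le_ceil a
  have he : 0 < Real.exp 1 := Real.exp_pos 1
  have h3 : (⌈a⌉₊ : ℝ) * s / t ^ 2 ≤ Real.exp (-1) := by
    rw [div_le_iff₀ (by positivity), Real.exp_neg, inv_mul_eq_div, le_div_iff₀ he]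
    calc (⌈a⌉₊ : ℝ) * s * Real.exp 1 ≤ 2 * a * s * Real.exp 1 := by gcongr
      _ = 2 * Real.exp 1 * a * s := by ring
      _ ≤ t ^ 2 := hts
  calc ((⌈a⌉₊ : ℝ) * s / t ^ 2) ^ ⌈a⌉₊ ≤ Real.exp (-1) ^ ⌈a⌉₊ := by
        refine pow_le_pow_left₀ (by positivity) h3 _
    _ = Real.exp (-(⌈a⌉₊ : ℝ)) := by
        rw [← Real.exp_nat_mul]
        congr 1
        ring
    _ ≤ Real.exp (-a) := by
        refine Real.exp_le_exp.2 ?_
        linarith

end main

end LIFT.Kh

namespace LIFT

open Matrix

/-- **matrix Khintchine inequality**, row R2 -/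
theorem khintchine {ι : Type} [Fintype ι] [DecidableEq ι] {b : ℕ} (Z : Fin b → Matrix ι ι ℝ)
    (hZ : ∀ i, (Z i).IsSymm) (σ₂ : ℝ)
    (hσ : (σ₂ • (1 : Matrix ι ι ℝ) - ∑ i, Z i * Z i).PosSemidef) (p : ℕ) (hp : 0 < p)
    (u : ℝ) (hu : 0 < u) :
    ∃ bad : Finset (Fin b → Bool),
      (bad.card : ℝ) ≤ Fintype.card ι * (2 * p * σ₂ / u ^ 2) ^ p * 2 ^ b ∧
      ∀ x ∉ bad, (u • (1 : Matrix ι ι ℝ) + ∑ i, SDX.sg (x i) • Z i).PosSemidef := by
  classical
  have hH : ∀ i, (-Z i).IsHermitian := by
    intro i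
    rw [IsHermitian, conjTranspose_eq_transpose_of_trivial, transpose_neg, (hZ i).eq]
  have hrad : ∀ x : Fin b → Bool, Kh.rad (fun i => -Z i) x = ∑ i, SDX.sg (x i) • Z i := by
    intro x
    unfold Kh.rad
    refine Finset.sum_congr rfl fun i _ => ?_
    cases x i <;> simp [Kh.sg, SDX.sg]
  have hσ' : (σ₂ • (1 : Matrix ι ι ℝ) - ∑ i, (-Z i) * (-Z i)).PosSemidef := by
    simpa only [neg_mul_neg] using hσ
  rcases isEmpty_or_nonempty ι with hι | hι
  · refine ⟨∅, ?_, fun x _ => ?_⟩
    · simp
    · have : u • (1 : Matrix ι ι ℝ) + ∑ i, SDX.sg (x i) • Z i = 0 := Subsingleton.elim _ _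
      rw [this]
      exact PosSemidef.zero
  · have hσ0 : 0 ≤ σ₂ := by
      obtain ⟨i₀⟩ := hι
      have h1 : (∑ i, Z i * Z i).PosSemidef := by
        refine Matrix.posSemidef_sum _ fun i _ => ?_
        have := Matrix.posSemidef_conjTranspose_mul_self (Z i)
        rwa [conjTranspose_eq_transpose_of_trivial, (hZ i).eq] at this
      have h2 : (σ₂ • (1 : Matrix ι ι ℝ)).PosSemidef := by
        have := hσ.add h1
        rwa [sub_add_cancel] at this
      have h3 := h2.diag_nonneg (i := i₀)
      simpa using h3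
    refine ⟨Finset.univ.filter fun x : Fin b → Bool =>
      ¬ (u • (1 : Matrix ι ι ℝ) + Kh.rad (fun i => -Z i) x).PosSemidef, ?_, fun x hx => ?_⟩
    · refine (Kh.card_bad_le hH hσ0 hσ' p hu).trans ?_
      rw [Fintype.card_fin]
      have h4 : ((p : ℝ) * σ₂ / u ^ 2) ^ p ≤ (2 * p * σ₂ / u ^ 2) ^ p := by
        refine pow_le_pow_left₀ (by positivity) ?_ p
        refine div_le_div_of_nonneg_right ?_ (by positivity)
        nlinarith [mul_nonneg (Nat.cast_nonneg (α := ℝ) p) hσ0]
      calc (2 : ℝ) ^ b * Fintype.card ι * ((p : ℝ) * σ₂ / u ^ 2) ^ p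
          ≤ (2 : ℝ) ^ b * Fintype.card ι * (2 * p * σ₂ / u ^ 2) ^ p :=
            mul_le_mul_of_nonneg_left h4 (by positivity)
        _ = _ := by ring
    · rw [Finset.mem_filter] at hx
      simp only [Finset.mem_univ, true_and, not_not] at hx
      rwa [hrad] at hx

end LIFT
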