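import Mathlib
import Pool.Agent.Helper71.SDX.Defs
import Pool.Agent.LIFT.Khin

/-!
# LIFT: the core step (one block)

Real symmetric matrices `F i`, `f i`, `n i` with the two by two block inequality; the sum
`∑ (F i ± f i)` is bounded below for almost all signs.
-/

set_option autoImplicit false
set_option linter.unusedSectionVars false

open scoped BigOperators Matrix

namespace LIFT

namespace h70

variable {ι : Type} [Fintype ι] [DecidableEq ι]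

/-- symmetric matrices and the dot product -/
theorem dot_comm {M : Matrix ι ι ℝ} (hM : M.IsHermitian) (u v : ι → ℝ) :
    u ⬝ᵥ M *ᵥ v = v ⬝ᵥ M *ᵥ u := by
  have h : Mᵀ = M := by
    have := hM.eq
    rwa [Matrix.conjTranspose_eq_transpose_of_trivial] at this
  rw [Matrix.dotProduct_mulVec, ← Matrix.mulVec_transpose, h, dotProduct_comm]

theorem dot_mul {M : Matrix ι ι ℝ} (hM : M.IsHermitian) (u v : ι → ℝ) :
    (M *ᵥ u) ⬝ᵥ v = u ⬝ᵥ M *ᵥ v := by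
  rw [dotProduct_comm, dot_comm hM]

theorem dot_nonneg (u : ι → ℝ) : 0 ≤ u ⬝ᵥ u := by
  rw [dotProduct]
  exact Finset.sum_nonneg fun i _ => mul_self_nonneg _

theorem psd_iff {M : Matrix ι ι ℝ} :
    M.PosSemidef ↔ M.IsHermitian ∧ ∀ v, 0 ≤ v ⬝ᵥ M *ᵥ v := by
  rw [Matrix.posSemidef_iff_dotProduct_mulVec]
  simp

/-- `|n v|² ≤ q (v, n v)` if `0 ≤ n ≤ q` -/
theorem sq_le {n : Matrix ι ι ℝ} (hn : n.PosSemidef) {q : ℝ} (hq : 0 < q)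
    (h : ∀ v, v ⬝ᵥ n *ᵥ v ≤ q * (v ⬝ᵥ v)) (v : ι → ℝ) :
    (n *ᵥ v) ⬝ᵥ (n *ᵥ v) ≤ q * (v ⬝ᵥ n *ᵥ v) := by
  have h1 := (psd_iff.1 hn).2 (q • v - n *ᵥ v)
  have h2 := h (n *ᵥ v)
  have hs := hn.isHermitian
  have e1 : (q • v - n *ᵥ v) ⬝ᵥ n *ᵥ (q • v - n *ᵥ v)
      = q ^ 2 * (v ⬝ᵥ n *ᵥ v) - 2 * q * ((n *ᵥ v) ⬝ᵥ (n *ᵥ v))
        + (n *ᵥ v) ⬝ᵥ n *ᵥ (n *ᵥ v) := by
    rw [Matrix.mulVec_sub, Matrix.mulVec_smul, sub_dotProduct, dotProduct_sub, dotProduct_sub,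
      smul_dotProduct, smul_dotProduct, dotProduct_smul, dotProduct_smul]
    rw [← dot_mul hs v (n *ᵥ v)]
    simp only [smul_eq_mul]
    ring
  rw [e1] at h1
  have h3 : q * ((n *ᵥ v) ⬝ᵥ (n *ᵥ v)) ≤ q * (q * (v ⬝ᵥ n *ᵥ v)) := by nlinarith
  exact le_of_mul_le_mul_left h3 hq

/-- the truncation of a positive semidefinite matrix -/
theorem exists_trunc {M : Matrix ι ι ℝ} (hM : M.PosSemidef) {R : ℝ} (hR : 0 < R) :
    ∃ G : Matrix ι ι ℝ, G.IsHermitian ∧ (∀ v, M *ᵥ (G *ᵥ v) + R • (G *ᵥ v) = v) := by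
  have h1 : (M + R • (1 : Matrix ι ι ℝ)).PosDef :=
    Matrix.PosDef.posSemidef_add hM (Matrix.PosDef.one.smul hR)
  refine ⟨(M + R • (1 : Matrix ι ι ℝ))⁻¹, h1.inv.isHermitian, fun v => ?_⟩
  have h2 : IsUnit (M + R • (1 : Matrix ι ι ℝ)) := h1.isUnit
  have h3 : (M + R • (1 : Matrix ι ι ℝ)) * (M + R • (1 : Matrix ι ι ℝ))⁻¹ = 1 :=
    Matrix.mul_nonsing_inv _ ((Matrix.isUnit_iff_isUnit_det _).1 h2)
  have h4 : (M + R • (1 : Matrix ι ι ℝ)) *ᵥ ((M + R • (1 : Matrix ι ι ℝ))⁻¹ *ᵥ v) = v := by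
    rw [Matrix.mulVec_mulVec, h3, Matrix.one_mulVec]
  rw [Matrix.add_mulVec, Matrix.smul_mulVec, Matrix.one_mulVec] at h4
  exact h4

/-- the truncation `R M / (R + M)` -/
theorem trunc_props {M : Matrix ι ι ℝ} (hM : M.PosSemidef) {R : ℝ} (hR : 0 < R)
    {G : Matrix ι ι ℝ} (hG : ∀ v, M *ᵥ (G *ᵥ v) + R • (G *ᵥ v) = v) (v : ι → ℝ) :
    0 ≤ R * (v ⬝ᵥ v) - R ^ 2 * (v ⬝ᵥ G *ᵥ v) ∧
    R * (v ⬝ᵥ v) - R ^ 2 * (v ⬝ᵥ G *ᵥ v) ≤ v ⬝ᵥ M *ᵥ v ∧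
    (R • v - R ^ 2 • (G *ᵥ v)) ⬝ᵥ (R • v - R ^ 2 • (G *ᵥ v))
      ≤ R * (R * (v ⬝ᵥ v) - R ^ 2 * (v ⬝ᵥ G *ᵥ v)) := by
  have hs := hM.isHermitian
  set w := G *ᵥ v with hw
  have hv : v = M *ᵥ w + R • w := (hG v).symm
  have p1 := (psd_iff.1 hM).2 w
  have p2 := (psd_iff.1 hM).2 (M *ᵥ w)
  have p3 := dot_nonneg (M *ᵥ w)
  -- the scalars
  have e1 : v ⬝ᵥ w = (w ⬝ᵥ M *ᵥ w) + R * (w ⬝ᵥ w) := by
    rw [hv, add_dotProduct, smul_dotProduct, dot_mul hs, smul_eq_mul]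
  have e2 : v ⬝ᵥ v = (M *ᵥ w) ⬝ᵥ (M *ᵥ w) + 2 * R * (w ⬝ᵥ M *ᵥ w) + R ^ 2 * (w ⬝ᵥ w) := by
    rw [hv, add_dotProduct, dotProduct_add, dotProduct_add, smul_dotProduct, smul_dotProduct,
      dotProduct_smul, dotProduct_smul, dot_mul hs w w]
    simp only [smul_eq_mul]
    ring
  have e3 : v ⬝ᵥ M *ᵥ v = (M *ᵥ w) ⬝ᵥ M *ᵥ (M *ᵥ w) + 2 * R * ((M *ᵥ w) ⬝ᵥ (M *ᵥ w))
      + R ^ 2 * (w ⬝ᵥ M *ᵥ w) := by
    rw [hv, Matrix.mulVec_add, Matrix.mulVec_smul, add_dotProduct, dotProduct_add,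
      dotProduct_add, smul_dotProduct, smul_dotProduct, dotProduct_smul, dotProduct_smul,
      ← dot_mul hs w (M *ᵥ w)]
    simp only [smul_eq_mul]
    ring
  have e4 : R • v - R ^ 2 • w = R • (M *ᵥ w) := by
    rw [hv, smul_add, smul_smul, ← sq]
    abel
  refine ⟨?_, ?_, ?_⟩
  · rw [e1, e2]
    nlinarith [mul_nonneg hR.le p1, mul_nonneg hR.le p3, mul_nonneg (mul_nonneg hR.le hR.le) p1]
  · rw [e1, e2, e3]
    nlinarith [mul_nonneg hR.le p3]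
  · rw [e4, smul_dotProduct, dotProduct_smul, smul_eq_mul, smul_eq_mul, e1, e2]
    nlinarith [mul_nonneg (mul_nonneg (mul_nonneg hR.le hR.le) hR.le) p1]

/-- the quadratic upper bound -/
theorem quad_bound {n : Matrix ι ι ℝ} (hn : n.PosSemidef) {k R : ℝ} (hk : 0 ≤ k) (hR : 0 < R)
    (v p : ι → ℝ) :
    2 * (v ⬝ᵥ p) - k * (p ⬝ᵥ n *ᵥ p) - R * (p ⬝ᵥ p)
      ≤ (v ⬝ᵥ v) / R - k / R ^ 2 * (v ⬝ᵥ n *ᵥ v)
        + k ^ 2 / R ^ 3 * ((n *ᵥ v) ⬝ᵥ (n *ᵥ v)) := by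
  have hs := hn.isHermitian
  obtain ⟨w, hw⟩ : ∃ w, p = R⁻¹ • v + w := ⟨p - R⁻¹ • v, by abel⟩
  have h1 := (psd_iff.1 hn).2 w
  have h2 := dot_nonneg (w + (k / R ^ 2) • (n *ᵥ v))
  have e1 : (w + (k / R ^ 2) • (n *ᵥ v)) ⬝ᵥ (w + (k / R ^ 2) • (n *ᵥ v))
      = w ⬝ᵥ w + 2 * (k / R ^ 2) * (w ⬝ᵥ n *ᵥ v)
        + (k / R ^ 2) ^ 2 * ((n *ᵥ v) ⬝ᵥ (n *ᵥ v)) := by
    rw [add_dotProduct, dotProduct_add, dotProduct_add, smul_dotProduct, smul_dotProduct,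
      dotProduct_smul, dotProduct_smul, dotProduct_comm (n *ᵥ v) w]
    simp only [smul_eq_mul]
    ring
  have e2 : v ⬝ᵥ p = R⁻¹ * (v ⬝ᵥ v) + v ⬝ᵥ w := by
    rw [hw, dotProduct_add, dotProduct_smul, smul_eq_mul]
  have e3 : p ⬝ᵥ p = R⁻¹ ^ 2 * (v ⬝ᵥ v) + 2 * R⁻¹ * (v ⬝ᵥ w) + w ⬝ᵥ w := by
    rw [hw, add_dotProduct, dotProduct_add, dotProduct_add, smul_dotProduct, smul_dotProduct,
      dotProduct_smul, dotProduct_smul, dotProduct_comm w v]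
    simp only [smul_eq_mul]
    ring
  have e4 : p ⬝ᵥ n *ᵥ p = R⁻¹ ^ 2 * (v ⬝ᵥ n *ᵥ v) + 2 * R⁻¹ * (w ⬝ᵥ n *ᵥ v)
      + w ⬝ᵥ n *ᵥ w := by
    rw [hw, Matrix.mulVec_add, Matrix.mulVec_smul, add_dotProduct, dotProduct_add,
      dotProduct_add, smul_dotProduct, smul_dotProduct, dotProduct_smul, dotProduct_smul,
      dot_comm hs v w]
    simp only [smul_eq_mul]
    ring
  rw [e1] at h2
  rw [e2, e3, e4]
  have hR' : R ≠ 0 := hR.ne'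
  have h3 := mul_nonneg hR.le h2
  have h4 : 0 ≤ k * (w ⬝ᵥ n *ᵥ w) := mul_nonneg hk h1
  have e5 : R * (w ⬝ᵥ w + 2 * (k / R ^ 2) * (w ⬝ᵥ n *ᵥ v)
      + (k / R ^ 2) ^ 2 * ((n *ᵥ v) ⬝ᵥ (n *ᵥ v)))
      = R * (w ⬝ᵥ w) + 2 * k * R⁻¹ * (w ⬝ᵥ n *ᵥ v)
        + k ^ 2 / R ^ 3 * ((n *ᵥ v) ⬝ᵥ (n *ᵥ v)) := by
    field_simp
  rw [e5] at h3
  have e6 : 2 * (R⁻¹ * (v ⬝ᵥ v) + v ⬝ᵥ w)
      - k * (R⁻¹ ^ 2 * (v ⬝ᵥ n *ᵥ v) + 2 * R⁻¹ * (w ⬝ᵥ n *ᵥ v) + w ⬝ᵥ n *ᵥ w)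
      - R * (R⁻¹ ^ 2 * (v ⬝ᵥ v) + 2 * R⁻¹ * (v ⬝ᵥ w) + w ⬝ᵥ w)
      = (v ⬝ᵥ v) / R - k / R ^ 2 * (v ⬝ᵥ n *ᵥ v)
        - (R * (w ⬝ᵥ w) + 2 * k * R⁻¹ * (w ⬝ᵥ n *ᵥ v)) - k * (w ⬝ᵥ n *ᵥ w) := by
    field_simp
    ring
  rw [e6]
  linarith

/-- the averaged truncation is large -/
theorem avg_trunc {F f n : Matrix ι ι ℝ} (hF : F.IsHermitian) (hf : f.IsHermitian)
    (hn : n.PosSemidef) {lam c k q R : ℝ} (hc : c = (1 + lam ^ 2) / 2) (hk : k = (lam ^ 2 - 1) / 2)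
    (hk0 : 0 ≤ k) (hq : 0 < q) (hR : 0 < R) (hkR : k * q ≤ R)
    (H : ∀ u v : ι → ℝ, 0 ≤ u ⬝ᵥ F *ᵥ u + u ⬝ᵥ n *ᵥ u + 2 * (u ⬝ᵥ f *ᵥ v) + v ⬝ᵥ F *ᵥ v
      + lam ^ 2 * (v ⬝ᵥ n *ᵥ v))
    (hnq : ∀ v, v ⬝ᵥ n *ᵥ v ≤ q * (v ⬝ᵥ v)) {G G' : Matrix ι ι ℝ}
    (hG : ∀ v, (F + c • n + f) *ᵥ (G *ᵥ v) + R • (G *ᵥ v) = v)
    (hG' : ∀ v, (F + c • n - f) *ᵥ (G' *ᵥ v) + R • (G' *ᵥ v) = v) (v : ι → ℝ) :
    (1 - k * q / R) * (k * (v ⬝ᵥ n *ᵥ v))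
      ≤ ((R * (v ⬝ᵥ v) - R ^ 2 * (v ⬝ᵥ G *ᵥ v)) + (R * (v ⬝ᵥ v) - R ^ 2 * (v ⬝ᵥ G' *ᵥ v))) / 2 := by
  have hs := hn.isHermitian
  obtain ⟨p, r, hp, hr⟩ : ∃ p r : ι → ℝ, G *ᵥ v = p + r ∧ G' *ᵥ v = p - r := by
    refine ⟨(2 : ℝ)⁻¹ • (G *ᵥ v + G' *ᵥ v), (2 : ℝ)⁻¹ • (G *ᵥ v - G' *ᵥ v), ?_, ?_⟩
    · rw [← smul_add]
      have : G *ᵥ v + G' *ᵥ v + (G *ᵥ v - G' *ᵥ v) = (2 : ℝ) • (G *ᵥ v) := by
        rw [two_smul]; abel
      rw [this, smul_smul]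
      norm_num
    · rw [← smul_sub]
      have : G *ᵥ v + G' *ᵥ v - (G *ᵥ v - G' *ᵥ v) = (2 : ℝ) • (G' *ᵥ v) := by
        rw [two_smul]; abel
      rw [this, smul_smul]
      norm_num
  have g1 := hG v
  have g2 := hG' v
  rw [hp] at g1
  rw [hr] at g2
  have m1 : (p + r) ⬝ᵥ v = (p + r) ⬝ᵥ F *ᵥ (p + r) + c * ((p + r) ⬝ᵥ n *ᵥ (p + r))
      + (p + r) ⬝ᵥ f *ᵥ (p + r) + R * ((p + r) ⬝ᵥ (p + r)) := by
    conv_lhs => rw [← g1]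
    rw [Matrix.add_mulVec, Matrix.add_mulVec, Matrix.smul_mulVec, dotProduct_add,
      dotProduct_add, dotProduct_add, dotProduct_smul, dotProduct_smul]
    simp only [smul_eq_mul]
  have m2 : (p - r) ⬝ᵥ v = (p - r) ⬝ᵥ F *ᵥ (p - r) + c * ((p - r) ⬝ᵥ n *ᵥ (p - r))
      - (p - r) ⬝ᵥ f *ᵥ (p - r) + R * ((p - r) ⬝ᵥ (p - r)) := by
    conv_lhs => rw [← g2]
    rw [Matrix.sub_mulVec, Matrix.add_mulVec, Matrix.smul_mulVec, dotProduct_add,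
      dotProduct_sub, dotProduct_add, dotProduct_smul, dotProduct_smul]
    simp only [smul_eq_mul]
  have q1 : ∀ M : Matrix ι ι ℝ, M.IsHermitian →
      (p + r) ⬝ᵥ M *ᵥ (p + r) = p ⬝ᵥ M *ᵥ p + 2 * (p ⬝ᵥ M *ᵥ r) + r ⬝ᵥ M *ᵥ r := by
    intro M hM
    rw [Matrix.mulVec_add, add_dotProduct, dotProduct_add, dotProduct_add, dot_comm hM r p]
    ring
  have q2 : ∀ M : Matrix ι ι ℝ, M.IsHermitian →
      (p - r) ⬝ᵥ M *ᵥ (p - r) = p ⬝ᵥ M *ᵥ p - 2 * (p ⬝ᵥ M *ᵥ r) + r ⬝ᵥ M *ᵥ r := by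
    intro M hM
    rw [Matrix.mulVec_sub, sub_dotProduct, dotProduct_sub, dotProduct_sub, dot_comm hM r p]
    ring
  have q3 : (p + r) ⬝ᵥ (p + r) = p ⬝ᵥ p + 2 * (p ⬝ᵥ r) + r ⬝ᵥ r := by
    rw [add_dotProduct, dotProduct_add, dotProduct_add, dotProduct_comm r p]
    ring
  have q4 : (p - r) ⬝ᵥ (p - r) = p ⬝ᵥ p - 2 * (p ⬝ᵥ r) + r ⬝ᵥ r := by
    rw [sub_dotProduct, dotProduct_sub, dotProduct_sub, dotProduct_comm r p]
    ring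
  rw [q1 F hF, q1 n hs, q1 f hf, q3, add_dotProduct] at m1
  rw [q2 F hF, q2 n hs, q2 f hf, q4, sub_dotProduct] at m2
  -- the value `p ⬝ v`
  have hval : p ⬝ᵥ v = p ⬝ᵥ F *ᵥ p + r ⬝ᵥ F *ᵥ r + c * (p ⬝ᵥ n *ᵥ p + r ⬝ᵥ n *ᵥ r)
      + 2 * (p ⬝ᵥ f *ᵥ r) + R * (p ⬝ᵥ p + r ⬝ᵥ r) := by linarith
  have hH := H p r
  have hr1 := hnq r
  have hr0 := (psd_iff.1 hn).2 r
  have hrr := dot_nonneg r
  have hkey : k * (p ⬝ᵥ n *ᵥ p) + R * (p ⬝ᵥ p) ≤ p ⬝ᵥ v := by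
    have h1 : k * (r ⬝ᵥ n *ᵥ r) ≤ R * (r ⬝ᵥ r) := by
      calc k * (r ⬝ᵥ n *ᵥ r) ≤ k * (q * (r ⬝ᵥ r)) := mul_le_mul_of_nonneg_left hr1 hk0
        _ = (k * q) * (r ⬝ᵥ r) := by ring
        _ ≤ R * (r ⬝ᵥ r) := mul_le_mul_of_nonneg_right hkR hrr
    have e1 : c - 1 = k := by rw [hc, hk]; ring
    have e2 : c - lam ^ 2 = -k := by rw [hc, hk]; ring
    have e3 : c = 1 + k := by linarith
    have e4 : lam ^ 2 = c + k := by linarith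
    rw [hval]
    rw [e4] at hH
    rw [e3] at hH ⊢
    linarith
  have hqb := quad_bound hn hk0 hR v p
  have hsq := sq_le hn hq hnq v
  have hvn := (psd_iff.1 hn).2 v
  have hcomm : v ⬝ᵥ p = p ⬝ᵥ v := dotProduct_comm v p
  have hle : v ⬝ᵥ p ≤ (v ⬝ᵥ v) / R - k / R ^ 2 * (v ⬝ᵥ n *ᵥ v)
        + k ^ 2 / R ^ 3 * (q * (v ⬝ᵥ n *ᵥ v)) := by
    have h1 : k ^ 2 / R ^ 3 * ((n *ᵥ v) ⬝ᵥ (n *ᵥ v)) ≤ k ^ 2 / R ^ 3 * (q * (v ⬝ᵥ n *ᵥ v)) :=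
      mul_le_mul_of_nonneg_left hsq (by positivity)
    linarith
  rw [hp, hr, dotProduct_add, dotProduct_sub]
  have h5 : R ^ 2 * (v ⬝ᵥ p) ≤ R * (v ⬝ᵥ v) - k * (v ⬝ᵥ n *ᵥ v)
        + k ^ 2 / R * (q * (v ⬝ᵥ n *ᵥ v)) := by
    calc R ^ 2 * (v ⬝ᵥ p) ≤ R ^ 2 * ((v ⬝ᵥ v) / R - k / R ^ 2 * (v ⬝ᵥ n *ᵥ v)
        + k ^ 2 / R ^ 3 * (q * (v ⬝ᵥ n *ᵥ v))) := mul_le_mul_of_nonneg_left hle (by positivity)
      _ = _ := by field_simp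
  have h6 : (1 - k * q / R) * (k * (v ⬝ᵥ n *ᵥ v))
      = k * (v ⬝ᵥ n *ᵥ v) - k ^ 2 / R * (q * (v ⬝ᵥ n *ᵥ v)) := by
    field_simp
  rw [h6]
  linarith

/-- a positive definite matrix is congruent to the identity -/
theorem exists_congr {A : Matrix ι ι ℝ} (hA : A.PosDef) :
    ∃ C C' : Matrix ι ι ℝ, C.IsHermitian ∧ C * A * C = 1 ∧ C * C' = 1 ∧ C' * C = 1 := by
  open scoped MatrixOrder in
  set C := CFC.sqrt A⁻¹ with hC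
  have hAi : A⁻¹.PosDef := hA.inv
  have h0 : (0 : Matrix ι ι ℝ) ≤ A⁻¹ := Matrix.nonneg_iff_posSemidef.2 hAi.posSemidef
  have hCC : C * C = A⁻¹ := CFC.sqrt_mul_sqrt_self A⁻¹ h0
  have hCp : C.PosSemidef := Matrix.nonneg_iff_posSemidef.1 (CFC.sqrt_nonneg _)
  have hdet : IsUnit A.det := (Matrix.isUnit_iff_isUnit_det _).1 hA.isUnit
  have hU : IsUnit C := by
    have h1 : C * (C * A) = 1 := by
      rw [← Matrix.mul_assoc, hCC, Matrix.nonsing_inv_mul _ hdet]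
    exact IsUnit.of_mul_eq_one _ h1
  have hCd : IsUnit C.det := (Matrix.isUnit_iff_isUnit_det _).1 hU
  refine ⟨C, C⁻¹, hCp.isHermitian, ?_, Matrix.mul_nonsing_inv _ hCd,
    Matrix.nonsing_inv_mul _ hCd⟩
  have h1 : C * (C * A) = 1 := by
    rw [← Matrix.mul_assoc, hCC, Matrix.nonsing_inv_mul _ hdet]
  exact mul_eq_one_comm.1 h1

/-- the tail form of the matrix Khintchine inequality -/
theorem tail {β : Type} [Fintype β] [DecidableEq β] (p : ℕ) (W : β → Matrix ι ι ℝ)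
    (hW : ∀ i, (W i).IsHermitian) (σ : ℝ) (hσ : 0 ≤ σ)
    (hsum : ∀ v : ι → ℝ, ∑ i, (W i *ᵥ v) ⬝ᵥ (W i *ᵥ v) ≤ σ * (v ⬝ᵥ v)) (t : ℝ) (ht : 0 < t)
    (hts : Real.exp 1 * p * σ ≤ t ^ 2) :
    ∃ bad : Finset (β → Bool),
      (bad.card : ℝ) ≤ 2 ^ Fintype.card β * Fintype.card ι * Real.exp (-p) ∧
      ∀ x ∉ bad, ∀ v : ι → ℝ, -t * (v ⬝ᵥ v) ≤ ∑ i, SDX.sg (x i) * (v ⬝ᵥ W i *ᵥ v) := by
  classical
  have hW' : ∀ i, (-(W i)).IsHermitian := fun i => (hW i).neg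
  have hsym : ∀ i, (W i * W i).IsHermitian := fun i => by
    rw [Matrix.IsHermitian, Matrix.conjTranspose_mul, (hW i).eq]
  have hs : (σ • (1 : Matrix ι ι ℝ) - ∑ i, (-(W i)) * (-(W i))).PosSemidef := by
    simp only [neg_mul_neg]
    refine psd_iff.2 ⟨?_, fun v => ?_⟩
    · have h1 : (σ • (1 : Matrix ι ι ℝ)).IsHermitian := by
        rw [Matrix.IsHermitian, Matrix.conjTranspose_smul, Matrix.conjTranspose_one, star_trivial]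
      refine h1.sub ?_
      rw [Matrix.IsHermitian, Matrix.conjTranspose_sum]
      exact Finset.sum_congr rfl fun i _ => (hsym i).eq
    · rw [Matrix.sub_mulVec, Matrix.smul_mulVec, Matrix.one_mulVec, dotProduct_sub,
        dotProduct_smul, Matrix.sum_mulVec, dotProduct_sum, smul_eq_mul]
      have h1 : ∀ i, v ⬝ᵥ (W i * W i) *ᵥ v = (W i *ᵥ v) ⬝ᵥ (W i *ᵥ v) := fun i => by
        rw [dot_mul (hW i), Matrix.mulVec_mulVec]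
      rw [Finset.sum_congr rfl (fun i _ => h1 i)]
      linarith [hsum v]
  refine ⟨Finset.univ.filter fun x : β → Bool =>
    ¬ (t • (1 : Matrix ι ι ℝ) + Kh.rad (fun i => -(W i)) x).PosSemidef, ?_, fun x hx v => ?_⟩
  · refine (Kh.card_bad_le hW' hσ hs p ht).trans ?_
    refine mul_le_mul_of_nonneg_left ?_ (by positivity)
    have h3 : (p : ℝ) * σ / t ^ 2 ≤ Real.exp (-1) := by
      rw [div_le_iff₀ (by positivity), Real.exp_neg, inv_mul_eq_div,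
        le_div_iff₀ (Real.exp_pos 1)]
      linarith
    calc ((p : ℝ) * σ / t ^ 2) ^ p ≤ Real.exp (-1) ^ p :=
          pow_le_pow_left₀ (by positivity) h3 _
      _ = Real.exp (-(p : ℝ)) := by
          rw [← Real.exp_nat_mul]
          congr 1
          ring
  · have h1 : (t • (1 : Matrix ι ι ℝ) + Kh.rad (fun i => -(W i)) x).PosSemidef := by
      by_contra hcon
      exact hx (Finset.mem_filter.2 ⟨Finset.mem_univ _, hcon⟩)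
    have h2 := (psd_iff.1 h1).2 v
    rw [Matrix.add_mulVec, Matrix.smul_mulVec, Matrix.one_mulVec, dotProduct_add,
      dotProduct_smul, smul_eq_mul, Kh.rad, Matrix.sum_mulVec, dotProduct_sum] at h2
    have h3 : ∀ i, v ⬝ᵥ (Kh.sg (x i) • -(W i)) *ᵥ v = SDX.sg (x i) * (v ⬝ᵥ W i *ᵥ v) := by
      intro i
      rw [Matrix.smul_mulVec, Matrix.neg_mulVec, dotProduct_smul, dotProduct_neg, smul_eq_mul]
      unfold Kh.sg SDX.sg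
      cases x i <;> simp
    rw [Finset.sum_congr rfl (fun i _ => h3 i)] at h2
    linarith

theorem mulVec_smul_sub (G : Matrix ι ι ℝ) (R : ℝ) (v : ι → ℝ) :
    (R • (1 : Matrix ι ι ℝ) - R ^ 2 • G) *ᵥ v = R • v - R ^ 2 • (G *ᵥ v) := by
  rw [Matrix.sub_mulVec, Matrix.smul_mulVec, Matrix.smul_mulVec, Matrix.one_mulVec]

/-- the core step in normalised form -/
theorem core_norm {β : Type} [Fintype β] [DecidableEq β] {a : ℕ}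
    (F f n : β → Matrix ι ι ℝ) (hF : ∀ i, (F i).IsHermitian) (hf : ∀ i, (f i).IsHermitian)
    (hn : ∀ i, (n i).PosSemidef) {lam c k q R s η : ℝ}
    (hc : c = (1 + lam ^ 2) / 2) (hk : k = (lam ^ 2 - 1) / 2) (hk0 : 0 ≤ k) (hq : 0 < q)
    (hR : 0 < R) (hs : 0 < s) (hη : 0 < η) (hη1 : η ≤ 1) (hkR : k * q ≤ R * η)
    (haR : Real.exp 1 * a * (R / s) ≤ η ^ 2)
    (H : ∀ i, ∀ u v : ι → ℝ, 0 ≤ u ⬝ᵥ F i *ᵥ u + u ⬝ᵥ n i *ᵥ u + 2 * (u ⬝ᵥ f i *ᵥ v)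
      + v ⬝ᵥ F i *ᵥ v + lam ^ 2 * (v ⬝ᵥ n i *ᵥ v))
    (hnq : ∀ i, ∀ v, v ⬝ᵥ n i *ᵥ v ≤ q * (v ⬝ᵥ v))
    (hn1 : ∀ v, ∑ i, v ⬝ᵥ n i *ᵥ v ≤ v ⬝ᵥ v) :
    ∃ bad : Finset (β → Bool),
      (bad.card : ℝ) ≤ 2 ^ Fintype.card β * Fintype.card ι * Real.exp (-a) ∧
      ∀ x ∉ bad, ∀ v : ι → ℝ, -(1 + 2 * η * k + η * s) * (v ⬝ᵥ v)
        ≤ ∑ i, (v ⬝ᵥ F i *ᵥ v + SDX.sg (x i) * (v ⬝ᵥ f i *ᵥ v)) := by
  have hkR' : k * q ≤ R := hkR.trans (by nlinarith)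
  -- the two signed matrices
  have hMs : ∀ i, (F i + c • n i).IsHermitian := fun i => by
    have h1 : (c • n i).IsHermitian := by
      rw [Matrix.IsHermitian, Matrix.conjTranspose_smul, (hn i).isHermitian.eq, star_trivial]
    exact (hF i).add h1
  have hMval : ∀ i v, v ⬝ᵥ (F i + c • n i) *ᵥ v = v ⬝ᵥ F i *ᵥ v + c * (v ⬝ᵥ n i *ᵥ v) := by
    intro i v
    rw [Matrix.add_mulVec, Matrix.smul_mulVec, dotProduct_add, dotProduct_smul, smul_eq_mul]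
  have hMp : ∀ i, (F i + c • n i + f i).PosSemidef := by
    intro i
    refine psd_iff.2 ⟨(hMs i).add (hf i), fun v => ?_⟩
    rw [Matrix.add_mulVec, dotProduct_add, hMval, hc]
    have := H i v v
    linarith
  have hMm : ∀ i, (F i + c • n i - f i).PosSemidef := by
    intro i
    refine psd_iff.2 ⟨(hMs i).sub (hf i), fun v => ?_⟩
    rw [Matrix.sub_mulVec, dotProduct_sub, hMval, hc]
    have := H i v (-v)
    rw [Matrix.mulVec_neg, Matrix.mulVec_neg, Matrix.mulVec_neg, dotProduct_neg, neg_dotProduct,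
      neg_dotProduct, dotProduct_neg, dotProduct_neg] at this
    linarith
  choose Gp hGps hGp using fun i => exists_trunc (hMp i) hR
  choose Gm hGms hGm using fun i => exists_trunc (hMm i) hR
  have tp := fun i => trunc_props (hMp i) hR (hGp i)
  have tm := fun i => trunc_props (hMm i) hR (hGm i)
  -- the averages and the differences
  set E : β → Matrix ι ι ℝ := fun i => R • (1 : Matrix ι ι ℝ) - (R ^ 2 / 2) • (Gp i + Gm i)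
    with hE
  set Z : β → Matrix ι ι ℝ := fun i => (R ^ 2 / 2) • (Gm i - Gp i) with hZ
  have hEval : ∀ i v, v ⬝ᵥ E i *ᵥ v = ((R * (v ⬝ᵥ v) - R ^ 2 * (v ⬝ᵥ Gp i *ᵥ v))
      + (R * (v ⬝ᵥ v) - R ^ 2 * (v ⬝ᵥ Gm i *ᵥ v))) / 2 := by
    intro i v
    simp only [hE]
    rw [Matrix.sub_mulVec, Matrix.smul_mulVec, Matrix.one_mulVec, Matrix.smul_mulVec,
      Matrix.add_mulVec, dotProduct_sub, dotProduct_smul, dotProduct_smul, dotProduct_add]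
    simp only [smul_eq_mul]
    ring
  have hZval : ∀ i v, v ⬝ᵥ Z i *ᵥ v = ((R * (v ⬝ᵥ v) - R ^ 2 * (v ⬝ᵥ Gp i *ᵥ v))
      - (R * (v ⬝ᵥ v) - R ^ 2 * (v ⬝ᵥ Gm i *ᵥ v))) / 2 := by
    intro i v
    simp only [hZ]
    rw [Matrix.smul_mulVec, Matrix.sub_mulVec, dotProduct_smul, dotProduct_sub]
    simp only [smul_eq_mul]
    ring
  have hsm : ∀ (r : ℝ) (M : Matrix ι ι ℝ), M.IsHermitian → (r • M).IsHermitian := by
    intro r M hM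
    rw [Matrix.IsHermitian, Matrix.conjTranspose_smul, hM.eq, star_trivial]
  have hZs : ∀ i, (Z i).IsHermitian := fun i => hsm _ _ ((hGms i).sub (hGps i))
  have hEs : ∀ i, (E i).IsHermitian := fun i =>
    (hsm _ _ Matrix.isHermitian_one).sub (hsm _ _ ((hGps i).add (hGms i)))
  have hE0 : ∀ i v, 0 ≤ v ⬝ᵥ E i *ᵥ v := by
    intro i v
    rw [hEval]
    have h1 := (tp i v).1
    have h2 := (tm i v).1
    linarith
  have hElow : ∀ i v, (1 - η) * (k * (v ⬝ᵥ n i *ᵥ v)) ≤ v ⬝ᵥ E i *ᵥ v := by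
    intro i v
    rw [hEval]
    refine le_trans ?_ (avg_trunc (hF i) (hf i) (hn i) hc hk hk0 hq hR hkR' (H i) (hnq i)
      (hGp i) (hGm i) v)
    have h1 : k * q / R ≤ η := by
      rw [div_le_iff₀ hR]
      linarith
    have h2 := (psd_iff.1 (hn i)).2 v
    exact mul_le_mul_of_nonneg_right (by linarith) (mul_nonneg hk0 h2)
  have hZsq : ∀ i v, (Z i *ᵥ v) ⬝ᵥ (Z i *ᵥ v) ≤ R * (v ⬝ᵥ E i *ᵥ v) := by
    intro i v
    obtain ⟨A, hA⟩ : ∃ A, A = R • v - R ^ 2 • (Gp i *ᵥ v) := ⟨_, rfl⟩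
    obtain ⟨A', hA'⟩ : ∃ A', A' = R • v - R ^ 2 • (Gm i *ᵥ v) := ⟨_, rfl⟩
    have e1 : Z i *ᵥ v = (2 : ℝ)⁻¹ • (A - A') := by
      rw [hA, hA']
      simp only [hZ]
      rw [Matrix.smul_mulVec, Matrix.sub_mulVec]
      ext j
      simp only [Pi.smul_apply, Pi.sub_apply, smul_eq_mul]
      ring
    have e2 : (A - A') ⬝ᵥ (A - A') ≤ 2 * (A ⬝ᵥ A + A' ⬝ᵥ A') := by
      have := dot_nonneg (A + A')
      have e3 : (A + A') ⬝ᵥ (A + A') = A ⬝ᵥ A + 2 * (A ⬝ᵥ A') + A' ⬝ᵥ A' := by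
        rw [add_dotProduct, dotProduct_add, dotProduct_add, dotProduct_comm A' A]
        ring
      have e4 : (A - A') ⬝ᵥ (A - A') = A ⬝ᵥ A - 2 * (A ⬝ᵥ A') + A' ⬝ᵥ A' := by
        rw [sub_dotProduct, dotProduct_sub, dotProduct_sub, dotProduct_comm A' A]
        ring
      linarith
    have h1 := (tp i v).2.2
    have h2 := (tm i v).2.2
    rw [e1, smul_dotProduct, dotProduct_smul, hEval]
    simp only [smul_eq_mul]
    rw [← hA] at h1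
    rw [← hA'] at h2
    have h3 : (2 : ℝ)⁻¹ * ((2 : ℝ)⁻¹ * ((A - A') ⬝ᵥ (A - A')))
        ≤ (2 : ℝ)⁻¹ * ((2 : ℝ)⁻¹ * (2 * (A ⬝ᵥ A + A' ⬝ᵥ A'))) := by
      have : (0 : ℝ) ≤ (2 : ℝ)⁻¹ := by norm_num
      exact mul_le_mul_of_nonneg_left (mul_le_mul_of_nonneg_left e2 this) this
    refine h3.trans ?_
    linarith
  -- the normalisation
  set μ : Matrix ι ι ℝ := ∑ i, E i with hμ
  have hμval : ∀ v, v ⬝ᵥ μ *ᵥ v = ∑ i, v ⬝ᵥ E i *ᵥ v := by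
    intro v
    rw [hμ, Matrix.sum_mulVec, dotProduct_sum]
  have hμs : μ.IsHermitian := by
    rw [Matrix.IsHermitian, hμ, Matrix.conjTranspose_sum]
    exact Finset.sum_congr rfl fun i _ => (hEs i).eq
  have hμp : μ.PosSemidef := psd_iff.2 ⟨hμs, fun v => by
    rw [hμval]
    exact Finset.sum_nonneg fun i _ => hE0 i v⟩
  have hAp : (μ + s • (1 : Matrix ι ι ℝ)).PosDef :=
    Matrix.PosDef.posSemidef_add hμp (Matrix.PosDef.one.smul hs)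
  obtain ⟨C, C', hCs, hCA, hCC, hCC'⟩ := exists_congr hAp
  set A := μ + s • (1 : Matrix ι ι ℝ) with hA
  have hAval : ∀ v, v ⬝ᵥ A *ᵥ v = v ⬝ᵥ μ *ᵥ v + s * (v ⬝ᵥ v) := by
    intro v
    rw [hA, Matrix.add_mulVec, Matrix.smul_mulVec, Matrix.one_mulVec, dotProduct_add,
      dotProduct_smul, smul_eq_mul]
  have hnorm : ∀ v, (C *ᵥ v) ⬝ᵥ A *ᵥ (C *ᵥ v) = v ⬝ᵥ v := by
    intro v
    rw [dot_mul hCs, Matrix.mulVec_mulVec, Matrix.mulVec_mulVec, hCA, Matrix.one_mulVec]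
  -- `C² ≤ 1 / s`
  have hC2 : ∀ y, s * ((C *ᵥ y) ⬝ᵥ (C *ᵥ y)) ≤ y ⬝ᵥ y := by
    intro y
    set z := C *ᵥ (C *ᵥ y) with hz
    have hAz : A *ᵥ z = y := by
      have e1 : A * C = C' := by
        have : C * (A * C) = 1 := by rw [← Matrix.mul_assoc]; exact hCA
        calc A * C = (C' * C) * (A * C) := by rw [hCC', Matrix.one_mul]
          _ = C' * (C * (A * C)) := by rw [Matrix.mul_assoc]
          _ = C' := by rw [this, Matrix.mul_one]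
      rw [hz, Matrix.mulVec_mulVec, Matrix.mulVec_mulVec, e1, hCC', Matrix.one_mulVec]
    have e2 : (C *ᵥ y) ⬝ᵥ (C *ᵥ y) = y ⬝ᵥ z := by
      rw [dot_mul hCs, hz]
    have e3 : s * (z ⬝ᵥ z) ≤ y ⬝ᵥ z := by
      have h1 := hAval z
      rw [hAz] at h1
      have h2 := (psd_iff.1 hμp).2 z
      rw [dotProduct_comm y z]
      linarith
    have e4 := dot_nonneg (y - s • z)
    have e5 : (y - s • z) ⬝ᵥ (y - s • z) = y ⬝ᵥ y - 2 * s * (y ⬝ᵥ z) + s ^ 2 * (z ⬝ᵥ z) := by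
      rw [sub_dotProduct, dotProduct_sub, dotProduct_sub, smul_dotProduct, smul_dotProduct,
        dotProduct_smul, dotProduct_smul, dotProduct_comm z y]
      simp only [smul_eq_mul]
      ring
    rw [e2]
    have e6 : s ^ 2 * (z ⬝ᵥ z) ≤ s * (y ⬝ᵥ z) := by
      have := mul_le_mul_of_nonneg_left e3 hs.le
      linarith
    linarith
  set W : β → Matrix ι ι ℝ := fun i => C * Z i * C with hW
  have hWs : ∀ i, (W i).IsHermitian := by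
    intro i
    rw [Matrix.IsHermitian]
    simp only [hW]
    rw [Matrix.conjTranspose_mul, Matrix.conjTranspose_mul, hCs.eq, (hZs i).eq,
      Matrix.mul_assoc]
  have hWv : ∀ i v, W i *ᵥ v = C *ᵥ (Z i *ᵥ (C *ᵥ v)) := by
    intro i v
    simp only [hW]
    rw [Matrix.mulVec_mulVec, Matrix.mulVec_mulVec, Matrix.mul_assoc]
  have hWsq : ∀ v : ι → ℝ, ∑ i, (W i *ᵥ v) ⬝ᵥ (W i *ᵥ v) ≤ (R / s) * (v ⬝ᵥ v) := by
    intro v
    have h1 : ∀ i, (W i *ᵥ v) ⬝ᵥ (W i *ᵥ v) ≤ (R / s) * ((C *ᵥ v) ⬝ᵥ E i *ᵥ (C *ᵥ v)) := by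
      intro i
      rw [hWv]
      have h2 := hC2 (Z i *ᵥ (C *ᵥ v))
      have h3 := hZsq i (C *ᵥ v)
      have h4 : s * ((C *ᵥ (Z i *ᵥ (C *ᵥ v))) ⬝ᵥ (C *ᵥ (Z i *ᵥ (C *ᵥ v))))
          ≤ R * ((C *ᵥ v) ⬝ᵥ E i *ᵥ (C *ᵥ v)) := h2.trans h3
      rw [div_mul_eq_mul_div, le_div_iff₀ hs]
      linarith
    refine (Finset.sum_le_sum fun i _ => h1 i).trans ?_
    rw [← Finset.mul_sum, ← hμval]
    refine mul_le_mul_of_nonneg_left ?_ (by positivity)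
    have h5 := hnorm v
    rw [hAval] at h5
    have h6 := mul_nonneg hs.le (dot_nonneg (C *ᵥ v))
    linarith
  obtain ⟨bad, hbad, hgood⟩ := tail a W hWs (R / s) (by positivity) hWsq η hη haR
  refine ⟨bad, hbad, fun x hx v => ?_⟩
  have g1 := hgood x hx (C' *ᵥ v)
  have e0 : C *ᵥ (C' *ᵥ v) = v := by rw [Matrix.mulVec_mulVec, hCC, Matrix.one_mulVec]
  have e1 : (C' *ᵥ v) ⬝ᵥ (C' *ᵥ v) = v ⬝ᵥ μ *ᵥ v + s * (v ⬝ᵥ v) := by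
    rw [← hnorm (C' *ᵥ v), e0, hAval]
  have e2 : ∀ i, (C' *ᵥ v) ⬝ᵥ W i *ᵥ (C' *ᵥ v) = v ⬝ᵥ Z i *ᵥ v := by
    intro i
    rw [hWv, e0, ← dot_mul hCs, e0]
  rw [e1, Finset.sum_congr rfl (fun i _ => by rw [e2])] at g1
  -- the pointwise bound
  have hpt : ∀ i, v ⬝ᵥ E i *ᵥ v + SDX.sg (x i) * (v ⬝ᵥ Z i *ᵥ v)
      ≤ v ⬝ᵥ F i *ᵥ v + c * (v ⬝ᵥ n i *ᵥ v) + SDX.sg (x i) * (v ⬝ᵥ f i *ᵥ v) := by
    intro i
    rw [hEval, hZval]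
    unfold SDX.sg
    split_ifs
    · have h1 := (tm i v).2.1
      rw [Matrix.sub_mulVec, dotProduct_sub, hMval] at h1
      linarith
    · have h1 := (tp i v).2.1
      rw [Matrix.add_mulVec, dotProduct_add, hMval] at h1
      linarith
  have hsum := Finset.sum_le_sum (s := Finset.univ) fun i _ => hpt i
  rw [Finset.sum_add_distrib, ← hμval] at hsum
  have e3 : ∑ i, (v ⬝ᵥ F i *ᵥ v + c * (v ⬝ᵥ n i *ᵥ v) + SDX.sg (x i) * (v ⬝ᵥ f i *ᵥ v))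
      = ∑ i, (v ⬝ᵥ F i *ᵥ v + SDX.sg (x i) * (v ⬝ᵥ f i *ᵥ v)) + c * ∑ i, v ⬝ᵥ n i *ᵥ v := by
    rw [Finset.mul_sum, ← Finset.sum_add_distrib]
    exact Finset.sum_congr rfl fun i _ => by ring
  rw [e3] at hsum
  have hμlow : (1 - η) * (k * ∑ i, v ⬝ᵥ n i *ᵥ v) ≤ v ⬝ᵥ μ *ᵥ v := by
    rw [hμval, Finset.mul_sum, Finset.mul_sum]
    exact Finset.sum_le_sum fun i _ => hElow i v
  set S := ∑ i, v ⬝ᵥ n i *ᵥ v with hS
  have hS0 : 0 ≤ S := Finset.sum_nonneg fun i _ => (psd_iff.1 (hn i)).2 v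
  have hS1 : S ≤ v ⬝ᵥ v := hn1 v
  have hμ1 : (1 - η) * ((1 - η) * (k * S)) ≤ (1 - η) * (v ⬝ᵥ μ *ᵥ v) :=
    mul_le_mul_of_nonneg_left hμlow (by linarith)
  have hck : c = 1 + k := by rw [hc, hk]; ring
  have hkS : 0 ≤ k * S := mul_nonneg hk0 hS0
  have h7 : (1 - η) * ((1 - η) * (k * S)) = k * S - 2 * η * (k * S) + η ^ 2 * (k * S) := by ring
  have h8 : 0 ≤ η ^ 2 * (k * S) := mul_nonneg (sq_nonneg _) hkS
  have h9 : η * (k * S) ≤ η * (k * (v ⬝ᵥ v)) :=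
    mul_le_mul_of_nonneg_left (mul_le_mul_of_nonneg_left hS1 hk0) hη.le
  rw [hck] at hsum
  nlinarith

/-- the block inequality as an inequality of quadratic forms -/
theorem blocks_form {A D f : Matrix ι ι ℝ} (h : (Matrix.fromBlocks A f f D).PosSemidef)
    (u v : ι → ℝ) (hf : f.IsHermitian) :
    0 ≤ u ⬝ᵥ A *ᵥ u + 2 * (u ⬝ᵥ f *ᵥ v) + v ⬝ᵥ D *ᵥ v := by
  have h1 := (psd_iff.1 h).2 (Sum.elim u v)
  rw [Matrix.fromBlocks_mulVec, Sum.elim_comp_inl, Sum.elim_comp_inr,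
    sumElim_dotProduct_sumElim, dotProduct_add, dotProduct_add, dot_comm hf v u] at h1
  linarith

end h70

open h70

/-- one step, normalised -/
theorem step1 {ι : Type} [Fintype ι] [DecidableEq ι] {b p : ℕ} (hp : 0 < p) (lam δ₀ η : ℝ)
    (hlam : 1 < lam) (hδ₀ : 0 < δ₀) (hη : 0 < η)
    (hη1 : η < 1) (F f n : Fin b → Matrix ι ι ℝ) (hF : ∀ i, (F i).IsSymm)
    (hf : ∀ i, (f i).IsSymm) (hn : ∀ i, (n i).PosSemidef)
    (H : ∀ i, (Matrix.fromBlocks (F i + n i) (f i) (f i) (F i + lam ^ 2 • n i)).PosSemidef)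
    (hnδ : ∀ i, (δ₀ • (1 : Matrix ι ι ℝ) - n i).PosSemidef)
    (hsum : ((1 : Matrix ι ι ℝ) - ∑ i, n i).PosSemidef) :
    ∃ bad : Finset (Fin b → Bool), (bad.card : ℝ) ≤ Fintype.card ι * Real.exp (-p) * 2 ^ b ∧
      ∀ x ∉ bad, (∑ i, (F i + SDX.sg (x i) • f i) + (1 + η * (lam ^ 2 - 1)
        + 3 * p * (lam ^ 2 - 1) * δ₀ / η ^ 2) • (1 : Matrix ι ι ℝ)).PosSemidef := by
  have hherm : ∀ M : Matrix ι ι ℝ, M.IsSymm → M.IsHermitian := fun M hM => by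
    rw [Matrix.IsHermitian, Matrix.conjTranspose_eq_transpose_of_trivial]
    exact hM
  have hsm : ∀ (r : ℝ) (M : Matrix ι ι ℝ), M.IsHermitian → (r • M).IsHermitian := by
    intro r M hM
    rw [Matrix.IsHermitian, Matrix.conjTranspose_smul, hM.eq, star_trivial]
  have hp' : (0 : ℝ) < p := by exact_mod_cast hp
  have hl2 : 0 < lam ^ 2 - 1 := by nlinarith
  set k : ℝ := (lam ^ 2 - 1) / 2 with hk
  have hk0 : 0 < k := by rw [hk]; linarith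
  set R : ℝ := k * δ₀ / η with hR
  have hR0 : 0 < R := by positivity
  have he : 0 < Real.exp 1 := Real.exp_pos 1
  set s : ℝ := Real.exp 1 * p * R / η ^ 2 with hs
  have hs0 : 0 < s := by positivity
  have hH : ∀ i, ∀ u v : ι → ℝ, 0 ≤ u ⬝ᵥ F i *ᵥ u + u ⬝ᵥ n i *ᵥ u + 2 * (u ⬝ᵥ f i *ᵥ v)
      + v ⬝ᵥ F i *ᵥ v + lam ^ 2 * (v ⬝ᵥ n i *ᵥ v) := by
    intro i u v
    have h1 := blocks_form (H i) u v (hherm _ (hf i))
    rw [Matrix.add_mulVec, Matrix.add_mulVec, Matrix.smul_mulVec, dotProduct_add,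
      dotProduct_add, dotProduct_smul, smul_eq_mul] at h1
    linarith
  have hnq : ∀ i, ∀ v, v ⬝ᵥ n i *ᵥ v ≤ δ₀ * (v ⬝ᵥ v) := by
    intro i v
    have h1 := (psd_iff.1 (hnδ i)).2 v
    rw [Matrix.sub_mulVec, Matrix.smul_mulVec, Matrix.one_mulVec, dotProduct_sub,
      dotProduct_smul, smul_eq_mul] at h1
    linarith
  have hn1 : ∀ v, ∑ i, v ⬝ᵥ n i *ᵥ v ≤ v ⬝ᵥ v := by
    intro v
    have h1 := (psd_iff.1 hsum).2 v
    rw [Matrix.sub_mulVec, Matrix.one_mulVec, dotProduct_sub, Matrix.sum_mulVec,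
      dotProduct_sum] at h1
    linarith
  have hkR : k * δ₀ ≤ R * η := by
    rw [hR, div_mul_cancel₀ _ hη.ne']
  have haR : Real.exp 1 * p * (R / s) ≤ η ^ 2 := by
    rw [hs]
    apply le_of_eq
    field_simp
  obtain ⟨bad, hbad, hgood⟩ := core_norm (a := p) F f n (fun i => hherm _ (hF i))
    (fun i => hherm _ (hf i)) hn rfl hk hk0.le hδ₀ hR0 hs0 hη hη1.le hkR haR hH hnq hn1
  refine ⟨bad, ?_, fun x hx => ?_⟩
  · rw [Fintype.card_fin] at hbad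
    refine hbad.trans (le_of_eq ?_)
    ring
  · refine psd_iff.2 ⟨?_, fun v => ?_⟩
    · refine Matrix.IsHermitian.add ?_ (hsm _ _ Matrix.isHermitian_one)
      rw [Matrix.IsHermitian, Matrix.conjTranspose_sum]
      refine Finset.sum_congr rfl fun i _ => ?_
      exact ((hherm _ (hF i)).add (hsm _ _ (hherm _ (hf i)))).eq
    · have h1 := hgood x hx v
      rw [Matrix.add_mulVec, Matrix.smul_mulVec, Matrix.one_mulVec, dotProduct_add,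
        dotProduct_smul, Matrix.sum_mulVec, dotProduct_sum, smul_eq_mul]
      have h2 : ∀ i, v ⬝ᵥ (F i + SDX.sg (x i) • f i) *ᵥ v
          = v ⬝ᵥ F i *ᵥ v + SDX.sg (x i) * (v ⬝ᵥ f i *ᵥ v) := by
        intro i
        rw [Matrix.add_mulVec, Matrix.smul_mulVec, dotProduct_add, dotProduct_smul, smul_eq_mul]
      rw [Finset.sum_congr rfl (fun i _ => h2 i)]
      have h3 : η * s ≤ 3 * p * (lam ^ 2 - 1) * δ₀ / η ^ 2 := by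
        have e1 : η * s = Real.exp 1 * (p * (lam ^ 2 - 1) * δ₀ / η ^ 2) / 2 := by
          rw [hs, hR, hk]
          field_simp
        have e2 : 3 * p * (lam ^ 2 - 1) * δ₀ / η ^ 2 = 3 * (p * (lam ^ 2 - 1) * δ₀ / η ^ 2) := by
          ring
        rw [e1, e2]
        have e3 : Real.exp 1 ≤ 3 := by
          have := Real.exp_one_lt_d9
          linarith
        have e4 : 0 ≤ p * (lam ^ 2 - 1) * δ₀ / η ^ 2 := by positivity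
        nlinarith
      have h4 := dot_nonneg v
      have h5 : 1 + 2 * η * k + η * s ≤ 1 + η * (lam ^ 2 - 1)
        + 3 * p * (lam ^ 2 - 1) * δ₀ / η ^ 2 := by
        have e1 : 2 * η * k = η * (lam ^ 2 - 1) := by rw [hk]; ring
        linarith
      have h6 := mul_le_mul_of_nonneg_right h5 h4
      linarith

/-- one step -/
theorem step {ι : Type} [Fintype ι] [DecidableEq ι] {b p : ℕ} (hb : 0 < b) (hp : 0 < p)
    (lam η τ : ℝ) (hlam : 1 < lam) (hη : 0 < η)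
    (hη1 : η < 1) (hτ : 0 < τ) (N : Matrix ι ι ℝ) (hN : N.PosDef) (Ni F f : Fin b → Matrix ι ι ℝ)
    (hNi : ∀ i, (Ni i).PosSemidef) (hN1 : ∀ i, (Real.sqrt b • N - Ni i).PosSemidef)
    (hN2 : ((b : ℝ) • N - ∑ i, Ni i).PosSemidef) (hF : ∀ i, (F i).IsSymm)
    (hf : ∀ i, (f i).IsSymm)
    (H : ∀ i, (Matrix.fromBlocks (F i + τ • Ni i) (f i) (f i)
      (F i + (τ * lam ^ 2) • Ni i)).PosSemidef) :
    ∃ bad : Finset (Fin b → Bool), (bad.card : ℝ) ≤ Fintype.card ι * Real.exp (-p) * 2 ^ b ∧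
      ∀ x ∉ bad, (∑ i, (F i + SDX.sg (x i) • f i) + (b * (τ * (1 + η * (lam ^ 2 - 1)
        + 3 * p * (lam ^ 2 - 1) / (η ^ 2 * Real.sqrt b)))) • N).PosSemidef := by
  have hherm : ∀ M : Matrix ι ι ℝ, M.IsSymm → M.IsHermitian := fun M hM => by
    rw [Matrix.IsHermitian, Matrix.conjTranspose_eq_transpose_of_trivial]
    exact hM
  have hsm : ∀ (r : ℝ) (M : Matrix ι ι ℝ), M.IsHermitian → (r • M).IsHermitian := by
    intro r M hM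
    rw [Matrix.IsHermitian, Matrix.conjTranspose_smul, hM.eq, star_trivial]
  have hb' : (0 : ℝ) < b := by exact_mod_cast hb
  have hp' : (0 : ℝ) < p := by exact_mod_cast hp
  have hsb : 0 < Real.sqrt b := Real.sqrt_pos.2 hb'
  obtain ⟨C, C', hCs, hCN, hCC, hCC'⟩ := exists_congr hN
  set r : ℝ := (b * τ)⁻¹ with hr
  have hr0 : 0 < r := by positivity
  have hbr : (b : ℝ) * τ * r = 1 := mul_inv_cancel₀ (by positivity)
  have hconj : ∀ (M : Matrix ι ι ℝ) (u v : ι → ℝ),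
      u ⬝ᵥ (C * M * C) *ᵥ v = (C *ᵥ u) ⬝ᵥ M *ᵥ (C *ᵥ v) := by
    intro M u v
    rw [dot_mul hCs, Matrix.mulVec_mulVec, Matrix.mulVec_mulVec]
  have hNnorm : ∀ v, (C *ᵥ v) ⬝ᵥ N *ᵥ (C *ᵥ v) = v ⬝ᵥ v := by
    intro v
    rw [← hconj, hCN, Matrix.one_mulVec]
  have hCsym : ∀ M : Matrix ι ι ℝ, M.IsHermitian → (C * M * C).IsHermitian := by
    intro M hM
    rw [Matrix.IsHermitian, Matrix.conjTranspose_mul, Matrix.conjTranspose_mul, hCs.eq, hM.eq,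
      Matrix.mul_assoc]
  set k : ℝ := (lam ^ 2 - 1) / 2 with hk
  have hl2 : 0 < lam ^ 2 - 1 := by nlinarith
  have hk0 : 0 < k := by rw [hk]; linarith
  set δ₀ : ℝ := (Real.sqrt b)⁻¹ with hδ
  have hδ₀ : 0 < δ₀ := by positivity
  set R : ℝ := k * δ₀ / η with hR
  have hR0 : 0 < R := by positivity
  have he : 0 < Real.exp 1 := Real.exp_pos 1
  set s : ℝ := Real.exp 1 * p * R / η ^ 2 with hs
  have hs0 : 0 < s := by positivity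
  have hkR : k * δ₀ ≤ R * η := by
    rw [hR, div_mul_cancel₀ _ hη.ne']
  have haR : Real.exp 1 * p * (R / s) ≤ η ^ 2 := by
    rw [hs]
    apply le_of_eq
    field_simp
  -- the normalised matrices
  set F' : Fin b → Matrix ι ι ℝ := fun i => r • (C * F i * C) with hF'
  set f' : Fin b → Matrix ι ι ℝ := fun i => r • (C * f i * C) with hf'
  set n' : Fin b → Matrix ι ι ℝ := fun i => (b : ℝ)⁻¹ • (C * Ni i * C) with hn'
  have vF : ∀ i u v, u ⬝ᵥ F' i *ᵥ v = r * ((C *ᵥ u) ⬝ᵥ F i *ᵥ (C *ᵥ v)) := by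
    intro i u v
    simp only [hF']
    rw [Matrix.smul_mulVec, dotProduct_smul, hconj, smul_eq_mul]
  have vf : ∀ i u v, u ⬝ᵥ f' i *ᵥ v = r * ((C *ᵥ u) ⬝ᵥ f i *ᵥ (C *ᵥ v)) := by
    intro i u v
    simp only [hf']
    rw [Matrix.smul_mulVec, dotProduct_smul, hconj, smul_eq_mul]
  have vn : ∀ i u v, u ⬝ᵥ n' i *ᵥ v = (b : ℝ)⁻¹ * ((C *ᵥ u) ⬝ᵥ Ni i *ᵥ (C *ᵥ v)) := by
    intro i u v
    simp only [hn']
    rw [Matrix.smul_mulVec, dotProduct_smul, hconj, smul_eq_mul]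
  have hn'p : ∀ i, (n' i).PosSemidef := by
    intro i
    refine psd_iff.2 ⟨hsm _ _ (hCsym _ (hNi i).isHermitian), fun v => ?_⟩
    rw [vn]
    exact mul_nonneg (by positivity) ((psd_iff.1 (hNi i)).2 _)
  have hH : ∀ i, ∀ u v : ι → ℝ, 0 ≤ u ⬝ᵥ F' i *ᵥ u + u ⬝ᵥ n' i *ᵥ u + 2 * (u ⬝ᵥ f' i *ᵥ v)
      + v ⬝ᵥ F' i *ᵥ v + lam ^ 2 * (v ⬝ᵥ n' i *ᵥ v) := by
    intro i u v
    have h1 := blocks_form (H i) (C *ᵥ u) (C *ᵥ v) (hherm _ (hf i))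
    rw [Matrix.add_mulVec, Matrix.add_mulVec, Matrix.smul_mulVec, Matrix.smul_mulVec,
      dotProduct_add, dotProduct_add, dotProduct_smul, dotProduct_smul, smul_eq_mul,
      smul_eq_mul] at h1
    rw [vF, vF, vn, vn, vf]
    have h2 := mul_nonneg hr0.le h1
    have h3 : r * τ = (b : ℝ)⁻¹ := by
      rw [hr]
      field_simp
    have h4 : r * ((C *ᵥ u) ⬝ᵥ F i *ᵥ (C *ᵥ u) + τ * ((C *ᵥ u) ⬝ᵥ Ni i *ᵥ (C *ᵥ u))
        + 2 * ((C *ᵥ u) ⬝ᵥ f i *ᵥ (C *ᵥ v))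
        + ((C *ᵥ v) ⬝ᵥ F i *ᵥ (C *ᵥ v) + τ * lam ^ 2 * ((C *ᵥ v) ⬝ᵥ Ni i *ᵥ (C *ᵥ v))))
        = r * ((C *ᵥ u) ⬝ᵥ F i *ᵥ (C *ᵥ u)) + (r * τ) * ((C *ᵥ u) ⬝ᵥ Ni i *ᵥ (C *ᵥ u))
          + 2 * (r * ((C *ᵥ u) ⬝ᵥ f i *ᵥ (C *ᵥ v)))
          + r * ((C *ᵥ v) ⬝ᵥ F i *ᵥ (C *ᵥ v))
          + lam ^ 2 * ((r * τ) * ((C *ᵥ v) ⬝ᵥ Ni i *ᵥ (C *ᵥ v))) := by ring
    rw [h4, h3] at h2
    linarith
  have hnq : ∀ i, ∀ v, v ⬝ᵥ n' i *ᵥ v ≤ δ₀ * (v ⬝ᵥ v) := by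
    intro i v
    have h1 := (psd_iff.1 (hN1 i)).2 (C *ᵥ v)
    rw [Matrix.sub_mulVec, Matrix.smul_mulVec, dotProduct_sub,
      dotProduct_smul, smul_eq_mul, hNnorm] at h1
    rw [vn]
    have h2 : (b : ℝ)⁻¹ * ((C *ᵥ v) ⬝ᵥ Ni i *ᵥ (C *ᵥ v)) ≤ (b : ℝ)⁻¹ * (Real.sqrt b * (v ⬝ᵥ v)) :=
      mul_le_mul_of_nonneg_left (by linarith) (by positivity)
    refine h2.trans (le_of_eq ?_)
    have h3 : (b : ℝ)⁻¹ * Real.sqrt b = δ₀ := by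
      rw [hδ]
      have h4 : Real.sqrt b * Real.sqrt b = b := Real.mul_self_sqrt hb'.le
      field_simp
      rw [sq, h4]
    rw [← h3]
    ring
  have hn1 : ∀ v, ∑ i, v ⬝ᵥ n' i *ᵥ v ≤ v ⬝ᵥ v := by
    intro v
    have h1 := (psd_iff.1 hN2).2 (C *ᵥ v)
    rw [Matrix.sub_mulVec, Matrix.smul_mulVec, dotProduct_sub, dotProduct_smul, smul_eq_mul,
      hNnorm, Matrix.sum_mulVec, dotProduct_sum] at h1
    rw [Finset.sum_congr rfl (fun i _ => vn i v v), ← Finset.mul_sum]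
    rw [inv_mul_le_iff₀ hb']
    linarith
  obtain ⟨bad, hbad, hgood⟩ := core_norm (a := p) F' f' n'
    (fun i => hsm _ _ (hCsym _ (hherm _ (hF i)))) (fun i => hsm _ _ (hCsym _ (hherm _ (hf i))))
    hn'p rfl hk hk0.le hδ₀ hR0 hs0 hη hη1.le hkR haR hH hnq hn1
  refine ⟨bad, ?_, fun x hx => ?_⟩
  · rw [Fintype.card_fin] at hbad
    refine hbad.trans (le_of_eq ?_)
    ring
  · refine psd_iff.2 ⟨?_, fun v => ?_⟩
    · refine Matrix.IsHermitian.add ?_ (hsm _ _ hN.isHermitian)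
      rw [Matrix.IsHermitian, Matrix.conjTranspose_sum]
      refine Finset.sum_congr rfl fun i _ => ?_
      exact ((hherm _ (hF i)).add (hsm _ _ (hherm _ (hf i)))).eq
    · have h1 := hgood x hx (C' *ᵥ v)
      have e0 : C *ᵥ (C' *ᵥ v) = v := by rw [Matrix.mulVec_mulVec, hCC, Matrix.one_mulVec]
      have e1 : (C' *ᵥ v) ⬝ᵥ (C' *ᵥ v) = v ⬝ᵥ N *ᵥ v := by
        rw [← hNnorm (C' *ᵥ v), e0]
      rw [e1, Finset.sum_congr rfl (fun i _ => by rw [vF, vf, e0])] at h1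
      rw [Matrix.add_mulVec, Matrix.smul_mulVec, dotProduct_add,
        dotProduct_smul, Matrix.sum_mulVec, dotProduct_sum, smul_eq_mul]
      have h2 : ∀ i, v ⬝ᵥ (F i + SDX.sg (x i) • f i) *ᵥ v
          = v ⬝ᵥ F i *ᵥ v + SDX.sg (x i) * (v ⬝ᵥ f i *ᵥ v) := by
        intro i
        rw [Matrix.add_mulVec, Matrix.smul_mulVec, dotProduct_add, dotProduct_smul, smul_eq_mul]
      rw [Finset.sum_congr rfl (fun i _ => h2 i)]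
      have h2' : ∑ i, (r * (v ⬝ᵥ F i *ᵥ v) + SDX.sg (x i) * (r * (v ⬝ᵥ f i *ᵥ v)))
          = r * ∑ i, (v ⬝ᵥ F i *ᵥ v + SDX.sg (x i) * (v ⬝ᵥ f i *ᵥ v)) := by
        rw [Finset.mul_sum]
        exact Finset.sum_congr rfl fun i _ => by ring
      rw [h2'] at h1
      have h3 : η * s ≤ 3 * p * (lam ^ 2 - 1) / (η ^ 2 * Real.sqrt b) := by
        have e1 : η * s = Real.exp 1 * (p * (lam ^ 2 - 1) / (η ^ 2 * Real.sqrt b)) / 2 := by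
          rw [hs, hR, hk, hδ]
          field_simp
        have e2 : 3 * p * (lam ^ 2 - 1) / (η ^ 2 * Real.sqrt b)
            = 3 * (p * (lam ^ 2 - 1) / (η ^ 2 * Real.sqrt b)) := by
          ring
        rw [e1, e2]
        have e3 : Real.exp 1 ≤ 3 := by
          have := Real.exp_one_lt_d9
          linarith
        have e4 : 0 ≤ p * (lam ^ 2 - 1) / (η ^ 2 * Real.sqrt b) := by positivity
        nlinarith
      have h4 : 0 ≤ v ⬝ᵥ N *ᵥ v := (psd_iff.1 hN.posSemidef).2 v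
      have h5 : 1 + 2 * η * k + η * s ≤ 1 + η * (lam ^ 2 - 1)
        + 3 * p * (lam ^ 2 - 1) / (η ^ 2 * Real.sqrt b) := by
        have e1 : 2 * η * k = η * (lam ^ 2 - 1) := by rw [hk]; ring
        linarith
      have h6 := mul_le_mul_of_nonneg_right h5 h4
      set X := ∑ i, (v ⬝ᵥ F i *ᵥ v + SDX.sg (x i) * (v ⬝ᵥ f i *ᵥ v)) with hX
      have h7 : -((1 + η * (lam ^ 2 - 1)
        + 3 * p * (lam ^ 2 - 1) / (η ^ 2 * Real.sqrt b)) * (v ⬝ᵥ N *ᵥ v)) ≤ r * X := by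
        linarith
      have h8 := mul_le_mul_of_nonneg_left h7 (by positivity : (0 : ℝ) ≤ b * τ)
      have h9 : (b : ℝ) * τ * (r * X) = X := by
        rw [← mul_assoc, hbr, one_mul]
      rw [h9] at h8
      linarith

end LIFT
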