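import Pool.Agent.LIFT.Root
import Pool.Agent.LIFT.Step

/-!
# LIFT: induction over the blocks

`OneStep b lam ε dl` is the statement of one step (a random row of `b` signs); `induct` iterates it
over `m` blocks.
-/

set_option autoImplicit false

open scoped BigOperators Matrix Kronecker

namespace LIFT

/-- one step: the signs of one block are averaged out -/
def OneStep (b : ℕ) (lam ε dl : ℝ) : Prop :=
  ∀ (ι : Type) [Fintype ι] [DecidableEq ι] (τ : ℝ) (_ : 0 < τ) (N : Matrix ι ι ℝ) (_ : N.PosDef)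
    (Ni F f : Fin b → Matrix ι ι ℝ) (_ : ∀ i, (Ni i).PosSemidef)
    (_ : ∀ i, (Real.sqrt b • N - Ni i).PosSemidef) (_ : ((b : ℝ) • N - ∑ i, Ni i).PosSemidef)
    (_ : ∀ i, (F i).IsSymm) (_ : ∀ i, (f i).IsSymm)
    (_ : ∀ i, (Matrix.fromBlocks (F i + τ • Ni i) (f i) (f i)
      (F i + (τ * lam ^ 2) • Ni i)).PosSemidef),
    ∃ bad : Finset (Fin b → Bool), (bad.card : ℝ) ≤ Fintype.card ι * dl * 2 ^ b ∧
      ∀ x ∉ bad, (∑ i, (F i + SDX.sg (x i) • f i) + (b * (τ * (1 + ε))) • N).PosSemidef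

namespace h74

theorem W_split {V U : Type} [AddCommGroup V] [Module ℝ V] [AddCommGroup U] [Module ℝ U]
    (lam c : ℝ) (q : V → ℝ) (q' : U → ℝ) (L₀ L₁ : U →ₗ[ℝ] V)
    (h : ∀ u, q' u = q (L₀ u) + c * q (L₁ u)) (m : ℕ) :
    ∀ g : (Fin m → Bool) → U,
      W lam q' m g = W lam q m (fun y => L₀ (g y)) + c * W lam q m (fun y => L₁ (g y)) := by
  induction m with
  | zero =>
    intro g
    simp only [W]
    exact h _
  | succ m ih =>
    intro g
    simp only [W]
    rw [ih, ih]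
    simp only [map_add, map_sub, map_smul]
    ring

variable {K ρ : Type} [Fintype K] [DecidableEq K] [Fintype ρ] [DecidableEq ρ]

/-- first component -/
def fst (K ρ : Type) : ((K ⊕ K) × ρ → ℝ) →ₗ[ℝ] (K × ρ → ℝ) where
  toFun g := fun p => g (Sum.inl p.1, p.2)
  map_add' _ _ := rfl
  map_smul' _ _ := rfl

/-- second component -/
def snd (K ρ : Type) : ((K ⊕ K) × ρ → ℝ) →ₗ[ℝ] (K × ρ → ℝ) where
  toFun g := fun p => g (Sum.inr p.1, p.2)
  map_add' _ _ := rfl
  map_smul' _ _ := rfl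

theorem qf_eq {ι : Type} [Fintype ι] (M : Matrix ι ι ℝ) (v : ι → ℝ) :
    qf M v = ∑ i, ∑ j, v i * (M i j * v j) := by
  simp only [qf, dotProduct, Matrix.mulVec, Finset.mul_sum]

theorem qf_add {ι : Type} [Fintype ι] (M M' : Matrix ι ι ℝ) (v : ι → ℝ) :
    qf (M + M') v = qf M v + qf M' v := by
  simp [qf, Matrix.add_mulVec, dotProduct_add]

theorem qf_smul {ι : Type} [Fintype ι] (c : ℝ) (M : Matrix ι ι ℝ) (v : ι → ℝ) :
    qf (c • M) v = c * qf M v := by
  simp [qf, Matrix.smul_mulVec, dotProduct_smul]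

theorem qf_block (A B : Matrix K K ℝ) (X : Matrix ρ ρ ℝ) (g : (K ⊕ K) × ρ → ℝ) :
    qf (A ⊗ₖ X) (fst K ρ g + snd K ρ g) + qf (B ⊗ₖ X) (fst K ρ g - snd K ρ g)
      = 2 * qf (Matrix.fromBlocks ((1 / 2 : ℝ) • (A + B)) ((1 / 2 : ℝ) • (A - B))
          ((1 / 2 : ℝ) • (A - B)) ((1 / 2 : ℝ) • (A + B)) ⊗ₖ X) g := by
  simp only [qf_eq, Fintype.sum_prod_type, Fintype.sum_sum_type, Matrix.kroneckerMap_apply,
    Matrix.fromBlocks_apply₁₁, Matrix.fromBlocks_apply₁₂, Matrix.fromBlocks_apply₂₁,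
    Matrix.fromBlocks_apply₂₂, Matrix.smul_apply, Matrix.add_apply, Matrix.sub_apply, smul_eq_mul,
    Pi.add_apply, Pi.sub_apply, fst, snd, LinearMap.coe_mk, AddHom.coe_mk, Finset.mul_sum,
    ← Finset.sum_add_distrib, mul_add]
  refine Finset.sum_congr rfl fun a _ => Finset.sum_congr rfl fun r _ =>
    Finset.sum_congr rfl fun a' _ => Finset.sum_congr rfl fun r' _ => ?_
  ring

theorem qf_diag (w : K → ℝ) (c : ℝ) (X : Matrix ρ ρ ℝ) (g : (K ⊕ K) × ρ → ℝ) :
    qf (Matrix.diagonal (Sum.elim w fun a => c * w a) ⊗ₖ X) g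
      = qf (Matrix.diagonal w ⊗ₖ X) (fst K ρ g) + c * qf (Matrix.diagonal w ⊗ₖ X) (snd K ρ g) := by
  have hd : Matrix.diagonal (Sum.elim w fun a => c * w a)
      = Matrix.fromBlocks (Matrix.diagonal w) 0 0 (c • Matrix.diagonal w) := by
    ext i j
    rcases i with i | i <;> rcases j with j | j <;>
      simp [Matrix.diagonal_apply, Matrix.smul_apply]
  rw [hd]
  simp only [qf_eq, Fintype.sum_prod_type, Fintype.sum_sum_type, Matrix.kroneckerMap_apply,
    Matrix.fromBlocks_apply₁₁, Matrix.fromBlocks_apply₁₂, Matrix.fromBlocks_apply₂₁,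
    Matrix.fromBlocks_apply₂₂, Matrix.smul_apply, Matrix.zero_apply, smul_eq_mul,
    fst, snd, LinearMap.coe_mk, AddHom.coe_mk, Finset.mul_sum,
    ← Finset.sum_add_distrib, mul_add, zero_mul, mul_zero, Finset.sum_const_zero, add_zero, zero_add]
  refine Finset.sum_congr rfl fun a _ => Finset.sum_congr rfl fun r _ =>
    Finset.sum_congr rfl fun a' _ => Finset.sum_congr rfl fun r' _ => ?_
  ring

theorem sum_cons {α M : Type} [Fintype α] [AddCommMonoid M] {m : ℕ}
    (f : (Fin (m + 1) → α) → M) :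
    ∑ y, f y = ∑ a, ∑ y', f (Fin.cons a y') := by
  rw [← (Fin.consEquiv (fun _ => α)).sum_comp, Fintype.sum_prod_type]
  rfl

/-- multiplication by `E` on the functions of the first sign -/
noncomputable def blk {m : ℕ} (E : (Fin (m + 1) → Bool) → Matrix K K ℝ) (y : Fin m → Bool) :
    Matrix (K ⊕ K) (K ⊕ K) ℝ :=
  Matrix.fromBlocks ((1 / 2 : ℝ) • (E (Fin.cons false y) + E (Fin.cons true y)))
    ((1 / 2 : ℝ) • (E (Fin.cons false y) - E (Fin.cons true y)))
    ((1 / 2 : ℝ) • (E (Fin.cons false y) - E (Fin.cons true y)))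
    ((1 / 2 : ℝ) • (E (Fin.cons false y) + E (Fin.cons true y)))

theorem hyp_step {m : ℕ} (lam τ : ℝ) (w : K → ℝ) (E : (Fin (m + 1) → Bool) → Matrix K K ℝ)
    (R X : Matrix ρ ρ ℝ)
    (h : ∀ g : (Fin (m + 1) → Bool) → K × ρ → ℝ,
      -(τ * W lam (qf (Matrix.diagonal w ⊗ₖ R)) (m + 1) g)
        ≤ (∑ y, qf (E y ⊗ₖ X) (g y)) / 2 ^ (m + 1))
    (g : (Fin m → Bool) → (K ⊕ K) × ρ → ℝ) :
    -(τ * W lam (qf (Matrix.diagonal (Sum.elim w fun a => lam ^ 2 * w a) ⊗ₖ R)) m g)
      ≤ (∑ y, qf (blk E y ⊗ₖ X) (g y)) / 2 ^ m := by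
  have h1 := h fun y => fst K ρ (g (Fin.tail y)) + SDX.sg (y 0) • snd K ρ (g (Fin.tail y))
  have e1 : W lam (qf (Matrix.diagonal w ⊗ₖ R)) (m + 1)
      (fun y => fst K ρ (g (Fin.tail y)) + SDX.sg (y 0) • snd K ρ (g (Fin.tail y)))
      = W lam (qf (Matrix.diagonal (Sum.elim w fun a => lam ^ 2 * w a) ⊗ₖ R)) m g := by
    rw [W_split lam (lam ^ 2) (qf (Matrix.diagonal w ⊗ₖ R)) _ (fst K ρ) (snd K ρ)
      (fun u => qf_diag w (lam ^ 2) R u) m g]
    simp only [W, Fin.tail_cons, Fin.cons_zero]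
    congr 2
    · congr 1
      funext y
      simp only [SDX.sg]
      funext p
      simp
      ring
    · congr 1
      funext y
      simp only [SDX.sg]
      funext p
      simp
      ring
  rw [e1, sum_cons, Fintype.sum_bool, ← Finset.sum_add_distrib] at h1
  have e2 : ∀ y : Fin m → Bool,
      qf (E (Fin.cons true y) ⊗ₖ X) (fst K ρ (g (Fin.tail (Fin.cons true y : Fin (m + 1) → Bool)))
          + SDX.sg ((Fin.cons true y : Fin (m + 1) → Bool) 0)
            • snd K ρ (g (Fin.tail (Fin.cons true y : Fin (m + 1) → Bool))))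
        + qf (E (Fin.cons false y) ⊗ₖ X)
          (fst K ρ (g (Fin.tail (Fin.cons false y : Fin (m + 1) → Bool)))
          + SDX.sg ((Fin.cons false y : Fin (m + 1) → Bool) 0)
            • snd K ρ (g (Fin.tail (Fin.cons false y : Fin (m + 1) → Bool))))
      = 2 * qf (blk E y ⊗ₖ X) (g y) := by
    intro y
    rw [blk, ← qf_block, add_comm]
    simp only [Fin.tail_cons, Fin.cons_zero, SDX.sg]
    congr 2
    · simp
    · simp [sub_eq_add_neg]
  rw [Finset.sum_congr rfl fun y _ => e2 y, ← Finset.mul_sum] at h1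
  refine h1.trans (le_of_eq ?_)
  rw [pow_succ]
  field_simp

theorem block_eq {m : ℕ} {T : Type} [Fintype T] (E : (Fin (m + 1) → Bool) → Matrix K K ℝ)
    (y : T → Fin m → Bool) (X : T → Matrix ρ ρ ℝ) (c lam : ℝ) (w : K → ℝ) (N : Matrix ρ ρ ℝ) :
    (∑ S, blk E (y S) ⊗ₖ X S
      + c • (Matrix.diagonal (Sum.elim w fun a => lam ^ 2 * w a) ⊗ₖ N)).submatrix
        (Equiv.sumProdDistrib K K ρ).symm (Equiv.sumProdDistrib K K ρ).symm
    = Matrix.fromBlocks
      (∑ S, ((1 / 2 : ℝ) • (E (Fin.cons false (y S)) + E (Fin.cons true (y S)))) ⊗ₖ X S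
        + c • (Matrix.diagonal w ⊗ₖ N))
      (∑ S, ((1 / 2 : ℝ) • (E (Fin.cons false (y S)) - E (Fin.cons true (y S)))) ⊗ₖ X S)
      (∑ S, ((1 / 2 : ℝ) • (E (Fin.cons false (y S)) - E (Fin.cons true (y S)))) ⊗ₖ X S)
      (∑ S, ((1 / 2 : ℝ) • (E (Fin.cons false (y S)) + E (Fin.cons true (y S)))) ⊗ₖ X S
        + (c * lam ^ 2) • (Matrix.diagonal w ⊗ₖ N)) := by
  ext p q
  rcases p with ⟨a, r⟩ | ⟨a, r⟩ <;> rcases q with ⟨a', r'⟩ | ⟨a', r'⟩ <;>
    simp [blk, Matrix.sum_apply, Matrix.diagonal_apply]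
  split_ifs <;> ring

theorem psd_of_qf {ι : Type} [Fintype ι] (M : Matrix ι ι ℝ) (hM : M.IsSymm)
    (h : ∀ v, 0 ≤ qf M v) : M.PosSemidef :=
  Matrix.PosSemidef.of_dotProduct_mulVec_nonneg
    (by rw [Matrix.IsHermitian, Matrix.conjTranspose_eq_transpose_of_trivial]; exact hM)
    (by intro x; simpa [qf] using h x)

theorem card_le {α : Type} [Fintype α] [DecidableEq α] {m : ℕ} (B : Finset (Fin m → α))
    (C : (Fin m → α) → Finset α) :
    (((Finset.univ : Finset (Fin (m + 1) → α)).filter fun x : Fin (m + 1) → α =>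
        (Fin.tail x : Fin m → α) ∈ B ∨ x 0 ∈ C (Fin.tail x)).card : ℝ)
      ≤ Fintype.card α * B.card + ∑ x', ((C x').card : ℝ) := by
  rw [Finset.card_filter]
  push_cast
  rw [sum_cons, Finset.sum_comm]
  have h1 : ∀ x' : Fin m → α, ∑ a : α, (if (Fin.tail (Fin.cons a x' : Fin (m + 1) → α) : Fin m → α) ∈ B ∨
      (Fin.cons a x' : Fin (m + 1) → α) 0 ∈ C (Fin.tail (Fin.cons a x' : Fin (m + 1) → α))
        then (1 : ℝ) else 0) ≤ (if x' ∈ B then (Fintype.card α : ℝ) else 0) + (C x').card := by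
    intro x'
    simp only [Fin.tail_cons, Fin.cons_zero]
    have h2 : ((C x').card : ℝ) = ∑ a : α, if a ∈ C x' then (1 : ℝ) else 0 := by
      simp
    have h3 : (if x' ∈ B then (Fintype.card α : ℝ) else 0)
        = ∑ a : α, if x' ∈ B then (1 : ℝ) else 0 := by
      by_cases h : x' ∈ B <;> simp [h]
    rw [h2, h3, ← Finset.sum_add_distrib]
    refine Finset.sum_le_sum fun a _ => ?_
    by_cases h : x' ∈ B <;> by_cases h' : a ∈ C x' <;> simp [h, h']
  refine (Finset.sum_le_sum fun x' _ => h1 x').trans (le_of_eq ?_)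
  rw [Finset.sum_add_distrib]
  congr 1
  rw [← Finset.sum_filter]
  simp [mul_comm]

theorem symm_kron {A : Matrix K K ℝ} {X : Matrix ρ ρ ℝ} (hA : A.IsSymm) (hX : X.IsSymm) :
    (A ⊗ₖ X).IsSymm := by
  ext p q
  simp only [Matrix.transpose_apply, Matrix.kroneckerMap_apply]
  rw [hA.apply, hX.apply]

theorem symm_sq {R : Matrix ρ ρ ℝ} (hR : R.PosDef) : (R * R).IsSymm := by
  have h : R.IsSymm := by
    have := hR.isHermitian
    rwa [Matrix.IsHermitian, Matrix.conjTranspose_eq_transpose_of_trivial] at this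
  rw [Matrix.IsSymm, Matrix.transpose_mul, h]

theorem symm_sum {ι T : Type} [Fintype T] {M : T → Matrix ι ι ℝ} (h : ∀ t, (M t).IsSymm) :
    (∑ t, M t).IsSymm := by
  rw [Matrix.IsSymm, Matrix.transpose_sum]
  exact Finset.sum_congr rfl fun t _ => h t

theorem blk_symm {m : ℕ} (E : (Fin (m + 1) → Bool) → Matrix K K ℝ) (hE : ∀ y, (E y).IsSymm)
    (y : Fin m → Bool) : (blk E y).IsSymm := by
  have h1 : ((1 / 2 : ℝ) • (E (Fin.cons false y) + E (Fin.cons true y))).IsSymm :=
    ((hE _).add (hE _)).smul _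
  have h2 : ((1 / 2 : ℝ) • (E (Fin.cons false y) - E (Fin.cons true y))).IsSymm :=
    ((hE _).sub (hE _)).smul _
  exact Matrix.IsSymm.fromBlocks h1 h2 h1

theorem diag_psd {w : K → ℝ} (hw : ∀ a, 0 < w a) : (Matrix.diagonal w).PosDef :=
  Matrix.PosDef.diagonal hw

theorem sq_posDef {R : Matrix ρ ρ ℝ} (hR : R.PosDef) : (R * R).PosDef := by
  have h := Matrix.PosDef.conjTranspose_mul_self R
    (Matrix.mulVec_injective_of_isUnit hR.isUnit)
  rwa [hR.isHermitian] at h

end h74

open h74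

theorem induct_of_oneStep {b : ℕ} (hb : 0 < b) (lam ε dl : ℝ) (hlam : 1 < lam) (hε : 0 ≤ ε) (hdl : 0 ≤ dl)
    (hstep : OneStep b lam ε dl) (m : ℕ) :
    ∀ (K ρ : Type) [Fintype K] [DecidableEq K] [Fintype ρ] [DecidableEq ρ] (w : K → ℝ)
      (_ : ∀ a, 0 < w a) (E : (Fin m → Bool) → Matrix K K ℝ) (_ : ∀ y, (E y).IsSymm)
      (R : (Fin m → Fin b) → Matrix ρ ρ ℝ) (_ : ∀ S, (R S).PosDef) (τ : ℝ) (_ : 0 < τ)
      (_ : ∀ S, ∀ g : (Fin m → Bool) → K × ρ → ℝ,
        -(τ * W lam (qf (Matrix.diagonal w ⊗ₖ R S)) m g)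
          ≤ (∑ y, qf (E y ⊗ₖ (R S * R S)) (g y)) / 2 ^ m)
      (R₀ : Matrix ρ ρ ℝ) (_ : R₀.PosDef) (_ : ((b : ℝ) ^ m) • (R₀ * R₀) = ∑ S, R S * R S),
      ∃ bad : Finset (Fin m → Fin b → Bool),
        (bad.card : ℝ)
          ≤ m * (2 * b) ^ m * (Fintype.card K * Fintype.card ρ) * dl * 2 ^ (m * b) ∧
        ∀ x ∉ bad, (∑ S : Fin m → Fin b, E (fun j => x j (S j)) ⊗ₖ (R S * R S)
          + ((b : ℝ) ^ m * (τ * (1 + ε) ^ m)) • (Matrix.diagonal w ⊗ₖ R₀)).PosSemidef := by
  induction m with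
  | zero =>
    intro K ρ _ _ _ _ w hw E hE R hR τ hτ hyp R₀ hR₀ hsum
    refine ⟨∅, by simp, ?_⟩
    intro x _
    have hS : ∀ S : Fin 0 → Fin b, S = default := fun S => Subsingleton.elim _ _
    have hsum' : R₀ * R₀ = R default * R default := by
      rw [pow_zero, one_smul, Fintype.sum_unique] at hsum
      exact hsum
    have hge : (R₀ - R default).PosSemidef :=
      root_mono (hR default).posSemidef hR₀.posSemidef (by
        rw [hsum', sub_self]; exact Matrix.PosSemidef.zero)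
    rw [Fintype.sum_unique]
    have hx : (fun j => x j ((default : Fin 0 → Fin b) j)) = Fin.elim0 := by
      funext j; exact j.elim0
    rw [hx]
    simp only [pow_zero, one_mul, mul_one]
    have h1 : (E Fin.elim0 ⊗ₖ (R default * R default)
        + τ • (Matrix.diagonal w ⊗ₖ R default)).PosSemidef := by
      refine psd_of_qf _ ?_ ?_
      · refine (symm_kron (hE _) (symm_sq (hR _))).add ?_
        refine Matrix.IsSymm.smul (symm_kron (Matrix.isSymm_diagonal _) ?_) _
        have := (hR default).isHermitian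
        rwa [Matrix.IsHermitian, Matrix.conjTranspose_eq_transpose_of_trivial] at this
      · intro v
        have := hyp default fun _ => v
        simp only [W, Fintype.sum_unique, pow_zero, div_one] at this
        rw [qf_add, qf_smul]
        have e : ∀ z, qf (E z ⊗ₖ (R default * R default)) v
            = qf (E Fin.elim0 ⊗ₖ (R default * R default)) v := by
          intro z
          rw [Subsingleton.elim z Fin.elim0]
        rw [e] at this
        linarith
    have h2 : (τ • (Matrix.diagonal w ⊗ₖ (R₀ - R default))).PosSemidef :=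
      (Matrix.PosSemidef.kronecker (diag_psd hw).posSemidef hge).smul hτ.le
    have h3 := h1.add h2
    convert h3 using 1
    rw [add_assoc, ← smul_add, ← Matrix.kronecker_add]
    congr 3
    abel
  | succ m ih =>
    intro K ρ _ _ _ _ w hw E hE R hR τ hτ hyp R₀ hR₀ hsum
    classical
    have hb' : (0 : ℝ) < b := by exact_mod_cast hb
    have hb1 : (1 : ℝ) ≤ b := by exact_mod_cast hb
    have hbm : (0 : ℝ) < (b : ℝ) ^ m := by positivity
    have hne : Nonempty (Fin m → Fin b) := ⟨fun _ => ⟨0, hb⟩⟩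
    have hroot : ∀ i : Fin b, ∃ Ni : Matrix ρ ρ ℝ, Ni.PosDef ∧
        Ni * Ni = ((b : ℝ) ^ m)⁻¹ •
          ∑ S' : Fin m → Fin b, R (Fin.cons i S') * R (Fin.cons i S') := by
      intro i
      refine exists_root ?_
      refine Matrix.PosDef.smul ?_ (inv_pos.2 hbm)
      exact Matrix.posDef_sum Finset.univ_nonempty fun S' _ => sq_posDef (hR _)
    choose Nr hNr hNr2 using hroot
    have hsum1 : ∀ i, ((b : ℝ) ^ m) • (Nr i * Nr i)
        = ∑ S' : Fin m → Fin b, R (Fin.cons i S') * R (Fin.cons i S') := by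
      intro i
      rw [hNr2, smul_smul, mul_inv_cancel₀ hbm.ne', one_smul]
    have hsum2 : (b : ℝ) • (R₀ * R₀) = ∑ i, Nr i * Nr i := by
      have h1 : ((b : ℝ) ^ m) • ((b : ℝ) • (R₀ * R₀)) = ((b : ℝ) ^ m) • ∑ i, Nr i * Nr i := by
        rw [smul_smul, ← pow_succ, hsum, sum_cons, Finset.smul_sum]
        exact Finset.sum_congr rfl fun i _ => (hsum1 i).symm
      exact smul_right_injective _ hbm.ne' h1
    obtain ⟨hN1, hN2⟩ := root_avg hb Nr (fun i => (hNr i).posSemidef) R₀ hR₀.posSemidef hsum2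
    have hw' : ∀ a : K ⊕ K, 0 < (Sum.elim w fun a => lam ^ 2 * w a : K ⊕ K → ℝ) a := by
      intro a
      rcases a with a | a
      · exact hw a
      · have := hw a
        simp only [Sum.elim_inr]
        positivity
    have hih := fun i : Fin b => ih (K ⊕ K) ρ (Sum.elim w fun a => lam ^ 2 * w a) hw' (blk E)
      (blk_symm E hE) (fun S' => R (Fin.cons i S')) (fun S' => hR _) τ hτ
      (fun S' => hyp_step lam τ w E _ _ (hyp (Fin.cons i S'))) (Nr i) (hNr i) (hsum1 i)
    choose B hB1 hB2 using hih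
    set T : ℝ := (b : ℝ) ^ m * (τ * (1 + ε) ^ m) with hT
    have hT0 : 0 < T := by positivity
    have hst : ∀ x' : Fin m → Fin b → Bool, ∃ bad : Finset (Fin b → Bool),
        (bad.card : ℝ) ≤ (Fintype.card K * Fintype.card ρ) * dl * 2 ^ b ∧
        (x' ∉ Finset.univ.biUnion B → ∀ x₀ ∉ bad,
          (∑ i, ((∑ S' : Fin m → Fin b, ((1 / 2 : ℝ) • (E (Fin.cons false fun j => x' j (S' j))
              + E (Fin.cons true fun j => x' j (S' j)))) ⊗ₖ
                (R (Fin.cons i S') * R (Fin.cons i S')))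
            + SDX.sg (x₀ i) • (∑ S' : Fin m → Fin b,
              ((1 / 2 : ℝ) • (E (Fin.cons false fun j => x' j (S' j))
              - E (Fin.cons true fun j => x' j (S' j)))) ⊗ₖ
                (R (Fin.cons i S') * R (Fin.cons i S'))))
            + (b * (T * (1 + ε))) • (Matrix.diagonal w ⊗ₖ R₀)).PosSemidef) := by
      intro x'
      by_cases hx' : x' ∈ Finset.univ.biUnion B
      · exact ⟨∅, by simp; positivity, fun h => absurd hx' h⟩
      · have hx'' : ∀ i, x' ∉ B i := by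
          intro i hi
          exact hx' (Finset.mem_biUnion.2 ⟨i, Finset.mem_univ _, hi⟩)
        obtain ⟨bad, hbad1, hbad2⟩ := hstep (K × ρ) T hT0 (Matrix.diagonal w ⊗ₖ R₀)
          ((diag_psd hw).kronecker hR₀)
          (fun i => Matrix.diagonal w ⊗ₖ Nr i)
          (fun i => ∑ S' : Fin m → Fin b, ((1 / 2 : ℝ) • (E (Fin.cons false fun j => x' j (S' j))
              + E (Fin.cons true fun j => x' j (S' j)))) ⊗ₖ
                (R (Fin.cons i S') * R (Fin.cons i S')))
          (fun i => ∑ S' : Fin m → Fin b, ((1 / 2 : ℝ) • (E (Fin.cons false fun j => x' j (S' j))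
              - E (Fin.cons true fun j => x' j (S' j)))) ⊗ₖ
                (R (Fin.cons i S') * R (Fin.cons i S')))
          (fun i => Matrix.PosSemidef.kronecker (diag_psd hw).posSemidef (hNr i).posSemidef)
          (fun i => by
            have h1 := Matrix.PosSemidef.kronecker (diag_psd hw).posSemidef (hN1 i)
            rw [sub_eq_add_neg, Matrix.kronecker_add, ← neg_one_smul ℝ (Nr i),
              Matrix.kronecker_smul, Matrix.kronecker_smul, neg_one_smul, ← sub_eq_add_neg] at h1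
            exact h1)
          (by
            have h1 := Matrix.PosSemidef.kronecker (diag_psd hw).posSemidef hN2
            have h2 : Matrix.diagonal w ⊗ₖ ((b : ℝ) • R₀ - ∑ i, Nr i)
                = (b : ℝ) • (Matrix.diagonal w ⊗ₖ R₀) - ∑ i, Matrix.diagonal w ⊗ₖ Nr i := by
              ext p q
              simp [Matrix.sum_apply, Finset.mul_sum, mul_sub, mul_left_comm]
            rw [h2] at h1
            exact h1)
          (fun i => symm_sum fun S' => symm_kron (((hE _).add (hE _)).smul _) (symm_sq (hR _)))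
          (fun i => symm_sum fun S' => symm_kron (((hE _).sub (hE _)).smul _) (symm_sq (hR _)))
          (fun i => by
            have h1 := (hB2 i x' (hx'' i)).submatrix (Equiv.sumProdDistrib K K ρ).symm
            rw [block_eq] at h1
            exact h1)
        refine ⟨bad, ?_, fun _ => hbad2⟩
        rw [Fintype.card_prod] at hbad1
        push_cast at hbad1
        exact hbad1
    choose C hC1 hC2 using hst
    refine ⟨Finset.univ.filter fun x : Fin (m + 1) → Fin b → Bool =>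
      (Fin.tail x : Fin m → Fin b → Bool) ∈ Finset.univ.biUnion B ∨ x 0 ∈ C (Fin.tail x), ?_, ?_⟩
    · refine (card_le (Finset.univ.biUnion B) C).trans ?_
      have c1 : (((Finset.univ.biUnion B).card : ℕ) : ℝ)
          ≤ b * (m * (2 * b) ^ m * (2 * Fintype.card K * Fintype.card ρ) * dl * 2 ^ (m * b)) := by
        have h1 : (((Finset.univ.biUnion B).card : ℕ) : ℝ) ≤ ∑ i, ((B i).card : ℝ) := by
          exact_mod_cast Finset.card_biUnion_le
        refine h1.trans ?_
        have h2 : ∀ i ∈ (Finset.univ : Finset (Fin b)), ((B i).card : ℝ)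
            ≤ m * (2 * b) ^ m * (2 * Fintype.card K * Fintype.card ρ) * dl * 2 ^ (m * b) := by
          intro i _
          refine (hB1 i).trans (le_of_eq ?_)
          rw [Fintype.card_sum]
          push_cast
          ring
        refine (Finset.sum_le_card_nsmul _ _ _ h2).trans (le_of_eq ?_)
        rw [Finset.card_univ, Fintype.card_fin, nsmul_eq_mul]
      have c2 : ∑ x', ((C x').card : ℝ)
          ≤ 2 ^ (m * b) * ((Fintype.card K * Fintype.card ρ) * dl * 2 ^ b) := by
        refine (Finset.sum_le_card_nsmul _ _ _ fun x' _ => hC1 x').trans (le_of_eq ?_)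
        rw [Finset.card_univ, nsmul_eq_mul]
        simp only [Fintype.card_fun, Fintype.card_bool, Fintype.card_fin]
        push_cast
        rw [← pow_mul, mul_comm b m]
      have c3 : (Fintype.card (Fin b → Bool) : ℝ) = 2 ^ b := by
        simp
      rw [c3]
      have hP : (0 : ℝ) ≤ Fintype.card K * Fintype.card ρ * dl * 2 ^ ((m + 1) * b) := by positivity
      have h1b : (1 : ℝ) ≤ (2 * b) ^ (m + 1) := one_le_pow₀ (by linarith)
      calc (2 : ℝ) ^ b * (((Finset.univ.biUnion B).card : ℕ) : ℝ) + ∑ x', ((C x').card : ℝ)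
          ≤ 2 ^ b * (b * (m * (2 * b) ^ m * (2 * Fintype.card K * Fintype.card ρ) * dl
              * 2 ^ (m * b))) + 2 ^ (m * b) * ((Fintype.card K * Fintype.card ρ) * dl * 2 ^ b) :=
            add_le_add (mul_le_mul_of_nonneg_left c1 (by positivity)) c2
        _ = (Fintype.card K * Fintype.card ρ * dl * 2 ^ ((m + 1) * b))
              * (m * (2 * b) ^ (m + 1) + 1) := by
            rw [add_mul, one_mul, pow_add]
            ring
        _ ≤ (Fintype.card K * Fintype.card ρ * dl * 2 ^ ((m + 1) * b))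
              * (m * (2 * b) ^ (m + 1) + (2 * b) ^ (m + 1)) :=
            mul_le_mul_of_nonneg_left (by linarith) hP
        _ = ((m + 1 : ℕ) : ℝ) * (2 * b) ^ (m + 1) * (Fintype.card K * Fintype.card ρ) * dl
              * 2 ^ ((m + 1) * b) := by
            push_cast
            ring
    · intro x hx
      rw [Finset.mem_filter] at hx
      have hx1 : (Fin.tail x : Fin m → Fin b → Bool) ∉ Finset.univ.biUnion B := fun h =>
        hx ⟨Finset.mem_univ _, Or.inl h⟩
      have hx2 : x 0 ∉ C (Fin.tail x) := fun h => hx ⟨Finset.mem_univ _, Or.inr h⟩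
      have h1 := hC2 (Fin.tail x) hx1 (x 0) hx2
      convert h1 using 1
      congr 1
      · rw [sum_cons]
        refine Finset.sum_congr rfl fun i _ => ?_
        rw [Finset.smul_sum, ← Finset.sum_add_distrib]
        refine Finset.sum_congr rfl fun S' _ => ?_
        have e1 : (fun j => x j ((Fin.cons i S' : Fin (m + 1) → Fin b) j))
            = Fin.cons (x 0 i) fun j => (Fin.tail x : Fin m → Fin b → Bool) j (S' j) := by
          funext j
          refine Fin.cases ?_ (fun j => ?_) j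
          · simp
          · simp [Fin.tail]
        rw [e1, ← Matrix.smul_kronecker, ← Matrix.add_kronecker]
        congr 1
        cases x 0 i
        · ext p q
          simp [SDX.sg]
          ring
        · ext p q
          simp [SDX.sg]
          ring
      · congr 1
        rw [hT]
        ring

theorem oneStep {b p : ℕ} (hb : 0 < b) (hp : 0 < p) (lam η ε : ℝ) (hlam : 1 < lam) (hη : 0 < η)
    (hη1 : η < 1)
    (hε : η * (lam ^ 2 - 1) + 3 * p * (lam ^ 2 - 1) / (η ^ 2 * Real.sqrt b) ≤ ε) :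
    OneStep b lam ε (Real.exp (-p)) := by
  intro ι _ _ τ hτ N hN Ni F f hNi hN1 hN2 hF hf H
  obtain ⟨bad, h1, h2⟩ := step hb hp lam η τ hlam hη hη1 hτ N hN Ni F f hNi hN1 hN2 hF hf H
  refine ⟨bad, h1, fun x hx => ?_⟩
  have h3 := h2 x hx
  have h4 : ((b * (τ * (ε - (η * (lam ^ 2 - 1) + 3 * p * (lam ^ 2 - 1) / (η ^ 2 * Real.sqrt b)))))
      • N).PosSemidef := by
    refine hN.posSemidef.smul ?_
    have : 0 ≤ ε - (η * (lam ^ 2 - 1) + 3 * p * (lam ^ 2 - 1) / (η ^ 2 * Real.sqrt b)) := by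
      linarith
    positivity
  have h5 := h3.add h4
  convert h5 using 1
  rw [add_assoc, ← add_smul]
  congr 2
  ring

theorem induct {b p : ℕ} (hb : 0 < b) (hp : 0 < p) (lam η ε : ℝ) (hlam : 1 < lam) (hη : 0 < η)
    (hη1 : η < 1)
    (hε : η * (lam ^ 2 - 1) + 3 * p * (lam ^ 2 - 1) / (η ^ 2 * Real.sqrt b) ≤ ε) (m : ℕ) :
    ∀ (K ρ : Type) [Fintype K] [DecidableEq K] [Fintype ρ] [DecidableEq ρ] (w : K → ℝ)
      (_ : ∀ a, 0 < w a) (E : (Fin m → Bool) → Matrix K K ℝ) (_ : ∀ y, (E y).IsSymm)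
      (R : (Fin m → Fin b) → Matrix ρ ρ ℝ) (_ : ∀ S, (R S).PosDef) (τ : ℝ) (_ : 0 < τ)
      (_ : ∀ S, ∀ g : (Fin m → Bool) → K × ρ → ℝ,
        -(τ * W lam (qf (Matrix.diagonal w ⊗ₖ R S)) m g)
          ≤ (∑ y, qf (E y ⊗ₖ (R S * R S)) (g y)) / 2 ^ m)
      (R₀ : Matrix ρ ρ ℝ) (_ : R₀.PosDef) (_ : ((b : ℝ) ^ m) • (R₀ * R₀) = ∑ S, R S * R S),
      ∃ bad : Finset (Fin m → Fin b → Bool),
        (bad.card : ℝ)
          ≤ m * (2 * b) ^ m * (Fintype.card K * Fintype.card ρ) * Real.exp (-p) * 2 ^ (m * b) ∧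
        ∀ x ∉ bad, (∑ S : Fin m → Fin b, E (fun j => x j (S j)) ⊗ₖ (R S * R S)
          + ((b : ℝ) ^ m * (τ * (1 + ε) ^ m)) • (Matrix.diagonal w ⊗ₖ R₀)).PosSemidef := by
  have hl : 0 < lam ^ 2 - 1 := by nlinarith
  have hb' : (0 : ℝ) < b := by exact_mod_cast hb
  have hε0 : 0 ≤ ε := le_trans (by positivity) hε
  exact induct_of_oneStep hb lam ε (Real.exp (-p)) hlam hε0 (Real.exp_pos _).le
    (oneStep hb hp lam η ε hlam hη hη1 hε) m

end LIFT
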