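import Pool.Agent.LIFT.Defs

/-! # LIFT, row R1: square roots -/

set_option autoImplicit false
set_option linter.unusedSectionVars false

open scoped BigOperators Matrix

namespace LIFT

variable {ι : Type} [Fintype ι] [DecidableEq ι]

namespace h32

/-- `X (Y - X) v + (Y - X) Y v`: the difference of two squares. -/
theorem sq_sub (X Y : Matrix ι ι ℝ) (v : ι → ℝ) :
    v ⬝ᵥ (Y * Y - X * X) *ᵥ v = v ⬝ᵥ (Y *ᵥ ((Y - X) *ᵥ v)) + v ⬝ᵥ ((Y - X) *ᵥ (X *ᵥ v)) := by
  rw [Matrix.mulVec_mulVec, Matrix.mulVec_mulVec, ← dotProduct_add, ← Matrix.add_mulVec]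
  congr 2
  noncomm_ring

theorem symm_move {A : Matrix ι ι ℝ} (hA : A.IsHermitian) (v w : ι → ℝ) :
    v ⬝ᵥ (A *ᵥ w) = (A *ᵥ v) ⬝ᵥ w := by
  have h : Aᵀ = A := by
    have := hA.eq
    rwa [Matrix.conjTranspose_eq_transpose_of_trivial] at this
  rw [Matrix.dotProduct_mulVec, ← Matrix.mulVec_transpose, h]

theorem nonneg_of_psd {A : Matrix ι ι ℝ} (hA : A.PosSemidef) (v : ι → ℝ) :
    0 ≤ v ⬝ᵥ (A *ᵥ v) := by
  have := hA.dotProduct_mulVec_nonneg v
  rwa [star_trivial] at this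

theorem sq_psd {A : Matrix ι ι ℝ} (hA : A.IsHermitian) : (A * A).PosSemidef := by
  have := Matrix.posSemidef_conjTranspose_mul_self A
  rwa [hA.eq] at this

end h32

open h32

theorem root_mono {X Y : Matrix ι ι ℝ} (hX : X.PosSemidef) (hY : Y.PosSemidef)
    (h : (Y * Y - X * X).PosSemidef) : (Y - X).PosSemidef := by
  have hM : (Y - X).IsHermitian := hY.1.sub hX.1
  rw [hM.posSemidef_iff_eigenvalues_nonneg]
  intro j
  by_contra hj
  have hj' : hM.eigenvalues j < 0 := not_le.mp hj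
  set v : ι → ℝ := ⇑(hM.eigenvectorBasis j) with hv
  set μ : ℝ := hM.eigenvalues j with hμ
  have e1 : (Y - X) *ᵥ v = μ • v := hM.mulVec_eigenvectorBasis j
  have hv0 : v ≠ 0 := by
    intro h0
    have h1 := hM.eigenvectorBasis.orthonormal.1 j
    have h2 : hM.eigenvectorBasis j = 0 := by
      ext i
      exact congrFun h0 i
    rw [h2, norm_zero] at h1
    exact zero_ne_one h1
  have e2 : v ⬝ᵥ (Y * Y - X * X) *ᵥ v = μ * (v ⬝ᵥ (Y *ᵥ v)) + μ * (v ⬝ᵥ (X *ᵥ v)) := by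
    rw [sq_sub, e1, symm_move hM, e1, Matrix.mulVec_smul, dotProduct_smul, smul_dotProduct,
      smul_eq_mul, smul_eq_mul]
  have h1 := nonneg_of_psd h v
  have h2 := nonneg_of_psd hX v
  have h3 := nonneg_of_psd hY v
  rw [e2] at h1
  have h4 : v ⬝ᵥ (X *ᵥ v) = 0 := by nlinarith
  have h5 : v ⬝ᵥ (Y *ᵥ v) = 0 := by nlinarith
  have h6 : X *ᵥ v = 0 := (hX.dotProduct_mulVec_zero_iff v).mp (by rwa [star_trivial])
  have h7 : Y *ᵥ v = 0 := (hY.dotProduct_mulVec_zero_iff v).mp (by rwa [star_trivial])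
  rw [Matrix.sub_mulVec, h6, h7, sub_zero] at e1
  rcases smul_eq_zero.mp e1.symm with h8 | h8
  · linarith
  · exact hv0 h8

open scoped MatrixOrder in
theorem exists_root {A : Matrix ι ι ℝ} (hA : A.PosDef) :
    ∃ R : Matrix ι ι ℝ, R.PosDef ∧ R * R = A := by
  have h1 : (CFC.sqrt A).PosSemidef := Matrix.nonneg_iff_posSemidef.mp (CFC.sqrt_nonneg A)
  have h2 : CFC.sqrt A * CFC.sqrt A = A := CFC.sqrt_mul_sqrt_self A hA.posSemidef.nonneg
  refine ⟨CFC.sqrt A, ?_, h2⟩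
  rw [h1.posDef_iff_det_ne_zero]
  intro h3
  have h4 := hA.det_pos
  rw [← h2, Matrix.det_mul, h3, mul_zero] at h4
  exact lt_irrefl _ h4

theorem root_avg {b : ℕ} (hb : 0 < b) (R : Fin b → Matrix ι ι ℝ) (hR : ∀ i, (R i).PosSemidef)
    (R₀ : Matrix ι ι ℝ) (h₀ : R₀.PosSemidef) (h : (b : ℝ) • (R₀ * R₀) = ∑ i, R i * R i) :
    (∀ i, (Real.sqrt b • R₀ - R i).PosSemidef) ∧ ((b : ℝ) • R₀ - ∑ i, R i).PosSemidef := by
  have hsum : (∑ i, R i).PosSemidef := Matrix.posSemidef_sum _ fun i _ => hR i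
  constructor
  · intro i
    refine root_mono (hR i) (h₀.smul (Real.sqrt_nonneg _)) ?_
    have e : Real.sqrt b • R₀ * Real.sqrt b • R₀ = (b : ℝ) • (R₀ * R₀) := by
      rw [Matrix.smul_mul, Matrix.mul_smul, smul_smul, Real.mul_self_sqrt (Nat.cast_nonneg b)]
    rw [e, h, ← Finset.add_sum_erase _ _ (Finset.mem_univ i), add_sub_cancel_left]
    exact Matrix.posSemidef_sum _ fun j _ => sq_psd (hR j).1
  · refine root_mono hsum (h₀.smul (Nat.cast_nonneg b)) ?_
    have e : (b : ℝ) • R₀ * (b : ℝ) • R₀ = (b : ℝ) • ∑ i, R i * R i := by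
      rw [Matrix.smul_mul, Matrix.mul_smul, h]
    have e2 : (b : ℝ) • R₀ * (b : ℝ) • R₀ - (∑ i, R i) * ∑ i, R i =
        (1 / 2 : ℝ) • ∑ i, ∑ j, (R i - R j) * (R i - R j) := by
      have e3 : ∀ i j, (R i - R j) * (R i - R j) = R i * R i + R j * R j - R i * R j - R j * R i := by
        intro i j
        noncomm_ring
      simp only [e3]
      rw [e]
      simp only [Finset.sum_sub_distrib, Finset.sum_add_distrib, Finset.sum_const,
        Finset.card_univ, Fintype.card_fin]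
      rw [Finset.sum_mul_sum]
      have e4 : ∑ i, ∑ j, R j * R i = ∑ i, ∑ j, R i * R j := Finset.sum_comm
      rw [e4]
      simp only [← Nat.cast_smul_eq_nsmul ℝ, ← Finset.smul_sum]
      module
    rw [e2]
    refine Matrix.PosSemidef.smul ?_ (by norm_num)
    exact Matrix.posSemidef_sum _ fun i _ => Matrix.posSemidef_sum _ fun j _ =>
      sq_psd ((hR i).1.sub (hR j).1)

end LIFT
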