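import Pool.Agent.LIFT.Base
import Pool.Agent.LIFT.Root
import Pool.Agent.LIFT.Induct

/-!
# LIFT, row R8: the core theorem

`P S` is replaced by `P S + ε₀` with a tiny `ε₀`, so that all square roots are positive definite; the
base case (row R7) starts the induction over the blocks (row R6).
-/

set_option autoImplicit false

open scoped BigOperators Matrix Kronecker

namespace LIFT

namespace CoreAux

/-- the numbers -/
theorem num (κ Λ L ε₀ : ℝ) (hκ : 0 < κ) (hΛ : 1 ≤ Λ) (hL : 1 ≤ L) (hε₀ : ε₀ = 1 / (100 * L)) (m : ℕ)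
    (ε : ℝ) (hε0 : 0 ≤ ε) (hε : ε * m ≤ 1) :
    κ * ε₀ + 2 * κ / L * (Λ * (1 + ε₀)) * (1 + ε) ^ m * (1 + ε₀) ≤ 6 * κ * Λ / L := by
  have hL0 : 0 < L := by linarith
  have h1 : ε₀ ≤ 1 / 100 := by
    rw [hε₀]
    exact div_le_div_of_nonneg_left (by norm_num) (by norm_num) (by linarith)
  have h0 : 0 < ε₀ := by
    rw [hε₀]
    positivity
  have h2 : (1 + ε) ^ m ≤ 2.7182818286 := by
    have h3 : (1 + ε) ^ m ≤ Real.exp 1 := by
      calc (1 + ε) ^ m ≤ Real.exp ε ^ m := by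
            refine pow_le_pow_left₀ (by linarith) ?_ m
            rw [add_comm]
            exact Real.add_one_le_exp ε
        _ = Real.exp (ε * m) := by
            rw [← Real.exp_nat_mul, mul_comm]
        _ ≤ Real.exp 1 := Real.exp_le_exp.2 hε
    exact h3.trans Real.exp_one_lt_d9.le
  have h4 : (0 : ℝ) ≤ (1 + ε) ^ m := by positivity
  have h5 : κ * ε₀ = κ / L * (1 / 100) := by
    rw [hε₀]
    field_simp
  have h6 : 2 * κ / L * (Λ * (1 + ε₀)) * (1 + ε) ^ m * (1 + ε₀) =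
      κ / L * (2 * Λ * (1 + ε₀) ^ 2 * (1 + ε) ^ m) := by
    field_simp
  have h7 : 6 * κ * Λ / L = κ / L * (6 * Λ) := by
    field_simp
  rw [h5, h6, h7, ← mul_add]
  refine mul_le_mul_of_nonneg_left ?_ (by positivity)
  have h8 : (1 + ε₀) ^ 2 ≤ 1.0201 := by nlinarith
  have h9 : (1 + ε₀) ^ 2 * (1 + ε) ^ m ≤ 1.0201 * 2.7182818286 :=
    mul_le_mul h8 h2 h4 (by norm_num)
  nlinarith

/-- currying of the variables -/
def cur {m b : ℕ} : (Fin m × Fin b → Bool) ≃ (Fin m → Fin b → Bool) := Equiv.curry _ _ _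

end CoreAux

open Matrix CoreAux in
/-- row R8 -/
theorem core {m b p r d : ℕ} (hb : 0 < b) (hp : 0 < p) (lam η κ Λ : ℝ) (hlam : 1 < lam)
    (hη : 0 < η) (hη1 : η < 1) (hm : 0 < m) (hκ : 0 < κ) (hΛ : 1 ≤ Λ)
    (hε : (η * (lam ^ 2 - 1) + 3 * p * (lam ^ 2 - 1) / (η ^ 2 * Real.sqrt b)) * m ≤ 1)
    (D : (Fin m → Bool) → ℝ) (hD : ∀ y, |D y| ≤ κ)
    (hpd : ∀ g ∈ SDX.Deg (Fin m) d, 0 ≤ ∑ y, D y * g y ^ 2)
    (P : (Fin m → Fin b) → Matrix (Fin r) (Fin r) ℝ) (hP : ∀ S, (P S).PosSemidef)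
    (hPΛ : ∀ S, ((Λ ^ 2) • (1 : Matrix (Fin r) (Fin r) ℝ) - P S).PosSemidef)
    (hPI : (((b : ℝ) ^ m) • (1 : Matrix (Fin r) (Fin r) ℝ) - ∑ S, P S).PosSemidef) :
    ∃ bad : Finset (Fin m × Fin b → Bool),
      (bad.card : ℝ) ≤ m * (2 * b) ^ m * r * Real.exp (-p) * 2 ^ (m * b) ∧
      ∀ x ∉ bad, (∑ S, D (SDX.rs S x) • P S + ((b : ℝ) ^ m * (6 * κ * Λ / lam ^ (d + 1))) •
        (1 : Matrix (Fin r) (Fin r) ℝ)).PosSemidef := by
  classical
  have _ := hm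
  set L : ℝ := lam ^ (d + 1) with hL
  have hL1 : 1 ≤ L := one_le_pow₀ hlam.le
  have hL0 : 0 < L := by linarith
  set ε₀ : ℝ := 1 / (100 * L) with hε₀
  have h0 : 0 < ε₀ := by positivity
  have hbm : (0 : ℝ) < (b : ℝ) ^ m := by positivity
  -- the perturbed family
  have hP' : ∀ S, (P S + ε₀ • (1 : Matrix (Fin r) (Fin r) ℝ)).PosDef := fun S =>
    (PosDef.one.smul h0).posSemidef_add (hP S)
  choose R hR hRR using fun S => exists_root (hP' S)
  have hcard : ∑ _S : Fin m → Fin b, ε₀ • (1 : Matrix (Fin r) (Fin r) ℝ) =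
      ((b : ℝ) ^ m * ε₀) • (1 : Matrix (Fin r) (Fin r) ℝ) := by
    rw [Finset.sum_const, Finset.card_univ, Fintype.card_fun, Fintype.card_fin, Fintype.card_fin,
      ← Nat.cast_smul_eq_nsmul ℝ, smul_smul]
    push_cast
    rfl
  have hsumP : (∑ S, P S).PosSemidef := Matrix.posSemidef_sum _ fun S _ => hP S
  have hA : ((((b : ℝ) ^ m)⁻¹ • ∑ S, P S) + ε₀ • (1 : Matrix (Fin r) (Fin r) ℝ)).PosDef :=
    (PosDef.one.smul h0).posSemidef_add (hsumP.smul (by positivity))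
  obtain ⟨R₀, hR₀, hRR₀⟩ := exists_root hA
  have hR₀sum : ((b : ℝ) ^ m) • (R₀ * R₀) = ∑ S, R S * R S := by
    simp only [hRR, hRR₀]
    rw [Finset.sum_add_distrib, hcard, smul_add, smul_smul, smul_smul, mul_inv_cancel₀ hbm.ne',
      one_smul]
  -- upper bounds for the roots
  set Λ' : ℝ := Λ * (1 + ε₀) with hΛ'
  have hΛ'0 : 0 < Λ' := by positivity
  have hRΛ : ∀ S, (Λ' • (1 : Matrix (Fin r) (Fin r) ℝ) - R S).PosSemidef := by
    intro S
    refine root_mono (hR S).posSemidef (PosSemidef.one.smul hΛ'0.le) ?_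
    rw [hRR]
    have e : (Λ' • (1 : Matrix (Fin r) (Fin r) ℝ)) * (Λ' • (1 : Matrix (Fin r) (Fin r) ℝ)) -
        (P S + ε₀ • (1 : Matrix (Fin r) (Fin r) ℝ)) =
        ((Λ ^ 2) • (1 : Matrix (Fin r) (Fin r) ℝ) - P S) + (Λ' ^ 2 - Λ ^ 2 - ε₀) •
          (1 : Matrix (Fin r) (Fin r) ℝ) := by
      rw [smul_mul_smul_comm, Matrix.one_mul]
      module
    rw [e]
    refine (hPΛ S).add (PosSemidef.one.smul ?_)
    have : 1 ≤ Λ ^ 2 := one_le_pow₀ hΛ
    rw [hΛ']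
    nlinarith [mul_nonneg h0.le (sub_nonneg.2 this), mul_nonneg (sq_nonneg Λ) (sq_nonneg ε₀)]
  have hR₀1 : ((1 + ε₀) • (1 : Matrix (Fin r) (Fin r) ℝ) - R₀).PosSemidef := by
    refine root_mono hR₀.posSemidef (PosSemidef.one.smul (by linarith)) ?_
    rw [hRR₀]
    have e : ((1 + ε₀) • (1 : Matrix (Fin r) (Fin r) ℝ)) * ((1 + ε₀) •
        (1 : Matrix (Fin r) (Fin r) ℝ)) - ((((b : ℝ) ^ m)⁻¹ • ∑ S, P S) + ε₀ •
          (1 : Matrix (Fin r) (Fin r) ℝ)) =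
        ((b : ℝ) ^ m)⁻¹ • (((b : ℝ) ^ m) • (1 : Matrix (Fin r) (Fin r) ℝ) - ∑ S, P S) +
          (ε₀ + ε₀ ^ 2) • (1 : Matrix (Fin r) (Fin r) ℝ) := by
      rw [smul_mul_smul_comm, Matrix.one_mul, smul_sub, smul_smul, inv_mul_cancel₀ hbm.ne', one_smul]
      module
    rw [e]
    exact (hPI.smul (by positivity)).add (PosSemidef.one.smul (by positivity))
  -- the induction
  set ε : ℝ := η * (lam ^ 2 - 1) + 3 * p * (lam ^ 2 - 1) / (η ^ 2 * Real.sqrt b) with hεdef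
  have hlam2 : 0 < lam ^ 2 - 1 := by nlinarith
  have hε0 : 0 ≤ ε := by positivity
  set τ : ℝ := 2 * κ / L * Λ' with hτ
  have hτ0 : 0 < τ := by positivity
  obtain ⟨bad, hbad, hgood⟩ := induct hb hp lam η ε hlam hη hη1 le_rfl m Unit (Fin r)
    (fun _ => 1) (fun _ => one_pos) (fun y => Matrix.of fun _ _ => D y) (fun y => rfl) R hR τ hτ0
    (fun S g => base κ Λ' lam hκ.le hΛ'0.le hlam.le D hD hpd (R S) (hR S).posSemidef (hRΛ S) g)
    R₀ hR₀ hR₀sum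
  refine ⟨bad.map cur.symm.toEmbedding, ?_, fun x hx => ?_⟩
  · rw [Finset.card_map]
    refine hbad.trans (le_of_eq ?_)
    rw [Fintype.card_unit, Fintype.card_fin]
    push_cast
    ring
  · have hx' : cur x ∉ bad := by
      intro h
      exact hx (Finset.mem_map.2 ⟨cur x, h, by simp⟩)
    have h1 := (hgood _ hx').submatrix (fun a : Fin r => ((() : Unit), a))
    have e1 : (∑ S : Fin m → Fin b, (Matrix.of fun _ _ : Unit => D fun j => cur x j (S j)) ⊗ₖ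
        (R S * R S) + ((b : ℝ) ^ m * (τ * (1 + ε) ^ m)) •
          (Matrix.diagonal (fun _ : Unit => (1 : ℝ)) ⊗ₖ R₀)).submatrix
            (fun a : Fin r => ((() : Unit), a)) (fun a : Fin r => ((() : Unit), a)) =
        ∑ S, D (SDX.rs S x) • (R S * R S) + ((b : ℝ) ^ m * (τ * (1 + ε) ^ m)) • R₀ := by
      ext i j
      simp only [Matrix.submatrix_apply, Matrix.add_apply, Matrix.sum_apply, Matrix.smul_apply,
        Matrix.kroneckerMap_apply, Matrix.of_apply, Matrix.diagonal_apply_eq, smul_eq_mul, one_mul]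
      rfl
    rw [e1] at h1
    set F : ℝ := ∑ S, D (SDX.rs S x) with hF
    have hFκ : F ≤ (b : ℝ) ^ m * κ := by
      have h2 : F ≤ ∑ _S : Fin m → Fin b, κ :=
        Finset.sum_le_sum fun S _ => (abs_le.1 (hD _)).2
      refine h2.trans (le_of_eq ?_)
      rw [Finset.sum_const, Finset.card_univ, Fintype.card_fun, Fintype.card_fin, Fintype.card_fin,
        nsmul_eq_mul]
      push_cast
      rfl
    have e2 : ∑ S, D (SDX.rs S x) • (R S * R S) =
        ∑ S, D (SDX.rs S x) • P S + (ε₀ * F) • (1 : Matrix (Fin r) (Fin r) ℝ) := by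
      simp only [hRR, smul_add]
      rw [Finset.sum_add_distrib, hF, Finset.mul_sum, Finset.sum_smul]
      congr 1
      refine Finset.sum_congr rfl fun S _ => ?_
      rw [smul_smul, mul_comm]
    have hC : 0 ≤ (b : ℝ) ^ m * (τ * (1 + ε) ^ m) := by positivity
    have h3 := h1.add (hR₀1.smul hC)
    have hnum := num κ Λ L ε₀ hκ hΛ hL1 hε₀ m ε hε0 hε
    have hc : 0 ≤ (b : ℝ) ^ m * (6 * κ * Λ / L) - (ε₀ * F + (b : ℝ) ^ m * (τ * (1 + ε) ^ m) *
        (1 + ε₀)) := by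
      have h4 := mul_le_mul_of_nonneg_left hnum hbm.le
      have h5 := mul_le_mul_of_nonneg_left hFκ h0.le
      rw [hτ, hΛ']
      nlinarith
    have h4 := h3.add ((PosSemidef.one (n := Fin r) (R := ℝ)).smul hc)
    have e3 : ∑ S, D (SDX.rs S x) • (R S * R S) + ((b : ℝ) ^ m * (τ * (1 + ε) ^ m)) • R₀ +
        ((b : ℝ) ^ m * (τ * (1 + ε) ^ m)) • ((1 + ε₀) • (1 : Matrix (Fin r) (Fin r) ℝ) - R₀) +
        ((b : ℝ) ^ m * (6 * κ * Λ / L) - (ε₀ * F + (b : ℝ) ^ m * (τ * (1 + ε) ^ m) * (1 + ε₀))) •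
          (1 : Matrix (Fin r) (Fin r) ℝ) =
        ∑ S, D (SDX.rs S x) • P S + ((b : ℝ) ^ m * (6 * κ * Λ / L)) •
          (1 : Matrix (Fin r) (Fin r) ℝ) := by
      rw [e2]
      module
    rwa [e3] at h4

end LIFT
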