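import Pool.Agent.LIFT.Step

/-!
# LIFT, row V5: one step with the metric `N` for all `i`
-/

set_option autoImplicit false

open scoped BigOperators Matrix Kronecker

namespace LIFT

open h70

/-- one step, identity metric -/
theorem step2 {ι : Type} [Fintype ι] [DecidableEq ι] {b p : ℕ} (hb : 0 < b) (hp : 0 < p)
    (lam η τ : ℝ) (hlam : 1 < lam) (hη : 0 < η) (hη1 : η < 1) (hτ : 0 < τ) (N : Matrix ι ι ℝ)
    (hN : N.PosDef) (F f : Fin b → Matrix ι ι ℝ) (hF : ∀ i, (F i).IsSymm)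
    (hf : ∀ i, (f i).IsSymm)
    (H : ∀ i, (Matrix.fromBlocks (F i + τ • N) (f i) (f i) (F i + (τ * lam ^ 2) • N)).PosSemidef) :
    ∃ bad : Finset (Fin b → Bool), (bad.card : ℝ) ≤ Fintype.card ι * Real.exp (-p) * 2 ^ b ∧
      ∀ x ∉ bad, (∑ i, (F i + SDX.sg (x i) • f i) + (b * (τ * (1 + (η * (lam ^ 2 - 1)
        + 3 * p * (lam ^ 2 - 1) / (η ^ 2 * b))))) • N).PosSemidef := by
  have hherm : ∀ M : Matrix ι ι ℝ, M.IsSymm → M.IsHermitian := fun M hM => by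
    rw [Matrix.IsHermitian, Matrix.conjTranspose_eq_transpose_of_trivial]
    exact hM
  have hsm : ∀ (r : ℝ) (M : Matrix ι ι ℝ), M.IsHermitian → (r • M).IsHermitian := by
    intro r M hM
    rw [Matrix.IsHermitian, Matrix.conjTranspose_smul, hM.eq, star_trivial]
  have hb' : (0 : ℝ) < b := by exact_mod_cast hb
  have hp' : (0 : ℝ) < p := by exact_mod_cast hp
  obtain ⟨C, C', hCs, hCN, hCC, hCC'⟩ := exists_congr hN
  set r : ℝ := (b * τ)⁻¹ with hr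
  have hr0 : 0 < r := by positivity
  have hbr : (b : ℝ) * τ * r = 1 := mul_inv_cancel₀ (by positivity)
  have hconj : ∀ (M : Matrix ι ι ℝ) (u v : ι → ℝ),
      u ⬝ᵥ (C * M * C) *ᵥ v = (C *ᵥ u) ⬝ᵥ M *ᵥ (C *ᵥ v) := by
    intro M u v
    rw [dot_mul hCs, Matrix.mulVec_mulVec, Matrix.mulVec_mulVec]
  have hNnorm : ∀ v, (C *ᵥ v) ⬝ᵥ N *ᵥ (C *ᵥ v) = v ⬝ᵥ v := by
    intro v
    rw [← hconj, hCN, Matrix.one_mulVec]
  have hCsym : ∀ M : Matrix ι ι ℝ, M.IsHermitian → (C * M * C).IsHermitian := by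
    intro M hM
    rw [Matrix.IsHermitian, Matrix.conjTranspose_mul, Matrix.conjTranspose_mul, hCs.eq, hM.eq,
      Matrix.mul_assoc]
  set k : ℝ := (lam ^ 2 - 1) / 2 with hk
  have hl2 : 0 < lam ^ 2 - 1 := by nlinarith
  have hk0 : 0 < k := by rw [hk]; linarith
  set δ₀ : ℝ := (b : ℝ)⁻¹ with hδ
  have hδ₀ : 0 < δ₀ := by positivity
  set R : ℝ := k * δ₀ / η with hR
  have hR0 : 0 < R := by positivity
  have he : 0 < Real.exp 1 := Real.exp_pos 1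
  set s : ℝ := Real.exp 1 * p * R / η ^ 2 with hs
  have hs0 : 0 < s := by positivity
  have hkR : k * δ₀ ≤ R * η := by
    rw [hR, div_mul_cancel₀ _ hη.ne']
  have haR : Real.exp 1 * p * (R / s) ≤ η ^ 2 := by
    rw [hs]
    apply le_of_eq
    field_simp
  -- the normalised matrices
  set F' : Fin b → Matrix ι ι ℝ := fun i => r • (C * F i * C) with hF'
  set f' : Fin b → Matrix ι ι ℝ := fun i => r • (C * f i * C) with hf'
  set n' : Fin b → Matrix ι ι ℝ := fun i => (b : ℝ)⁻¹ • (C * N * C) with hn'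
  have vF : ∀ i u v, u ⬝ᵥ F' i *ᵥ v = r * ((C *ᵥ u) ⬝ᵥ F i *ᵥ (C *ᵥ v)) := by
    intro i u v
    simp only [hF']
    rw [Matrix.smul_mulVec, dotProduct_smul, hconj, smul_eq_mul]
  have vf : ∀ i u v, u ⬝ᵥ f' i *ᵥ v = r * ((C *ᵥ u) ⬝ᵥ f i *ᵥ (C *ᵥ v)) := by
    intro i u v
    simp only [hf']
    rw [Matrix.smul_mulVec, dotProduct_smul, hconj, smul_eq_mul]
  have vn : ∀ i u v, u ⬝ᵥ n' i *ᵥ v = (b : ℝ)⁻¹ * ((C *ᵥ u) ⬝ᵥ N *ᵥ (C *ᵥ v)) := by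
    intro i u v
    simp only [hn']
    rw [Matrix.smul_mulVec, dotProduct_smul, hconj, smul_eq_mul]
  have hn'p : ∀ i, (n' i).PosSemidef := by
    intro i
    refine psd_iff.2 ⟨hsm _ _ (hCsym _ (hN).isHermitian), fun v => ?_⟩
    rw [vn i]
    exact mul_nonneg (by positivity) ((psd_iff.1 hN.posSemidef).2 _)
  have hH : ∀ i, ∀ u v : ι → ℝ, 0 ≤ u ⬝ᵥ F' i *ᵥ u + u ⬝ᵥ n' i *ᵥ u + 2 * (u ⬝ᵥ f' i *ᵥ v)
      + v ⬝ᵥ F' i *ᵥ v + lam ^ 2 * (v ⬝ᵥ n' i *ᵥ v) := by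
    intro i u v
    have h1 := blocks_form (H i) (C *ᵥ u) (C *ᵥ v) (hherm _ (hf i))
    rw [Matrix.add_mulVec, Matrix.add_mulVec, Matrix.smul_mulVec, Matrix.smul_mulVec,
      dotProduct_add, dotProduct_add, dotProduct_smul, dotProduct_smul, smul_eq_mul,
      smul_eq_mul] at h1
    rw [vF, vF, vn i, vn i, vf]
    have h2 := mul_nonneg hr0.le h1
    have h3 : r * τ = (b : ℝ)⁻¹ := by
      rw [hr]
      field_simp
    have h4 : r * ((C *ᵥ u) ⬝ᵥ F i *ᵥ (C *ᵥ u) + τ * ((C *ᵥ u) ⬝ᵥ N *ᵥ (C *ᵥ u))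
        + 2 * ((C *ᵥ u) ⬝ᵥ f i *ᵥ (C *ᵥ v))
        + ((C *ᵥ v) ⬝ᵥ F i *ᵥ (C *ᵥ v) + τ * lam ^ 2 * ((C *ᵥ v) ⬝ᵥ N *ᵥ (C *ᵥ v))))
        = r * ((C *ᵥ u) ⬝ᵥ F i *ᵥ (C *ᵥ u)) + (r * τ) * ((C *ᵥ u) ⬝ᵥ N *ᵥ (C *ᵥ u))
          + 2 * (r * ((C *ᵥ u) ⬝ᵥ f i *ᵥ (C *ᵥ v)))
          + r * ((C *ᵥ v) ⬝ᵥ F i *ᵥ (C *ᵥ v))
          + lam ^ 2 * ((r * τ) * ((C *ᵥ v) ⬝ᵥ N *ᵥ (C *ᵥ v))) := by ring
    rw [h4, h3] at h2
    linarith
  have hnq : ∀ i, ∀ v, v ⬝ᵥ n' i *ᵥ v ≤ δ₀ * (v ⬝ᵥ v) := by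
    intro i v
    rw [vn i, hNnorm]
  have hn1 : ∀ v, ∑ i, v ⬝ᵥ n' i *ᵥ v ≤ v ⬝ᵥ v := by
    intro v
    rw [Finset.sum_congr rfl (fun i _ => vn i v v), hNnorm, Finset.sum_const, Finset.card_univ,
      Fintype.card_fin, nsmul_eq_mul, ← mul_assoc, mul_inv_cancel₀ hb'.ne', one_mul]
  obtain ⟨bad, hbad, hgood⟩ := core_norm (a := p) F' f' n'
    (fun i => hsm _ _ (hCsym _ (hherm _ (hF i)))) (fun i => hsm _ _ (hCsym _ (hherm _ (hf i))))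
    hn'p rfl hk hk0.le hδ₀ hR0 hs0 hη hη1.le hkR haR hH hnq hn1
  refine ⟨bad, ?_, fun x hx => ?_⟩
  · rw [Fintype.card_fin] at hbad
    refine hbad.trans (le_of_eq ?_)
    ring
  · refine psd_iff.2 ⟨?_, fun v => ?_⟩
    · refine Matrix.IsHermitian.add ?_ (hsm _ _ hN.isHermitian)
      rw [Matrix.IsHermitian, Matrix.conjTranspose_sum]
      refine Finset.sum_congr rfl fun i _ => ?_
      exact ((hherm _ (hF i)).add (hsm _ _ (hherm _ (hf i)))).eq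
    · have h1 := hgood x hx (C' *ᵥ v)
      have e0 : C *ᵥ (C' *ᵥ v) = v := by rw [Matrix.mulVec_mulVec, hCC, Matrix.one_mulVec]
      have e1 : (C' *ᵥ v) ⬝ᵥ (C' *ᵥ v) = v ⬝ᵥ N *ᵥ v := by
        rw [← hNnorm (C' *ᵥ v), e0]
      rw [e1, Finset.sum_congr rfl (fun i _ => by rw [vF, vf, e0])] at h1
      rw [Matrix.add_mulVec, Matrix.smul_mulVec, dotProduct_add,
        dotProduct_smul, Matrix.sum_mulVec, dotProduct_sum, smul_eq_mul]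
      have h2 : ∀ i, v ⬝ᵥ (F i + SDX.sg (x i) • f i) *ᵥ v
          = v ⬝ᵥ F i *ᵥ v + SDX.sg (x i) * (v ⬝ᵥ f i *ᵥ v) := by
        intro i
        rw [Matrix.add_mulVec, Matrix.smul_mulVec, dotProduct_add, dotProduct_smul, smul_eq_mul]
      rw [Finset.sum_congr rfl (fun i _ => h2 i)]
      have h2' : ∑ i, (r * (v ⬝ᵥ F i *ᵥ v) + SDX.sg (x i) * (r * (v ⬝ᵥ f i *ᵥ v)))
          = r * ∑ i, (v ⬝ᵥ F i *ᵥ v + SDX.sg (x i) * (v ⬝ᵥ f i *ᵥ v)) := by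
        rw [Finset.mul_sum]
        exact Finset.sum_congr rfl fun i _ => by ring
      rw [h2'] at h1
      have h3 : η * s ≤ 3 * p * (lam ^ 2 - 1) / (η ^ 2 * b) := by
        have e1 : η * s = Real.exp 1 * (p * (lam ^ 2 - 1) / (η ^ 2 * b)) / 2 := by
          rw [hs, hR, hk, hδ]
          field_simp
        have e2 : 3 * p * (lam ^ 2 - 1) / (η ^ 2 * b)
            = 3 * (p * (lam ^ 2 - 1) / (η ^ 2 * b)) := by
          ring
        rw [e1, e2]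
        have e3 : Real.exp 1 ≤ 3 := by
          have := Real.exp_one_lt_d9
          linarith
        have e4 : 0 ≤ p * (lam ^ 2 - 1) / (η ^ 2 * b) := by positivity
        nlinarith
      have h4 : 0 ≤ v ⬝ᵥ N *ᵥ v := (psd_iff.1 hN.posSemidef).2 v
      have h5 : 1 + 2 * η * k + η * s ≤ 1 + η * (lam ^ 2 - 1)
        + 3 * p * (lam ^ 2 - 1) / (η ^ 2 * b) := by
        have e1 : 2 * η * k = η * (lam ^ 2 - 1) := by rw [hk]; ring
        linarith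
      have h6 := mul_le_mul_of_nonneg_right h5 h4
      set X := ∑ i, (v ⬝ᵥ F i *ᵥ v + SDX.sg (x i) * (v ⬝ᵥ f i *ᵥ v)) with hX
      have h7 : -((1 + η * (lam ^ 2 - 1)
        + 3 * p * (lam ^ 2 - 1) / (η ^ 2 * b)) * (v ⬝ᵥ N *ᵥ v)) ≤ r * X := by
        linarith
      have h8 := mul_le_mul_of_nonneg_left h7 (by positivity : (0 : ℝ) ≤ b * τ)
      have h9 : (b : ℝ) * τ * (r * X) = X := by
        rw [← mul_assoc, hbr, one_mul]
      rw [h9] at h8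
      linarith

end LIFT
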