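import Pool.Agent.LIFT.Induct
import Pool.Agent.LIFT.Step2

/-!
# LIFT: induction over the blocks with the identity metric; bad nodes are removed
-/

set_option autoImplicit false

open scoped BigOperators Matrix Kronecker

namespace LIFT

/-- one step, identity metric -/
def OneStep2 (b : ℕ) (lam ε dl : ℝ) : Prop :=
  ∀ (ι : Type) [Fintype ι] [DecidableEq ι] (τ : ℝ) (_ : 0 < τ) (N : Matrix ι ι ℝ) (_ : N.PosDef)
    (F f : Fin b → Matrix ι ι ℝ) (_ : ∀ i, (F i).IsSymm) (_ : ∀ i, (f i).IsSymm)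
    (_ : ∀ i, (Matrix.fromBlocks (F i + τ • N) (f i) (f i)
      (F i + (τ * lam ^ 2) • N)).PosSemidef),
    ∃ bad : Finset (Fin b → Bool), (bad.card : ℝ) ≤ Fintype.card ι * dl * 2 ^ b ∧
      ∀ x ∉ bad, (∑ i, (F i + SDX.sg (x i) • f i) + (b * (τ * (1 + ε))) • N).PosSemidef

namespace h74

variable {K ρ : Type} [Fintype K] [DecidableEq K] [Fintype ρ] [DecidableEq ρ]

theorem block_eq2 {m : ℕ} {T : Type} (s : Finset T) (E : (Fin (m + 1) → Bool) → Matrix K K ℝ)
    (y : T → Fin m → Bool) (X : T → Matrix ρ ρ ℝ) (c lam : ℝ) (w : K → ℝ) (N : Matrix ρ ρ ℝ) :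
    (∑ S ∈ s, blk E (y S) ⊗ₖ X S
      + c • (Matrix.diagonal (Sum.elim w fun a => lam ^ 2 * w a) ⊗ₖ N)).submatrix
        (Equiv.sumProdDistrib K K ρ).symm (Equiv.sumProdDistrib K K ρ).symm
    = Matrix.fromBlocks
      (∑ S ∈ s, ((1 / 2 : ℝ) • (E (Fin.cons false (y S)) + E (Fin.cons true (y S)))) ⊗ₖ X S
        + c • (Matrix.diagonal w ⊗ₖ N))
      (∑ S ∈ s, ((1 / 2 : ℝ) • (E (Fin.cons false (y S)) - E (Fin.cons true (y S)))) ⊗ₖ X S)
      (∑ S ∈ s, ((1 / 2 : ℝ) • (E (Fin.cons false (y S)) - E (Fin.cons true (y S)))) ⊗ₖ X S)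
      (∑ S ∈ s, ((1 / 2 : ℝ) • (E (Fin.cons false (y S)) + E (Fin.cons true (y S)))) ⊗ₖ X S
        + (c * lam ^ 2) • (Matrix.diagonal w ⊗ₖ N)) := by
  ext p q
  rcases p with ⟨a, r⟩ | ⟨a, r⟩ <;> rcases q with ⟨a', r'⟩ | ⟨a', r'⟩ <;>
    simp [blk, Matrix.sum_apply, Matrix.diagonal_apply]
  split_ifs <;> ring

theorem symm_sum2 {ι T : Type} (s : Finset T) {M : T → Matrix ι ι ℝ} (h : ∀ t, (M t).IsSymm) :
    (∑ t ∈ s, M t).IsSymm := by
  rw [Matrix.IsSymm, Matrix.transpose_sum]
  exact Finset.sum_congr rfl fun t _ => h t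

/-- the removed leaves: everything if `x 0` is bad, else the removed leaves of the children -/
def glue {b m : ℕ} (B : (Fin m → Fin b → Bool) → Finset (Fin b → Bool))
    (C : Fin b → (Fin m → Fin b → Bool) → Finset (Fin m → Fin b))
    (x : Fin (m + 1) → Fin b → Bool) : Finset (Fin (m + 1) → Fin b) :=
  if x 0 ∈ B (Fin.tail x) then Finset.univ
  else Finset.univ.filter fun S => (Fin.tail S : Fin m → Fin b) ∈ C (S 0) (Fin.tail x)

theorem glue_card {b m : ℕ} (B : (Fin m → Fin b → Bool) → Finset (Fin b → Bool))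
    (C : Fin b → (Fin m → Fin b → Bool) → Finset (Fin m → Fin b)) :
    ∑ x, ((glue B C x).card : ℝ) ≤ (b : ℝ) ^ (m + 1) * ∑ x', ((B x').card : ℝ)
      + 2 ^ b * ∑ i, ∑ x', ((C i x').card : ℝ) := by
  have h0 : ∀ x : Fin (m + 1) → Fin b → Bool, ((glue B C x).card : ℝ)
      ≤ (if x 0 ∈ B (Fin.tail x) then (b : ℝ) ^ (m + 1) else 0)
        + ∑ i, ((C i (Fin.tail x)).card : ℝ) := by
    intro x
    rw [glue]
    split_ifs with h
    · rw [Finset.card_univ]
      simp only [Fintype.card_fun, Fintype.card_fin]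
      push_cast
      have : (0 : ℝ) ≤ ∑ i, ((C i (Fin.tail x)).card : ℝ) :=
        Finset.sum_nonneg fun i _ => Nat.cast_nonneg _
      linarith
    · rw [zero_add, Finset.card_filter]
      push_cast
      rw [sum_cons]
      refine le_of_eq (Finset.sum_congr rfl fun i _ => ?_)
      simp
  refine (Finset.sum_le_sum fun x _ => h0 x).trans (le_of_eq ?_)
  rw [Finset.sum_add_distrib]
  congr 1
  · rw [sum_cons, Finset.sum_comm, Finset.mul_sum]
    refine Finset.sum_congr rfl fun x' _ => ?_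
    simp only [Fin.tail_cons, Fin.cons_zero]
    rw [← Finset.sum_filter]
    simp [mul_comm]
  · rw [sum_cons]
    simp only [Fin.tail_cons]
    rw [Finset.sum_const, nsmul_eq_mul, Finset.sum_comm]
    congr 1
    rw [Finset.card_univ]
    simp

end h74

open h74

theorem induct2_of_oneStep {b : ℕ} (hb : 0 < b) (lam ε dl : ℝ) (hlam : 1 < lam) (hε : 0 ≤ ε)
    (hdl : 0 ≤ dl) (hstep : OneStep2 b lam ε dl) (m : ℕ) :
    ∀ (K ρ : Type) [Fintype K] [DecidableEq K] [Fintype ρ] [DecidableEq ρ] (w : K → ℝ)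
      (_ : ∀ a, 0 < w a) (E : (Fin m → Bool) → Matrix K K ℝ) (_ : ∀ y, (E y).IsSymm)
      (P : (Fin m → Fin b) → Matrix ρ ρ ℝ) (_ : ∀ S, (P S).IsSymm) (τ : ℝ) (_ : 0 < τ)
      (_ : ∀ S, ∀ g : (Fin m → Bool) → K × ρ → ℝ,
        -(τ * W lam (qf (Matrix.diagonal w ⊗ₖ (1 : Matrix ρ ρ ℝ))) m g)
          ≤ (∑ y, qf (E y ⊗ₖ P S) (g y)) / 2 ^ m),
      ∃ rem : (Fin m → Fin b → Bool) → Finset (Fin m → Fin b),
        ∑ x, ((rem x).card : ℝ)
          ≤ (2 ^ m - 1) * (Fintype.card K * Fintype.card ρ) * dl * b ^ m * 2 ^ (m * b) ∧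
        ∀ x, (∑ S ∈ (rem x)ᶜ, E (fun j => x j (S j)) ⊗ₖ P S
          + ((b : ℝ) ^ m * (τ * (1 + ε) ^ m)) •
            (Matrix.diagonal w ⊗ₖ (1 : Matrix ρ ρ ℝ))).PosSemidef := by
  induction m with
  | zero =>
    intro K ρ _ _ _ _ w hw E hE P hP τ hτ hyp
    refine ⟨fun _ => ∅, by simp, ?_⟩
    intro x
    rw [Finset.compl_empty, Fintype.sum_unique]
    have hx : (fun j => x j ((default : Fin 0 → Fin b) j)) = Fin.elim0 := by
      funext j; exact j.elim0
    rw [hx]
    simp only [pow_zero, one_mul, mul_one]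
    refine psd_of_qf _ ?_ ?_
    · refine (symm_kron (hE _) (hP _)).add ?_
      exact Matrix.IsSymm.smul (symm_kron (Matrix.isSymm_diagonal _) Matrix.isSymm_one) _
    · intro v
      have := hyp default fun _ => v
      simp only [W, Fintype.sum_unique, pow_zero, div_one] at this
      rw [qf_add, qf_smul]
      have e : ∀ z, qf (E z ⊗ₖ P default) v = qf (E Fin.elim0 ⊗ₖ P default) v := by
        intro z
        rw [Subsingleton.elim z Fin.elim0]
      rw [e] at this
      linarith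
  | succ m ih =>
    intro K ρ _ _ _ _ w hw E hE P hP τ hτ hyp
    classical
    have hb' : (0 : ℝ) < b := by exact_mod_cast hb
    have hw' : ∀ a : K ⊕ K, 0 < (Sum.elim w fun a => lam ^ 2 * w a : K ⊕ K → ℝ) a := by
      intro a
      rcases a with a | a
      · exact hw a
      · have := hw a
        simp only [Sum.elim_inr]
        positivity
    have hih := fun i : Fin b => ih (K ⊕ K) ρ (Sum.elim w fun a => lam ^ 2 * w a) hw' (blk E)
      (blk_symm E hE) (fun S' => P (Fin.cons i S')) (fun S' => hP _) τ hτ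
      (fun S' => hyp_step lam τ w E _ _ (hyp (Fin.cons i S')))
    choose C hC1 hC2 using hih
    set T : ℝ := (b : ℝ) ^ m * (τ * (1 + ε) ^ m) with hT
    have hT0 : 0 < T := by positivity
    have hst : ∀ x' : Fin m → Fin b → Bool, ∃ bad : Finset (Fin b → Bool),
        (bad.card : ℝ) ≤ (Fintype.card K * Fintype.card ρ) * dl * 2 ^ b ∧
        (∀ x₀ ∉ bad,
          (∑ i, ((∑ S' ∈ (C i x')ᶜ, ((1 / 2 : ℝ) • (E (Fin.cons false fun j => x' j (S' j))
              + E (Fin.cons true fun j => x' j (S' j)))) ⊗ₖ P (Fin.cons i S'))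
            + SDX.sg (x₀ i) • (∑ S' ∈ (C i x')ᶜ,
              ((1 / 2 : ℝ) • (E (Fin.cons false fun j => x' j (S' j))
              - E (Fin.cons true fun j => x' j (S' j)))) ⊗ₖ P (Fin.cons i S')))
            + (b * (T * (1 + ε))) • (Matrix.diagonal w ⊗ₖ (1 : Matrix ρ ρ ℝ))).PosSemidef) := by
      intro x'
      obtain ⟨bad, hbad1, hbad2⟩ := hstep (K × ρ) T hT0
        (Matrix.diagonal w ⊗ₖ (1 : Matrix ρ ρ ℝ))
        ((diag_psd hw).kronecker Matrix.PosDef.one)
        (fun i => ∑ S' ∈ (C i x')ᶜ, ((1 / 2 : ℝ) • (E (Fin.cons false fun j => x' j (S' j))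
            + E (Fin.cons true fun j => x' j (S' j)))) ⊗ₖ P (Fin.cons i S'))
        (fun i => ∑ S' ∈ (C i x')ᶜ, ((1 / 2 : ℝ) • (E (Fin.cons false fun j => x' j (S' j))
            - E (Fin.cons true fun j => x' j (S' j)))) ⊗ₖ P (Fin.cons i S'))
        (fun i => symm_sum2 _ fun S' => symm_kron (((hE _).add (hE _)).smul _) (hP _))
        (fun i => symm_sum2 _ fun S' => symm_kron (((hE _).sub (hE _)).smul _) (hP _))
        (fun i => by
          have h1 := (hC2 i x').submatrix (Equiv.sumProdDistrib K K ρ).symm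
          rw [block_eq2] at h1
          exact h1)
      refine ⟨bad, ?_, hbad2⟩
      rw [Fintype.card_prod] at hbad1
      push_cast at hbad1
      exact hbad1
    choose B hB1 hB2 using hst
    refine ⟨glue B C, ?_, ?_⟩
    · refine (glue_card B C).trans ?_
      have c1 : ∑ x', ((B x').card : ℝ)
          ≤ 2 ^ (m * b) * ((Fintype.card K * Fintype.card ρ) * dl * 2 ^ b) := by
        refine (Finset.sum_le_card_nsmul _ _ _ fun x' _ => hB1 x').trans (le_of_eq ?_)
        rw [Finset.card_univ, nsmul_eq_mul]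
        simp only [Fintype.card_fun, Fintype.card_bool, Fintype.card_fin]
        push_cast
        rw [← pow_mul, mul_comm b m]
      have c2 : ∑ i, ∑ x', ((C i x').card : ℝ)
          ≤ b * ((2 ^ m - 1) * (2 * Fintype.card K * Fintype.card ρ) * dl * b ^ m
            * 2 ^ (m * b)) := by
        refine (Finset.sum_le_card_nsmul _ _ ((2 ^ m - 1) * (2 * Fintype.card K * Fintype.card ρ)
          * dl * b ^ m * 2 ^ (m * b)) fun i _ => ?_).trans (le_of_eq ?_)
        · refine (hC1 i).trans (le_of_eq ?_)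
          rw [Fintype.card_sum]
          push_cast
          ring
        · rw [Finset.card_univ, Fintype.card_fin, nsmul_eq_mul]
      calc (b : ℝ) ^ (m + 1) * ∑ x', ((B x').card : ℝ) + 2 ^ b * ∑ i, ∑ x', ((C i x').card : ℝ)
          ≤ (b : ℝ) ^ (m + 1) * (2 ^ (m * b) * ((Fintype.card K * Fintype.card ρ) * dl * 2 ^ b))
            + 2 ^ b * (b * ((2 ^ m - 1) * (2 * Fintype.card K * Fintype.card ρ) * dl * b ^ m
            * 2 ^ (m * b))) :=
            add_le_add (mul_le_mul_of_nonneg_left c1 (by positivity))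
              (mul_le_mul_of_nonneg_left c2 (by positivity))
        _ = (2 ^ (m + 1) - 1) * (Fintype.card K * Fintype.card ρ) * dl * b ^ (m + 1)
              * 2 ^ ((m + 1) * b) := by
            rw [add_mul, one_mul, pow_add]
            ring
    · intro x
      by_cases hx : x 0 ∈ B (Fin.tail x)
      · have h1 : glue B C x = Finset.univ := by rw [glue, if_pos hx]
        rw [h1, Finset.compl_univ, Finset.sum_empty, zero_add]
        refine Matrix.PosSemidef.smul ?_ (by positivity)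
        exact ((diag_psd hw).kronecker Matrix.PosDef.one).posSemidef
      · have h1 := hB2 (Fin.tail x) (x 0) hx
        convert h1 using 1
        congr 1
        · have h2 : (glue B C x)ᶜ = Finset.univ.filter fun S : Fin (m + 1) → Fin b =>
              (Fin.tail S : Fin m → Fin b) ∈ (C (S 0) (Fin.tail x))ᶜ := by
            rw [glue, if_neg hx]
            ext S
            simp
          rw [h2, Finset.sum_filter, sum_cons]
          refine Finset.sum_congr rfl fun i _ => ?_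
          rw [Finset.smul_sum, ← Finset.sum_add_distrib]
          simp only [Fin.tail_cons, Fin.cons_zero]
          rw [← Finset.sum_filter]
          have h3 : (Finset.univ.filter fun S' : Fin m → Fin b => S' ∈ (C i (Fin.tail x))ᶜ)
              = (C i (Fin.tail x))ᶜ := by
            ext S'
            simp
          rw [h3]
          refine Finset.sum_congr rfl fun S' _ => ?_
          have e1 : (fun j => x j ((Fin.cons i S' : Fin (m + 1) → Fin b) j))
              = Fin.cons (x 0 i) fun j => (Fin.tail x : Fin m → Fin b → Bool) j (S' j) := by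
            funext j
            refine Fin.cases ?_ (fun j => ?_) j
            · simp
            · simp [Fin.tail]
          rw [e1, ← Matrix.smul_kronecker, ← Matrix.add_kronecker]
          congr 1
          cases x 0 i
          · ext p q
            simp [SDX.sg]
            ring
          · ext p q
            simp [SDX.sg]
            ring
        · congr 1
          rw [hT]
          ring

theorem oneStep2 {b p : ℕ} (hb : 0 < b) (hp : 0 < p) (lam η ε : ℝ) (hlam : 1 < lam) (hη : 0 < η)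
    (hη1 : η < 1) (hε : η * (lam ^ 2 - 1) + 3 * p * (lam ^ 2 - 1) / (η ^ 2 * b) ≤ ε) :
    OneStep2 b lam ε (Real.exp (-p)) := by
  intro ι _ _ τ hτ N hN F f hF hf H
  obtain ⟨bad, h1, h2⟩ := step2 hb hp lam η τ hlam hη hη1 hτ N hN F f hF hf H
  refine ⟨bad, h1, fun x hx => ?_⟩
  have h3 := h2 x hx
  have h4 : ((b * (τ * (ε - (η * (lam ^ 2 - 1) + 3 * p * (lam ^ 2 - 1) / (η ^ 2 * b)))))
      • N).PosSemidef := by
    refine hN.posSemidef.smul ?_
    have : 0 ≤ ε - (η * (lam ^ 2 - 1) + 3 * p * (lam ^ 2 - 1) / (η ^ 2 * b)) := by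
      linarith
    positivity
  have h5 := h3.add h4
  convert h5 using 1
  rw [add_assoc, ← add_smul]
  congr 2
  ring

theorem induct2 {b p : ℕ} (hb : 0 < b) (hp : 0 < p) (lam η ε : ℝ) (hlam : 1 < lam) (hη : 0 < η)
    (hη1 : η < 1) (hε : η * (lam ^ 2 - 1) + 3 * p * (lam ^ 2 - 1) / (η ^ 2 * b) ≤ ε) (m : ℕ) :
    ∀ (K ρ : Type) [Fintype K] [DecidableEq K] [Fintype ρ] [DecidableEq ρ] (w : K → ℝ)
      (_ : ∀ a, 0 < w a) (E : (Fin m → Bool) → Matrix K K ℝ) (_ : ∀ y, (E y).IsSymm)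
      (P : (Fin m → Fin b) → Matrix ρ ρ ℝ) (_ : ∀ S, (P S).IsSymm) (τ : ℝ) (_ : 0 < τ)
      (_ : ∀ S, ∀ g : (Fin m → Bool) → K × ρ → ℝ,
        -(τ * W lam (qf (Matrix.diagonal w ⊗ₖ (1 : Matrix ρ ρ ℝ))) m g)
          ≤ (∑ y, qf (E y ⊗ₖ P S) (g y)) / 2 ^ m),
      ∃ rem : (Fin m → Fin b → Bool) → Finset (Fin m → Fin b),
        ∑ x, ((rem x).card : ℝ)
          ≤ (2 ^ m - 1) * (Fintype.card K * Fintype.card ρ) * Real.exp (-p) * b ^ m * 2 ^ (m * b) ∧
        ∀ x, (∑ S ∈ (rem x)ᶜ, E (fun j => x j (S j)) ⊗ₖ P S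
          + ((b : ℝ) ^ m * (τ * (1 + ε) ^ m)) •
            (Matrix.diagonal w ⊗ₖ (1 : Matrix ρ ρ ℝ))).PosSemidef := by
  have hl : 0 < lam ^ 2 - 1 := by nlinarith
  have hb' : (0 : ℝ) < b := by exact_mod_cast hb
  have hε0 : 0 ≤ ε := le_trans (by positivity) hε
  exact induct2_of_oneStep hb lam ε (Real.exp (-p)) hlam hε0 (Real.exp_pos _).le
    (oneStep2 hb hp lam η ε hlam hη hη1 hε) m

end LIFT
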