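import Pool.Agent.LIFT.Base2
import Pool.Agent.LIFT.Induct2

/-!
# LIFT, row V8: the core theorem, second version

The bad nodes of the tree are removed instead of excluded by a union bound.
-/

set_option autoImplicit false

open scoped BigOperators Matrix Kronecker

namespace LIFT

open Matrix in
/-- row V8 -/
theorem core2 {m b p r d : ℕ} (hb : 0 < b) (hp : 0 < p) (lam η ε κ Λ₂ : ℝ) (hlam : 1 < lam)
    (hη : 0 < η) (hη1 : η < 1) (hκ : 0 < κ) (hΛ : 0 < Λ₂)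
    (hε : η * (lam ^ 2 - 1) + 3 * p * (lam ^ 2 - 1) / (η ^ 2 * b) ≤ ε)
    (D : (Fin m → Bool) → ℝ) (hD : ∀ y, |D y| ≤ κ)
    (hpd : ∀ g ∈ SDX.Deg (Fin m) d, 0 ≤ ∑ y, D y * g y ^ 2)
    (P : (Fin m → Fin b) → Matrix (Fin r) (Fin r) ℝ) (hP : ∀ S, (P S).PosSemidef)
    (hPΛ : ∀ S, (Λ₂ • (1 : Matrix (Fin r) (Fin r) ℝ) - P S).PosSemidef) :
    ∃ rho : (Fin m × Fin b → Bool) → ℝ, (∀ x, 0 ≤ rho x) ∧
      ∑ x, rho x ≤ κ * Λ₂ * (2 ^ m * r * Real.exp (-p)) * 2 ^ (m * b) ∧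
      ∀ x, (∑ S, D (SDX.rs S x) • P S
        + ((b : ℝ) ^ m * (2 * κ * Λ₂ / lam ^ (d + 1) * (1 + ε) ^ m + rho x)) •
          (1 : Matrix (Fin r) (Fin r) ℝ)).PosSemidef := by
  classical
  have hbm : (0 : ℝ) < (b : ℝ) ^ m := by positivity
  set τ : ℝ := 2 * κ * Λ₂ / lam ^ (d + 1) with hτ
  have hlam0 : 0 < lam := by linarith
  have hτ0 : 0 < τ := by positivity
  obtain ⟨rem, hrem, hgood⟩ := induct2 hb hp lam η ε hlam hη hη1 hε m Unit (Fin r)
    (fun _ => 1) (fun _ => one_pos) (fun y => Matrix.of fun _ _ => D y) (fun y => rfl) P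
    (fun S => by
      have := (hP S).1
      rwa [IsHermitian, conjTranspose_eq_transpose_of_trivial] at this) τ hτ0
    (fun S g => base2 κ Λ₂ lam hκ.le hΛ.le hlam.le D hD hpd (P S) (hP S) (hPΛ S) g)
  refine ⟨fun x => κ * Λ₂ * ((rem (fun j i => x (j, i))).card / (b : ℝ) ^ m), fun x => by positivity,
    ?_, fun x => ?_⟩
  · rw [← Finset.mul_sum, ← Finset.sum_div]
    have e1 : ∑ x : Fin m × Fin b → Bool, ((rem (fun j i => x (j, i))).card : ℝ) =
        ∑ x : Fin m → Fin b → Bool, ((rem x).card : ℝ) :=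
      (Equiv.curry (Fin m) (Fin b) Bool).sum_comp (fun x => ((rem x).card : ℝ))
    rw [e1, Fintype.card_unit, Fintype.card_fin] at *
    rw [mul_assoc (κ * Λ₂)]
    refine mul_le_mul_of_nonneg_left ?_ (by positivity)
    rw [div_le_iff₀ hbm]
    refine hrem.trans ?_
    have h1 : ((2 : ℝ) ^ m - 1) ≤ 2 ^ m := by linarith
    push_cast
    calc ((2 : ℝ) ^ m - 1) * (1 * r) * Real.exp (-p) * b ^ m * 2 ^ (m * b) ≤
        2 ^ m * (1 * r) * Real.exp (-p) * b ^ m * 2 ^ (m * b) := by gcongr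
      _ = _ := by ring
  · set x' : Fin m → Fin b → Bool := fun j i => x (j, i) with hx'
    have h1 := (hgood x').submatrix (fun a : Fin r => ((() : Unit), a))
    have e1 : (∑ S ∈ (rem x')ᶜ, (Matrix.of fun _ _ : Unit => D fun j => x' j (S j)) ⊗ₖ P S +
        ((b : ℝ) ^ m * (τ * (1 + ε) ^ m)) •
          (Matrix.diagonal (fun _ : Unit => (1 : ℝ)) ⊗ₖ (1 : Matrix (Fin r) (Fin r) ℝ))).submatrix
            (fun a : Fin r => ((() : Unit), a)) (fun a : Fin r => ((() : Unit), a)) =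
        ∑ S ∈ (rem x')ᶜ, D (SDX.rs S x) • P S + ((b : ℝ) ^ m * (τ * (1 + ε) ^ m)) •
          (1 : Matrix (Fin r) (Fin r) ℝ) := by
      ext i j
      simp only [Matrix.submatrix_apply, Matrix.add_apply, Matrix.sum_apply, Matrix.smul_apply,
        Matrix.kroneckerMap_apply, Matrix.of_apply, Matrix.diagonal_apply_eq, smul_eq_mul, one_mul]
      rfl
    rw [e1] at h1
    have h2 : (∑ S ∈ rem x', (D (SDX.rs S x) • P S + (κ * Λ₂) •
        (1 : Matrix (Fin r) (Fin r) ℝ))).PosSemidef := by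
      refine Matrix.posSemidef_sum _ fun S _ => ?_
      have hd := abs_le.1 (hD (SDX.rs S x))
      have e2 : D (SDX.rs S x) • P S + (κ * Λ₂) • (1 : Matrix (Fin r) (Fin r) ℝ) =
          (D (SDX.rs S x) + κ) • P S + κ • (Λ₂ • (1 : Matrix (Fin r) (Fin r) ℝ) - P S) := by
        module
      rw [e2]
      exact ((hP S).smul (by linarith)).add ((hPΛ S).smul hκ.le)
    have h3 := h1.add h2
    have e3 : ∑ S ∈ (rem x')ᶜ, D (SDX.rs S x) • P S + ((b : ℝ) ^ m * (τ * (1 + ε) ^ m)) •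
          (1 : Matrix (Fin r) (Fin r) ℝ) + ∑ S ∈ rem x', (D (SDX.rs S x) • P S + (κ * Λ₂) •
        (1 : Matrix (Fin r) (Fin r) ℝ)) =
        ∑ S, D (SDX.rs S x) • P S + ((b : ℝ) ^ m * (τ * (1 + ε) ^ m +
          κ * Λ₂ * ((rem x').card / (b : ℝ) ^ m))) • (1 : Matrix (Fin r) (Fin r) ℝ) := by
      rw [Finset.sum_add_distrib, Finset.sum_const, ← Nat.cast_smul_eq_nsmul ℝ, smul_smul,
        ← Finset.sum_compl_add_sum (rem x') (fun S => D (SDX.rs S x) • P S)]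
      have e4 : (b : ℝ) ^ m * (τ * (1 + ε) ^ m + κ * Λ₂ * ((rem x').card / (b : ℝ) ^ m)) =
          (b : ℝ) ^ m * (τ * (1 + ε) ^ m) + ((rem x').card : ℝ) * (κ * Λ₂) := by
        field_simp
      rw [e4, add_smul]
      abel
    rw [e3] at h3
    exact h3

end LIFT
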