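import Pool.Agent.LIFT.Defs

/-!
# LIFT, version 4: definitions
-/

set_option autoImplicit false

open scoped BigOperators Matrix Kronecker

namespace LIFT

/-- the weights `1, lam` of the two Fourier coefficients with respect to one sign -/
def lw (ι : Type) [DecidableEq ι] (lam : ℝ) : Matrix (ι ⊕ ι) (ι ⊕ ι) ℝ :=
  Matrix.diagonal (Sum.elim (fun _ => 1) (fun _ => lam))

end LIFT
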