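import Pool.Agent.LIFT.Step

/-!
# LIFT, row U2: truncation by a matrix

`phi Y = R - R (Y + R)⁻¹ R`, the parallel sum of `Y` and `R`.
-/

set_option autoImplicit false

open scoped BigOperators Matrix

namespace LIFT

namespace T4

open Matrix h70

variable {ι : Type} [Fintype ι] [DecidableEq ι]

/-- the parallel sum of `Y` and `R` -/
theorem exists_phi {Y R : Matrix ι ι ℝ} (hY : Y.PosSemidef) (hR : R.PosDef) :
    ∃ Φ : Matrix ι ι ℝ, Φ.PosSemidef ∧ (R - Φ).PosSemidef ∧ (Y - Φ).PosSemidef ∧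
      ∀ v : ι → ℝ, ∃ a : ι → ℝ, Y *ᵥ a + R *ᵥ a = R *ᵥ v ∧
        v ⬝ᵥ Φ *ᵥ v = v ⬝ᵥ R *ᵥ v - (R *ᵥ v) ⬝ᵥ a := by
  have hZ : (Y + R).PosDef := PosDef.posSemidef_add hY hR
  have hG : ((Y + R)⁻¹).PosDef := hZ.inv
  have hu : IsUnit (Y + R) := hZ.isUnit
  have hZG : (Y + R) * (Y + R)⁻¹ = 1 :=
    Matrix.mul_nonsing_inv _ ((Matrix.isUnit_iff_isUnit_det _).1 hu)
  have hRh := hR.isHermitian
  have hYh := hY.isHermitian
  have hRt : Rᴴ = R := hRh.eq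
  have hRGR : (R * (Y + R)⁻¹ * R).PosSemidef := by
    have := hG.posSemidef.mul_mul_conjTranspose_same R
    rwa [hRt] at this
  have key : ∀ v : ι → ℝ, Y *ᵥ ((Y + R)⁻¹ *ᵥ (R *ᵥ v)) + R *ᵥ ((Y + R)⁻¹ *ᵥ (R *ᵥ v)) =
      R *ᵥ v := by
    intro v
    rw [← Matrix.add_mulVec, Matrix.mulVec_mulVec, hZG, Matrix.one_mulVec]
  have hval : ∀ v : ι → ℝ, v ⬝ᵥ (R - R * (Y + R)⁻¹ * R) *ᵥ v =
      v ⬝ᵥ R *ᵥ v - (R *ᵥ v) ⬝ᵥ ((Y + R)⁻¹ *ᵥ (R *ᵥ v)) := by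
    intro v
    rw [Matrix.sub_mulVec, dotProduct_sub, ← Matrix.mulVec_mulVec, ← Matrix.mulVec_mulVec,
      dot_mul hRh]
  have hΦh : (R - R * (Y + R)⁻¹ * R).IsHermitian := hRh.sub hRGR.isHermitian
  refine ⟨R - R * (Y + R)⁻¹ * R, ?_, ?_, ?_, fun v => ⟨_, key v, hval v⟩⟩
  · refine psd_iff.2 ⟨hΦh, fun v => ?_⟩
    rw [hval]
    obtain ⟨a, ha⟩ : ∃ a, a = (Y + R)⁻¹ *ᵥ (R *ᵥ v) := ⟨_, rfl⟩
    have h1 := key v
    rw [← ha] at h1 ⊢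
    have h2 := (psd_iff.1 hR.posSemidef).2 (v - a)
    have h3 := (psd_iff.1 hY).2 a
    have h4 : (R *ᵥ v) ⬝ᵥ a = a ⬝ᵥ Y *ᵥ a + a ⬝ᵥ R *ᵥ a := by
      rw [← h1, dotProduct_comm, dotProduct_add]
    have h5 : (v - a) ⬝ᵥ R *ᵥ (v - a) = v ⬝ᵥ R *ᵥ v - 2 * ((R *ᵥ v) ⬝ᵥ a) + a ⬝ᵥ R *ᵥ a := by
      rw [Matrix.mulVec_sub, dotProduct_sub, sub_dotProduct, sub_dotProduct, dot_comm hRh a v,
        dot_mul hRh]
      ring
    linarith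
  · rw [sub_sub_cancel]
    exact hRGR
  · refine psd_iff.2 ⟨hYh.sub hΦh, fun v => ?_⟩
    rw [Matrix.sub_mulVec, dotProduct_sub, hval]
    obtain ⟨a, ha⟩ : ∃ a, a = (Y + R)⁻¹ *ᵥ (R *ᵥ v) := ⟨_, rfl⟩
    have h1 := key v
    rw [← ha] at h1 ⊢
    obtain ⟨b, hb⟩ : ∃ b, v = a + b := ⟨v - a, by abel⟩
    have h2 := (psd_iff.1 hR.posSemidef).2 b
    have h3 := (psd_iff.1 hY).2 b
    have h6 : Y *ᵥ a = R *ᵥ b := by
      rw [hb, Matrix.mulVec_add, add_comm] at h1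
      exact add_left_cancel h1
    have h7 : v ⬝ᵥ Y *ᵥ v - (v ⬝ᵥ R *ᵥ v - (R *ᵥ v) ⬝ᵥ a) = b ⬝ᵥ R *ᵥ b + b ⬝ᵥ Y *ᵥ b := by
      have e1 : a ⬝ᵥ Y *ᵥ b = b ⬝ᵥ R *ᵥ b := by
        rw [dot_comm hYh a b, h6]
      have e2 : b ⬝ᵥ Y *ᵥ a = b ⬝ᵥ R *ᵥ b := by rw [h6]
      have e3 : a ⬝ᵥ Y *ᵥ a = a ⬝ᵥ R *ᵥ b := by rw [h6]
      rw [hb, dot_mul hRh]
      simp only [Matrix.mulVec_add, dotProduct_add, add_dotProduct]
      rw [e1, e2, e3, dot_comm hRh b a]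
      ring
    rw [h7]
    linarith

end T4

open Matrix h70 T4

variable {ι : Type} [Fintype ι] [DecidableEq ι]

/-- row U2 -/
theorem trunc4 (F f A k : Matrix ι ι ℝ) (hF : F.IsSymm) (hf : f.IsSymm) (hA : A.IsSymm)
    (hk : k.PosDef) (c : ℝ) (hc : 1 < c)
    (H : (Matrix.fromBlocks (F + A) f f (F + A + (2 : ℝ) • k)).PosSemidef) :
    ∃ E δ : Matrix ι ι ℝ, E.IsSymm ∧ δ.IsSymm ∧ (F + A + k + f - (E + δ)).PosSemidef ∧
      (F + A + k - f - (E - δ)).PosSemidef ∧ (E - (c / (1 + c)) • k).PosSemidef ∧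
      ((c / 2) • k - δ).PosSemidef ∧ ((c / 2) • k + δ).PosSemidef := by
  have hsh : ∀ {M : Matrix ι ι ℝ}, M.IsSymm → M.IsHermitian := fun {M} h => by
    rw [IsHermitian, conjTranspose_eq_transpose_of_trivial]
    exact h
  have hhs : ∀ {M : Matrix ι ι ℝ}, M.IsHermitian → M.IsSymm := fun {M} h => by
    rw [IsHermitian, conjTranspose_eq_transpose_of_trivial] at h
    exact h
  have hFh := hsh hF
  have hfh := hsh hf
  have hAh := hsh hA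
  have hkh := hk.isHermitian
  have hc0 : 0 < c := by linarith
  -- the form
  have HH : ∀ u v : ι → ℝ, 0 ≤ u ⬝ᵥ (F + A) *ᵥ u + 2 * (u ⬝ᵥ f *ᵥ v) +
      (v ⬝ᵥ (F + A) *ᵥ v + 2 * (v ⬝ᵥ k *ᵥ v)) := by
    intro u v
    have := blocks_form H u v hfh
    rw [Matrix.add_mulVec (F + A), dotProduct_add, Matrix.smul_mulVec, dotProduct_smul,
      smul_eq_mul] at this
    exact this
  have hXh : (F + A + k).IsHermitian := (hFh.add hAh).add hkh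
  have hYp : (F + A + k + f).PosSemidef := by
    refine psd_iff.2 ⟨hXh.add hfh, fun v => ?_⟩
    have h1 := HH v v
    simp only [Matrix.add_mulVec, dotProduct_add] at h1 ⊢
    linarith
  have hYm : (F + A + k - f).PosSemidef := by
    refine psd_iff.2 ⟨hXh.sub hfh, fun v => ?_⟩
    have h1 := HH v (-v)
    simp only [Matrix.sub_mulVec, Matrix.add_mulVec, dotProduct_add, dotProduct_sub,
      Matrix.mulVec_neg, dotProduct_neg, neg_dotProduct, neg_neg] at h1 ⊢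
    linarith
  have hR : (c • k).PosDef := hk.smul hc0
  obtain ⟨Φ, hΦ0, hΦR, hΦY, hΦ⟩ := exists_phi hYp hR
  obtain ⟨Ψ, hΨ0, hΨR, hΨY, hΨ⟩ := exists_phi hYm hR
  have hΦh := hΦ0.isHermitian
  have hΨh := hΨ0.isHermitian
  have e1 : (1 / 2 : ℝ) • (Φ + Ψ) + (1 / 2 : ℝ) • (Φ - Ψ) = Φ := by module
  have e2 : (1 / 2 : ℝ) • (Φ + Ψ) - (1 / 2 : ℝ) • (Φ - Ψ) = Ψ := by module
  have hEs : ((1 / 2 : ℝ) • (Φ + Ψ)).IsSymm := (hhs (hΦh.add hΨh)).smul _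
  have hDs : ((1 / 2 : ℝ) • (Φ - Ψ)).IsSymm := (hhs (hΦh.sub hΨh)).smul _
  refine ⟨(1 / 2 : ℝ) • (Φ + Ψ), (1 / 2 : ℝ) • (Φ - Ψ), hEs, hDs, ?_, ?_, ?_, ?_, ?_⟩
  · rw [e1]
    exact hΦY
  · rw [e2]
    exact hΨY
  · refine psd_iff.2 ⟨(hsh hEs).sub (hsh ((hhs hkh).smul _)), fun z => ?_⟩
    obtain ⟨a, ha, hav⟩ := hΦ z
    obtain ⟨b, hb, hbv⟩ := hΨ z
    obtain ⟨u, hu⟩ : ∃ u, u = (1 / 2 : ℝ) • (a + b) := ⟨_, rfl⟩
    obtain ⟨w, hw⟩ : ∃ w, w = (1 / 2 : ℝ) • (a - b) := ⟨_, rfl⟩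
    have ha' : a = u + w := by
      rw [hu, hw]
      module
    have hb' : b = u - w := by
      rw [hu, hw]
      module
    rw [ha'] at ha hav
    rw [hb'] at hb hbv
    -- the two equations
    have q1 : (F + A + k) *ᵥ u + f *ᵥ w + (c • k) *ᵥ u = (c • k) *ᵥ z := by
      have h1 : (F + A + k) *ᵥ u + f *ᵥ w + (c • k) *ᵥ u =
          (1 / 2 : ℝ) • (((F + A + k + f) *ᵥ (u + w) + (c • k) *ᵥ (u + w)) +
            ((F + A + k - f) *ᵥ (u - w) + (c • k) *ᵥ (u - w))) := by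
        simp only [Matrix.add_mulVec, Matrix.sub_mulVec, Matrix.mulVec_add, Matrix.mulVec_sub]
        module
      rw [h1, ha, hb]
      module
    have q2 : (F + A + k) *ᵥ w + f *ᵥ u + (c • k) *ᵥ w = 0 := by
      have h1 : (F + A + k) *ᵥ w + f *ᵥ u + (c • k) *ᵥ w =
          (1 / 2 : ℝ) • (((F + A + k + f) *ᵥ (u + w) + (c • k) *ᵥ (u + w)) -
            ((F + A + k - f) *ᵥ (u - w) + (c • k) *ᵥ (u - w))) := by
        simp only [Matrix.add_mulVec, Matrix.sub_mulVec, Matrix.mulVec_add, Matrix.mulVec_sub]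
        module
      rw [h1, ha, hb, sub_self, smul_zero]
    -- `w₀ ⬝ u ≥ (1 + c) u k u`
    have h1 := HH u w
    have g1 : u ⬝ᵥ ((F + A + k) *ᵥ u + f *ᵥ w + (c • k) *ᵥ u) = u ⬝ᵥ (c • k) *ᵥ z := by rw [q1]
    have g2 : w ⬝ᵥ ((F + A + k) *ᵥ w + f *ᵥ u + (c • k) *ᵥ w) = 0 := by
      rw [q2, dotProduct_zero]
    have hkw := (psd_iff.1 hk.posSemidef).2 w
    have hkz := (psd_iff.1 hk.posSemidef).2 (c • z - (1 + c) • u)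
    have g3 : (c • z - (1 + c) • u) ⬝ᵥ k *ᵥ (c • z - (1 + c) • u) =
        c ^ 2 * (z ⬝ᵥ k *ᵥ z) - 2 * c * (1 + c) * (u ⬝ᵥ k *ᵥ z) +
          (1 + c) ^ 2 * (u ⬝ᵥ k *ᵥ u) := by
      simp only [Matrix.mulVec_sub, Matrix.mulVec_smul, dotProduct_sub, sub_dotProduct,
        dotProduct_smul, smul_dotProduct, smul_eq_mul]
      rw [dot_comm hkh z u]
      ring
    rw [g3] at hkz
    simp only [Matrix.add_mulVec, Matrix.smul_mulVec, dotProduct_add, dotProduct_smul,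
      smul_eq_mul] at g1 g2 h1
    rw [dot_comm hfh u w] at g1 h1
    have g4 : ((c • k) *ᵥ z) ⬝ᵥ (u + w) + ((c • k) *ᵥ z) ⬝ᵥ (u - w) =
        2 * (c * (u ⬝ᵥ k *ᵥ z)) := by
      rw [Matrix.smul_mulVec, smul_dotProduct, smul_dotProduct, dotProduct_add, dotProduct_sub,
        smul_eq_mul, smul_eq_mul, dotProduct_comm _ u, dotProduct_comm _ w]
      ring
    have g5 : z ⬝ᵥ ((1 / 2 : ℝ) • (Φ + Ψ) - (c / (1 + c)) • k) *ᵥ z =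
        c * (z ⬝ᵥ k *ᵥ z) - c * (u ⬝ᵥ k *ᵥ z) - c / (1 + c) * (z ⬝ᵥ k *ᵥ z) := by
      have g6 : z ⬝ᵥ ((1 / 2 : ℝ) • (Φ + Ψ) - (c / (1 + c)) • k) *ᵥ z =
          1 / 2 * (z ⬝ᵥ Φ *ᵥ z + z ⬝ᵥ Ψ *ᵥ z) - c / (1 + c) * (z ⬝ᵥ k *ᵥ z) := by
        simp only [Matrix.sub_mulVec, Matrix.smul_mulVec, Matrix.add_mulVec, dotProduct_sub,
          dotProduct_add, dotProduct_smul, smul_eq_mul]
      have g7 : z ⬝ᵥ (c • k) *ᵥ z = c * (z ⬝ᵥ k *ᵥ z) := by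
        rw [Matrix.smul_mulVec, dotProduct_smul, smul_eq_mul]
      rw [g6, hav, hbv, g7]
      linarith
    rw [g5]
    have h1c : 0 < 1 + c := by linarith
    have g8 : c - c / (1 + c) = c ^ 2 / (1 + c) := by
      field_simp
      ring
    have g9 : (1 + c) * (u ⬝ᵥ k *ᵥ u) ≤ c * (u ⬝ᵥ k *ᵥ z) := by
      have g13 := mul_nonneg (sub_nonneg.2 hc.le) hkw
      linarith
    have g10 : (1 + c) * (c * (u ⬝ᵥ k *ᵥ z)) ≤ c ^ 2 * (z ⬝ᵥ k *ᵥ z) := by nlinarith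
    have g11 : c * (u ⬝ᵥ k *ᵥ z) ≤ c ^ 2 / (1 + c) * (z ⬝ᵥ k *ᵥ z) := by
      rw [div_mul_eq_mul_div, le_div_iff₀ h1c]
      linarith
    have g12 : c * (z ⬝ᵥ k *ᵥ z) - c / (1 + c) * (z ⬝ᵥ k *ᵥ z) =
        c ^ 2 / (1 + c) * (z ⬝ᵥ k *ᵥ z) := by
      rw [← g8]
      ring
    linarith
  · have e3 : (c / 2) • k - (1 / 2 : ℝ) • (Φ - Ψ) = (1 / 2 : ℝ) • ((c • k - Φ) + Ψ) := by module
    rw [e3]
    exact (hΦR.add hΨ0).smul (by norm_num)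
  · have e3 : (c / 2) • k + (1 / 2 : ℝ) • (Φ - Ψ) = (1 / 2 : ℝ) • ((c • k - Ψ) + Φ) := by module
    rw [e3]
    exact (hΨR.add hΦ0).smul (by norm_num)

end LIFT
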