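import Pool.Agent.LIFT.Neg4
import Pool.Agent.LIFT.Defs4
import Pool.Agent.LIFT.Trunc4
import Pool.Agent.Helper71.SDX.Cube

/-!
# LIFT, row U3: one step with Hilbert-Schmidt norms
-/

set_option autoImplicit false
set_option linter.unusedSectionVars false

open scoped BigOperators Matrix

namespace LIFT

namespace S4

open Matrix h70

variable {ι : Type} [Fintype ι] [DecidableEq ι]

theorem tr_sq {X : Matrix ι ι ℝ} (hX : X.IsSymm) : (X * X).trace = ∑ i, ∑ j, X i j ^ 2 := by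
  unfold Matrix.trace
  refine Finset.sum_congr rfl fun i _ => ?_
  rw [diag_apply, mul_apply]
  refine Finset.sum_congr rfl fun j _ => ?_
  rw [hX.apply, sq]

theorem tr_sq_nonneg {X : Matrix ι ι ℝ} (hX : X.IsSymm) : 0 ≤ (X * X).trace := by
  rw [tr_sq hX]
  exact Finset.sum_nonneg fun i _ => Finset.sum_nonneg fun j _ => sq_nonneg _

theorem tr_three {X Y Z : Matrix ι ι ℝ} (hX : X.IsSymm) (hY : Y.IsSymm) (hZ : Z.IsSymm) :
    ((X + Y + Z) * (X + Y + Z)).trace ≤
      3 * ((X * X).trace + (Y * Y).trace + (Z * Z).trace) := by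
  rw [tr_sq hX, tr_sq hY, tr_sq hZ, tr_sq ((hX.add hY).add hZ), ← Finset.sum_add_distrib,
    ← Finset.sum_add_distrib, Finset.mul_sum]
  refine Finset.sum_le_sum fun i _ => ?_
  rw [← Finset.sum_add_distrib, ← Finset.sum_add_distrib, Finset.mul_sum]
  refine Finset.sum_le_sum fun j _ => ?_
  simp only [Matrix.add_apply]
  nlinarith [sq_nonneg (X i j - Y i j), sq_nonneg (Y i j - Z i j), sq_nonneg (X i j - Z i j)]

theorem symm_sum {β : Type} (s : Finset β) {X : β → Matrix ι ι ℝ} (hX : ∀ i, (X i).IsSymm) :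
    (∑ i ∈ s, X i).IsSymm := by
  rw [Matrix.IsSymm, Matrix.transpose_sum]
  exact Finset.sum_congr rfl fun i _ => hX i

theorem tr_sum {b : ℕ} {X : Fin b → Matrix ι ι ℝ} (hX : ∀ i, (X i).IsSymm) :
    ((∑ i, X i) * (∑ i, X i)).trace ≤ b * ∑ i, (X i * X i).trace := by
  rw [tr_sq (symm_sum _ hX)]
  have h1 : ∑ i, (X i * X i).trace = ∑ j, ∑ k, ∑ i, X i j k ^ 2 := by
    simp only [fun i => tr_sq (hX i)]
    rw [Finset.sum_comm]
    exact Finset.sum_congr rfl fun j _ => Finset.sum_comm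
  rw [h1, Finset.mul_sum]
  refine Finset.sum_le_sum fun j _ => ?_
  rw [Finset.mul_sum]
  refine Finset.sum_le_sum fun k _ => ?_
  rw [Matrix.sum_apply]
  have := sq_sum_le_card_mul_sum_sq (s := (Finset.univ : Finset (Fin b))) (f := fun i => X i j k)
  rwa [Finset.card_univ, Fintype.card_fin] at this

/-- orthogonality of the signs -/
theorem sum_signs {b : ℕ} (i j : Fin b) :
    ∑ x : Fin b → Bool, SDX.sg (x i) * SDX.sg (x j) = if i = j then 2 ^ b else 0 := by
  have h1 : ∀ (i : Fin b) (x : Fin b → Bool), SDX.sg (x i) = SDX.chr {i} x := by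
    intro i x
    simp [SDX.chr]
  simp only [h1]
  rw [SDX.h71.sum_chr_mul]
  simp only [Finset.singleton_inj, Fintype.card_fin]

theorem sum_sq_signs {b : ℕ} (d : Fin b → ℝ) :
    ∑ x : Fin b → Bool, (∑ i, SDX.sg (x i) * d i) ^ 2 = 2 ^ b * ∑ i, d i ^ 2 := by
  have h1 : ∀ x : Fin b → Bool, (∑ i, SDX.sg (x i) * d i) ^ 2 =
      ∑ i, ∑ j, d i * d j * (SDX.sg (x i) * SDX.sg (x j)) := by
    intro x
    rw [sq, Finset.sum_mul_sum]
    exact Finset.sum_congr rfl fun i _ => Finset.sum_congr rfl fun j _ => by ring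
  simp only [h1]
  rw [Finset.sum_comm, Finset.mul_sum]
  refine Finset.sum_congr rfl fun i _ => ?_
  rw [Finset.sum_comm]
  simp only [← Finset.mul_sum, sum_signs]
  rw [Finset.sum_eq_single i]
  · rw [if_pos rfl]
    ring
  · intro j _ hj
    rw [if_neg (Ne.symm hj), mul_zero]
  · intro h
    exact absurd (Finset.mem_univ _) h

theorem tr_signs {b : ℕ} {X : Fin b → Matrix ι ι ℝ} (hX : ∀ i, (X i).IsSymm) :
    ∑ x : Fin b → Bool, ((∑ i, SDX.sg (x i) • X i) * (∑ i, SDX.sg (x i) • X i)).trace =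
      2 ^ b * ∑ i, (X i * X i).trace := by
  have hs : ∀ x : Fin b → Bool, (∑ i, SDX.sg (x i) • X i).IsSymm := fun x =>
    symm_sum _ fun i => (hX i).smul _
  have h1 : ∑ i, (X i * X i).trace = ∑ j, ∑ k, ∑ i, X i j k ^ 2 := by
    simp only [fun i => tr_sq (hX i)]
    rw [Finset.sum_comm]
    exact Finset.sum_congr rfl fun j _ => Finset.sum_comm
  simp only [fun x => tr_sq (hs x)]
  rw [h1, Finset.sum_comm, Finset.mul_sum]
  refine Finset.sum_congr rfl fun j _ => ?_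
  rw [Finset.sum_comm, Finset.mul_sum]
  refine Finset.sum_congr rfl fun k _ => ?_
  simp only [Matrix.sum_apply, Matrix.smul_apply, smul_eq_mul]
  exact sum_sq_signs fun i => X i j k

/-- the diagonal blocks -/
theorem tr_blocks {M : Matrix (ι ⊕ ι) (ι ⊕ ι) ℝ} (hM : M.IsSymm) :
    (M.toBlocks₁₁ * M.toBlocks₁₁).trace + (M.toBlocks₂₂ * M.toBlocks₂₂).trace ≤
      (M * M).trace := by
  have h1 : M.toBlocks₁₁.IsSymm := by
    ext i j
    exact hM.apply _ _
  have h2 : M.toBlocks₂₂.IsSymm := by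
    ext i j
    exact hM.apply _ _
  rw [tr_sq h1, tr_sq h2, tr_sq hM, Fintype.sum_sum_type]
  simp only [Fintype.sum_sum_type]
  rw [Finset.sum_add_distrib, Finset.sum_add_distrib]
  have h3 : 0 ≤ ∑ i : ι, ∑ j : ι, M (Sum.inl i) (Sum.inr j) ^ 2 :=
    Finset.sum_nonneg fun i _ => Finset.sum_nonneg fun j _ => sq_nonneg _
  have h4 : 0 ≤ ∑ i : ι, ∑ j : ι, M (Sum.inr i) (Sum.inl j) ^ 2 :=
    Finset.sum_nonneg fun i _ => Finset.sum_nonneg fun j _ => sq_nonneg _
  simp only [Matrix.toBlocks₁₁, Matrix.toBlocks₂₂, Matrix.of_apply]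
  linarith

/-- pinching -/
theorem pinch (lam : ℝ) {F f : Matrix ι ι ℝ} {M : Matrix (ι ⊕ ι) (ι ⊕ ι) ℝ} (hM : M.PosSemidef)
    (H : (Matrix.fromBlocks F f f F + lw ι lam * M * lw ι lam).PosSemidef) :
    (Matrix.fromBlocks (F + (2 : ℝ) • M.toBlocks₁₁) f f
      (F + (2 : ℝ) • M.toBlocks₁₁ + (2 : ℝ) • (lam ^ 2 • M.toBlocks₂₂))).PosSemidef := by
  have h11 : M.toBlocks₁₁.PosSemidef := hM.submatrix Sum.inl
  -- the matrix with the opposite sign
  set J : Matrix (ι ⊕ ι) (ι ⊕ ι) ℝ := Matrix.diagonal (Sum.elim (fun _ => 1) (fun _ => -lam)) with hJ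
  have hJt : Jᴴ = J := by
    rw [hJ, Matrix.diagonal_conjTranspose]
    congr 1
  have h1 : (J * M * J).PosSemidef := by
    have := hM.mul_mul_conjTranspose_same J
    rwa [hJt] at this
  have h2 : (Matrix.fromBlocks (0 : Matrix ι ι ℝ) 0 0 ((2 : ℝ) • M.toBlocks₁₁)).PosSemidef := by
    refine psd_iff.2 ⟨?_, fun v => ?_⟩
    · rw [Matrix.IsHermitian, Matrix.fromBlocks_conjTranspose]
      simp only [conjTranspose_zero, conjTranspose_smul, star_trivial]
      rw [h11.isHermitian.eq]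
    · have h3 := (psd_iff.1 h11).2 (v ∘ Sum.inr)
      have h4 : v ⬝ᵥ Matrix.fromBlocks (0 : Matrix ι ι ℝ) 0 0 ((2 : ℝ) • M.toBlocks₁₁) *ᵥ v =
          2 * ((v ∘ Sum.inr) ⬝ᵥ M.toBlocks₁₁ *ᵥ (v ∘ Sum.inr)) := by
        rw [Matrix.fromBlocks_mulVec]
        simp only [zero_mulVec, zero_add, add_zero, smul_mulVec]
        have h5 : v = Sum.elim (v ∘ Sum.inl) (v ∘ Sum.inr) := (Sum.elim_comp_inl_inr v).symm
        conv_lhs => rw [h5]
        rw [sumElim_dotProduct_sumElim, dotProduct_zero, zero_add, dotProduct_smul, smul_eq_mul]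
        simp
      rw [h4]
      linarith
  have h3 := (H.add h1).add h2
  convert h3 using 1
  ext (i | i) (j | j)
  · simp [hJ, lw, Matrix.toBlocks₁₁, Matrix.mul_apply, Matrix.diagonal_apply, Finset.sum_ite_eq]
    ring
  · simp [hJ, lw, Matrix.mul_apply, Matrix.diagonal_apply]
  · simp [hJ, lw, Matrix.mul_apply, Matrix.diagonal_apply]
  · simp [hJ, lw, Matrix.toBlocks₁₁, Matrix.toBlocks₂₂, Matrix.mul_apply, Matrix.diagonal_apply]
    ring

/-- the lower bound for one index and one sign -/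
theorem one_sign {F f A k E δ : Matrix ι ι ℝ} {c s : ℝ} (hs : s = 1 ∨ s = -1)
    (h1 : (F + A + k + f - (E + δ)).PosSemidef) (h2 : (F + A + k - f - (E - δ)).PosSemidef)
    (h3 : (E - (c / (1 + c)) • k).PosSemidef) (hc : 0 < c) :
    (F + s • f + (A + (1 / (1 + c)) • k) - s • δ).PosSemidef := by
  have e0 : (1 : ℝ) / (1 + c) = 1 - c / (1 + c) := by
    have : (1 : ℝ) + c ≠ 0 := by linarith
    field_simp
    ring
  rcases hs with hs | hs <;> subst hs
  · have e1 : F + (1 : ℝ) • f + (A + (1 / (1 + c)) • k) - (1 : ℝ) • δ =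
        (F + A + k + f - (E + δ)) + (E - (c / (1 + c)) • k) := by
      rw [e0]
      module
    rw [e1]
    exact h1.add h3
  · have e1 : F + (-1 : ℝ) • f + (A + (1 / (1 + c)) • k) - (-1 : ℝ) • δ =
        (F + A + k - f - (E - δ)) + (E - (c / (1 + c)) • k) := by
      rw [e0]
      module
    rw [e1]
    exact h2.add h3

end S4

open Matrix h70 S4

variable {ι : Type} [Fintype ι] [DecidableEq ι]

/-- row U3 -/
theorem step4 {b : ℕ} (hb : 0 < b) (lam : ℝ) (hlam : 1 < lam) (hlb : lam ^ 8 ≤ 4 * b)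
    (F f : Fin b → Matrix ι ι ℝ) (hF : ∀ i, (F i).IsSymm) (hf : ∀ i, (f i).IsSymm)
    (M : Fin b → Matrix (ι ⊕ ι) (ι ⊕ ι) ℝ) (hM : ∀ i, (M i).PosDef)
    (H : ∀ i, (Matrix.fromBlocks (F i) (f i) (f i) (F i)
      + lw ι lam * M i * lw ι lam).PosSemidef) :
    ∃ W : (Fin b → Bool) → Matrix ι ι ℝ, (∀ x, (W x).PosDef) ∧
      (∀ x, (∑ i, (F i + SDX.sg (x i) • f i) + (b : ℝ) • W x).PosSemidef) ∧
      ∑ x, (W x * W x).trace ≤ 2 ^ b * (12 / b) * ∑ i, (M i * M i).trace := by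
  have hb0 : (0 : ℝ) < b := by exact_mod_cast hb
  have hlam0 : 0 < lam := by linarith
  have hl2 : 0 < lam ^ 2 := by positivity
  have hc : 1 < lam ^ 2 := by nlinarith
  have hhs : ∀ {M : Matrix ι ι ℝ}, M.IsHermitian → M.IsSymm := fun {M} h => by
    rw [IsHermitian, conjTranspose_eq_transpose_of_trivial] at h
    exact h
  have h11 : ∀ i, (M i).toBlocks₁₁.PosDef := fun i => (hM i).submatrix Sum.inl_injective
  have h22 : ∀ i, (M i).toBlocks₂₂.PosDef := fun i => (hM i).submatrix Sum.inr_injective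
  have hMs : ∀ i, (M i).IsSymm := fun i => by
    have h := (hM i).isHermitian
    rw [IsHermitian, conjTranspose_eq_transpose_of_trivial] at h
    exact h
  have hk : ∀ i, (lam ^ 2 • (M i).toBlocks₂₂).PosDef := fun i => (h22 i).smul hl2
  have hA : ∀ i, ((2 : ℝ) • (M i).toBlocks₁₁).PosDef := fun i => (h11 i).smul (by norm_num)
  choose E δ hE hδ t1 t2 t3 t4 t5 using fun i => trunc4 (F i) (f i) ((2 : ℝ) • (M i).toBlocks₁₁)
    (lam ^ 2 • (M i).toBlocks₂₂) (hF i) (hf i) (hhs (hA i).isHermitian) (hk i) (lam ^ 2) hc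
    (pinch lam (hM i).posSemidef (H i))
  have hZs : ∀ x : Fin b → Bool, (∑ i, SDX.sg (x i) • δ i).IsSymm := fun x =>
    symm_sum _ fun i => (hδ i).smul _
  choose N hN hZN htr using fun x : Fin b → Bool => neg4 (∑ i, SDX.sg (x i) • δ i) (hZs x)
  -- the two deterministic sums
  set X : Matrix ι ι ℝ := ∑ i, (2 : ℝ) • (M i).toBlocks₁₁ with hX
  set Y : Matrix ι ι ℝ := ∑ i, (1 / (1 + lam ^ 2)) • (lam ^ 2 • (M i).toBlocks₂₂) with hY
  have hXs : X.IsSymm := symm_sum _ fun i => hhs (hA i).isHermitian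
  have hYs : Y.IsSymm := symm_sum _ fun i => (hhs (hk i).isHermitian).smul _
  have hNs : ∀ x, (N x).IsSymm := fun x => hhs (hN x).isHermitian
  have hXpd : X.PosDef := by
    rw [hX]
    have hne : (Finset.univ : Finset (Fin b)).Nonempty := ⟨⟨0, hb⟩, Finset.mem_univ _⟩
    exact Matrix.posDef_sum hne fun i _ => hA i
  have hYpd : Y.PosSemidef := by
    rw [hY]
    exact Matrix.posSemidef_sum _ fun i _ => ((hk i).posSemidef).smul (by positivity)
  refine ⟨fun x => (b : ℝ)⁻¹ • (X + Y + N x), fun x => ?_, fun x => ?_, ?_⟩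
  · exact ((hXpd.add_posSemidef hYpd).add_posSemidef (hN x)).smul (by positivity)
  · have e1 : ∑ i, (F i + SDX.sg (x i) • f i) + (b : ℝ) • ((b : ℝ)⁻¹ • (X + Y + N x)) =
        ∑ i, (F i + SDX.sg (x i) • f i + ((2 : ℝ) • (M i).toBlocks₁₁ +
          (1 / (1 + lam ^ 2)) • (lam ^ 2 • (M i).toBlocks₂₂)) - SDX.sg (x i) • δ i) +
          (∑ i, SDX.sg (x i) • δ i + N x) := by
      rw [smul_smul, mul_inv_cancel₀ hb0.ne', one_smul, hX, hY, Finset.sum_sub_distrib,
        Finset.sum_add_distrib (f := fun i => F i + SDX.sg (x i) • f i), Finset.sum_add_distrib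
          (f := fun i => (2 : ℝ) • (M i).toBlocks₁₁)]
      abel
    rw [e1]
    refine (Matrix.posSemidef_sum _ fun i _ => ?_).add (hZN x)
    exact one_sign (SDX.h71.sg_cases _) (t1 i) (t2 i) (t3 i) (by linarith)
  · have hW : ∀ x, (((b : ℝ)⁻¹ • (X + Y + N x)) * ((b : ℝ)⁻¹ • (X + Y + N x))).trace ≤
        (b : ℝ)⁻¹ ^ 2 * (3 * ((X * X).trace + (Y * Y).trace + (N x * N x).trace)) := by
      intro x
      rw [smul_mul_smul_comm, trace_smul, smul_eq_mul, sq]
      exact mul_le_mul_of_nonneg_left (tr_three hXs hYs (hNs x)) (by positivity)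
    have hXX : (X * X).trace ≤ b * (4 * ∑ i, ((M i).toBlocks₁₁ * (M i).toBlocks₁₁).trace) := by
      refine (tr_sum fun i => hhs (hA i).isHermitian).trans (le_of_eq ?_)
      congr 1
      rw [Finset.mul_sum]
      refine Finset.sum_congr rfl fun i _ => ?_
      rw [smul_mul_smul_comm, trace_smul, smul_eq_mul]
      norm_num
    have hq : (1 / (1 + lam ^ 2) * lam ^ 2) ^ 2 ≤ 1 := by
      refine pow_le_one₀ (by positivity) ?_
      rw [one_div, inv_mul_le_iff₀ (by positivity)]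
      linarith
    have hYY : (Y * Y).trace ≤ b * ∑ i, ((M i).toBlocks₂₂ * (M i).toBlocks₂₂).trace := by
      refine (tr_sum fun i => (hhs (hk i).isHermitian).smul _).trans ?_
      refine mul_le_mul_of_nonneg_left (Finset.sum_le_sum fun i _ => ?_) hb0.le
      rw [smul_smul, smul_mul_smul_comm, trace_smul, smul_eq_mul, ← sq]
      have := tr_sq_nonneg (hhs (h22 i).isHermitian)
      nlinarith
    have hδδ : ∀ i, (δ i * δ i).trace ≤ b * ((M i).toBlocks₂₂ * (M i).toBlocks₂₂).trace := by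
      intro i
      have h1 := hs_le (δ i) ((lam ^ 2 / 2) • (lam ^ 2 • (M i).toBlocks₂₂)) (hδ i)
        ((hhs (hk i).isHermitian).smul _) (t4 i) (t5 i)
      refine h1.trans ?_
      rw [smul_smul, smul_mul_smul_comm, trace_smul, smul_eq_mul]
      refine mul_le_mul_of_nonneg_right ?_ (tr_sq_nonneg (hhs (h22 i).isHermitian))
      nlinarith
    have hNN : ∑ x, (N x * N x).trace ≤
        2 ^ b * (b * ∑ i, ((M i).toBlocks₂₂ * (M i).toBlocks₂₂).trace) := by
      refine (Finset.sum_le_sum fun x _ => htr x).trans ?_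
      rw [tr_signs hδ]
      refine mul_le_mul_of_nonneg_left ?_ (by positivity)
      rw [Finset.mul_sum]
      exact Finset.sum_le_sum fun i _ => hδδ i
    have hMM : ∑ i, ((M i).toBlocks₁₁ * (M i).toBlocks₁₁).trace +
        ∑ i, ((M i).toBlocks₂₂ * (M i).toBlocks₂₂).trace ≤ ∑ i, (M i * M i).trace := by
      rw [← Finset.sum_add_distrib]
      exact Finset.sum_le_sum fun i _ => tr_blocks (hMs i)
    have h22n : 0 ≤ ∑ i, ((M i).toBlocks₂₂ * (M i).toBlocks₂₂).trace :=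
      Finset.sum_nonneg fun i _ => tr_sq_nonneg (hhs (h22 i).isHermitian)
    set a : ℝ := ∑ i, ((M i).toBlocks₁₁ * (M i).toBlocks₁₁).trace
    set d : ℝ := ∑ i, ((M i).toBlocks₂₂ * (M i).toBlocks₂₂).trace
    have h2b : (0 : ℝ) < 2 ^ b := by positivity
    calc ∑ x, (((b : ℝ)⁻¹ • (X + Y + N x)) * ((b : ℝ)⁻¹ • (X + Y + N x))).trace
        ≤ ∑ x : Fin b → Bool, (b : ℝ)⁻¹ ^ 2 * (3 * ((X * X).trace + (Y * Y).trace +
            (N x * N x).trace)) := Finset.sum_le_sum fun x _ => hW x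
      _ = (b : ℝ)⁻¹ ^ 2 * (3 * (2 ^ b * ((X * X).trace + (Y * Y).trace) +
            ∑ x, (N x * N x).trace)) := by
          rw [← Finset.mul_sum, ← Finset.mul_sum, Finset.sum_add_distrib, Finset.sum_const,
            Finset.card_univ, Fintype.card_fun, Fintype.card_fin, Fintype.card_bool, nsmul_eq_mul]
          push_cast
          rfl
      _ ≤ (b : ℝ)⁻¹ ^ 2 * (3 * (2 ^ b * (b * (4 * a) + b * d) + 2 ^ b * (b * d))) := by
          gcongr
      _ ≤ (b : ℝ)⁻¹ ^ 2 * (12 * (2 ^ b * (b * (a + d)))) := by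
          refine mul_le_mul_of_nonneg_left ?_ (by positivity)
          have : 0 ≤ 2 ^ b * (b * d) := by positivity
          nlinarith
      _ ≤ (b : ℝ)⁻¹ ^ 2 * (12 * (2 ^ b * (b * ∑ i, (M i * M i).trace))) := by
          gcongr
      _ = 2 ^ b * (12 / b) * ∑ i, (M i * M i).trace := by
          field_simp

end LIFT
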