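import Pool.Agent.LIFT.Induct
import Pool.Agent.LIFT.Step4

/-!
# LIFT, version 4: induction over the blocks
-/

set_option autoImplicit false

open scoped BigOperators Matrix Kronecker

namespace LIFT

namespace h74

variable {K ρ : Type} [Fintype K] [DecidableEq K] [Fintype ρ] [DecidableEq ρ]

/-- multiplication by `E` on the functions of the first sign, second coefficient divided by `lam` -/
noncomputable def blk4 {m : ℕ} (lam : ℝ) (E : (Fin (m + 1) → Bool) → Matrix K K ℝ)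
    (y : Fin m → Bool) : Matrix (K ⊕ K) (K ⊕ K) ℝ :=
  Matrix.fromBlocks ((1 / 2 : ℝ) • (E (Fin.cons false y) + E (Fin.cons true y)))
    (lam⁻¹ • ((1 / 2 : ℝ) • (E (Fin.cons false y) - E (Fin.cons true y))))
    (lam⁻¹ • ((1 / 2 : ℝ) • (E (Fin.cons false y) - E (Fin.cons true y))))
    ((lam⁻¹ ^ 2) • ((1 / 2 : ℝ) • (E (Fin.cons false y) + E (Fin.cons true y))))

theorem blk4_symm {m : ℕ} (lam : ℝ) (E : (Fin (m + 1) → Bool) → Matrix K K ℝ)
    (hE : ∀ y, (E y).IsSymm) (y : Fin m → Bool) : (blk4 lam E y).IsSymm := by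
  have h1 : ((1 / 2 : ℝ) • (E (Fin.cons false y) + E (Fin.cons true y))).IsSymm :=
    ((hE _).add (hE _)).smul _
  have h2 : ((1 / 2 : ℝ) • (E (Fin.cons false y) - E (Fin.cons true y))).IsSymm :=
    ((hE _).sub (hE _)).smul _
  exact Matrix.IsSymm.fromBlocks h1 (h2.smul _) (h1.smul _)

theorem qf_one_split (g : (K ⊕ K) × ρ → ℝ) (lam : ℝ) (hlam : lam ≠ 0) :
    qf (1 : Matrix ((K ⊕ K) × ρ) ((K ⊕ K) × ρ) ℝ) g
      = qf (1 : Matrix (K × ρ) (K × ρ) ℝ) (fst K ρ g)
        + lam ^ 2 * qf (1 : Matrix (K × ρ) (K × ρ) ℝ) (lam⁻¹ • snd K ρ g) := by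
  simp only [qf, Matrix.one_mulVec, dotProduct, Fintype.sum_prod_type, Fintype.sum_sum_type, fst,
    snd, LinearMap.coe_mk, AddHom.coe_mk, Pi.smul_apply, smul_eq_mul, Finset.mul_sum]
  congr 1
  refine Finset.sum_congr rfl fun a _ => Finset.sum_congr rfl fun r _ => ?_
  field_simp

theorem qf_block4 (A B : Matrix K K ℝ) (X : Matrix ρ ρ ℝ) (lam : ℝ) (g : (K ⊕ K) × ρ → ℝ) :
    qf (A ⊗ₖ X) (fst K ρ g + lam⁻¹ • snd K ρ g) + qf (B ⊗ₖ X) (fst K ρ g - lam⁻¹ • snd K ρ g)
      = 2 * qf (Matrix.fromBlocks ((1 / 2 : ℝ) • (A + B)) (lam⁻¹ • ((1 / 2 : ℝ) • (A - B)))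
          (lam⁻¹ • ((1 / 2 : ℝ) • (A - B))) ((lam⁻¹ ^ 2) • ((1 / 2 : ℝ) • (A + B))) ⊗ₖ X) g := by
  simp only [qf_eq, Fintype.sum_prod_type, Fintype.sum_sum_type, Matrix.kroneckerMap_apply,
    Matrix.fromBlocks_apply₁₁, Matrix.fromBlocks_apply₁₂, Matrix.fromBlocks_apply₂₁,
    Matrix.fromBlocks_apply₂₂, Matrix.smul_apply, Matrix.add_apply, Matrix.sub_apply, smul_eq_mul,
    Pi.add_apply, Pi.sub_apply, Pi.smul_apply, fst, snd, LinearMap.coe_mk, AddHom.coe_mk,
    Finset.mul_sum, ← Finset.sum_add_distrib, mul_add]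
  refine Finset.sum_congr rfl fun a _ => Finset.sum_congr rfl fun r _ =>
    Finset.sum_congr rfl fun a' _ => Finset.sum_congr rfl fun r' _ => ?_
  ring

theorem hyp_step4 {m : ℕ} (lam τ : ℝ) (hlam : lam ≠ 0) (E : (Fin (m + 1) → Bool) → Matrix K K ℝ)
    (X : Matrix ρ ρ ℝ)
    (h : ∀ g : (Fin (m + 1) → Bool) → K × ρ → ℝ,
      -(τ * W lam (qf (1 : Matrix (K × ρ) (K × ρ) ℝ)) (m + 1) g)
        ≤ (∑ y, qf (E y ⊗ₖ X) (g y)) / 2 ^ (m + 1))
    (g : (Fin m → Bool) → (K ⊕ K) × ρ → ℝ) :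
    -(τ * W lam (qf (1 : Matrix ((K ⊕ K) × ρ) ((K ⊕ K) × ρ) ℝ)) m g)
      ≤ (∑ y, qf (blk4 lam E y ⊗ₖ X) (g y)) / 2 ^ m := by
  have h1 := h fun y => fst K ρ (g (Fin.tail y)) + SDX.sg (y 0) • (lam⁻¹ • snd K ρ (g (Fin.tail y)))
  have e1 : W lam (qf (1 : Matrix (K × ρ) (K × ρ) ℝ)) (m + 1)
      (fun y => fst K ρ (g (Fin.tail y)) + SDX.sg (y 0) • (lam⁻¹ • snd K ρ (g (Fin.tail y))))
      = W lam (qf (1 : Matrix ((K ⊕ K) × ρ) ((K ⊕ K) × ρ) ℝ)) m g := by
    rw [W_split lam (lam ^ 2) (qf (1 : Matrix (K × ρ) (K × ρ) ℝ)) _ (fst K ρ) (lam⁻¹ • snd K ρ)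
      (fun u => qf_one_split u lam hlam) m g]
    simp only [W, Fin.tail_cons, Fin.cons_zero]
    congr 2
    · congr 1
      funext y
      simp only [SDX.sg]
      funext p
      simp
      ring
    · congr 1
      funext y
      simp only [SDX.sg]
      funext p
      simp
      ring
  rw [e1, sum_cons, Fintype.sum_bool, ← Finset.sum_add_distrib] at h1
  have e2 : ∀ y : Fin m → Bool,
      qf (E (Fin.cons true y) ⊗ₖ X) (fst K ρ (g (Fin.tail (Fin.cons true y : Fin (m + 1) → Bool)))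
          + SDX.sg ((Fin.cons true y : Fin (m + 1) → Bool) 0)
            • (lam⁻¹ • snd K ρ (g (Fin.tail (Fin.cons true y : Fin (m + 1) → Bool)))))
        + qf (E (Fin.cons false y) ⊗ₖ X)
          (fst K ρ (g (Fin.tail (Fin.cons false y : Fin (m + 1) → Bool)))
          + SDX.sg ((Fin.cons false y : Fin (m + 1) → Bool) 0)
            • (lam⁻¹ • snd K ρ (g (Fin.tail (Fin.cons false y : Fin (m + 1) → Bool)))))
      = 2 * qf (blk4 lam E y ⊗ₖ X) (g y) := by
    intro y
    rw [blk4, ← qf_block4, add_comm]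
    simp only [Fin.tail_cons, Fin.cons_zero, SDX.sg]
    congr 2
    · simp
    · simp [sub_eq_add_neg]
  rw [Finset.sum_congr rfl fun y _ => e2 y, ← Finset.mul_sum] at h1
  refine h1.trans (le_of_eq ?_)
  rw [pow_succ]
  field_simp

/-- the block matrix of one step -/
theorem block_eq4 {m : ℕ} {T : Type} [Fintype T] (E : (Fin (m + 1) → Bool) → Matrix K K ℝ)
    (y : T → Fin m → Bool) (X : T → Matrix ρ ρ ℝ) (c lam : ℝ) (hlam : lam ≠ 0)
    (V : Matrix ((K ⊕ K) × ρ) ((K ⊕ K) × ρ) ℝ) :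
    lw (K × ρ) lam * ((∑ S, blk4 lam E (y S) ⊗ₖ X S + c • V).submatrix
        (Equiv.sumProdDistrib K K ρ).symm (Equiv.sumProdDistrib K K ρ).symm) * lw (K × ρ) lam
    = Matrix.fromBlocks
      (∑ S, ((1 / 2 : ℝ) • (E (Fin.cons false (y S)) + E (Fin.cons true (y S)))) ⊗ₖ X S)
      (∑ S, ((1 / 2 : ℝ) • (E (Fin.cons false (y S)) - E (Fin.cons true (y S)))) ⊗ₖ X S)
      (∑ S, ((1 / 2 : ℝ) • (E (Fin.cons false (y S)) - E (Fin.cons true (y S)))) ⊗ₖ X S)
      (∑ S, ((1 / 2 : ℝ) • (E (Fin.cons false (y S)) + E (Fin.cons true (y S)))) ⊗ₖ X S)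
      + lw (K × ρ) lam * (c • V.submatrix (Equiv.sumProdDistrib K K ρ).symm
        (Equiv.sumProdDistrib K K ρ).symm) * lw (K × ρ) lam := by
  ext p q
  rcases p with ⟨a, r⟩ | ⟨a, r⟩ <;> rcases q with ⟨a', r'⟩ | ⟨a', r'⟩ <;>
    simp [lw, Matrix.diagonal_mul, Matrix.mul_diagonal, blk4, Matrix.sum_apply, mul_add, add_mul,
      Finset.mul_sum, Finset.sum_mul]
  all_goals
    congr 1
    · refine Finset.sum_congr rfl fun S _ => ?_
      field_simp
    · ring

end h74

open h74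

theorem induct4 {b : ℕ} (hb : 0 < b) (lam : ℝ) (hlam : 1 < lam) (hlb : lam ^ 8 ≤ 4 * b) (m : ℕ) :
    ∀ (K ρ : Type) [Fintype K] [DecidableEq K] [Fintype ρ] [DecidableEq ρ]
      (E : (Fin m → Bool) → Matrix K K ℝ) (_ : ∀ y, (E y).IsSymm)
      (P : (Fin m → Fin b) → Matrix ρ ρ ℝ) (_ : ∀ S, (P S).IsSymm) (τ : ℝ) (_ : 0 < τ)
      (_ : ∀ S, ∀ g : (Fin m → Bool) → K × ρ → ℝ,
        -(τ * W lam (qf (1 : Matrix (K × ρ) (K × ρ) ℝ)) m g)
          ≤ (∑ y, qf (E y ⊗ₖ P S) (g y)) / 2 ^ m),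
      ∃ V : (Fin m → Fin b → Bool) → Matrix (K × ρ) (K × ρ) ℝ, (∀ x, (V x).PosDef) ∧
        (∀ x, (∑ S : Fin m → Fin b, E (fun j => x j (S j)) ⊗ₖ P S
          + ((b : ℝ) ^ m) • V x).PosSemidef) ∧
        ∑ x, (V x * V x).trace
          ≤ 24 ^ m * τ ^ 2 * (Fintype.card K * Fintype.card ρ) * 2 ^ (m * b) := by
  have hlam0 : lam ≠ 0 := by linarith
  induction m with
  | zero =>
    intro K ρ _ _ _ _ E hE P hP τ hτ hyp
    refine ⟨fun _ => τ • 1, fun _ => Matrix.PosDef.one.smul hτ, ?_, ?_⟩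
    · intro x
      rw [Fintype.sum_unique]
      have hx : (fun j => x j ((default : Fin 0 → Fin b) j)) = Fin.elim0 := by
        funext j; exact j.elim0
      rw [hx]
      simp only [pow_zero, one_smul]
      refine psd_of_qf _ ?_ ?_
      · exact (symm_kron (hE _) (hP _)).add (Matrix.isSymm_one.smul _)
      · intro v
        have := hyp default fun _ => v
        simp only [W, Fintype.sum_unique, pow_zero, div_one] at this
        rw [qf_add, qf_smul]
        have e : ∀ z, qf (E z ⊗ₖ P default) v = qf (E Fin.elim0 ⊗ₖ P default) v := by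
          intro z
          rw [Subsingleton.elim z Fin.elim0]
        rw [e] at this
        linarith
    · rw [Fintype.sum_unique]
      simp [Matrix.trace_smul, smul_smul]
      apply le_of_eq
      ring
  | succ m ih =>
    intro K ρ _ _ _ _ E hE P hP τ hτ hyp
    have hb' : (0 : ℝ) < b := by exact_mod_cast hb
    have hbm : (0 : ℝ) < (b : ℝ) ^ m := by positivity
    have hih := fun i : Fin b => ih (K ⊕ K) ρ (blk4 lam E)
      (blk4_symm lam E hE) (fun S' => P (Fin.cons i S')) (fun S' => hP _) τ hτ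
      (fun S' => hyp_step4 lam τ hlam0 E _ (hyp (Fin.cons i S')))
    choose V hV0 hV1 hV2 using hih
    have hst := fun x' : Fin m → Fin b → Bool => step4 (ι := K × ρ) hb lam hlam hlb
      (fun i => ∑ S' : Fin m → Fin b, ((1 / 2 : ℝ) • (E (Fin.cons false fun j => x' j (S' j))
            + E (Fin.cons true fun j => x' j (S' j)))) ⊗ₖ P (Fin.cons i S'))
      (fun i => ∑ S' : Fin m → Fin b, ((1 / 2 : ℝ) • (E (Fin.cons false fun j => x' j (S' j))
            - E (Fin.cons true fun j => x' j (S' j)))) ⊗ₖ P (Fin.cons i S'))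
      (fun i => symm_sum fun S' => symm_kron (((hE _).add (hE _)).smul _) (hP _))
      (fun i => symm_sum fun S' => symm_kron (((hE _).sub (hE _)).smul _) (hP _))
      (fun i => ((b : ℝ) ^ m) • (V i x').submatrix (Equiv.sumProdDistrib K K ρ).symm
        (Equiv.sumProdDistrib K K ρ).symm)
      (fun i => ((hV0 i x').submatrix (Equiv.sumProdDistrib K K ρ).symm.injective).smul hbm)
      (fun i => by
        have h1 := ((hV1 i x').submatrix (Equiv.sumProdDistrib K K ρ).symm)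
        have h2 := h1.mul_mul_conjTranspose_same (lw (K × ρ) lam)
        have h3 : (lw (K × ρ) lam)ᴴ = lw (K × ρ) lam := by
          rw [Matrix.conjTranspose_eq_transpose_of_trivial, lw, Matrix.diagonal_transpose]
        rw [h3, block_eq4 _ _ _ _ _ hlam0] at h2
        exact h2)
    choose U hU0 hU1 hU2 using hst
    refine ⟨fun x => ((b : ℝ) ^ m)⁻¹ • U (Fin.tail x) (x 0), fun x => ?_, fun x => ?_, ?_⟩
    · exact (hU0 _ _).smul (inv_pos.2 hbm)
    · have h1 := hU1 (Fin.tail x) (x 0)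
      convert h1 using 1
      congr 1
      · rw [sum_cons]
        refine Finset.sum_congr rfl fun i _ => ?_
        rw [Finset.smul_sum, ← Finset.sum_add_distrib]
        refine Finset.sum_congr rfl fun S' _ => ?_
        have e1 : (fun j => x j ((Fin.cons i S' : Fin (m + 1) → Fin b) j))
            = Fin.cons (x 0 i) fun j => (Fin.tail x : Fin m → Fin b → Bool) j (S' j) := by
          funext j
          refine Fin.cases ?_ (fun j => ?_) j
          · simp
          · simp [Fin.tail]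
        rw [e1, ← Matrix.smul_kronecker, ← Matrix.add_kronecker]
        congr 1
        cases x 0 i
        · ext p q
          simp [SDX.sg]
          ring
        · ext p q
          simp [SDX.sg]
          ring
      · rw [smul_smul, pow_succ, mul_comm ((b : ℝ) ^ m) b, mul_assoc, mul_inv_cancel₀ hbm.ne',
          mul_one]
    · have c1 : ∀ x', ∑ x₀, (U x' x₀ * U x' x₀).trace
          ≤ 2 ^ b * (12 / b) * ((((b : ℝ) ^ m) ^ 2) * ∑ i, (V i x' * V i x').trace) := by
        intro x'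
        refine (hU2 x').trans (le_of_eq ?_)
        congr 1
        rw [Finset.mul_sum]
        refine Finset.sum_congr rfl fun i _ => ?_
        rw [Matrix.smul_mul, Matrix.mul_smul, smul_smul, Matrix.trace_smul, smul_eq_mul, ← sq,
          Matrix.submatrix_mul_equiv]
        congr 1
        simp only [Matrix.trace, Matrix.diag, Matrix.submatrix_apply]
        exact Equiv.sum_comp (Equiv.sumProdDistrib K K ρ).symm fun p => (V i x' * V i x') p p
      have c2 : ∑ x : Fin (m + 1) → Fin b → Bool,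
          (((((b : ℝ) ^ m)⁻¹ • U (Fin.tail x) (x 0)) * (((b : ℝ) ^ m)⁻¹ • U (Fin.tail x) (x 0))).trace)
          = (((b : ℝ) ^ m)⁻¹) ^ 2 * ∑ x', ∑ x₀, (U x' x₀ * U x' x₀).trace := by
        rw [sum_cons, Finset.sum_comm, Finset.mul_sum]
        refine Finset.sum_congr rfl fun x' _ => ?_
        rw [Finset.mul_sum]
        refine Finset.sum_congr rfl fun x₀ _ => ?_
        rw [Fin.tail_cons, Fin.cons_zero, Matrix.smul_mul, Matrix.mul_smul, smul_smul,
          Matrix.trace_smul, smul_eq_mul, ← sq]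
      rw [c2]
      have c3 : ∑ x', ∑ i, (V i x' * V i x').trace
          ≤ b * (24 ^ m * τ ^ 2 * (2 * Fintype.card K * Fintype.card ρ) * 2 ^ (m * b)) := by
        rw [Finset.sum_comm]
        refine (Finset.sum_le_card_nsmul _ _ (24 ^ m * τ ^ 2 * (2 * Fintype.card K
          * Fintype.card ρ) * 2 ^ (m * b)) fun i _ => ?_).trans (le_of_eq ?_)
        · refine (hV2 i).trans (le_of_eq ?_)
          rw [Fintype.card_sum]
          push_cast
          ring
        · rw [Finset.card_univ, Fintype.card_fin, nsmul_eq_mul]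
      calc (((b : ℝ) ^ m)⁻¹) ^ 2 * ∑ x', ∑ x₀, (U x' x₀ * U x' x₀).trace
          ≤ (((b : ℝ) ^ m)⁻¹) ^ 2 * ∑ x', 2 ^ b * (12 / b) *
              ((((b : ℝ) ^ m) ^ 2) * ∑ i, (V i x' * V i x').trace) :=
            mul_le_mul_of_nonneg_left (Finset.sum_le_sum fun x' _ => c1 x') (by positivity)
        _ = 2 ^ b * (12 / b) * ∑ x', ∑ i, (V i x' * V i x').trace := by
            rw [← Finset.mul_sum, ← Finset.mul_sum]
            field_simp
        _ ≤ 2 ^ b * (12 / b) * (b * (24 ^ m * τ ^ 2 * (2 * Fintype.card K * Fintype.card ρ)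
              * 2 ^ (m * b))) := mul_le_mul_of_nonneg_left c3 (by positivity)
        _ = 24 ^ (m + 1) * τ ^ 2 * (Fintype.card K * Fintype.card ρ) * 2 ^ ((m + 1) * b) := by
            rw [add_mul, one_mul, pow_add]
            field_simp
            ring

end LIFT
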