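import Pool.Agent.LIFT.Base2
import Pool.Agent.LIFT.Induct4

/-!
# LIFT, version 4: the core theorem

`induct4` with `K = Unit` and the base `base2`; the trace of the product of two positive
semidefinite matrices is nonnegative, and Cauchy-Schwarz for the traces and over the points.
-/

set_option autoImplicit false

open scoped BigOperators Matrix Kronecker

namespace LIFT

/-! ### traces -/

/-- the trace of a product of positive semidefinite matrices -/
theorem h78.trace_mul_nonneg {r : ℕ} {A B : Matrix (Fin r) (Fin r) ℝ} (hA : A.PosSemidef)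
    (hB : B.PosSemidef) : 0 ≤ (A * B).trace := by
  obtain ⟨C, hC⟩ := exists_sq hB
  have h1 := (hA.mul_mul_conjTranspose_same C).trace_nonneg
  rw [Matrix.conjTranspose_eq_transpose_of_trivial, Matrix.mul_assoc, Matrix.trace_mul_comm,
    Matrix.mul_assoc, ← hC] at h1
  exact h1

/-- the trace of the square of a positive semidefinite matrix -/
theorem h78.trace_sq_le {r : ℕ} {Q : Matrix (Fin r) (Fin r) ℝ} (hQ : Q.PosSemidef) :
    ∑ i, ∑ j, Q i j ^ 2 ≤ Q.trace ^ 2 := by
  obtain ⟨C, hC⟩ := exists_sq hQ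
  have h1 : ∀ i j, Q i j = ∑ k, C k i * C k j := by
    intro i j
    rw [hC, Matrix.mul_apply]
    rfl
  have h2 : ∀ i, Q i i = ∑ k, C k i ^ 2 := by
    intro i
    rw [h1]
    exact Finset.sum_congr rfl fun k _ => by ring
  have h3 : ∀ i j, Q i j ^ 2 ≤ Q i i * Q j j := by
    intro i j
    rw [h1, h2, h2]
    exact Finset.sum_mul_sq_le_sq_mul_sq _ _ _
  calc ∑ i, ∑ j, Q i j ^ 2 ≤ ∑ i, ∑ j, Q i i * Q j j :=
        Finset.sum_le_sum fun i _ => Finset.sum_le_sum fun j _ => h3 i j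
    _ = Q.trace ^ 2 := by
        rw [← Finset.sum_mul_sum, sq]
        rfl

/-- Cauchy-Schwarz for the trace -/
theorem h78.trace_mul_le {r : ℕ} {V Q : Matrix (Fin r) (Fin r) ℝ} (hV : V.IsSymm)
    (hQ : Q.PosSemidef) : (V * Q).trace ≤ Real.sqrt ((V * V).trace) * Q.trace := by
  have hq : 0 ≤ Q.trace := hQ.trace_nonneg
  have h1 : (V * Q).trace = ∑ p : Fin r × Fin r, V p.1 p.2 * Q p.2 p.1 := by
    rw [Fintype.sum_prod_type]
    rfl
  have h2 : (V * V).trace = ∑ p : Fin r × Fin r, V p.1 p.2 ^ 2 := by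
    rw [Fintype.sum_prod_type]
    refine Finset.sum_congr rfl fun i _ => ?_
    rw [Matrix.diag_apply, Matrix.mul_apply]
    refine Finset.sum_congr rfl fun j _ => ?_
    rw [hV.apply i j]
    ring
  have h3 : ∑ p : Fin r × Fin r, Q p.2 p.1 ^ 2 ≤ Q.trace ^ 2 := by
    rw [Fintype.sum_prod_type_right]
    exact h78.trace_sq_le hQ
  have h4 := Finset.sum_mul_sq_le_sq_mul_sq Finset.univ (fun p : Fin r × Fin r => V p.1 p.2)
    (fun p => Q p.2 p.1)
  rw [← h1, ← h2] at h4
  have h5 : 0 ≤ (V * V).trace := by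
    rw [h2]
    positivity
  have h6 : (V * Q).trace ^ 2 ≤ (Real.sqrt ((V * V).trace) * Q.trace) ^ 2 := by
    rw [mul_pow, Real.sq_sqrt h5]
    exact h4.trans (mul_le_mul_of_nonneg_left h3 h5)
  exact abs_le_of_sq_le_sq' h6 (by positivity) |>.2

/-- row U5 -/
theorem core4 {m b r d : ℕ} (hb : 0 < b) (lam κ Λ₂ : ℝ) (hlam : 1 < lam) (hlb : lam ^ 8 ≤ 4 * b)
    (hκ : 0 < κ) (hΛ : 0 < Λ₂) (D : (Fin m → Bool) → ℝ) (hD : ∀ y, |D y| ≤ κ)
    (hpd : ∀ g ∈ SDX.Deg (Fin m) d, 0 ≤ ∑ y, D y * g y ^ 2)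
    (P : (Fin m → Fin b) → Matrix (Fin r) (Fin r) ℝ) (hP : ∀ S, (P S).PosSemidef)
    (hPΛ : ∀ S, (Λ₂ • (1 : Matrix (Fin r) (Fin r) ℝ) - P S).PosSemidef)
    (Q : (Fin m × Fin b → Bool) → Matrix (Fin r) (Fin r) ℝ) (hQ : ∀ x, (Q x).PosSemidef)
    (t : ℝ) (ht : ∀ x, (Q x).trace ≤ t) :
    -((b : ℝ) ^ m * 2 ^ (m * b) * (t * (2 * κ * Λ₂ / lam ^ (d + 1)) * Real.sqrt (24 ^ m * r)))
      ≤ ∑ x, ∑ S, D (SDX.rs S x) * (P S * Q x).trace := by
  classical
  have hbm : (0 : ℝ) < (b : ℝ) ^ m := by positivity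
  set τ : ℝ := 2 * κ * Λ₂ / lam ^ (d + 1) with hτ
  have hlam0 : 0 < lam := by linarith
  have hτ0 : 0 < τ := by positivity
  have ht0 : 0 ≤ t := ((hQ fun _ => false).trace_nonneg).trans (ht _)
  obtain ⟨V, hV0, hV1, hV2⟩ := induct4 hb lam hlam hlb m Unit (Fin r)
    (fun y => Matrix.of fun _ _ => D y) (fun y => rfl) P
    (fun S => by
      have := (hP S).1
      rwa [Matrix.IsHermitian, Matrix.conjTranspose_eq_transpose_of_trivial] at this) τ hτ0
    (fun S g => by
      have h1 := base2 κ Λ₂ lam hκ.le hΛ.le hlam.le D hD hpd (P S) (hP S) (hPΛ S) g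
      rwa [show (Matrix.diagonal (fun _ : Unit => (1 : ℝ)) ⊗ₖ (1 : Matrix (Fin r) (Fin r) ℝ))
        = 1 by rw [Matrix.diagonal_one, Matrix.one_kronecker_one]] at h1)
  set emb : Fin r → Unit × Fin r := fun a => ((), a) with hemb
  set U : (Fin m × Fin b → Bool) → Matrix (Fin r) (Fin r) ℝ := fun x =>
    (V fun j i => x (j, i)).submatrix emb emb with hU
  have hUs : ∀ x, (U x).IsSymm := by
    intro x
    have := ((hV0 fun j i => x (j, i)).posSemidef.submatrix emb).1
    rwa [Matrix.IsHermitian, Matrix.conjTranspose_eq_transpose_of_trivial] at this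
  have hU1 : ∀ x, (∑ S, D (SDX.rs S x) • P S + ((b : ℝ) ^ m) • U x).PosSemidef := by
    intro x
    have h1 := (hV1 fun j i => x (j, i)).submatrix emb
    have e : ∑ S, D (SDX.rs S x) • P S + ((b : ℝ) ^ m) • U x
        = (∑ S : Fin m → Fin b, (Matrix.of fun _ _ : Unit => D (fun j => x (j, S j))) ⊗ₖ P S
          + ((b : ℝ) ^ m) • V fun j i => x (j, i)).submatrix emb emb := by
      ext i j
      simp only [Matrix.submatrix_apply, Matrix.add_apply, Matrix.sum_apply, Matrix.smul_apply,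
        Matrix.kroneckerMap_apply, Matrix.of_apply, smul_eq_mul, hU, hemb]
      rfl
    rw [e]
    exact h1
  have hU2 : ∀ x, (U x * U x).trace
      = ((V fun j i => x (j, i)) * (V fun j i => x (j, i))).trace := by
    intro x
    simp only [Matrix.trace, Matrix.diag, Matrix.mul_apply, Fintype.sum_prod_type, Fintype.sum_unique,
      hU, hemb, Matrix.submatrix_apply]
  have hU3 : ∑ x, (U x * U x).trace ≤ 24 ^ m * τ ^ 2 * r * 2 ^ (m * b) := by
    have e1 : ∑ x : Fin m × Fin b → Bool, (U x * U x).trace =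
        ∑ x : Fin m → Fin b → Bool, (V x * V x).trace := by
      rw [Finset.sum_congr rfl fun x _ => hU2 x]
      exact (Equiv.curry (Fin m) (Fin b) Bool).sum_comp (fun x => (V x * V x).trace)
    rw [e1]
    refine hV2.trans (le_of_eq ?_)
    rw [Fintype.card_unit, Fintype.card_fin]
    push_cast
    ring
  have hU4 : ∀ x, 0 ≤ (U x * U x).trace := by
    intro x
    have h2 : (U x * U x).trace = ∑ i, ∑ j, U x i j ^ 2 := by
      refine Finset.sum_congr rfl fun i _ => ?_
      rw [Matrix.diag_apply, Matrix.mul_apply]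
      refine Finset.sum_congr rfl fun j _ => ?_
      rw [(hUs x).apply i j]
      ring
    rw [h2]
    positivity
  -- one point
  have key : ∀ x, -((b : ℝ) ^ m * (Real.sqrt ((U x * U x).trace) * t))
      ≤ ∑ S, D (SDX.rs S x) * (P S * Q x).trace := by
    intro x
    have h1 := h78.trace_mul_nonneg (hU1 x) (hQ x)
    have h2 : ((∑ S, D (SDX.rs S x) • P S + ((b : ℝ) ^ m) • U x) * Q x).trace
        = ∑ S, D (SDX.rs S x) * (P S * Q x).trace + (b : ℝ) ^ m * (U x * Q x).trace := by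
      rw [Matrix.add_mul, Matrix.trace_add, Matrix.smul_mul, Matrix.trace_smul, Finset.sum_mul,
        Matrix.trace_sum, smul_eq_mul]
      congr 1
      exact Finset.sum_congr rfl fun S _ => by rw [Matrix.smul_mul, Matrix.trace_smul, smul_eq_mul]
    rw [h2] at h1
    have h3 : (U x * Q x).trace ≤ Real.sqrt ((U x * U x).trace) * t :=
      (h78.trace_mul_le (hUs x) (hQ x)).trans
        (mul_le_mul_of_nonneg_left (ht x) (Real.sqrt_nonneg _))
    have h4 := mul_le_mul_of_nonneg_left h3 hbm.le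
    linarith
  -- all points
  have hcard : (Fintype.card (Fin m × Fin b → Bool) : ℝ) = 2 ^ (m * b) := by
    simp [Fintype.card_prod, Fintype.card_fin]
  have hcs : ∑ x, Real.sqrt ((U x * U x).trace) ≤ 2 ^ (m * b) * (τ * Real.sqrt (24 ^ m * r)) := by
    have h1 := Finset.sum_mul_sq_le_sq_mul_sq Finset.univ
      (fun _ : Fin m × Fin b → Bool => (1 : ℝ)) (fun x => Real.sqrt ((U x * U x).trace))
    simp only [one_mul, one_pow, Finset.sum_const, Finset.card_univ, nsmul_eq_mul, mul_one] at h1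
    rw [hcard, Finset.sum_congr rfl fun x _ => Real.sq_sqrt (hU4 x)] at h1
    have h2 : (∑ x, Real.sqrt ((U x * U x).trace)) ^ 2
        ≤ (2 ^ (m * b) * (τ * Real.sqrt (24 ^ m * r))) ^ 2 := by
      refine h1.trans ?_
      rw [mul_pow, mul_pow, Real.sq_sqrt (by positivity)]
      calc (2 : ℝ) ^ (m * b) * ∑ x, (U x * U x).trace
          ≤ 2 ^ (m * b) * (24 ^ m * τ ^ 2 * r * 2 ^ (m * b)) :=
            mul_le_mul_of_nonneg_left hU3 (by positivity)
        _ = _ := by ring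
    exact abs_le_of_sq_le_sq' h2 (by positivity) |>.2
  calc -((b : ℝ) ^ m * 2 ^ (m * b) * (t * τ * Real.sqrt (24 ^ m * r)))
      = -((b : ℝ) ^ m * (2 ^ (m * b) * (τ * Real.sqrt (24 ^ m * r)) * t)) := by ring
    _ ≤ -((b : ℝ) ^ m * ((∑ x, Real.sqrt ((U x * U x).trace)) * t)) := by
        rw [neg_le_neg_iff]
        exact mul_le_mul_of_nonneg_left (mul_le_mul_of_nonneg_right hcs ht0) hbm.le
    _ = ∑ x, -((b : ℝ) ^ m * (Real.sqrt ((U x * U x).trace) * t)) := by
        rw [Finset.sum_neg_distrib, ← Finset.mul_sum, Finset.sum_mul]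
    _ ≤ _ := Finset.sum_le_sum fun x _ => key x

end LIFT
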