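import Pool.Agent.LIFT.Numbers

/-!
# LIFT: the numbers, version 3 (row V14, helper44)

`b = B q`, `p = 8 q`, `lam` and `eta` constants, `n >= 3 B q ^ 2`, `delta = exp (- c sqrt n)`.
-/

set_option autoImplicit false

open Filter Topology

namespace LIFT

namespace h44

/-- everything for one `q` -/
theorem in_q3 (β' γ : ℝ) (hβ : 0 < β') (hγ : 0 < γ) (q₀ : ℕ) :
    ∃ B : ℕ, 0 < B ∧ ∃ q₁ : ℕ, ∀ q : ℕ, q₁ ≤ q → ∃ p : ℕ, ∃ lam η : ℝ, q₀ ≤ q ∧ 12 ≤ q ∧ 0 < p ∧
      1 < lam ∧ 0 < η ∧ η < 1 ∧ 32 ≤ β' * q ∧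
      η * (lam ^ 2 - 1) + 3 * p * (lam ^ 2 - 1) / (η ^ 2 * ((B * q : ℕ) : ℝ)) ≤ 1 ∧
      ∀ x : ℝ, x ≤ q / 2 →
      ∀ d k r : ℕ, β' * q ≤ d + 1 → β' * q ≤ k → 0 < r → (r : ℝ) ≤ 2 * Real.exp (q / 2) →
        2 * (2 * 2 ^ (3 * q) * (2 * r / γ) / lam ^ (d + 1) * (1 + 1) ^ (3 * q))
          + 2 * (2 ^ (3 * q) * (2 * r / γ) * (2 ^ (3 * q) * r * Real.exp (-p)))
          + Real.exp (-x) * γ ^ 2 / 8
          + Real.sqrt (Real.exp (-x) ^ 2 * ((1 + 1 / ((B * q : ℕ) : ℝ)) ^ (3 * q) - 1)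
              + 2 ^ (3 * q) / ((B * q : ℕ) : ℝ) ^ k)
          < Real.exp (-x) * γ ^ 2 / 2 := by
  set lam : ℝ := Real.exp (7 / β') with hlam
  have hlam1 : 1 < lam := Real.one_lt_exp_iff.2 (by positivity)
  set A : ℝ := lam ^ 2 - 1 with hA
  have hA0 : 0 < A := by
    rw [hA]
    nlinarith
  set T : ℝ := γ ^ 2 / 16 with hT
  have hT0 : 0 < T := by positivity
  obtain ⟨B, hB⟩ := exists_nat_ge (max (48 * A * (2 * A + 2) ^ 2 + 3) (12 / T ^ 2))
  have hB1 : 48 * A * (2 * A + 2) ^ 2 + 3 ≤ B := le_trans (le_max_left _ _) hB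
  have hB2 : 12 / T ^ 2 ≤ B := le_trans (le_max_right _ _) hB
  have hB3 : (3 : ℝ) ≤ B := by
    have : 0 ≤ 48 * A * (2 * A + 2) ^ 2 := by positivity
    linarith
  have hB0 : (0 : ℝ) < B := by linarith
  have hqr : Tendsto (fun q : ℕ => β' * (q : ℝ)) atTop atTop :=
    tendsto_natCast_atTop_atTop.const_mul_atTop hβ
  have hex0 : Tendsto (fun q : ℕ => Real.exp (-(q : ℝ))) atTop (𝓝 0) :=
    Real.tendsto_exp_neg_atTop_nhds_zero.comp tendsto_natCast_atTop_atTop
  have hex : Tendsto (fun q : ℕ => 16 / γ * Real.exp (-(q : ℝ))) atTop (𝓝 0) := by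
    simpa using hex0.const_mul (16 / γ)
  have hT2 : 0 < T ^ 2 / 2 := by positivity
  obtain ⟨q₁, hq₁⟩ := (((hex.eventually (gt_mem_nhds hT0)).and
    (hex0.eventually (gt_mem_nhds hT2))).and
    ((hqr.eventually_ge_atTop 32).and ((eventually_ge_atTop (q₀ + 12)).and
      ((tendsto_natCast_atTop_atTop (R := ℝ)).eventually_ge_atTop
        (Real.exp (5 / β')))))).exists_forall_of_atTop
  refine ⟨B, by exact_mod_cast hB0, q₁, fun q hq => ?_⟩
  obtain ⟨⟨h1, h1'⟩, h2, h3, h3'⟩ := hq₁ q hq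
  have hq0 : 0 < q := by omega
  have hq0' : (1 : ℝ) ≤ q := by exact_mod_cast hq0
  have hq0p : (0 : ℝ) < q := by linarith
  set η : ℝ := 1 / (2 * A + 2) with hη
  have hη0 : 0 < η := by positivity
  have hη1 : η < 1 := by
    rw [hη, div_lt_one (by positivity)]
    linarith
  refine ⟨8 * q, lam, η, by omega, by omega, by omega, hlam1, hη0, hη1, h2, ?_, ?_⟩
  · have e1 : η * A ≤ 1 / 2 := by
      rw [hη, div_mul_eq_mul_div, div_le_iff₀ (by positivity)]
      linarith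
    have e2 : 3 * ((8 * q : ℕ) : ℝ) * A / (η ^ 2 * ((B * q : ℕ) : ℝ)) ≤ 1 / 2 := by
      have e3 : 3 * ((8 * q : ℕ) : ℝ) * A / (η ^ 2 * ((B * q : ℕ) : ℝ)) =
          24 * A * (2 * A + 2) ^ 2 / B := by
        rw [hη]
        push_cast
        field_simp
        ring
      rw [e3, div_le_iff₀ hB0]
      linarith
    linarith
  · intro x hx d k r hd hk hr hr2
    have hr0 : (0 : ℝ) < r := by exact_mod_cast hr
    set δ : ℝ := Real.exp (-x) with hδ
    have hδ0 : 0 < δ := Real.exp_pos _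
    have hδq : Real.exp (-(q / 2 : ℝ)) ≤ δ := Real.exp_le_exp.2 (by linarith)
    have g1 : (2 : ℝ) ^ (3 * q) ≤ Real.exp (21 / 10 * q) := by
      refine (two_pow_le (3 * q)).trans (Real.exp_le_exp.2 (le_of_eq ?_))
      push_cast
      ring
    have hmain : 16 / γ * Real.exp (-(3 / 2 * q : ℝ)) ≤ δ * T := by
      have e1 : Real.exp (-(3 / 2 * q : ℝ)) = Real.exp (-(q / 2 : ℝ)) * Real.exp (-(q : ℝ)) := by
        rw [← Real.exp_add]
        congr 1
        ring
      rw [e1]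
      have e2 : 16 / γ * (Real.exp (-(q / 2 : ℝ)) * Real.exp (-(q : ℝ))) =
          Real.exp (-(q / 2 : ℝ)) * (16 / γ * Real.exp (-(q : ℝ))) := by ring
      rw [e2]
      exact mul_le_mul hδq h1.le (by positivity) hδ0.le
    -- first term
    have f1 : 2 * (2 * 2 ^ (3 * q) * (2 * r / γ) / lam ^ (d + 1) * (1 + 1) ^ (3 * q)) ≤ δ * T := by
      refine le_trans ?_ hmain
      have g4 : Real.exp (7 * q) ≤ lam ^ (d + 1) := by
        rw [hlam, ← Real.exp_nat_mul]
        apply Real.exp_le_exp.2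
        push_cast
        have g5 : (7 : ℝ) * q = 7 / β' * (β' * q) := by
          field_simp
        rw [g5, mul_comm ((d : ℝ) + 1)]
        exact mul_le_mul_of_nonneg_left hd (by positivity)
      have g2 : ((1 : ℝ) + 1) ^ (3 * q) ≤ Real.exp (21 / 10 * q) := by
        have e : ((1 : ℝ) + 1) = 2 := by norm_num
        rw [e]
        exact g1
      have g6 : 2 * (2 * 2 ^ (3 * q) * (2 * r / γ) / lam ^ (d + 1) * (1 + 1) ^ (3 * q)) ≤
          2 * (2 * Real.exp (21 / 10 * q) * (2 * (2 * Real.exp (q / 2)) / γ) /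
            Real.exp (7 * q) * Real.exp (21 / 10 * q)) := by
        gcongr
      refine g6.trans ?_
      have g7 : 2 * (2 * Real.exp (21 / 10 * q) * (2 * (2 * Real.exp (q / 2)) / γ) /
            Real.exp (7 * q) * Real.exp (21 / 10 * q)) = 16 / γ *
            (Real.exp (21 / 10 * q) * Real.exp (q / 2) * (Real.exp (7 * q))⁻¹ *
              Real.exp (21 / 10 * q)) := by
        ring
      rw [g7, ← Real.exp_neg, ← Real.exp_add, ← Real.exp_add, ← Real.exp_add]
      apply mul_le_mul_of_nonneg_left _ (by positivity)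
      apply Real.exp_le_exp.2
      linarith
    -- second term
    have f2 : 2 * (2 ^ (3 * q) * (2 * r / γ) * (2 ^ (3 * q) * r * Real.exp (-((8 * q : ℕ) : ℝ))))
        ≤ δ * T := by
      refine le_trans ?_ hmain
      have g6 : 2 * (2 ^ (3 * q) * (2 * r / γ) * (2 ^ (3 * q) * r *
          Real.exp (-((8 * q : ℕ) : ℝ)))) ≤
          2 * (Real.exp (21 / 10 * q) * (2 * (2 * Real.exp (q / 2)) / γ) *
            (Real.exp (21 / 10 * q) * (2 * Real.exp (q / 2)) * Real.exp (-((8 * q : ℕ) : ℝ)))) := by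
        gcongr
      refine g6.trans ?_
      have g7 : 2 * (Real.exp (21 / 10 * q) * (2 * (2 * Real.exp (q / 2)) / γ) *
            (Real.exp (21 / 10 * q) * (2 * Real.exp (q / 2)) *
              Real.exp (-((8 * q : ℕ) : ℝ)))) = 16 / γ *
            (Real.exp (21 / 10 * q) * Real.exp (q / 2) * Real.exp (21 / 10 * q) *
              Real.exp (q / 2) * Real.exp (-((8 * q : ℕ) : ℝ))) := by
        ring
      rw [g7, ← Real.exp_add, ← Real.exp_add, ← Real.exp_add, ← Real.exp_add]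
      apply mul_le_mul_of_nonneg_left _ (by positivity)
      apply Real.exp_le_exp.2
      push_cast
      linarith
    -- third term
    have f3 : Real.sqrt (δ ^ 2 * ((1 + 1 / ((B * q : ℕ) : ℝ)) ^ (3 * q) - 1)
              + 2 ^ (3 * q) / ((B * q : ℕ) : ℝ) ^ k) ≤ δ * T := by
      have hBq : (0 : ℝ) < ((B * q : ℕ) : ℝ) := by
        push_cast
        positivity
      have g2 : (1 + 1 / ((B * q : ℕ) : ℝ)) ^ (3 * q) ≤ Real.exp (3 / B) := by
        have g3 : 1 + 1 / ((B * q : ℕ) : ℝ) ≤ Real.exp (1 / ((B * q : ℕ) : ℝ)) := by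
          have := Real.add_one_le_exp (1 / ((B * q : ℕ) : ℝ))
          linarith
        refine (pow_le_pow_left₀ (by positivity) g3 (3 * q)).trans ?_
        rw [← Real.exp_nat_mul]
        apply Real.exp_le_exp.2
        push_cast
        apply le_of_eq
        field_simp
      have g4 : Real.exp (3 / (B : ℝ)) ≤ 1 + 6 / B := by
        have g5 : 3 / (B : ℝ) ≤ 1 := by
          rw [div_le_one hB0]
          exact hB3
        have g6 : |Real.exp (3 / (B : ℝ)) - 1 - 3 / B| ≤ (3 / (B : ℝ)) ^ 2 :=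
          Real.abs_exp_sub_one_sub_id_le (by rw [abs_of_pos (by positivity)]; exact g5)
        have g7 := (le_abs_self _).trans g6
        have g8 : (3 / (B : ℝ)) ^ 2 ≤ 3 / B := by
          rw [pow_two]
          have : 0 < 3 / (B : ℝ) := by positivity
          nlinarith
        have g9 : 6 / (B : ℝ) = 2 * (3 / B) := by ring
        linarith
      have g10 : (1 + 1 / ((B * q : ℕ) : ℝ)) ^ (3 * q) - 1 ≤ T ^ 2 / 2 := by
        have g11 : 6 / (B : ℝ) ≤ T ^ 2 / 2 := by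
          rw [div_le_iff₀ (by positivity)] at hB2
          rw [div_le_iff₀ hB0]
          linarith
        linarith
      have g13 : 2 ^ (3 * q) / ((B * q : ℕ) : ℝ) ^ k ≤ δ ^ 2 * (T ^ 2 / 2) := by
        have k1 : Real.exp (5 / β') ≤ ((B * q : ℕ) : ℝ) := by
          refine h3'.trans ?_
          push_cast
          nlinarith
        have k2 : Real.exp (5 * q) ≤ ((B * q : ℕ) : ℝ) ^ k := by
          refine le_trans ?_ (pow_le_pow_left₀ (Real.exp_pos _).le k1 k)
          rw [← Real.exp_nat_mul]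
          apply Real.exp_le_exp.2
          have g5 : (5 : ℝ) * q = 5 / β' * (β' * q) := by
            field_simp
          rw [g5, mul_comm (k : ℝ)]
          exact mul_le_mul_of_nonneg_left hk (by positivity)
        have k3 : (2 : ℝ) ^ (3 * q) / ((B * q : ℕ) : ℝ) ^ k ≤
            Real.exp (21 / 10 * q) / Real.exp (5 * q) := by
          gcongr
        refine k3.trans ?_
        have k4 : Real.exp (21 / 10 * q) / Real.exp (5 * q) ≤
            Real.exp (-(q / 2 : ℝ)) ^ 2 * Real.exp (-(q : ℝ)) := by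
          rw [← Real.exp_sub, ← Real.exp_nat_mul, ← Real.exp_add]
          apply Real.exp_le_exp.2
          push_cast
          linarith
        refine k4.trans ?_
        apply mul_le_mul _ h1'.le (Real.exp_pos _).le (by positivity)
        exact pow_le_pow_left₀ (Real.exp_pos _).le hδq 2
      rw [Real.sqrt_le_left (by positivity)]
      have g14 := mul_le_mul_of_nonneg_left g10 (show 0 ≤ δ ^ 2 by positivity)
      have g15 : (δ * T) ^ 2 = δ ^ 2 * (T ^ 2 / 2) + δ ^ 2 * (T ^ 2 / 2) := by ring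
      rw [g15]
      linarith
    have e5 : δ * T = δ * γ ^ 2 / 16 := by rw [hT]; ring
    rw [e5] at f1 f2 f3
    have hpos : 0 < δ * γ ^ 2 := by positivity
    linarith

end h44

/-- V14: the numbers -/
theorem numbers3 (β' γ : ℝ) (hβ : 0 < β') (hγ : 0 < γ) (hγ1 : γ ≤ 1) (q₀ : ℕ) :
    ∃ c > 0, ∃ n₀ : ℕ, ∀ n : ℕ, n₀ ≤ n → ∃ q b p : ℕ, ∃ lam η : ℝ,
      q₀ ≤ q ∧ 0 < q ∧ 0 < b ∧ q₀ ≤ b ∧ 0 < p ∧
      (3 * q) * b ≤ n ∧ 1 < lam ∧ 0 < η ∧ η < 1 ∧ 32 ≤ β' * q ∧
      η * (lam ^ 2 - 1) + 3 * p * (lam ^ 2 - 1) / (η ^ 2 * b) ≤ 1 ∧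
      Real.exp (-(c * Real.sqrt n)) ≤ 1 / 8 ∧
      ∀ d k r : ℕ, β' * q ≤ d + 1 → β' * q ≤ k → 0 < r → (r : ℝ) ≤ Real.exp (c * Real.sqrt n) + 1 →
        2 * (2 * 2 ^ (3 * q) * (2 * r / γ) / lam ^ (d + 1) * (1 + 1) ^ (3 * q))
          + 2 * (2 ^ (3 * q) * (2 * r / γ) * (2 ^ (3 * q) * r * Real.exp (-p)))
          + Real.exp (-(c * Real.sqrt n)) * γ ^ 2 / 8
          + Real.sqrt (Real.exp (-(c * Real.sqrt n)) ^ 2 * ((1 + 1 / (b : ℝ)) ^ (3 * q) - 1)
              + 2 ^ (3 * q) / (b : ℝ) ^ k)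
          < Real.exp (-(c * Real.sqrt n)) * γ ^ 2 / 2 := by
  obtain ⟨B, hB, q₁, h1⟩ := h44.in_q3 β' γ hβ hγ q₀
  have hB0 : (0 : ℝ) < B := by exact_mod_cast hB
  set s : ℝ := Real.sqrt (3 * B) with hs
  have hs0 : 0 < s := Real.sqrt_pos.2 (by positivity)
  have hss : s ^ 2 = 3 * B := Real.sq_sqrt (by positivity)
  refine ⟨1 / (4 * s), by positivity, 3 * B * (q₁ + 1) ^ 2, fun n hn => ?_⟩
  set N : ℝ := Real.sqrt n with hN
  have hn0 : (0 : ℝ) ≤ n := Nat.cast_nonneg _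
  have hN0 : 0 ≤ N := Real.sqrt_nonneg _
  have hN2 : N ^ 2 = n := Real.sq_sqrt hn0
  have hNq : s * ((q₁ : ℝ) + 1) ≤ N := by
    rw [hN]
    apply Real.le_sqrt_of_sq_le
    rw [mul_pow, hss]
    have h3 : ((3 * B * (q₁ + 1) ^ 2 : ℕ) : ℝ) ≤ n := by exact_mod_cast hn
    push_cast at h3
    exact h3
  set q : ℕ := ⌊N / s⌋₊ with hq
  have hq1 : (q : ℝ) ≤ N / s := Nat.floor_le (by positivity)
  have hq2 : N / s < q + 1 := Nat.lt_floor_add_one _
  have hNs : (q₁ : ℝ) + 1 ≤ N / s := by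
    rw [le_div_iff₀ hs0]
    linarith
  have hqq : q₁ ≤ q := by
    have h2 : (q₁ : ℝ) < q + 1 := by linarith
    have h3 : q₁ < q + 1 := by exact_mod_cast h2
    omega
  obtain ⟨p, lam, η, g1, g2, g3, g4, g5, g6, g7, g8, g9⟩ := h1 q hqq
  have hq12 : (12 : ℝ) ≤ q := by exact_mod_cast g2
  have h4 : 1 / (4 * s) * N = N / s / 4 := by
    field_simp
  have hqB : q ≤ B * q := Nat.le_mul_of_pos_left q hB
  refine ⟨q, B * q, p, lam, η, g1, by omega, Nat.mul_pos hB (by omega), g1.trans hqB, g3, ?_,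
    g4, g5, g6, g7, g8, ?_, fun d k r hd hk hr hr2 => ?_⟩
  · have h2 : (((3 * q) * (B * q) : ℕ) : ℝ) ≤ n := by
      push_cast
      have h3 : s * (q : ℝ) ≤ N := by
        have := mul_le_mul_of_nonneg_left hq1 hs0.le
        rwa [mul_div_cancel₀ _ hs0.ne'] at this
      calc 3 * (q : ℝ) * (B * q) = (s * q) ^ 2 := by
            rw [mul_pow, hss]
            ring
        _ ≤ N ^ 2 := pow_le_pow_left₀ (by positivity) h3 2
        _ = n := hN2
    exact_mod_cast h2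
  · have e1 : Real.exp (-(1 / (4 * s) * N)) ≤ Real.exp (-3) := by
      apply Real.exp_le_exp.2
      rw [h4]
      linarith
    refine e1.trans ?_
    have e2 : (2 : ℝ) ≤ Real.exp 1 := by
      have := Real.add_one_le_exp (1 : ℝ)
      linarith
    have e3 : (8 : ℝ) ≤ Real.exp 3 := by
      have e4 : Real.exp 3 = Real.exp 1 ^ 3 := by
        rw [← Real.exp_nat_mul]
        norm_num
      rw [e4]
      calc (8 : ℝ) = 2 ^ 3 := by norm_num
        _ ≤ Real.exp 1 ^ 3 := pow_le_pow_left₀ (by norm_num) e2 3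
    rw [Real.exp_neg, one_div]
    exact inv_anti₀ (by norm_num) e3
  · refine g9 (1 / (4 * s) * N) (by rw [h4]; linarith) d k r hd hk hr (hr2.trans ?_)
    have h2 : Real.exp (1 / (4 * s) * N) ≤ Real.exp (q / 2) := by
      apply Real.exp_le_exp.2
      rw [h4]
      linarith
    have h3 : 1 ≤ Real.exp ((q : ℝ) / 2) := Real.one_le_exp (by positivity)
    linarith

end LIFT
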