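import Pool.Agent.LIFT.Main2
import Pool.Agent.LIFT.Numbers3
import Pool.Agent.LIFT.Xor3
import Pool.Agent.LIFT.Factor5
import Pool.Agent.LIFT.Rand

/-!
# LIFT: the instance and the impossibility, with threshold `1 - exp (-c √n)` (helper93; the lemmas
about instances are helper97's)
-/

set_option autoImplicit false

open scoped BigOperators Matrix Kronecker

namespace LIFT

namespace h93

open SDX

/-- the variables of an equation -/
def ve {M q : ℕ} (a : Fin M → Fin 3 → Fin q) (e : Fin M) : Fin 3 ↪ Fin (3 * q) where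
  toFun t := finProdFinEquiv (t, a e t)
  inj' := fun _ _ h => (Prod.mk.inj (finProdFinEquiv.injective h)).1

theorem ve_apply {M q : ℕ} (a : Fin M → Fin 3 → Fin q) (e : Fin M) (t : Fin 3) :
    ve a e t = finProdFinEquiv (t, a e t) := rfl

/-- the set of the variables of an equation -/
def vars {M q : ℕ} (a : Fin M → Fin 3 → Fin q) (e : Fin M) : Finset (Fin (3 * q)) :=
  (Finset.univ : Finset (Fin 3)).map (ve a e)

theorem vars_card {M q : ℕ} (a : Fin M → Fin 3 → Fin q) (e : Fin M) : (vars a e).card = 3 := by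
  rw [vars, Finset.card_map, Finset.card_univ, Fintype.card_fin]

theorem mem_vars {M q : ℕ} (a : Fin M → Fin 3 → Fin q) (e : Fin M) (v : Fin (3 * q)) :
    v ∈ vars a e ↔ a e (finProdFinEquiv.symm v).1 = (finProdFinEquiv.symm v).2 := by
  rw [vars, Finset.mem_map]
  simp only [Finset.mem_univ, true_and, ve_apply]
  constructor
  · rintro ⟨t, rfl⟩
    rw [Equiv.symm_apply_apply]
  · intro h
    refine ⟨(finProdFinEquiv.symm v).1, ?_⟩
    rw [h, Prod.mk.eta, Equiv.apply_symm_apply]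

theorem chr_vars {M q : ℕ} (a : Fin M → Fin 3 → Fin q) (e : Fin M) (y : Fin (3 * q) → Bool) :
    chr (vars a e) y = ∏ t : Fin 3, sg (y (finProdFinEquiv (t, a e t))) := by
  rw [chr, vars, Finset.prod_map]
  rfl

theorem odd_card {M q : ℕ} (a : Fin M → Fin 3 → Fin q) (C : Finset (Fin M)) :
    (odd (vars a) C).card = ((Finset.univ : Finset (Fin 3 × Fin q)).filter fun v =>
      Odd (C.filter fun e => a e v.1 = v.2).card).card := by
  rw [odd]
  refine Finset.card_bij (fun v _ => finProdFinEquiv.symm v) ?_ ?_ ?_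
  · intro v hv
    rw [Finset.mem_filter] at hv ⊢
    refine ⟨Finset.mem_univ _, ?_⟩
    simpa only [mem_vars] using hv.2
  · intro v _ v' _ h
    exact finProdFinEquiv.symm.injective h
  · intro v hv
    rw [Finset.mem_filter] at hv
    refine ⟨finProdFinEquiv v, ?_, Equiv.symm_apply_apply _ _⟩
    rw [Finset.mem_filter]
    refine ⟨Finset.mem_univ _, ?_⟩
    simpa only [mem_vars, Equiv.symm_apply_apply] using hv.2

theorem sg_mul_self (a : Bool) : sg a * sg a = 1 := by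
  cases a <;> norm_num [sg]

theorem sg_eq_iff (u : ℝ) (hu : u = 1 ∨ u = -1) (a : Bool) [Decidable (u = sg a)] :
    (if u = sg a then (1 : ℝ) else 0) = (1 + sg a * u) / 2 := by
  rcases hu with rfl | rfl <;> cases a <;> norm_num [sg]

theorem prod_sg {ι : Type} (A : Finset ι) (y : ι → Bool) : chr A y = 1 ∨ chr A y = -1 := by
  classical
  induction A using Finset.induction_on with
  | empty => left; simp [chr]
  | insert i A hi ih =>
    rw [chr, Finset.prod_insert hi]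
    have h1 : sg (y i) = 1 ∨ sg (y i) = -1 := by
      cases y i
      · left; rfl
      · right; rfl
    change sg (y i) * chr A y = 1 ∨ sg (y i) * chr A y = -1
    rcases h1 with h | h <;> rcases ih with h' | h' <;> rw [h, h'] <;> norm_num

/-- the product of two characters -/
theorem chr_mul' {ι : Type} [DecidableEq ι] (A B : Finset ι) (y : ι → Bool) :
    chr A y * chr B y = chr (symmDiff A B) y := by
  have h1 : chr A y = chr (A \ B) y * chr (A ∩ B) y := by
    rw [chr, chr, chr, ← Finset.prod_union (Finset.disjoint_sdiff_inter A B),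
      Finset.sdiff_union_inter]
  have h2 : chr B y = chr (B \ A) y * chr (A ∩ B) y := by
    rw [chr, chr, chr, Finset.inter_comm, ← Finset.prod_union (Finset.disjoint_sdiff_inter B A),
      Finset.sdiff_union_inter]
  have h3 : chr (symmDiff A B) y = chr (A \ B) y * chr (B \ A) y := by
    rw [symmDiff_def, Finset.sup_eq_union, chr, chr, chr, Finset.prod_union]
    exact Finset.disjoint_left.2 fun i hi hi' =>
      (Finset.mem_sdiff.1 hi).2 (Finset.mem_sdiff.1 hi').1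
  have h4 : chr (A ∩ B) y * chr (A ∩ B) y = 1 := by
    rcases prod_sg (A ∩ B) y with h | h <;> rw [h] <;> norm_num
  rw [h1, h2, h3]
  calc chr (A \ B) y * chr (A ∩ B) y * (chr (B \ A) y * chr (A ∩ B) y)
      = chr (A \ B) y * chr (B \ A) y * (chr (A ∩ B) y * chr (A ∩ B) y) := by ring
    _ = chr (A \ B) y * chr (B \ A) y := by rw [h4, mul_one]

open Classical in
/-- the number of satisfied equations -/
theorem sat_card {M q : ℕ} (a : Fin M → Fin 3 → Fin q) (s : Fin M → Bool)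
    (y : Fin (3 * q) → Bool) :
    ((((Finset.univ : Finset (Fin M)).filter fun e =>
      ∏ t, sg (y (ve a e t)) = sg (s e)).card : ℕ) : ℝ)
      = ∑ e, (1 + sg (s e) * chr (vars a e) y) / 2 := by
  rw [← Finset.sum_boole]
  refine Finset.sum_congr rfl fun e _ => ?_
  have h1 : chr (vars a e) y = ∏ t : Fin 3, sg (y (ve a e t)) := chr_vars a e y
  rw [← h1]
  exact sg_eq_iff _ (prod_sg _ _) _

/-- the test function -/
noncomputable def ff {M q : ℕ} (a : Fin M → Fin 3 → Fin q) (s : Fin M → Bool) (δ : ℝ)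
    (y : Fin (3 * q) → Bool) : ℝ :=
  (1 / 8 - δ) - 1 / (8 * M) * ∑ e, sg (s e) * chr (vars a e) y

open Classical in
/-- the fraction of satisfied equations as a polynomial -/
theorem frac {M q : ℕ} (hM : 0 < M) (a : Fin M → Fin 3 → Fin q) (s : Fin M → Bool) (δ : ℝ)
    (y : Fin (3 * q) → Bool) :
    1 - (3 / 4 + (((Finset.univ : Finset (Fin M)).filter fun e =>
      ∏ t, sg (y (ve a e t)) = sg (s e)).card : ℝ) / (4 * M)) - δ = ff a s δ y := by
  have hM' : (0 : ℝ) < M := by exact_mod_cast hM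
  rw [sat_card, ← Finset.sum_div, Finset.sum_add_distrib, Finset.sum_const, Finset.card_univ,
    Fintype.card_fin, nsmul_eq_mul, mul_one, ff]
  field_simp
  ring

/-- the Fourier coefficients of `D f` -/
theorem coef_D_ff {M q : ℕ} (a : Fin M → Fin 3 → Fin q) (s : Fin M → Bool) (δ : ℝ)
    (D : (Fin (3 * q) → Bool) → ℝ) (A : Finset (Fin (3 * q))) :
    coef A (fun y => D y * ff a s δ y) = (1 / 8 - δ) * coef A D
      - 1 / (8 * M) * ∑ e, sg (s e) * coef (symmDiff A (vars a e)) D := by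
  simp only [coef, Fintype.card_fin, ← chr_mul', ff]
  rw [Finset.sum_congr rfl fun y _ => show D y * ((1 / 8 - δ) - 1 / (8 * M) *
    ∑ e, sg (s e) * chr (vars a e) y) * chr A y = (1 / 8 - δ) * (D y * chr A y)
      - 1 / (8 * M) * ∑ e, sg (s e) * (D y * (chr A y * chr (vars a e) y)) from ?_,
    Finset.sum_sub_distrib, ← Finset.mul_sum, ← Finset.mul_sum, Finset.sum_comm]
  · simp only [← Finset.mul_sum, ← mul_div_assoc, ← Finset.sum_div]
    rw [← sub_div]
  · have : ∑ e, sg (s e) * (D y * (chr A y * chr (vars a e) y))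
      = D y * (∑ e, sg (s e) * chr (vars a e) y) * chr A y := by
      rw [Finset.mul_sum, Finset.sum_mul]
      exact Finset.sum_congr rfl fun e _ => by ring
    rw [this]
    ring

/-- low coefficients of `D f` -/
theorem coef_low {M q : ℕ} (hM : 0 < M) (a : Fin M → Fin 3 → Fin q) (s : Fin M → Bool) (δ : ℝ)
    (D : (Fin (3 * q) → Bool) → ℝ) (A : Finset (Fin (3 * q)))
    (h : ∀ e, coef (symmDiff A (vars a e)) D = sg (s e) * coef A D) :
    coef A (fun y => D y * ff a s δ y) = -(δ * coef A D) := by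
  have hM' : (0 : ℝ) < M := by exact_mod_cast hM
  have h1 : ∑ e, sg (s e) * coef (symmDiff A (vars a e)) D = M * coef A D := by
    rw [Finset.sum_congr rfl fun e _ => show sg (s e) * coef (symmDiff A (vars a e)) D
      = coef A D by rw [h e, ← mul_assoc, sg_mul_self, one_mul], Finset.sum_const,
      Finset.card_univ, Fintype.card_fin, nsmul_eq_mul]
  rw [coef_D_ff, h1]
  field_simp
  ring

/-- all coefficients of `D f` -/
theorem coef_le {M q : ℕ} (hM : 0 < M) (a : Fin M → Fin 3 → Fin q) (s : Fin M → Bool) (δ : ℝ)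
    (hδ : 0 < δ) (hδ1 : δ ≤ 1 / 8)
    (D : (Fin (3 * q) → Bool) → ℝ) (hD1 : ∀ A, |coef A D| ≤ 1) (A : Finset (Fin (3 * q))) :
    |coef A (fun y => D y * ff a s δ y)| ≤ 1 := by
  have hM' : (0 : ℝ) < M := by exact_mod_cast hM
  have h3 : |∑ e, sg (s e) * coef (symmDiff A (vars a e)) D| ≤ M := by
    refine (Finset.abs_sum_le_sum_abs _ _).trans ?_
    refine (Finset.sum_le_sum (g := fun _ => (1 : ℝ)) fun e _ => ?_).trans ?_
    · rw [abs_mul]
      have : |sg (s e)| = 1 := by cases s e <;> norm_num [sg]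
      rw [this, one_mul]
      exact hD1 _
    · simp
  have h4 : |(1 / 8 - δ) * coef A D| ≤ 1 / 8 := by
    rw [abs_mul]
    have : |1 / 8 - δ| ≤ 1 / 8 := abs_le.2 ⟨by linarith, by linarith⟩
    calc |1 / 8 - δ| * |coef A D| ≤ 1 / 8 * 1 :=
          mul_le_mul this (hD1 A) (abs_nonneg _) (by norm_num)
      _ = 1 / 8 := mul_one _
  have h5 : |1 / (8 * (M : ℝ)) * ∑ e, sg (s e) * coef (symmDiff A (vars a e)) D| ≤ 1 / 8 := by
    rw [abs_mul, abs_of_pos (by positivity)]
    calc 1 / (8 * (M : ℝ)) * |∑ e, sg (s e) * coef (symmDiff A (vars a e)) D|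
        ≤ 1 / (8 * (M : ℝ)) * M := mul_le_mul_of_nonneg_left h3 (by positivity)
      _ = 1 / 8 := by field_simp
  rw [coef_D_ff]
  refine (abs_sub _ _).trans ?_
  linarith

/-- `∑ A ≠ ∅, x ^ |A| = (1 + x) ^ m - 1` -/
theorem sum_pow_card (m : ℕ) (x : ℝ) :
    ∑ A ∈ (Finset.univ : Finset (Finset (Fin m))).erase ∅, x ^ A.card = (1 + x) ^ m - 1 := by
  have h1 : ∑ A : Finset (Fin m), x ^ A.card = (1 + x) ^ m := by
    have := Finset.sum_pow_mul_eq_add_pow x 1 (Finset.univ : Finset (Fin m))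
    simp only [one_pow, mul_one, Finset.card_univ, Fintype.card_fin, Finset.powerset_univ] at this
    rw [this, add_comm]
  rw [← h1, ← Finset.add_sum_erase _ _ (Finset.mem_univ ∅)]
  simp

/-- the variance of `D f` -/
theorem var_le {m b k : ℕ} (hb : 0 < b) (δ : ℝ) (g : (Fin m → Bool) → ℝ)
    (h1 : ∀ A : Finset (Fin m), A.card < k → |coef A g| ≤ δ)
    (h2 : ∀ A : Finset (Fin m), |coef A g| ≤ 1) :
    ∑ A ∈ (Finset.univ : Finset (Finset (Fin m))).erase ∅, coef A g ^ 2 / (b : ℝ) ^ A.card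
      ≤ δ ^ 2 * ((1 + 1 / (b : ℝ)) ^ m - 1) + 2 ^ m / (b : ℝ) ^ k := by
  have hb' : (0 : ℝ) < b := by exact_mod_cast hb
  have hb1 : (1 : ℝ) ≤ b := by exact_mod_cast hb
  have h3 : ∀ A ∈ (Finset.univ : Finset (Finset (Fin m))).erase ∅,
      coef A g ^ 2 / (b : ℝ) ^ A.card ≤ δ ^ 2 * (1 / (b : ℝ)) ^ A.card + 1 / (b : ℝ) ^ k := by
    intro A _
    rcases lt_or_ge A.card k with h | h
    · have h4 : coef A g ^ 2 ≤ δ ^ 2 := by
        rw [← sq_abs]
        exact pow_le_pow_left₀ (abs_nonneg _) (h1 A h) 2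
      have h5 : coef A g ^ 2 / (b : ℝ) ^ A.card ≤ δ ^ 2 * (1 / (b : ℝ)) ^ A.card := by
        rw [one_div, inv_pow, ← div_eq_mul_inv]
        exact div_le_div_of_nonneg_right h4 (by positivity)
      have h6 : (0 : ℝ) ≤ 1 / (b : ℝ) ^ k := by positivity
      linarith
    · have h4 : coef A g ^ 2 ≤ 1 := by
        rw [← sq_abs]
        exact pow_le_one₀ (abs_nonneg _) (h2 A)
      have h5 : coef A g ^ 2 / (b : ℝ) ^ A.card ≤ 1 / (b : ℝ) ^ k :=
        div_le_div₀ zero_le_one h4 (by positivity) (pow_le_pow_right₀ hb1 h)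
      have h6 : (0 : ℝ) ≤ δ ^ 2 * (1 / (b : ℝ)) ^ A.card := by positivity
      linarith
  refine (Finset.sum_le_sum h3).trans ?_
  rw [Finset.sum_add_distrib, ← Finset.mul_sum, sum_pow_card]
  have h4 : ∑ _A ∈ (Finset.univ : Finset (Finset (Fin m))).erase ∅, 1 / (b : ℝ) ^ k
      ≤ 2 ^ m / (b : ℝ) ^ k := by
    rw [Finset.sum_const, nsmul_eq_mul, mul_one_div]
    refine div_le_div_of_nonneg_right ?_ (by positivity)
    have h5 : ((Finset.univ : Finset (Finset (Fin m))).erase ∅).card ≤ 2 ^ m := by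
      refine (Finset.card_erase_le).trans ?_
      simp
    exact_mod_cast h5
  linarith

end h93

open SDX h93

open Classical in
theorem final_core3 (ε γ : ℝ) (hε : 0 < ε) (hγ : 0 < γ) (hγ1 : γ ≤ 1) :
    ∃ c > 0, ∃ n₀ : ℕ, ∀ n : ℕ, n₀ ≤ n → ∃ (m b M : ℕ) (A : Fin M → Fin 3 → Fin m)
      (s : Fin M → Bool), 0 < m ∧ 0 < b ∧ 0 < M ∧ m * b ≤ n ∧ 4 * M ≤ n ∧
      (∀ e, Function.Injective (A e)) ∧
      (∀ y : Fin m → Bool, (((Finset.univ : Finset (Fin M)).filter fun e =>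
        ∏ t, SDX.sg (y (A e t)) = SDX.sg (s e)).card : ℝ) ≤ (1 / 2 + ε) * M) ∧
      ∀ (r : ℕ) (E : Type) [AddCommGroup E] [Module ℝ E]
        (𝓐 : AffineSubspace ℝ (E × Matrix (Fin r) (Fin r) ℝ))
        (𝒳 : Finset (Fin m × Fin b → Bool)) (𝒮 : Finset (Fin m → Fin b))
        (pt : (Fin m × Fin b → Bool) → E × Matrix (Fin r) (Fin r) ℝ)
        (obj : (Fin m → Fin b) → (E × Matrix (Fin r) (Fin r) ℝ) →ᵃ[ℝ] ℝ),
        (r : ℝ) ≤ Real.exp (c * Real.sqrt n) →
        γ * 2 ^ (m * b) ≤ 𝒳.card → γ * (b : ℝ) ^ m ≤ 𝒮.card →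
        (∀ x ∈ 𝒳, pt x ∈ 𝓐 ∧ (pt x).2.PosSemidef) →
        (∀ S ∈ 𝒮, ∀ x ∈ 𝒳, obj S (pt x) = 3 / 4 + (((Finset.univ : Finset (Fin M)).filter
          fun e => ∏ t, SDX.sg (SDX.rs S x (A e t)) = SDX.sg (s e)).card : ℝ) / (4 * M)) →
        (∀ S ∈ 𝒮, ∀ p ∈ 𝓐, p.2.PosSemidef → obj S p < 1 - Real.exp (-(c * Real.sqrt n))) →
        False := by
  obtain ⟨Δ, hΔ, β, hβ, q₁, hinst⟩ := exists_instance ε hε
  obtain ⟨c, hc, n₀, hnum⟩ := numbers3 (β / 16) γ (by positivity) hγ hγ1 (max q₁ (2 * Δ))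
  refine ⟨c, hc, n₀, fun n hn => ?_⟩
  obtain ⟨q, b, p, lam, η, hq₀, hq, hb, hqb, hp, hqn, hlam, hη, hη1, h32, hsmall, hδ8, hfin⟩ :=
    hnum n hn
  obtain ⟨a, s, hsat, hexp⟩ := hinst q ((le_max_left _ _).trans hq₀)
  have hM : 0 < Δ * q := Nat.mul_pos hΔ hq
  have hq' : (0 : ℝ) < q := by exact_mod_cast hq
  have hΔ' : (0 : ℝ) < Δ := by exact_mod_cast hΔ
  refine ⟨3 * q, b, Δ * q, fun e => ve a e, s, by positivity, hb, hM, hqn, ?_,
    fun e => (ve a e).injective, ?_, ?_⟩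
  · have h1 : 2 * Δ ≤ b := (le_max_right _ _).trans hqb
    calc 4 * (Δ * q) = q * (2 * (2 * Δ)) := by ring
      _ ≤ q * (2 * b) := Nat.mul_le_mul_left _ (Nat.mul_le_mul_left _ h1)
      _ ≤ 3 * q * b := by nlinarith [Nat.zero_le (q * b)]
      _ ≤ n := hqn
  · intro y
    have h1 := hsat (y ∘ finProdFinEquiv)
    push_cast
    refine le_trans (le_of_eq ?_) h1
    congr 1
  intro r E _ _ 𝓐 𝒳 𝒮 pt obj hr h𝒳 h𝒮 hpt hval hno
  set δ : ℝ := Real.exp (-(c * Real.sqrt n)) with hδdef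
  have hδ : 0 < δ := Real.exp_pos _
  -- the pseudo-density
  set t : ℕ := ⌊β * q / 2⌋₊ with ht
  set w : ℕ := t / 4 with hw
  set d : ℕ := w / 2 with hd
  have h1 : (t : ℝ) ≤ β * q / 2 := Nat.floor_le (by positivity)
  have h2 : β * q / 2 < t + 1 := Nat.lt_floor_add_one _
  have h3 : 255 ≤ t := by
    have : (255 : ℝ) < t + 1 := by linarith
    have : 255 < t + 1 := by exact_mod_cast this
    omega
  have hβd : β / 16 * q ≤ d + 1 := by
    have h4 : t + 1 ≤ 8 * (d + 1) := by omega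
    have h5 : (t : ℝ) + 1 ≤ 8 * (d + 1) := by exact_mod_cast h4
    linarith
  have hβk : β / 16 * q ≤ ((w - 2 : ℕ) : ℝ) := by
    have h4 : t + 1 ≤ 8 * (w - 2) := by omega
    have h5 : (t : ℝ) + 1 ≤ 8 * ((w - 2 : ℕ) : ℝ) := by exact_mod_cast h4
    linarith
  have hexp2 : ∀ C : Finset (Fin (Δ * q)), C.Nonempty → C.card ≤ 2 * t →
      (C.card : ℝ) / 4 ≤ ((odd (vars a) C).card : ℝ) := fun C hC hCt => by
    rw [odd_card]
    refine hexp C hC ?_
    have : (C.card : ℝ) ≤ 2 * t := by exact_mod_cast hCt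
    linarith
  obtain ⟨D, hD1, hD2, hD3, hD4, hD5⟩ := xor_pd3 (t := t) (w := w) (d := d) (vars a) s (by omega)
    (by omega) (by omega) (vars_card a) (fun C hC hCt => by
      have h6 := hexp2 C hC hCt
      have h7 : (0 : ℝ) < C.card := by exact_mod_cast hC.card_pos
      have h8 : (0 : ℝ) < ((odd (vars a) C).card : ℝ) := by linarith
      exact Finset.card_pos.1 (by exact_mod_cast h8))
    (fun C hC hCt => by
      have h6 := hexp2 C (Finset.card_pos.1 (by omega)) hCt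
      have h7 : (t : ℝ) < C.card := by exact_mod_cast hC
      have h8 : (w : ℝ) * 4 ≤ t := by
        have : w * 4 ≤ t := Nat.div_mul_le_self _ _
        exact_mod_cast this
      have h9 : (w : ℝ) < ((odd (vars a) C).card : ℝ) := by linarith
      exact_mod_cast h9)
  -- the factorisation
  have h2pos : (0 : ℝ) < 2 ^ (3 * q) := by positivity
  set τ : ℝ := δ * γ ^ 2 / (8 * 2 ^ (3 * q)) with hτ
  have hτ0 : 0 < τ := by positivity
  have hτ1 : τ ≤ 1 / 4 := by
    rw [hτ, div_le_iff₀ (by positivity)]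
    have h10 : (1 : ℝ) ≤ 2 ^ (3 * q) := one_le_pow₀ (by norm_num)
    have h11 : δ * γ ^ 2 ≤ 1 := mul_le_one₀ (by linarith) (by positivity) (pow_le_one₀ hγ.le hγ1)
    linarith
  have hτ2 : 2 ^ (3 * q) * τ = δ * γ ^ 2 / 8 := by
    rw [hτ]
    field_simp
  obtain ⟨P, Q, hP, hQ, hP0, hQ0, hPQ⟩ := factor5 𝓐 δ 𝒳 pt hpt 𝒮
    (fun S => AffineMap.const ℝ _ (1 : ℝ) - obj S)
    (fun S x => 1 - (3 / 4 + (((Finset.univ : Finset (Fin (Δ * q))).filter
          fun e => ∏ t, SDX.sg (SDX.rs S x (ve a e t)) = SDX.sg (s e)).card : ℝ)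
            / (4 * (Δ * q : ℕ))))
    (fun S hS x hx => by
      rw [← hval S hS x hx]
      rfl)
    (fun S hS p hp hp2 => by
      have h12 := hno S hS p hp hp2
      change δ ≤ 1 - obj S p
      linarith) τ hτ0
  have hlow : ∀ A : Finset (Fin (3 * q)), A.card < w - 2 →
      |coef A (fun y => D y * ff a s δ y)| ≤ δ := by
    intro A hA
    rw [coef_low hM a s δ D A fun e => hD4 e A (by omega), abs_neg, abs_mul, abs_of_pos hδ]
    calc δ * |coef A D| ≤ δ * 1 := mul_le_mul_of_nonneg_left (hD1 A) hδ.le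
      _ = δ := mul_one δ
  refine main3 (m := 3 * q) (b := b) (p := p) (r := r + 1) (d := d) hb hp
    (Nat.succ_pos r) (by positivity) lam η 1 (2 ^ (3 * q)) γ δ τ
    (Real.sqrt (δ ^ 2 * ((1 + 1 / (b : ℝ)) ^ (3 * q) - 1) + 2 ^ (3 * q) / (b : ℝ) ^ (w - 2)))
    hlam hη hη1 h2pos hγ hγ1 hδ hτ0.le hτ1 hsmall D (ff a s δ) hD2 hD5 ?_ ?_ ?_ 𝒳 h𝒳 𝒮 h𝒮
    P hP Q hQ hP0 hQ0 ?_ ?_
  · intro y
    rw [← frac hM]
    have h13 : (0 : ℝ) ≤ (((Finset.univ : Finset (Fin (Δ * q))).filter fun e =>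
      ∏ t, sg (y (ve a e t)) = sg (s e)).card : ℝ) / (4 * (Δ * q : ℕ)) := by positivity
    linarith
  · exact Real.sqrt_le_sqrt (var_le hb δ _ hlow
      (coef_le hM a s δ hδ hδ8 D hD1))
  · have h14 := coef_low hM a s δ D ∅ fun e => hD4 e ∅ (by simp; omega)
    rw [hD3, mul_one, coef, Fintype.card_fin, div_eq_iff h2pos.ne'] at h14
    simp only [chr, Finset.prod_empty, mul_one] at h14
    rw [h14]
    linarith
  · intro S hS x hx
    rw [← frac hM]
    exact hPQ S hS x hx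
  · rw [hτ2]
    exact hfin d (w - 2) (r + 1) hβd hβk (Nat.succ_pos r) (by push_cast; linarith)

end LIFT
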