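import Pool.Agent.LIFT.Defs
import Pool.Agent.Helper59.SDX.MargDev

/-!
# LIFT: deviation of the marginals (row V10)
-/

set_option autoImplicit false

open scoped BigOperators Matrix

namespace LIFT

open SDX SDX.h59

/-- weighted count of the graphs -/
theorem h80.sum_gph3 {m b : ℕ} (F : Finset (Fin m × Fin b) → ℝ) (hF : ∀ α, 0 ≤ F α) :
    ∑ S : Fin m → Fin b, ∑ A ∈ (Finset.univ : Finset (Finset (Fin m))).erase ∅,
      (b : ℝ) ^ A.card * F (gph S A) ≤ (b : ℝ) ^ m * ∑ α, F α := by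
  have hb' : (0 : ℝ) ≤ b := Nat.cast_nonneg b
  have h1 : ∀ S : Fin m → Fin b,
      ∑ A ∈ (Finset.univ : Finset (Finset (Fin m))).erase ∅, (b : ℝ) ^ A.card * F (gph S A)
        ≤ ∑ α, if ∀ e ∈ α, S e.1 = e.2 then (b : ℝ) ^ α.card * F α else 0 := by
    intro S
    rw [← Finset.sum_filter]
    have h5 := Finset.sum_map ((Finset.univ : Finset (Finset (Fin m))).erase ∅)
      ⟨gph S, gph_injective S⟩ (fun α => (b : ℝ) ^ α.card * F α)
    have h6 : ∀ A : Finset (Fin m), (gph S A).card = A.card := fun A => by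
      unfold gph
      rw [Finset.card_map]
    have h7 : ∑ A ∈ (Finset.univ : Finset (Finset (Fin m))).erase ∅,
        (b : ℝ) ^ A.card * F (gph S A) =
        ∑ A ∈ (Finset.univ : Finset (Finset (Fin m))).erase ∅,
          (fun α => (b : ℝ) ^ α.card * F α) ((⟨gph S, gph_injective S⟩ :
            Finset (Fin m) ↪ Finset (Fin m × Fin b)) A) := by
      refine Finset.sum_congr rfl fun A _ => ?_
      show (b : ℝ) ^ A.card * F (gph S A) = (b : ℝ) ^ (gph S A).card * F (gph S A)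
      rw [h6]
    rw [h7, ← h5]
    refine Finset.sum_le_sum_of_subset_of_nonneg ?_ fun α _ _ => mul_nonneg (by positivity) (hF α)
    intro α hα
    rw [Finset.mem_map] at hα
    obtain ⟨A, hA, rfl⟩ := hα
    rw [Finset.mem_filter]
    exact ⟨Finset.mem_univ _, fun e he => mem_gph he⟩
  refine (Finset.sum_le_sum fun S _ => h1 S).trans ?_
  rw [Finset.sum_comm, Finset.mul_sum]
  refine Finset.sum_le_sum fun α _ => ?_
  have h2 : ∑ S : Fin m → Fin b, (if ∀ e ∈ α, S e.1 = e.2 then (b : ℝ) ^ α.card * F α else 0)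
      = ((Finset.univ.filter (fun S : Fin m → Fin b => ∀ e ∈ α, S e.1 = e.2)).card : ℝ) *
        (b : ℝ) ^ α.card * F α := by
    rw [← Finset.sum_filter, Finset.sum_const, nsmul_eq_mul, mul_assoc]
  rw [h2]
  exact mul_le_mul_of_nonneg_right (h97.count_sub α) (hF _)

theorem marg3 {m b : ℕ} (hb : 0 < b) (u : (Fin m × Fin b → Bool) → ℝ)
    (hu : ∀ x, |u x| ≤ 1) (G : (Fin m → Bool) → ℝ) (𝒮 : Finset (Fin m → Fin b)) :
    |∑ S ∈ 𝒮, (∑ x, u x * G (SDX.rs S x) - (∑ x, u x) * SDX.coef ∅ G)|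
      ≤ (b : ℝ) ^ m * 2 ^ (m * b) * Real.sqrt (∑ A ∈ (Finset.univ : Finset (Finset (Fin m))).erase ∅,
          SDX.coef A G ^ 2 / (b : ℝ) ^ A.card) := by
  have hb' : (0 : ℝ) < b := by exact_mod_cast hb
  have hsb : 0 < Real.sqrt b := Real.sqrt_pos.2 hb'
  have hc : Fintype.card (Fin m × Fin b) = m * b := by simp
  have e0 : ∀ S : Fin m → Fin b, ∑ x, u x * G (rs S x) - (∑ x, u x) * coef ∅ G
      = 2 ^ (m * b) * ∑ A ∈ (Finset.univ : Finset (Finset (Fin m))).erase ∅,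
          coef A G * coef (gph S A) u := by
    intro S
    have h1 := corr S u G
    rw [div_eq_iff (by positivity)] at h1
    rw [h1, Finset.sum_erase_eq_sub (Finset.mem_univ _), gph_empty]
    have h2 : coef ∅ u = (∑ x, u x) / 2 ^ (m * b) := by
      unfold coef
      rw [hc]
      simp
    rw [h2]
    field_simp
  have hpars : ∑ α, coef α u ^ 2 ≤ 1 := by
    have h1 : ∑ α, coef α u ^ 2 = (∑ x, u x ^ 2) / 2 ^ (m * b) := by
      rw [parseval u, hc]
      field_simp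
    rw [h1, div_le_one (by positivity)]
    have h2 : ∀ x, u x ^ 2 ≤ 1 := fun x => by
      rw [← sq_abs]
      exact pow_le_one₀ (abs_nonneg _) (hu x)
    refine (Finset.sum_le_sum fun x _ => h2 x).trans (le_of_eq ?_)
    rw [Finset.sum_const, Finset.card_univ, Fintype.card_fun, hc]
    simp
  set Z := (Finset.univ : Finset (Finset (Fin m))).erase ∅ with hZ
  have key : (∑ S ∈ 𝒮, ∑ A ∈ Z, coef A G * coef (gph S A) u) ^ 2 ≤
      ((b : ℝ) ^ m) ^ 2 * ∑ A ∈ Z, coef A G ^ 2 / (b : ℝ) ^ A.card := by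
    have h1 : ∑ S ∈ 𝒮, ∑ A ∈ Z, coef A G * coef (gph S A) u =
        ∑ q ∈ 𝒮 ×ˢ Z, (coef q.2 G / Real.sqrt b ^ q.2.card) *
          (Real.sqrt b ^ q.2.card * coef (gph q.1 q.2) u) := by
      rw [Finset.sum_product]
      refine Finset.sum_congr rfl fun S _ => Finset.sum_congr rfl fun A _ => ?_
      have : Real.sqrt b ^ A.card ≠ 0 := (pow_pos hsb _).ne'
      field_simp
    rw [h1]
    refine (Finset.sum_mul_sq_le_sq_mul_sq _ _ _).trans ?_
    have hsq : ∀ k : ℕ, (Real.sqrt b ^ k) ^ 2 = (b : ℝ) ^ k := fun k => by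
      rw [← pow_mul, mul_comm, pow_mul, Real.sq_sqrt hb'.le]
    have h2 : ∑ q ∈ 𝒮 ×ˢ Z, (coef q.2 G / Real.sqrt b ^ q.2.card) ^ 2 ≤
        (b : ℝ) ^ m * ∑ A ∈ Z, coef A G ^ 2 / (b : ℝ) ^ A.card := by
      rw [Finset.sum_product]
      simp only [div_pow, hsq]
      rw [Finset.sum_const, nsmul_eq_mul]
      apply mul_le_mul_of_nonneg_right
      · have h3 := Finset.card_le_univ 𝒮
        rw [Fintype.card_fun, Fintype.card_fin, Fintype.card_fin] at h3
        exact_mod_cast h3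
      · exact Finset.sum_nonneg fun A _ => by positivity
    have h3 : ∑ q ∈ 𝒮 ×ˢ Z, (Real.sqrt b ^ q.2.card * coef (gph q.1 q.2) u) ^ 2 ≤
        (b : ℝ) ^ m := by
      rw [Finset.sum_product]
      simp only [mul_pow, hsq]
      have h4 : ∑ S ∈ 𝒮, ∑ A ∈ Z, (b : ℝ) ^ A.card * coef (gph S A) u ^ 2 ≤
          ∑ S, ∑ A ∈ Z, (b : ℝ) ^ A.card * coef (gph S A) u ^ 2 :=
        Finset.sum_le_sum_of_subset_of_nonneg (Finset.subset_univ _) fun S _ _ =>
          Finset.sum_nonneg fun A _ => by positivity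
      refine h4.trans ((h80.sum_gph3 (fun α => coef α u ^ 2) fun α => sq_nonneg _).trans ?_)
      calc (b : ℝ) ^ m * ∑ α, coef α u ^ 2 ≤ (b : ℝ) ^ m * 1 :=
            mul_le_mul_of_nonneg_left hpars (by positivity)
        _ = (b : ℝ) ^ m := mul_one _
    calc _ ≤ ((b : ℝ) ^ m * ∑ A ∈ Z, coef A G ^ 2 / (b : ℝ) ^ A.card) * (b : ℝ) ^ m :=
          mul_le_mul h2 h3 (Finset.sum_nonneg fun q _ => sq_nonneg _)
            (mul_nonneg (by positivity) (Finset.sum_nonneg fun A _ => by positivity))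
      _ = _ := by ring
  rw [Finset.sum_congr rfl fun S _ => e0 S, ← Finset.mul_sum, abs_mul,
    abs_of_pos (show (0 : ℝ) < 2 ^ (m * b) by positivity)]
  have h5 := Real.abs_le_sqrt key
  rw [Real.sqrt_mul (by positivity), Real.sqrt_sq (by positivity)] at h5
  calc 2 ^ (m * b) * |∑ S ∈ 𝒮, ∑ A ∈ Z, coef A G * coef (gph S A) u| ≤
      2 ^ (m * b) * ((b : ℝ) ^ m * Real.sqrt (∑ A ∈ Z, coef A G ^ 2 / (b : ℝ) ^ A.card)) :=
        mul_le_mul_of_nonneg_left h5 (by positivity)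
    _ = _ := by ring

end LIFT
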