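import Mathlib
import Pool.Agent.Helper97.SDX.Main2
import Pool.Agent.LIFT.Step
import Pool.Agent.LIFT.Core2
import Pool.Agent.LIFT.Marg2

/-!
# LIFT: the main theorem for factorisations (two-sided error)
-/

set_option autoImplicit false
set_option linter.unusedVariables false

open scoped BigOperators Matrix

namespace LIFT

open h70

/-- a positive semidefinite matrix is at most its trace -/
theorem h70.le_trace {σ : Type} [Fintype σ] [DecidableEq σ] {A : Matrix σ σ ℝ}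
    (hA : A.PosSemidef) : (A.trace • (1 : Matrix σ σ ℝ) - A).PosSemidef := by
  have hs : (A.trace • (1 : Matrix σ σ ℝ)).IsHermitian := by
    rw [Matrix.IsHermitian, Matrix.conjTranspose_smul, Matrix.conjTranspose_one, star_trivial]
  refine psd_iff.2 ⟨hs.sub hA.isHermitian, fun v => ?_⟩
  obtain ⟨B, hB⟩ := SDX.h25.exists_sq hA
  rw [Matrix.conjTranspose_eq_transpose_of_trivial] at hB
  have h1 : v ⬝ᵥ A *ᵥ v = (B *ᵥ v) ⬝ᵥ (B *ᵥ v) := by
    rw [hB, ← Matrix.mulVec_mulVec, Matrix.dotProduct_mulVec, Matrix.vecMul_transpose]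
  have h2 : A.trace = ∑ i, ∑ j, B i j ^ 2 := by
    rw [hB, Matrix.trace, Finset.sum_comm]
    refine Finset.sum_congr rfl fun j _ => ?_
    rw [Matrix.diag_apply, Matrix.mul_apply]
    exact Finset.sum_congr rfl fun i _ => by rw [Matrix.transpose_apply, sq]
  rw [Matrix.sub_mulVec, Matrix.smul_mulVec, Matrix.one_mulVec, dotProduct_sub,
    dotProduct_smul, smul_eq_mul, h1, h2]
  have h3 : ∀ i, (B *ᵥ v) i * (B *ᵥ v) i ≤ (∑ j, B i j ^ 2) * (v ⬝ᵥ v) := by
    intro i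
    have h4 := Finset.sum_mul_sq_le_sq_mul_sq Finset.univ (fun j => B i j) v
    have h5 : v ⬝ᵥ v = ∑ j, v j ^ 2 := by
      rw [dotProduct]
      exact Finset.sum_congr rfl fun j _ => by rw [sq]
    rw [← sq, h5]
    exact h4
  have h6 : (B *ᵥ v) ⬝ᵥ (B *ᵥ v) ≤ (∑ i, ∑ j, B i j ^ 2) * (v ⬝ᵥ v) := by
    rw [dotProduct, Finset.sum_mul]
    exact Finset.sum_le_sum fun i _ => h3 i
  linarith

/-- the trace of a product of positive semidefinite matrices -/
theorem h70.trace_lower {σ : Type} [Fintype σ] [DecidableEq σ] {T Q : Matrix σ σ ℝ} {c : ℝ}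
    (hT : (T + c • (1 : Matrix σ σ ℝ)).PosSemidef) (hQ : Q.PosSemidef) :
    -(c * Q.trace) ≤ (T * Q).trace := by
  have h1 := Kh.trace_mul_nonneg hT hQ
  rw [Matrix.add_mul, Matrix.trace_add, Matrix.smul_mul, Matrix.one_mul, Matrix.trace_smul,
    smul_eq_mul] at h1
  linarith

theorem main3 {m b p r d : ℕ} (hb : 0 < b) (hp : 0 < p) (hr : 0 < r) (hm : 0 < m)
    (lam η ε κ γ δ τ v : ℝ) (hlam : 1 < lam) (hη : 0 < η) (hη1 : η < 1) (hκ : 0 < κ) (hγ : 0 < γ)
    (hγ1 : γ ≤ 1) (hδ : 0 < δ) (hτ : 0 ≤ τ) (hτ1 : τ ≤ 1 / 4)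
    (hε : η * (lam ^ 2 - 1) + 3 * p * (lam ^ 2 - 1) / (η ^ 2 * b) ≤ ε)
    (D f : (Fin m → Bool) → ℝ) (hD : ∀ y, |D y| ≤ κ)
    (hpd : ∀ g ∈ SDX.Deg (Fin m) d, 0 ≤ ∑ y, D y * g y ^ 2)
    (hf : ∀ y, f y ≤ 1)
    (hv : Real.sqrt (∑ A ∈ (Finset.univ : Finset (Finset (Fin m))).erase ∅,
          SDX.coef A (fun y => D y * f y) ^ 2 / (b : ℝ) ^ A.card) ≤ v)
    (hDf : ∑ y, D y * f y ≤ -(2 ^ m * δ))
    (𝒳 : Finset (Fin m × Fin b → Bool)) (h𝒳 : γ * 2 ^ (m * b) ≤ 𝒳.card)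
    (𝒮 : Finset (Fin m → Fin b)) (h𝒮 : γ * (b : ℝ) ^ m ≤ 𝒮.card)
    (P : (Fin m → Fin b) → Matrix (Fin r) (Fin r) ℝ) (hP : ∀ S, (P S).PosSemidef)
    (Q : (Fin m × Fin b → Bool) → Matrix (Fin r) (Fin r) ℝ) (hQ : ∀ x, (Q x).PosSemidef)
    (hP0 : ∀ S, S ∉ 𝒮 → P S = 0) (hQ0 : ∀ x, x ∉ 𝒳 → Q x = 0)
    (hM : ∀ S ∈ 𝒮, ∀ x ∈ 𝒳, |(P S * Q x).trace - f (SDX.rs S x)| ≤ τ)
    (hnum : 2 * (2 * κ * (2 * r / γ) / lam ^ (d + 1) * (1 + ε) ^ m)
      + 2 * (κ * (2 * r / γ) * (2 ^ m * r * Real.exp (-p)))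
      + κ * τ + v < δ * γ ^ 2 / 2) : False := by
  classical
  have hb' : (0 : ℝ) < b := by exact_mod_cast hb
  have hr' : (1 : ℝ) ≤ r := by exact_mod_cast hr
  have : Nonempty (Fin m → Fin b) := ⟨fun _ => ⟨0, hb⟩⟩
  set N : ℝ := (b : ℝ) ^ m with hN
  have hNpos : 0 < N := by positivity
  have hcardS : (Fintype.card (Fin m → Fin b) : ℝ) = N := by simp [hN]
  set V : ℝ := (2 : ℝ) ^ (m * b) with hV
  have hVpos : 0 < V := by positivity
  have hcardX : (Fintype.card (Fin m × Fin b → Bool) : ℝ) = V := by simp [hV]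
  -- bounds of the entries
  have hMle : ∀ S x, (P S * Q x).trace ≤ 5 / 4 := by
    intro S x
    by_cases hS : S ∈ 𝒮
    · by_cases hx : x ∈ 𝒳
      · have h1 := (abs_le.1 (hM S hS x hx)).2
        have h2 := hf (SDX.rs S x)
        linarith
      · rw [hQ0 x hx, Matrix.mul_zero, Matrix.trace_zero]
        norm_num
    · rw [hP0 S hS, Matrix.zero_mul, Matrix.trace_zero]
      norm_num
  have hQtr0 : ∀ x, 0 ≤ (Q x).trace := fun x => (hQ x).trace_nonneg
  -- scaling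
  obtain ⟨ξ, hξ, -, hξ'⟩ := SDX.h97.exists_small (fun x => (Q x).trace) hQtr0 (3 / 4)
    (by norm_num)
  obtain ⟨B, C, hBC, hCB, hBB, hquad⟩ := SDX.scale P hP ξ hξ
  set P' : (Fin m → Fin b) → Matrix (Fin r) (Fin r) ℝ := fun S => Cᵀ * P S * C with hP'
  set Q' : (Fin m × Fin b → Bool) → Matrix (Fin r) (Fin r) ℝ := fun x => B * Q x * Bᵀ with hQ'
  have hP'psd : ∀ S, (P' S).PosSemidef := by
    intro S
    have := (hP S).conjTranspose_mul_mul_same C
    rwa [Matrix.conjTranspose_eq_transpose_of_trivial] at this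
  have hQ'psd : ∀ x, (Q' x).PosSemidef := by
    intro x
    have := (hQ x).mul_mul_conjTranspose_same B
    rwa [Matrix.conjTranspose_eq_transpose_of_trivial] at this
  have hPQ' : ∀ S x, (P' S * Q' x).trace = (P S * Q x).trace := fun S x =>
    SDX.h97.trace_conj (P S) (Q x) B C hCB
  have hQ'tr : ∀ x, (Q' x).trace ≤ 2 := by
    intro x
    rw [hQ', SDX.h97.trace_scaled P B (Q x) _ _ hBB, hcardS]
    have h1 : ∑ S, (P S * Q x).trace ≤ N * (5 / 4) := by
      calc ∑ S, (P S * Q x).trace ≤ ∑ _S : Fin m → Fin b, (5 / 4 : ℝ) :=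
            Finset.sum_le_sum fun S _ => hMle S x
        _ = N * (5 / 4) := by rw [Finset.sum_const, nsmul_eq_mul, Finset.card_univ, hcardS]
    have h2 : 1 / N * ∑ S, (P S * Q x).trace ≤ 5 / 4 := by
      calc 1 / N * ∑ S, (P S * Q x).trace ≤ 1 / N * (N * (5 / 4)) := by gcongr
        _ = 5 / 4 := by field_simp
    have h3 := hξ' x
    linarith
  have hQ'tr0 : ∀ x, 0 ≤ (Q' x).trace := fun x => (hQ'psd x).trace_nonneg
  have hP'tr : ∑ S, (P' S).trace ≤ N * r := by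
    have h1 : ∀ j : Fin r, ∑ S, P' S j j ≤ N := by
      intro j
      have := hquad (Pi.single j 1)
      rw [hcardS] at this
      simpa [Matrix.mulVec_single, single_dotProduct] using this
    calc ∑ S, (P' S).trace = ∑ j, ∑ S, P' S j j := by rw [Finset.sum_comm]; rfl
      _ ≤ ∑ _j : Fin r, N := Finset.sum_le_sum fun j _ => h1 j
      _ = N * r := by simp [mul_comm]
  have hP'tr0 : ∀ S, 0 ≤ (P' S).trace := fun S => (hP'psd S).trace_nonneg
  -- good sets
  set Λ : ℝ := 2 * r / γ with hΛ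
  have hΛ0 : 0 < Λ := by positivity
  set 𝒢 : Finset (Fin m → Fin b) := 𝒮.filter (fun S => (P' S).trace ≤ Λ) with h𝒢
  have h𝒢card : γ * N / 2 ≤ 𝒢.card := by
    have h3 : ((𝒮.filter (fun S => ¬ (P' S).trace ≤ Λ)).card : ℝ) * Λ
        ≤ N * r := by
      calc _ = ∑ _S ∈ 𝒮.filter (fun S => ¬ (P' S).trace ≤ Λ), Λ := by
            rw [Finset.sum_const, nsmul_eq_mul]
        _ ≤ ∑ S ∈ 𝒮.filter (fun S => ¬ (P' S).trace ≤ Λ), (P' S).trace :=
            Finset.sum_le_sum fun S hS => by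
              have := (Finset.mem_filter.1 hS).2
              linarith
        _ ≤ ∑ S, (P' S).trace := Finset.sum_le_univ_sum_of_nonneg hP'tr0
        _ ≤ _ := hP'tr
    have h4 : ((𝒮.filter (fun S => ¬ (P' S).trace ≤ Λ)).card : ℝ) ≤ γ * N / 2 := by
      have e1 : ((𝒮.filter (fun S => ¬ (P' S).trace ≤ Λ)).card : ℝ) * 2
          * r ≤ γ * N * r := by
        have e2 := mul_le_mul_of_nonneg_left h3 hγ.le
        have e3 : γ * (((𝒮.filter (fun S => ¬ (P' S).trace ≤ Λ)).card : ℝ)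
            * Λ)
            = ((𝒮.filter (fun S => ¬ (P' S).trace ≤ Λ)).card : ℝ) * 2 * r := by
          rw [hΛ]
          field_simp
        linarith
      have := le_of_mul_le_mul_right e1 (by linarith : (0 : ℝ) < r)
      linarith
    have h5 := Finset.card_filter_add_card_filter_not (s := 𝒮)
      (fun S => (P' S).trace ≤ Λ)
    have h6 : (𝒢.card : ℝ)
        + ((𝒮.filter (fun S => ¬ (P' S).trace ≤ Λ)).card : ℝ) = (𝒮.card : ℝ) := by
      rw [← h5]
      push_cast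
      rfl
    linarith
  have h𝒢sub : ∀ S ∈ 𝒢, S ∈ 𝒮 := fun S hS => (Finset.mem_filter.1 hS).1
  set P₂ : (Fin m → Fin b) → Matrix (Fin r) (Fin r) ℝ := fun S => if S ∈ 𝒢 then P' S else 0
    with hP₂
  have hP₂psd : ∀ S, (P₂ S).PosSemidef := by
    intro S
    simp only [hP₂]
    split_ifs
    · exact hP'psd S
    · exact Matrix.PosSemidef.zero
  have hone : (1 : Matrix (Fin r) (Fin r) ℝ).PosSemidef := Matrix.PosSemidef.one
  have hP₂Λ : ∀ S, (Λ • (1 : Matrix (Fin r) (Fin r) ℝ) - P₂ S).PosSemidef := by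
    intro S
    simp only [hP₂]
    split_ifs with hS
    · have h1 := (Finset.mem_filter.1 hS).2
      have h2 := h70.le_trace (hP'psd S)
      have h3 : Λ • (1 : Matrix (Fin r) (Fin r) ℝ) - P' S
          = (Λ - (P' S).trace) • (1 : Matrix (Fin r) (Fin r) ℝ)
            + ((P' S).trace • (1 : Matrix (Fin r) (Fin r) ℝ) - P' S) := by
        rw [sub_smul]
        abel
      rw [h3]
      refine (hone.smul ?_).add h2
      linarith
    · rw [sub_zero]
      exact hone.smul hΛ0.le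
  -- the core
  obtain ⟨rho, hrho0, hrho, hgood⟩ := core2 (d := d) hb hp lam η ε κ Λ hlam hη hη1 hκ hΛ0 hε D hD
    hpd P₂ hP₂psd hP₂Λ
  set A : ℝ := 2 * κ * Λ / lam ^ (d + 1) * (1 + ε) ^ m with hA
  set T : (Fin m × Fin b → Bool) → Matrix (Fin r) (Fin r) ℝ :=
    fun x => ∑ S, D (SDX.rs S x) • P₂ S with hT
  have hTQ : ∀ x, (T x * Q' x).trace = ∑ S ∈ 𝒢, D (SDX.rs S x) * (P S * Q x).trace := by
    intro x
    simp only [hT]
    rw [Finset.sum_mul, Matrix.trace_sum]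
    have h1 : ∀ S, ((D (SDX.rs S x) • P₂ S) * Q' x).trace
        = if S ∈ 𝒢 then D (SDX.rs S x) * (P S * Q x).trace else 0 := by
      intro S
      rw [Matrix.smul_mul, Matrix.trace_smul, smul_eq_mul]
      simp only [hP₂]
      split_ifs with hS
      · rw [hPQ']
      · rw [Matrix.zero_mul, Matrix.trace_zero, mul_zero]
    rw [Finset.sum_congr rfl (fun S _ => h1 S), Finset.sum_ite_mem, Finset.univ_inter]
  have hA0 : 0 ≤ A := by
    have h1 : 0 < lam := by linarith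
    have h2 : 0 ≤ ε := by
      have h3 : 0 < lam ^ 2 - 1 := by nlinarith
      refine le_trans ?_ hε
      positivity
    positivity
  have h𝒢N : (𝒢.card : ℝ) ≤ N := by
    rw [← hcardS]
    exact_mod_cast Finset.card_le_univ 𝒢
  -- lower bound
  have hlow1 : ∀ x, -(2 * (N * (A + rho x))) ≤ (T x * Q' x).trace := by
    intro x
    have h1 := h70.trace_lower (hgood x) (hQ'psd x)
    have h2 : N * (A + rho x) * (Q' x).trace ≤ N * (A + rho x) * 2 :=
      mul_le_mul_of_nonneg_left (hQ'tr x) (mul_nonneg hNpos.le (add_nonneg hA0 (hrho0 x)))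
    simp only [hT]
    linarith
  have hlow : -(V * (2 * (N * A))) - 2 * N * ∑ x, rho x ≤ ∑ x, (T x * Q' x).trace := by
    have h2 := Finset.sum_le_sum (s := Finset.univ) fun x _ => hlow1 x
    have h3 : ∑ x, -(2 * (N * (A + rho x))) = -(V * (2 * (N * A))) - 2 * N * ∑ x, rho x := by
      have h4 : ∀ x, -(2 * (N * (A + rho x))) = -(2 * (N * A)) - 2 * N * rho x := fun x => by ring
      rw [Finset.sum_congr rfl (fun x _ => h4 x), Finset.sum_sub_distrib, Finset.sum_const,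
        nsmul_eq_mul, Finset.card_univ, hcardX, Finset.mul_sum]
      ring
    rw [h3] at h2
    exact h2
  -- upper bound
  have hup1 : ∀ x, (T x * Q' x).trace
      ≤ ∑ S ∈ 𝒢, ((if x ∈ 𝒳 then (1 : ℝ) else 0) * (D (SDX.rs S x) * f (SDX.rs S x)) + κ * τ) := by
    intro x
    rw [hTQ]
    refine Finset.sum_le_sum fun S hS => ?_
    split_ifs with hx
    · have h1 := hM S (h𝒢sub S hS) x hx
      have h2 : D (SDX.rs S x) * ((P S * Q x).trace - f (SDX.rs S x)) ≤ κ * τ := by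
        refine (le_abs_self _).trans ?_
        rw [abs_mul]
        exact mul_le_mul (hD _) h1 (abs_nonneg _) hκ.le
      linarith
    · rw [hQ0 x hx, Matrix.mul_zero, Matrix.trace_zero, mul_zero, zero_mul, zero_add]
      positivity
  set u : (Fin m × Fin b → Bool) → ℝ := fun x => if x ∈ 𝒳 then 1 else 0 with hu
  have hu1 : ∀ x, |u x| ≤ 1 := by
    intro x
    simp only [hu]
    split_ifs <;> simp
  have husum : ∑ x, u x = 𝒳.card := by
    simp only [hu]
    rw [Finset.sum_ite_mem, Finset.univ_inter, Finset.sum_const, nsmul_eq_mul, mul_one]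
  have hmarg := marg3 hb u hu1 (fun y => D y * f y) 𝒢
  rw [husum, Finset.sum_sub_distrib, Finset.sum_const, nsmul_eq_mul, ← hN, ← hV] at hmarg
  have hcoef : SDX.coef ∅ (fun y => D y * f y) ≤ -δ := by
    unfold SDX.coef
    rw [div_le_iff₀ (by positivity), Fintype.card_fin]
    simp only [SDX.h71.chr_empty, mul_one]
    linarith
  set c₁ := SDX.coef ∅ (fun y => D y * f y) with hc₁
  have hmarg' := hmarg.trans (mul_le_mul_of_nonneg_left hv (by positivity : 0 ≤ N * V))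
  have hup : ∑ x, (T x * Q' x).trace
      ≤ ∑ S ∈ 𝒢, ∑ x, u x * (D (SDX.rs S x) * f (SDX.rs S x)) + V * (N * (κ * τ)) := by
    refine (Finset.sum_le_sum fun x _ => hup1 x).trans ?_
    simp only [Finset.sum_add_distrib]
    rw [Finset.sum_comm]
    refine add_le_add (le_refl _) ?_
    rw [Finset.sum_const, Finset.sum_const, nsmul_eq_mul, nsmul_eq_mul, Finset.card_univ, hcardX]
    have : 0 ≤ κ * τ := by positivity
    gcongr
  have h7 := (abs_le.1 hmarg').2
  have h𝒳0 : (0 : ℝ) ≤ 𝒳.card := Nat.cast_nonneg _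
  have h8 : (𝒢.card : ℝ) * (𝒳.card * c₁) ≤ -(γ * N / 2 * (γ * V * δ)) := by
    have e1 : (𝒳.card : ℝ) * c₁ ≤ -(γ * V * δ) := by
      have e2 : (𝒳.card : ℝ) * c₁ ≤ 𝒳.card * (-δ) := mul_le_mul_of_nonneg_left hcoef h𝒳0
      have e3 : γ * V * δ ≤ 𝒳.card * δ := mul_le_mul_of_nonneg_right h𝒳 hδ.le
      linarith
    have e4 : (𝒢.card : ℝ) * (𝒳.card * c₁) ≤ 𝒢.card * (-(γ * V * δ)) :=
      mul_le_mul_of_nonneg_left e1 (Nat.cast_nonneg _)
    have e5 : γ * N / 2 * (γ * V * δ) ≤ 𝒢.card * (γ * V * δ) :=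
      mul_le_mul_of_nonneg_right h𝒢card (by positivity)
    linarith
  have hrho' : 2 * N * ∑ x, rho x
      ≤ V * (N * (2 * (κ * Λ * (2 ^ m * r * Real.exp (-p))))) := by
    calc 2 * N * ∑ x, rho x
        ≤ 2 * N * (κ * Λ * (2 ^ m * r * Real.exp (-p)) * 2 ^ (m * b)) :=
          mul_le_mul_of_nonneg_left hrho (by positivity)
      _ = _ := by rw [hV]; ring
  have hfin : V * N * (δ * γ ^ 2 / 2) ≤ V * N * (2 * A
      + 2 * (κ * Λ * (2 ^ m * r * Real.exp (-p))) + κ * τ + v) := by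
    have e1 : γ * N / 2 * (γ * V * δ) = V * N * (δ * γ ^ 2 / 2) := by ring
    rw [e1] at h8
    have e2 : V * N * (2 * A
      + 2 * (κ * Λ * (2 ^ m * r * Real.exp (-p))) + κ * τ + v)
      = V * (2 * (N * A)) + V * (N * (2 * (κ * Λ * (2 ^ m * r * Real.exp (-p)))))
        + V * (N * (κ * τ)) + N * V * v := by ring
    rw [e2]
    linarith
  have hVN : 0 < V * N := by positivity
  have := le_of_mul_le_mul_left hfin hVN
  linarith

end LIFT
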