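import Mathlib
import Pool.Agent.LIFT.Main2
import Pool.Agent.LIFT.Marg2
import Pool.Agent.LIFT.Core4
import Pool.Agent.LIFT.Rect4

/-!
# LIFT, version 4: the main theorem for factorisations
-/

set_option autoImplicit false
set_option linter.unusedVariables false

open scoped BigOperators Matrix

namespace LIFT

open h70

theorem main4 {m b r d : ℕ} (hb : 0 < b) (hr : 0 < r)
    (lam κ γ δ τ v : ℝ) (hlam : 1 < lam) (hlb : lam ^ 8 ≤ 4 * b) (hκ : 0 < κ) (hγ : 0 < γ)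
    (hγ1 : γ ≤ 1) (hδ : 0 < δ) (hτ : 0 ≤ τ) (hτ1 : τ ≤ 1 / 4)
    (D g : (Fin m → Bool) → ℝ) (hD : ∀ y, |D y| ≤ κ)
    (hpd : ∀ g ∈ SDX.Deg (Fin m) d, 0 ≤ ∑ y, D y * g y ^ 2) (hD1 : ∑ y, D y = 2 ^ m)
    (hg : ∀ y, g y ≤ 1) (hDg : ∑ y, D y * g y = 0)
    (hv : Real.sqrt (∑ A ∈ (Finset.univ : Finset (Finset (Fin m))).erase ∅,
          SDX.coef A (fun y => D y * g y) ^ 2 / (b : ℝ) ^ A.card) ≤ v)
    (𝒳 : Finset (Fin m × Fin b → Bool)) (𝒮 : Finset (Fin m → Fin b))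
    (hrect : γ * ((b : ℝ) ^ m * 2 ^ (m * b)) ≤ ∑ S ∈ 𝒮, ∑ x ∈ 𝒳, D (SDX.rs S x))
    (P : (Fin m → Fin b) → Matrix (Fin r) (Fin r) ℝ) (hP : ∀ S, (P S).PosSemidef)
    (Q : (Fin m × Fin b → Bool) → Matrix (Fin r) (Fin r) ℝ) (hQ : ∀ x, (Q x).PosSemidef)
    (hP0 : ∀ S, S ∉ 𝒮 → P S = 0) (hQ0 : ∀ x, x ∉ 𝒳 → Q x = 0)
    (hM : ∀ S ∈ 𝒮, ∀ x ∈ 𝒳, |(P S * Q x).trace - (g (SDX.rs S x) - δ)| ≤ τ)
    (hnum : 2 * (2 * κ * (4 * r / γ) / lam ^ (d + 1) * Real.sqrt (24 ^ m * r))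
      + δ * (2 * κ / lam ^ (d + 1) * Real.sqrt (24 ^ m)) + κ * τ + v < δ * γ / 2) : False := by
  classical
  have hb' : (0 : ℝ) < b := by exact_mod_cast hb
  have hr' : (1 : ℝ) ≤ r := by exact_mod_cast hr
  have : Nonempty (Fin m → Fin b) := ⟨fun _ => ⟨0, hb⟩⟩
  set N : ℝ := (b : ℝ) ^ m with hN
  have hNpos : 0 < N := by positivity
  have hcardS : (Fintype.card (Fin m → Fin b) : ℝ) = N := by simp [hN]
  set V : ℝ := (2 : ℝ) ^ (m * b) with hV
  have hVpos : 0 < V := by positivity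
  have hcardX : (Fintype.card (Fin m × Fin b → Bool) : ℝ) = V := by simp [hV]
  -- bounds of the entries
  have hMle : ∀ S x, (P S * Q x).trace ≤ 5 / 4 := by
    intro S x
    by_cases hS : S ∈ 𝒮
    · by_cases hx : x ∈ 𝒳
      · have h1 := (abs_le.1 (hM S hS x hx)).2
        have h2 := hg (SDX.rs S x)
        linarith
      · rw [hQ0 x hx, Matrix.mul_zero, Matrix.trace_zero]
        norm_num
    · rw [hP0 S hS, Matrix.zero_mul, Matrix.trace_zero]
      norm_num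
  have hQtr0 : ∀ x, 0 ≤ (Q x).trace := fun x => (hQ x).trace_nonneg
  -- scaling
  obtain ⟨ξ, hξ, -, hξ'⟩ := SDX.h97.exists_small (fun x => (Q x).trace) hQtr0 (3 / 4)
    (by norm_num)
  obtain ⟨B, C, hBC, hCB, hBB, hquad⟩ := SDX.scale P hP ξ hξ
  set P' : (Fin m → Fin b) → Matrix (Fin r) (Fin r) ℝ := fun S => Cᵀ * P S * C with hP'
  set Q' : (Fin m × Fin b → Bool) → Matrix (Fin r) (Fin r) ℝ := fun x => B * Q x * Bᵀ with hQ'
  have hP'psd : ∀ S, (P' S).PosSemidef := by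
    intro S
    have := (hP S).conjTranspose_mul_mul_same C
    rwa [Matrix.conjTranspose_eq_transpose_of_trivial] at this
  have hQ'psd : ∀ x, (Q' x).PosSemidef := by
    intro x
    have := (hQ x).mul_mul_conjTranspose_same B
    rwa [Matrix.conjTranspose_eq_transpose_of_trivial] at this
  have hPQ' : ∀ S x, (P' S * Q' x).trace = (P S * Q x).trace := fun S x =>
    SDX.h97.trace_conj (P S) (Q x) B C hCB
  have hQ'tr : ∀ x, (Q' x).trace ≤ 2 := by
    intro x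
    rw [hQ', SDX.h97.trace_scaled P B (Q x) _ _ hBB, hcardS]
    have h1 : ∑ S, (P S * Q x).trace ≤ N * (5 / 4) := by
      calc ∑ S, (P S * Q x).trace ≤ ∑ _S : Fin m → Fin b, (5 / 4 : ℝ) :=
            Finset.sum_le_sum fun S _ => hMle S x
        _ = N * (5 / 4) := by rw [Finset.sum_const, nsmul_eq_mul, Finset.card_univ, hcardS]
    have h2 : 1 / N * ∑ S, (P S * Q x).trace ≤ 5 / 4 := by
      calc 1 / N * ∑ S, (P S * Q x).trace ≤ 1 / N * (N * (5 / 4)) := by gcongr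
        _ = 5 / 4 := by field_simp
    have h3 := hξ' x
    linarith
  have hQ'tr0 : ∀ x, 0 ≤ (Q' x).trace := fun x => (hQ'psd x).trace_nonneg
  have hP'tr : ∑ S, (P' S).trace ≤ N * r := by
    have h1 : ∀ j : Fin r, ∑ S, P' S j j ≤ N := by
      intro j
      have := hquad (Pi.single j 1)
      rw [hcardS] at this
      simpa [Matrix.mulVec_single, single_dotProduct] using this
    calc ∑ S, (P' S).trace = ∑ j, ∑ S, P' S j j := by rw [Finset.sum_comm]; rfl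
      _ ≤ ∑ _j : Fin r, N := Finset.sum_le_sum fun j _ => h1 j
      _ = N * r := by simp [mul_comm]
  have hP'tr0 : ∀ S, 0 ≤ (P' S).trace := fun S => (hP'psd S).trace_nonneg
  -- good sets
  set Λ : ℝ := 4 * r / γ with hΛ
  have hΛ0 : 0 < Λ := by positivity
  set 𝒢 : Finset (Fin m → Fin b) := 𝒮.filter (fun S => (P' S).trace ≤ Λ) with h𝒢
  set ℬ : Finset (Fin m → Fin b) := 𝒮.filter (fun S => ¬ (P' S).trace ≤ Λ) with hℬ
  have hℬcard : (ℬ.card : ℝ) ≤ γ * N / 4 := by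
    have h3 : (ℬ.card : ℝ) * Λ ≤ N * r := by
      calc _ = ∑ _S ∈ ℬ, Λ := by
            rw [Finset.sum_const, nsmul_eq_mul]
        _ ≤ ∑ S ∈ ℬ, (P' S).trace :=
            Finset.sum_le_sum fun S hS => by
              have := (Finset.mem_filter.1 hS).2
              linarith
        _ ≤ ∑ S, (P' S).trace := Finset.sum_le_univ_sum_of_nonneg hP'tr0
        _ ≤ _ := hP'tr
    have e1 : (ℬ.card : ℝ) * 4 * r ≤ γ * N * r := by
      have e2 := mul_le_mul_of_nonneg_left h3 hγ.le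
      have e3 : γ * ((ℬ.card : ℝ) * Λ) = (ℬ.card : ℝ) * 4 * r := by
        rw [hΛ]
        field_simp
      linarith
    have := le_of_mul_le_mul_right e1 (by linarith : (0 : ℝ) < r)
    linarith
  have h𝒢sub : ∀ S ∈ 𝒢, S ∈ 𝒮 := fun S hS => (Finset.mem_filter.1 hS).1
  set P₂ : (Fin m → Fin b) → Matrix (Fin r) (Fin r) ℝ := fun S => if S ∈ 𝒢 then P' S else 0
    with hP₂
  have hP₂psd : ∀ S, (P₂ S).PosSemidef := by
    intro S
    simp only [hP₂]
    split_ifs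
    · exact hP'psd S
    · exact Matrix.PosSemidef.zero
  have hone : (1 : Matrix (Fin r) (Fin r) ℝ).PosSemidef := Matrix.PosSemidef.one
  have hP₂Λ : ∀ S, (Λ • (1 : Matrix (Fin r) (Fin r) ℝ) - P₂ S).PosSemidef := by
    intro S
    simp only [hP₂]
    split_ifs with hS
    · have h1 := (Finset.mem_filter.1 hS).2
      have h2 := h70.le_trace (hP'psd S)
      have h3 : Λ • (1 : Matrix (Fin r) (Fin r) ℝ) - P' S
          = (Λ - (P' S).trace) • (1 : Matrix (Fin r) (Fin r) ℝ)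
            + ((P' S).trace • (1 : Matrix (Fin r) (Fin r) ℝ) - P' S) := by
        rw [sub_smul]
        abel
      rw [h3]
      refine (hone.smul ?_).add h2
      linarith
    · rw [sub_zero]
      exact hone.smul hΛ0.le
  -- the core
  have hcore := core4 (d := d) hb lam κ Λ hlam hlb hκ hΛ0 D hD hpd P₂ hP₂psd hP₂Λ Q' hQ'psd 2 hQ'tr
  rw [← hN, ← hV] at hcore
  set A : ℝ := 2 * κ * Λ / lam ^ (d + 1) * Real.sqrt (24 ^ m * r) with hA
  have hTQ : ∀ x, ∑ S, D (SDX.rs S x) * (P₂ S * Q' x).trace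
      = ∑ S ∈ 𝒢, D (SDX.rs S x) * (P S * Q x).trace := by
    intro x
    have h1 : ∀ S, D (SDX.rs S x) * (P₂ S * Q' x).trace
        = if S ∈ 𝒢 then D (SDX.rs S x) * (P S * Q x).trace else 0 := by
      intro S
      simp only [hP₂]
      split_ifs with hS
      · rw [hPQ']
      · rw [Matrix.zero_mul, Matrix.trace_zero, mul_zero]
    rw [Finset.sum_congr rfl (fun S _ => h1 S), Finset.sum_ite_mem, Finset.univ_inter]
  simp only [hTQ] at hcore
  have h𝒢N : (𝒢.card : ℝ) ≤ N := by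
    rw [← hcardS]
    exact_mod_cast Finset.card_le_univ 𝒢
  -- the marginals
  set u : (Fin m × Fin b → Bool) → ℝ := fun x => if x ∈ 𝒳 then 1 else 0 with hu
  have hu1 : ∀ x, |u x| ≤ 1 := by
    intro x
    simp only [hu]
    split_ifs <;> simp
  have hcoef : SDX.coef ∅ (fun y => D y * g y) = 0 := by
    unfold SDX.coef
    simp only [SDX.h71.chr_empty, mul_one]
    rw [hDg, zero_div]
  have hmarg := marg3 hb u hu1 (fun y => D y * g y) 𝒢
  rw [hcoef] at hmarg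
  simp only [mul_zero, sub_zero] at hmarg
  rw [← hN, ← hV] at hmarg
  have hmarg' := (abs_le.1 (hmarg.trans (mul_le_mul_of_nonneg_left hv
    (by positivity : 0 ≤ N * V)))).2
  -- upper bound
  have hup1 : ∀ x, ∑ S ∈ 𝒢, D (SDX.rs S x) * (P S * Q x).trace
      ≤ ∑ S ∈ 𝒢, (u x * (D (SDX.rs S x) * g (SDX.rs S x)) - δ * (u x * D (SDX.rs S x))
        + κ * τ) := by
    intro x
    refine Finset.sum_le_sum fun S hS => ?_
    simp only [hu]
    split_ifs with hx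
    · have h1 := hM S (h𝒢sub S hS) x hx
      have h2 : D (SDX.rs S x) * ((P S * Q x).trace - (g (SDX.rs S x) - δ)) ≤ κ * τ := by
        refine (le_abs_self _).trans ?_
        rw [abs_mul]
        exact mul_le_mul (hD _) h1 (abs_nonneg _) hκ.le
      linarith
    · rw [hQ0 x hx, Matrix.mul_zero, Matrix.trace_zero, mul_zero, zero_mul, zero_mul, mul_zero,
        sub_zero, zero_add]
      positivity
  have hup : ∑ x, ∑ S ∈ 𝒢, D (SDX.rs S x) * (P S * Q x).trace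
      ≤ ∑ S ∈ 𝒢, ∑ x, u x * (D (SDX.rs S x) * g (SDX.rs S x))
        - δ * ∑ S ∈ 𝒢, ∑ x ∈ 𝒳, D (SDX.rs S x) + V * (N * (κ * τ)) := by
    refine (Finset.sum_le_sum fun x _ => hup1 x).trans ?_
    simp only [Finset.sum_add_distrib, Finset.sum_sub_distrib]
    have e1 : ∑ x, ∑ S ∈ 𝒢, u x * (D (SDX.rs S x) * g (SDX.rs S x))
        = ∑ S ∈ 𝒢, ∑ x, u x * (D (SDX.rs S x) * g (SDX.rs S x)) := Finset.sum_comm
    have e2 : ∑ x, ∑ S ∈ 𝒢, δ * (u x * D (SDX.rs S x))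
        = δ * ∑ S ∈ 𝒢, ∑ x ∈ 𝒳, D (SDX.rs S x) := by
      rw [Finset.sum_comm, Finset.mul_sum]
      refine Finset.sum_congr rfl fun S _ => ?_
      rw [← Finset.mul_sum]
      congr 1
      simp only [hu, ite_mul, one_mul, zero_mul]
      rw [Finset.sum_ite_mem, Finset.univ_inter]
    rw [e1, e2]
    refine add_le_add (le_refl _) ?_
    rw [Finset.sum_const, Finset.sum_const, nsmul_eq_mul, nsmul_eq_mul, Finset.card_univ, hcardX]
    have : 0 ≤ κ * τ := by positivity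
    gcongr
  -- the rectangle with the removed sets
  set θ₁ : ℝ := 2 * κ / lam ^ (d + 1) * Real.sqrt (24 ^ m) with hθ₁
  have hrow : ∀ S : Fin m → Fin b, ∑ x, D (SDX.rs S x) = V := by
    intro S
    have h1 := SDX.sum_rs S D
    rw [hD1] at h1
    have h2 : (0 : ℝ) < 2 ^ m := by positivity
    have h3 : (2 : ℝ) ^ m * ∑ x, D (SDX.rs S x) = 2 ^ m * V := by
      rw [h1, hV, mul_comm]
    exact mul_left_cancel₀ h2.ne' h3
  have hrem : ∑ S ∈ ℬ, ∑ x ∈ 𝒳, D (SDX.rs S x) ≤ γ * N / 4 * V + N * V * θ₁ := by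
    have h1 := rect4 (d := d) hb lam κ hlam hlb hκ D hD hpd (fun x => if x ∈ 𝒳 then 0 else 1)
      (fun x => by split_ifs <;> norm_num) (fun S => if S ∈ ℬ then 1 else 0)
      (fun S => by split_ifs <;> norm_num)
    rw [← hN, ← hV, ← hθ₁] at h1
    have h2 : ∑ S, ∑ x, (if S ∈ ℬ then (1 : ℝ) else 0) * ((if x ∈ 𝒳 then 0 else 1)
        * D (SDX.rs S x)) = ℬ.card * V - ∑ S ∈ ℬ, ∑ x ∈ 𝒳, D (SDX.rs S x) := by
      have h3 : ∀ S, ∑ x, (if S ∈ ℬ then (1 : ℝ) else 0) * ((if x ∈ 𝒳 then 0 else 1)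
          * D (SDX.rs S x)) = if S ∈ ℬ then V - ∑ x ∈ 𝒳, D (SDX.rs S x) else 0 := by
        intro S
        split_ifs with hS
        · have h4 : ∀ x, (1 : ℝ) * ((if x ∈ 𝒳 then 0 else 1) * D (SDX.rs S x))
              = D (SDX.rs S x) - (if x ∈ 𝒳 then D (SDX.rs S x) else 0) := by
            intro x
            split_ifs <;> ring
          rw [Finset.sum_congr rfl (fun x _ => h4 x), Finset.sum_sub_distrib, hrow,
            Finset.sum_ite_mem, Finset.univ_inter]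
        · simp
      rw [Finset.sum_congr rfl (fun S _ => h3 S), Finset.sum_ite_mem, Finset.univ_inter,
        Finset.sum_sub_distrib, Finset.sum_const, nsmul_eq_mul]
    rw [h2] at h1
    have h5 : (ℬ.card : ℝ) * V ≤ γ * N / 4 * V := mul_le_mul_of_nonneg_right hℬcard hVpos.le
    linarith
  have hsplit : ∑ S ∈ 𝒢, ∑ x ∈ 𝒳, D (SDX.rs S x) + ∑ S ∈ ℬ, ∑ x ∈ 𝒳, D (SDX.rs S x)
      = ∑ S ∈ 𝒮, ∑ x ∈ 𝒳, D (SDX.rs S x) :=
    Finset.sum_filter_add_sum_filter_not 𝒮 (fun S => (P' S).trace ≤ Λ) _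
  have hmass : 3 / 4 * γ * (N * V) - N * V * θ₁ ≤ ∑ S ∈ 𝒢, ∑ x ∈ 𝒳, D (SDX.rs S x) := by
    linarith
  have hmass' := mul_le_mul_of_nonneg_left hmass hδ.le
  have hVN : 0 < N * V := by positivity
  have hfin : N * V * (δ * γ / 2) ≤ N * V * (2 * A + δ * θ₁ + κ * τ + v) := by
    have e1 : δ * (3 / 4 * γ * (N * V) - N * V * θ₁)
        = N * V * (3 / 4 * (δ * γ)) - N * V * (δ * θ₁) := by ring
    rw [e1] at hmass'
    have e2 : N * V * (2 * A + δ * θ₁ + κ * τ + v)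
        = N * V * (2 * A) + N * V * (δ * θ₁) + V * (N * (κ * τ)) + N * V * v := by ring
    have e3 : 0 ≤ N * V * (δ * γ) := by positivity
    have e4 : N * V * (3 / 4 * (δ * γ)) = N * V * (δ * γ / 2) + 1 / 4 * (N * V * (δ * γ)) := by
      ring
    have e5 : N * V * (2 * (2 * κ * Λ / lam ^ (d + 1)) * Real.sqrt (24 ^ m * r))
        = N * V * (2 * A) := by
      rw [hA]
      ring
    rw [e2]
    rw [e5] at hcore
    linarith
  have := le_of_mul_le_mul_left hfin hVN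
  linarith

end LIFT
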