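import Pool.Agent.LIFT.Khin

/-!
# LIFT, row U1: negative part and comparison of Hilbert-Schmidt norms
-/

set_option autoImplicit false

open scoped BigOperators Matrix

namespace LIFT

open Matrix

variable {ι : Type} [Fintype ι] [DecidableEq ι]

theorem neg4 (Z : Matrix ι ι ℝ) (hZ : Z.IsSymm) :
    ∃ N : Matrix ι ι ℝ, N.PosSemidef ∧ (Z + N).PosSemidef ∧ (N * N).trace ≤ (Z * Z).trace := by
  have hZh : Z.IsHermitian := by
    rw [IsHermitian, conjTranspose_eq_transpose_of_trivial]
    exact hZ
  obtain ⟨U, a, hU1, hU2, hU⟩ := Kh.exists_diag hZh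
  have h1 := hU 1
  simp only [pow_one] at h1
  have hpos : ∀ c : ι → ℝ, (∀ i, 0 ≤ c i) → (U * diagonal c * Uᵀ).PosSemidef := by
    intro c hc
    have h8 : (diagonal c).PosSemidef := by
      rw [Matrix.posSemidef_diagonal_iff]
      exact hc
    have h9 := h8.mul_mul_conjTranspose_same U
    rwa [conjTranspose_eq_transpose_of_trivial] at h9
  have htr : ∀ c : ι → ℝ, ((U * diagonal c * Uᵀ) * (U * diagonal c * Uᵀ)).trace = ∑ i, c i ^ 2 := by
    intro c
    have e : (U * diagonal c * Uᵀ) * (U * diagonal c * Uᵀ) =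
        U * (diagonal c * (Uᵀ * U) * diagonal c * Uᵀ) := by
      simp only [Matrix.mul_assoc]
    rw [e, hU2, Matrix.mul_one, trace_mul_comm, Matrix.mul_assoc, hU2, Matrix.mul_one,
      diagonal_mul_diagonal, trace_diagonal]
    exact Finset.sum_congr rfl fun i _ => by rw [sq]
  refine ⟨U * diagonal (fun i => max (-a i) 0) * Uᵀ, hpos _ fun i => le_max_right _ _, ?_, ?_⟩
  · have e : Z + U * diagonal (fun i => max (-a i) 0) * Uᵀ =
        U * diagonal (fun i => a i + max (-a i) 0) * Uᵀ := by
      have e1 : diagonal (fun i => a i + max (-a i) 0) =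
          diagonal a + diagonal (fun i => max (-a i) 0) := by
        rw [Matrix.diagonal_add]
      rw [e1, Matrix.mul_add, Matrix.add_mul, ← h1]
    rw [e]
    refine hpos _ fun i => ?_
    have := le_max_left (-a i) 0
    linarith
  · rw [htr, h1, htr]
    refine Finset.sum_le_sum fun i _ => ?_
    rcases le_total (a i) 0 with h | h
    · rw [max_eq_left (by linarith)]
      nlinarith
    · rw [max_eq_right (by linarith)]
      nlinarith [sq_nonneg (a i)]

/-- if `-B ≤ Z ≤ B` then `tr Z² ≤ tr B²`: the trace of the product of `B - Z` and `B + Z` -/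
theorem hs_le (Z B : Matrix ι ι ℝ) (hZ : Z.IsSymm) (hB : B.IsSymm) (h1 : (B - Z).PosSemidef)
    (h2 : (B + Z).PosSemidef) : (Z * Z).trace ≤ (B * B).trace := by
  have _ := hZ
  have _ := hB
  have h3 := Kh.trace_mul_nonneg h1 h2
  rw [Matrix.sub_mul, Matrix.mul_add, Matrix.mul_add, trace_sub, trace_add, trace_add,
    trace_mul_comm Z B] at h3
  linarith

end LIFT
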