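import Mathlib

/-!
# LIFT: the numbers (row R14, helper44)
-/

set_option autoImplicit false

open Filter Topology

namespace LIFT

namespace h44

/-- the square root of `(3 q) ^ 9` -/
theorem sqrt_nine (q : ℕ) :
    Real.sqrt (((3 * q) ^ 9 : ℕ) : ℝ) = Real.sqrt ((3 * q : ℕ) : ℝ) ^ 9 := by
  have h0 : (0 : ℝ) ≤ ((3 * q : ℕ) : ℝ) := Nat.cast_nonneg _
  rw [Real.sqrt_eq_iff_mul_self_eq (Nat.cast_nonneg _) (by positivity)]
  have h1 := Real.sq_sqrt h0
  push_cast at h1 ⊢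
  have h2 : Real.sqrt (3 * (q : ℝ)) ^ 9 * Real.sqrt (3 * (q : ℝ)) ^ 9 =
      (Real.sqrt (3 * (q : ℝ)) ^ 2) ^ 9 := by ring
  rw [h2, h1]

/-- the first term -/
theorem term1 (γ T : ℝ) (hT : 0 < T) : ∃ q₁ : ℕ, ∀ q : ℕ, q₁ ≤ q →
    24 / Real.sqrt γ * Real.exp (-(2 * (q : ℝ))) ≤ T := by
  have h1 : Tendsto (fun q : ℕ => 24 / Real.sqrt γ * Real.exp (-(2 * (q : ℝ)))) atTop (𝓝 0) := by
    have h2 : Tendsto (fun q : ℕ => Real.exp (-(2 * (q : ℝ)))) atTop (𝓝 0) := by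
      apply Real.tendsto_exp_neg_atTop_nhds_zero.comp
      exact tendsto_natCast_atTop_atTop.const_mul_atTop (by norm_num)
    simpa using h2.const_mul (24 / Real.sqrt γ)
  have h3 := (h1.eventually (gt_mem_nhds hT)).exists_forall_of_atTop
  obtain ⟨q₁, hq⟩ := h3
  exact ⟨q₁, fun q h => (hq q h).le⟩

/-- the second term: the exponent is very negative -/
theorem term2 (ε C : ℝ) (hε : 0 < ε) : ∃ s₁ : ℝ, ∀ s : ℝ, s₁ ≤ s →
    1 ≤ s ∧ C + 6 * s ^ 2 + 18 * s ^ 2 * Real.log s - ε * s ^ 3 ≤ -s := by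
  have h1 := (Real.isLittleO_log_id_atTop.bound (show 0 < ε / 36 by positivity))
  have h2 := (tendsto_id (α := ℝ) (x := atTop)).eventually_ge_atTop
    (max 1 (2 / ε * (|C| + 7)))
  obtain ⟨s₁, hs⟩ := (h1.and h2).exists_forall_of_atTop
  refine ⟨s₁, fun s h => ?_⟩
  obtain ⟨h3, h4⟩ := hs s h
  simp only [id] at h3 h4
  have h5 : 1 ≤ s := le_trans (le_max_left _ _) h4
  have h6 : 2 / ε * (|C| + 7) ≤ s := le_trans (le_max_right _ _) h4
  have h7 : Real.log s ≤ ε / 36 * s := by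
    have h8 := (le_abs_self _).trans h3
    rwa [Real.norm_eq_abs, abs_of_nonneg (by linarith : (0 : ℝ) ≤ s)] at h8
  refine ⟨h5, ?_⟩
  have h8 : |C| + 7 ≤ ε / 2 * s := by
    have h9 := mul_le_mul_of_nonneg_left h6 (show 0 ≤ ε / 2 by positivity)
    have h10 : ε / 2 * (2 / ε * (|C| + 7)) = |C| + 7 := by
      field_simp
    rwa [h10] at h9
  have h9 := le_abs_self C
  have h10 : (|C| + 7) * s ^ 2 ≤ ε / 2 * s * s ^ 2 :=
    mul_le_mul_of_nonneg_right h8 (by positivity)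
  have h11 : s ^ 2 * Real.log s ≤ s ^ 2 * (ε / 36 * s) :=
    mul_le_mul_of_nonneg_left h7 (by positivity)
  have h12 : 1 ≤ s ^ 2 := by nlinarith
  have h13 : s ≤ s ^ 2 := by nlinarith
  have h14 : |C| ≤ |C| * s ^ 2 := by
    have := mul_le_mul_of_nonneg_left h12 (abs_nonneg C)
    linarith
  have h15 : ε / 2 * s * s ^ 2 = ε / 2 * s ^ 3 := by ring
  have h16 : 18 * s ^ 2 * Real.log s ≤ ε / 2 * s ^ 3 := by
    have h17 : 18 * s ^ 2 * Real.log s = 18 * (s ^ 2 * Real.log s) := by ring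
    have h18 : ε / 2 * s ^ 3 = 18 * (s ^ 2 * (ε / 36 * s)) := by ring
    rw [h17, h18]
    linarith
  have h19 : (|C| + 7) * s ^ 2 = |C| * s ^ 2 + 7 * s ^ 2 := by ring
  rw [h15, h19] at h10
  linarith

/-- exponential decay in `s` -/
theorem term3 (T : ℝ) (hT : 0 < T) : ∃ s₁ : ℝ, ∀ s : ℝ, s₁ ≤ s →
    Real.exp (-s) ≤ T ∧ 4 / s ≤ T ∧ 1 ≤ s := by
  have h2 := (Real.tendsto_exp_neg_atTop_nhds_zero).eventually (gt_mem_nhds hT)
  have h3 := (tendsto_id (α := ℝ) (x := atTop)).eventually_ge_atTop (max 1 (4 / T))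
  obtain ⟨s₁, hs⟩ := (h2.and h3).exists_forall_of_atTop
  refine ⟨s₁, fun s h => ?_⟩
  obtain ⟨h4, h5⟩ := hs s h
  simp only [id] at h5
  have h6 : 1 ≤ s := le_trans (le_max_left _ _) h5
  have h7 : 4 / T ≤ s := le_trans (le_max_right _ _) h5
  refine ⟨h4.le, ?_, h6⟩
  rw [div_le_iff₀ hT] at h7
  rw [div_le_iff₀ (by linarith)]
  linarith

/-- `2 ^ x <= exp (0.7 x)` -/
theorem two_pow_le (n : ℕ) : (2 : ℝ) ^ n ≤ Real.exp (7 / 10 * n) := by
  have h1 : (2 : ℝ) = Real.exp (Real.log 2) := (Real.exp_log (by norm_num)).symm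
  rw [h1, ← Real.exp_nat_mul]
  apply Real.exp_le_exp.2
  have h2 := Real.log_two_lt_d9
  have h3 : (0 : ℝ) ≤ n := Nat.cast_nonneg _
  nlinarith

/-- everything for one `q` -/
theorem in_q (β' γ δ : ℝ) (hβ : 0 < β') (hγ : 0 < γ) (hδ : 0 < δ) (q₀ : ℕ) :
    ∃ q₁ : ℕ, ∀ q : ℕ, q₁ ≤ q → ∃ p : ℕ, ∃ lam η : ℝ, q₀ ≤ q ∧ 0 < q ∧ 0 < p ∧
      1 < lam ∧ 0 < η ∧ η < 1 ∧ 32 ≤ β' * q ∧
      (η * (lam ^ 2 - 1) + 3 * p * (lam ^ 2 - 1) / (η ^ 2 * Real.sqrt (((3 * q) ^ 9 : ℕ) : ℝ)))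
        * ((3 * q : ℕ) : ℝ) ≤ 1 ∧
      ∀ d r : ℕ, β' * q ≤ d + 1 → 0 < r → (r : ℝ) ≤ 2 * Real.exp (q / 2) →
        2 * (6 * 2 ^ (3 * q) * Real.sqrt (2 * r / γ) / lam ^ (d + 1))
          + 2 * 2 ^ (3 * q) * (((3 * q : ℕ) : ℝ) * (2 * (((3 * q) ^ 9 : ℕ) : ℝ)) ^ (3 * q) * r
            * Real.exp (-p))
          + δ * γ ^ 2 / 8
          + 2 * ((1 + 1 / Real.sqrt (((3 * q) ^ 9 : ℕ) : ℝ)) ^ (3 * q) - 1) < δ * γ ^ 2 / 2 := by
  set lam : ℝ := Real.exp (5 / β') with hlam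
  have hlam1 : 1 < lam := Real.one_lt_exp_iff.2 (by positivity)
  set A : ℝ := lam ^ 2 - 1 with hA
  have hA0 : 0 < A := by
    rw [hA]
    nlinarith
  set ε : ℝ := 1 / (6 * A * (2 * A + 2) ^ 2) with hε
  have hε0 : 0 < ε := by positivity
  set T : ℝ := δ * γ ^ 2 / 16 with hT
  have hT0 : 0 < T := by positivity
  obtain ⟨q₂, hq₂⟩ := term1 γ T hT0
  obtain ⟨s₂, hs₂⟩ := term2 ε 6 hε0
  obtain ⟨s₃, hs₃⟩ := term3 T hT0
  have hsq : Tendsto (fun q : ℕ => Real.sqrt ((3 * q : ℕ) : ℝ)) atTop atTop := by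
    apply Real.tendsto_sqrt_atTop.comp
    apply tendsto_natCast_atTop_atTop.comp
    exact tendsto_id.const_mul_atTop' (by norm_num)
  have hqr : Tendsto (fun q : ℕ => β' * (q : ℝ)) atTop atTop :=
    tendsto_natCast_atTop_atTop.const_mul_atTop hβ
  obtain ⟨q₃, hq₃⟩ := ((hsq.eventually_ge_atTop (max s₂ (max s₃ (2 / ε + 2)))).and
    ((hqr.eventually_ge_atTop 32).and (eventually_ge_atTop (q₀ + 1)))).exists_forall_of_atTop
  refine ⟨max q₂ q₃, fun q hq => ?_⟩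
  obtain ⟨h1, h2, h3⟩ := hq₃ q (le_trans (le_max_right _ _) hq)
  have h4 := hq₂ q (le_trans (le_max_left _ _) hq)
  set s : ℝ := Real.sqrt ((3 * q : ℕ) : ℝ) with hs
  have hs2' : s₂ ≤ s := le_trans (le_max_left _ _) h1
  have hs3' : s₃ ≤ s := le_trans (le_trans (le_max_left _ _) (le_max_right _ _)) h1
  have hs4' : 2 / ε + 2 ≤ s := le_trans (le_trans (le_max_right _ _) (le_max_right _ _)) h1
  obtain ⟨hs1, h5⟩ := hs₂ s hs2'
  obtain ⟨h6, h7, -⟩ := hs₃ s hs3'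
  have hs0 : 0 < s := by linarith
  have hssq : s ^ 2 = ((3 * q : ℕ) : ℝ) := Real.sq_sqrt (Nat.cast_nonneg _)
  have hq0 : 0 < q := by omega
  have hq0' : (1 : ℝ) ≤ q := by exact_mod_cast hq0
  set m : ℝ := ((3 * q : ℕ) : ℝ) with hm
  have hm1 : 1 ≤ m := by
    rw [← hssq]
    nlinarith
  have hmq : m = 3 * (q : ℝ) := by
    rw [hm]
    push_cast
    ring
  set p : ℕ := ⌊ε * s ^ 3⌋₊ with hp
  have hp1 : (p : ℝ) ≤ ε * s ^ 3 := Nat.floor_le (by positivity)
  have hp2 : ε * s ^ 3 - 1 < p := by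
    have := Nat.lt_floor_add_one (ε * s ^ 3)
    linarith
  have hes : 2 ≤ ε * s := by
    have h8 : ε * (2 / ε + 2) ≤ ε * s := mul_le_mul_of_nonneg_left hs4' hε0.le
    have h9 : ε * (2 / ε + 2) = 2 + 2 * ε := by
      field_simp
    linarith
  have hp0 : 0 < p := by
    have h8 : (0 : ℝ) < p := by
      have h9 : 1 ≤ s ^ 2 := by nlinarith
      have h10 : ε * s ^ 3 = ε * s * s ^ 2 := by ring
      nlinarith
    exact_mod_cast h8
  set η : ℝ := 1 / (2 * m * A + 2) with hη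
  have hη0 : 0 < η := by positivity
  have hη1 : η < 1 := by
    rw [hη, div_lt_one (by positivity)]
    have : 0 < 2 * m * A := by positivity
    linarith
  refine ⟨p, lam, η, by omega, hq0, hp0, hlam1, hη0, hη1, h2, ?_, ?_⟩
  · rw [sqrt_nine]
    have e1 : η * A * m ≤ 1 / 2 := by
      rw [hη, div_mul_eq_mul_div, div_mul_eq_mul_div, div_le_iff₀ (by positivity)]
      linarith
    have e2 : 3 * p * A / (η ^ 2 * s ^ 9) * m ≤ 1 / 2 := by
      have e3 : 3 * p * A / (η ^ 2 * s ^ 9) * m = 3 * p * A * (2 * m * A + 2) ^ 2 * m / s ^ 9 := by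
        rw [hη]
        field_simp
      rw [e3, div_le_iff₀ (by positivity)]
      have e4 : 2 * m * A + 2 ≤ m * (2 * A + 2) := by
        nlinarith
      have e5 : (2 * m * A + 2) ^ 2 ≤ (m * (2 * A + 2)) ^ 2 :=
        pow_le_pow_left₀ (by positivity) e4 2
      have e6 : 3 * p * A * (2 * m * A + 2) ^ 2 * m ≤
          3 * (ε * s ^ 3) * A * (m * (2 * A + 2)) ^ 2 * m := by
        gcongr
      refine e6.trans (le_of_eq ?_)
      rw [← hssq, hε]
      field_simp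
      ring
    rw [← hs]
    have e7 : (η * A + 3 * p * A / (η ^ 2 * s ^ 9)) * m =
        η * A * m + 3 * p * A / (η ^ 2 * s ^ 9) * m := by ring
    rw [e7]
    linarith
  · intro d r hd hr hr2
    have hr0 : (0 : ℝ) < r := by exact_mod_cast hr
    -- first term
    have f1 : 2 * (6 * 2 ^ (3 * q) * Real.sqrt (2 * r / γ) / lam ^ (d + 1)) ≤ T := by
      refine le_trans ?_ h4
      have g1 : (2 : ℝ) ^ (3 * q) ≤ Real.exp (21 / 10 * q) := by
        refine (two_pow_le (3 * q)).trans (Real.exp_le_exp.2 (le_of_eq ?_))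
        push_cast
        ring
      have g2 : Real.sqrt (2 * r / γ) ≤ 2 / Real.sqrt γ * Real.exp (q / 4) := by
        rw [Real.sqrt_le_left (by positivity)]
        have g3 : (2 / Real.sqrt γ * Real.exp (q / 4)) ^ 2 = 4 / γ * Real.exp (q / 2) := by
          rw [mul_pow, div_pow, Real.sq_sqrt hγ.le, ← Real.exp_nat_mul]
          norm_num
          left
          ring
        rw [g3, div_mul_eq_mul_div, div_le_div_iff_of_pos_right hγ]
        linarith
      have g4 : Real.exp (5 * q) ≤ lam ^ (d + 1) := by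
        rw [hlam, ← Real.exp_nat_mul]
        apply Real.exp_le_exp.2
        push_cast
        have g5 : (5 : ℝ) * q = 5 / β' * (β' * q) := by
          field_simp
        rw [g5, mul_comm ((d : ℝ) + 1)]
        exact mul_le_mul_of_nonneg_left hd (by positivity)
      have g6 : 2 * (6 * 2 ^ (3 * q) * Real.sqrt (2 * r / γ) / lam ^ (d + 1)) ≤
          2 * (6 * Real.exp (21 / 10 * q) * (2 / Real.sqrt γ * Real.exp (q / 4)) /
            Real.exp (5 * q)) := by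
        gcongr
      refine g6.trans ?_
      have g7 : 2 * (6 * Real.exp (21 / 10 * q) * (2 / Real.sqrt γ * Real.exp (q / 4)) /
            Real.exp (5 * q)) = 24 / Real.sqrt γ *
            (Real.exp (21 / 10 * q) * Real.exp (q / 4) * (Real.exp (5 * q))⁻¹) := by
        ring
      rw [g7, ← Real.exp_neg, ← Real.exp_add, ← Real.exp_add]
      apply mul_le_mul_of_nonneg_left _ (by positivity)
      apply Real.exp_le_exp.2
      linarith
    -- second term
    have f2 : 2 * 2 ^ (3 * q) * (m * (2 * (((3 * q) ^ 9 : ℕ) : ℝ)) ^ (3 * q) * r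
            * Real.exp (-p)) ≤ T := by
      refine le_trans ?_ h6
      have g1 : (2 : ℝ) ^ (3 * q) ≤ Real.exp m := by
        refine (two_pow_le (3 * q)).trans (Real.exp_le_exp.2 ?_)
        rw [← hm]
        linarith
      have g2 : m ≤ Real.exp m := by
        have := Real.add_one_le_exp m
        linarith
      have g3 : (2 * (((3 * q) ^ 9 : ℕ) : ℝ)) ^ (3 * q) ≤
          Real.exp (m + 18 * s ^ 2 * Real.log s) := by
        have g4 : (((3 * q) ^ 9 : ℕ) : ℝ) = Real.exp (18 * Real.log s) := by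
          have g5 : (((3 * q) ^ 9 : ℕ) : ℝ) = s ^ 18 := by
            push_cast
            have g6 : (3 * (q : ℝ)) = s ^ 2 := by rw [hssq, hmq]
            rw [g6]
            ring
          rw [g5, ← Real.rpow_natCast s 18, Real.rpow_def_of_pos hs0]
          congr 1
          push_cast
          ring
        have g5 : (2 : ℝ) ≤ Real.exp 1 := by
          have := Real.add_one_le_exp (1 : ℝ)
          linarith
        have g6 : 2 * (((3 * q) ^ 9 : ℕ) : ℝ) ≤ Real.exp (1 + 18 * Real.log s) := by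
          rw [g4, Real.exp_add]
          exact mul_le_mul_of_nonneg_right g5 (Real.exp_pos _).le
        refine (pow_le_pow_left₀ (by positivity) g6 (3 * q)).trans (le_of_eq ?_)
        rw [← Real.exp_nat_mul]
        congr 1
        rw [← hm, hssq]
        ring
      have g7 : (r : ℝ) ≤ Real.exp (1 + m) := by
        refine hr2.trans ?_
        rw [Real.exp_add]
        have g5 : (2 : ℝ) ≤ Real.exp 1 := by
          have := Real.add_one_le_exp (1 : ℝ)
          linarith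
        apply mul_le_mul g5 _ (Real.exp_pos _).le (Real.exp_pos _).le
        apply Real.exp_le_exp.2
        rw [hmq]
        linarith
      have g8 : Real.exp (-p) ≤ Real.exp (1 - ε * s ^ 3) := Real.exp_le_exp.2 (by linarith)
      have g9 : (2 : ℝ) ≤ Real.exp 1 := by
        have := Real.add_one_le_exp (1 : ℝ)
        linarith
      calc 2 * 2 ^ (3 * q) * (m * (2 * (((3 * q) ^ 9 : ℕ) : ℝ)) ^ (3 * q) * r * Real.exp (-p))
          ≤ Real.exp 1 * Real.exp m * (Real.exp m * Real.exp (m + 18 * s ^ 2 * Real.log s) *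
            Real.exp (1 + m) * Real.exp (1 - ε * s ^ 3)) := by
            gcongr
        _ = Real.exp (3 + 4 * m + 18 * s ^ 2 * Real.log s - ε * s ^ 3) := by
            rw [← Real.exp_add, ← Real.exp_add, ← Real.exp_add, ← Real.exp_add, ← Real.exp_add]
            congr 1
            ring
        _ ≤ Real.exp (-s) := by
            apply Real.exp_le_exp.2
            rw [← hssq]
            have : 0 ≤ s ^ 2 := by positivity
            linarith
    -- third term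
    have f3 : 2 * ((1 + 1 / Real.sqrt (((3 * q) ^ 9 : ℕ) : ℝ)) ^ (3 * q) - 1) ≤ T := by
      refine le_trans ?_ h7
      rw [sqrt_nine, ← hs]
      have g1 : (1 + 1 / s ^ 9) ^ (3 * q) ≤ Real.exp (1 / s) := by
        have g2 : 1 + 1 / s ^ 9 ≤ Real.exp (1 / s ^ 9) := by
          have := Real.add_one_le_exp (1 / s ^ 9)
          linarith
        refine (pow_le_pow_left₀ (by positivity) g2 (3 * q)).trans ?_
        rw [← Real.exp_nat_mul]
        apply Real.exp_le_exp.2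
        rw [← hm, ← hssq, mul_one_div, div_le_div_iff₀ (by positivity) hs0]
        have g3 : s ^ 2 * s = s ^ 3 := by ring
        rw [g3, one_mul]
        exact pow_le_pow_right₀ hs1 (by norm_num)
      have g4 : Real.exp (1 / s) ≤ 1 + 2 * (1 / s) := by
        have g5 : 1 / s ≤ 1 := by
          rw [div_le_one hs0]
          exact hs1
        have g6 : |Real.exp (1 / s) - 1 - 1 / s| ≤ (1 / s) ^ 2 :=
          Real.abs_exp_sub_one_sub_id_le (by rw [abs_of_pos (by positivity)]; exact g5)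
        have g7 := (le_abs_self _).trans g6
        have g8 : (1 / s) ^ 2 ≤ 1 / s := by
          rw [pow_two]
          have : 0 < 1 / s := by positivity
          nlinarith
        linarith
      have g9 : 4 / s = 4 * (1 / s) := by ring
      rw [g9]
      linarith
    rw [hT] at f1 f2 f3
    have hpos : 0 < δ * γ ^ 2 := by positivity
    linarith

end h44

/-- R14: the numbers -/
theorem numbers (β' γ δ : ℝ) (hβ : 0 < β') (hγ : 0 < γ) (hγ1 : γ ≤ 1) (hδ : 0 < δ) (q₀ : ℕ) :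
    ∃ c > 0, ∃ n₀ : ℕ, ∀ n : ℕ, n₀ ≤ n → ∃ q p : ℕ, ∃ lam η : ℝ, q₀ ≤ q ∧ 0 < q ∧ 0 < p ∧
      (3 * q) * (3 * q) ^ 9 ≤ n ∧ 1 < lam ∧ 0 < η ∧ η < 1 ∧ 32 ≤ β' * q ∧
      (η * (lam ^ 2 - 1) + 3 * p * (lam ^ 2 - 1) / (η ^ 2 * Real.sqrt (((3 * q) ^ 9 : ℕ) : ℝ)))
        * ((3 * q : ℕ) : ℝ) ≤ 1 ∧
      ∀ d r : ℕ, β' * q ≤ d + 1 → 0 < r → (r : ℝ) ≤ Real.exp (c * (n : ℝ) ^ (1 / 10 : ℝ)) + 1 →
        2 * (6 * 2 ^ (3 * q) * Real.sqrt (2 * r / γ) / lam ^ (d + 1))
          + 2 * 2 ^ (3 * q) * (((3 * q : ℕ) : ℝ) * (2 * (((3 * q) ^ 9 : ℕ) : ℝ)) ^ (3 * q) * r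
            * Real.exp (-p))
          + δ * γ ^ 2 / 8
          + 2 * ((1 + 1 / Real.sqrt (((3 * q) ^ 9 : ℕ) : ℝ)) ^ (3 * q) - 1) < δ * γ ^ 2 / 2 := by
  obtain ⟨q₁, h1⟩ := h44.in_q β' γ δ hβ hγ hδ q₀
  refine ⟨1 / 12, by norm_num, (3 * (q₁ + 1)) ^ 10, fun n hn => ?_⟩
  set N : ℝ := (n : ℝ) ^ (1 / 10 : ℝ) with hN
  have hn0 : (0 : ℝ) ≤ n := Nat.cast_nonneg _
  have hN0 : 0 ≤ N := Real.rpow_nonneg hn0 _
  have hN10 : N ^ 10 = n := by
    rw [hN, ← Real.rpow_natCast, ← Real.rpow_mul hn0]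
    norm_num
  have hNq : 3 * ((q₁ : ℝ) + 1) ≤ N := by
    by_contra hc
    push Not at hc
    have h2 : N ^ 10 < (3 * ((q₁ : ℝ) + 1)) ^ 10 := pow_lt_pow_left₀ hc hN0 (by norm_num)
    rw [hN10] at h2
    have h3 : (((3 * (q₁ + 1)) ^ 10 : ℕ) : ℝ) ≤ n := by exact_mod_cast hn
    push_cast at h3
    linarith
  set q : ℕ := ⌊N / 3⌋₊ with hq
  have hq1 : (q : ℝ) ≤ N / 3 := Nat.floor_le (by positivity)
  have hq2 : N / 3 < q + 1 := Nat.lt_floor_add_one _
  have hqq : q₁ ≤ q := by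
    have h2 : (q₁ : ℝ) < q + 1 := by linarith
    have h3 : q₁ < q + 1 := by exact_mod_cast h2
    omega
  obtain ⟨p, lam, η, g1, g2, g3, g4, g5, g6, g7, g8, g9⟩ := h1 q hqq
  refine ⟨q, p, lam, η, g1, g2, g3, ?_, g4, g5, g6, g7, g8, fun d r hd hr hr2 => ?_⟩
  · have h2 : (((3 * q) * (3 * q) ^ 9 : ℕ) : ℝ) ≤ n := by
      push_cast
      calc 3 * (q : ℝ) * (3 * q) ^ 9 = (3 * q) ^ 10 := by ring
        _ ≤ N ^ 10 := pow_le_pow_left₀ (by positivity) (by linarith) 10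
        _ = n := hN10
    exact_mod_cast h2
  · refine g9 d r hd hr (hr2.trans ?_)
    have hq0 : (1 : ℝ) ≤ q := by exact_mod_cast g2
    have h2 : Real.exp (1 / 12 * N) ≤ Real.exp (q / 2) := by
      apply Real.exp_le_exp.2
      linarith
    have h3 : 1 ≤ Real.exp ((q : ℝ) / 2) := Real.one_le_exp (by positivity)
    linarith

end LIFT
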