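import Pool.Agent.LIFT.Numbers4

/-!
# LIFT: the numbers, version with room for `K b` copies (helper44, for SALES)

As `numbers4`, but `q = n / (3 b K(b))`, so that `(3 q) * (b * K b) ≤ n`.
-/

set_option autoImplicit false

open Filter Topology

namespace LIFT

/-- the numbers with room for `K b` copies of each block -/
theorem numbers8 (K : ℕ → ℕ) (hK : ∀ b, 0 < K b) (β' γ : ℝ) (hβ : 0 < β') (hγ : 0 < γ)
    (hγ1 : γ ≤ 1) (q₀ b₀ : ℕ) :
    ∃ (lam c : ℝ) (b : ℕ), 1 < lam ∧ 0 < c ∧ 0 < b ∧ b₀ ≤ b ∧ lam ^ 8 ≤ 4 * b ∧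
      ∃ n₀ : ℕ, ∀ n : ℕ, n₀ ≤ n → ∃ q : ℕ, q₀ ≤ q ∧ 0 < q ∧ (3 * q) * b ≤ n ∧
      (3 * q) * (b * K b) ≤ n ∧ 32 ≤ β' * q ∧
      Real.exp (-(c * n)) ≤ 1 / 8 ∧
      ∀ d k r : ℕ, β' * q ≤ d + 1 → β' * q ≤ k → 0 < r → (r : ℝ) ≤ Real.exp (c * n) + 1 →
        2 * 2 ^ (3 * q) / lam ^ (d + 1) * Real.sqrt (24 ^ (3 * q)) ≤ γ / 2 ∧
        2 * (2 * 2 ^ (3 * q) * (4 * r / γ) / lam ^ (d + 1) * Real.sqrt (24 ^ (3 * q) * r))
          + Real.exp (-(c * n)) * (2 * 2 ^ (3 * q) / lam ^ (d + 1) * Real.sqrt (24 ^ (3 * q)))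
          + Real.exp (-(c * n)) * γ / 8 + Real.sqrt (2 ^ (3 * q) / (b : ℝ) ^ k)
          < Real.exp (-(c * n)) * γ / 2 := by
  obtain ⟨lam, b, h1, h2, h3, h4, q₁, h5⟩ := h44.in_q4 β' γ hβ hγ hγ1 q₀ b₀
  set B : ℕ := b * K b with hB
  have hKb := hK b
  have hB2 : 0 < B := Nat.mul_pos h2 hKb
  have hbB : b ≤ B := Nat.le_mul_of_pos_right b hKb
  have hb0 : (0 : ℝ) < B := by exact_mod_cast hB2
  refine ⟨lam, 1 / (12 * B), b, h1, by positivity, h2, h3, h4, 3 * B * (q₁ + 1), fun n hn => ?_⟩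
  have hb3 : 0 < 3 * B := by omega
  set q : ℕ := n / (3 * B) with hq
  have hq1 : 3 * B * q ≤ n := Nat.mul_div_le n (3 * B)
  have hq2 : n < 3 * B * (q + 1) := by
    have := Nat.lt_mul_div_succ n hb3
    rw [← hq] at this
    exact this
  have hqq : q₁ ≤ q := by
    by_contra hc
    push Not at hc
    have h6 : 3 * B * (q + 1) ≤ 3 * B * (q₁ + 1) := Nat.mul_le_mul_left _ (by omega)
    omega
  obtain ⟨g1, g2, g3, g4⟩ := h5 q hqq
  have hq12 : (12 : ℝ) ≤ q := by exact_mod_cast g2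
  have hlo : 3 * (q : ℝ) ≤ 1 / (12 * B) * n * 12 := by
    have h6 : (3 * (B : ℝ) * q) ≤ n := by exact_mod_cast hq1
    have h7 : 1 / (12 * (B : ℝ)) * n * 12 = n / B := by
      field_simp
    rw [h7, le_div_iff₀ hb0]
    linarith
  have hhi : 1 / (12 * B) * (n : ℝ) * 12 ≤ 3 * (q + 1) := by
    have h6 : (n : ℝ) ≤ 3 * B * (q + 1) := by exact_mod_cast hq2.le
    have h7 : 1 / (12 * (B : ℝ)) * n * 12 = n / B := by
      field_simp
    rw [h7, div_le_iff₀ hb0]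
    linarith
  have hr1 : 3 * q * B ≤ n := by
    calc 3 * q * B = 3 * B * q := by ring
      _ ≤ n := hq1
  refine ⟨q, g1, by omega, le_trans (Nat.mul_le_mul_left _ hbB) hr1, hr1, g3, ?_,
    fun d k r hd hk hr hr2 => ?_⟩
  · have e1 : Real.exp (-(1 / (12 * B) * n)) ≤ Real.exp (-3) := by
      apply Real.exp_le_exp.2
      linarith
    refine e1.trans ?_
    have e2 : (2 : ℝ) ≤ Real.exp 1 := by
      have := Real.add_one_le_exp (1 : ℝ)
      linarith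
    have e3 : (8 : ℝ) ≤ Real.exp 3 := by
      have e4 : Real.exp 3 = Real.exp 1 ^ 3 := by
        rw [← Real.exp_nat_mul]
        norm_num
      rw [e4]
      calc (8 : ℝ) = 2 ^ 3 := by norm_num
        _ ≤ Real.exp 1 ^ 3 := pow_le_pow_left₀ (by norm_num) e2 3
    rw [Real.exp_neg, one_div]
    exact inv_anti₀ (by norm_num) e3
  · refine g4 (1 / (12 * B) * n) (by linarith) d k r hd hk hr (hr2.trans ?_)
    have e2 : Real.exp (1 / (12 * B) * n) ≤ Real.exp (q / 2) := by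
      apply Real.exp_le_exp.2
      linarith
    have e3 : 1 ≤ Real.exp ((q : ℝ) / 2) := Real.one_le_exp (by positivity)
    linarith

end LIFT
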