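import Mathlib

/-! # LIFT, row R12a: expansion of a random tripartite hypergraph (counting) -/

set_option autoImplicit false

open scoped BigOperators

namespace LIFT

namespace h32r

open Finset

variable {M q : ℕ}

/-- degree of a vertex in `C` -/
def dg (a : Fin M → Fin 3 → Fin q) (C : Finset (Fin M)) (v : Fin 3 × Fin q) : ℕ :=
  (C.filter fun e => a e v.1 = v.2).card

theorem sum_dg (a : Fin M → Fin 3 → Fin q) (C : Finset (Fin M)) :
    ∑ v, dg a C v = 3 * C.card := by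
  rw [Fintype.sum_prod_type]
  have h : ∀ t : Fin 3, ∑ x : Fin q, dg a C (t, x) = C.card := fun t =>
    (card_eq_sum_card_fiberwise (f := fun e => a e t) (t := univ)
      (fun _ _ => mem_coe.mpr (mem_univ _))).symm
  rw [sum_congr rfl fun t _ => h t]
  simp

/-- few vertices of odd degree imply few vertices -/
theorem two_card_le (a : Fin M → Fin 3 → Fin q) (C : Finset (Fin M)) :
    2 * (univ.filter fun v => 0 < dg a C v).card ≤
      3 * C.card + (univ.filter fun v => Odd (dg a C v)).card := by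
  rw [← sum_dg a C, card_filter, card_filter, mul_sum, ← sum_add_distrib]
  refine sum_le_sum fun v _ => ?_
  rcases h : dg a C v with _ | _ | n
  · simp
  · simp
  · rw [if_pos (by omega)]
    omega

/-- the part `t` of `W` -/
def part (W : Finset (Fin 3 × Fin q)) (t : Fin 3) : Finset (Fin q) :=
  univ.filter fun x => (t, x) ∈ W

theorem sum_part (W : Finset (Fin 3 × Fin q)) : ∑ t, (part W t).card = W.card := by
  rw [card_eq_sum_card_fiberwise (f := Prod.fst) (t := univ)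
    (fun _ _ => mem_coe.mpr (mem_univ _))]
  refine sum_congr rfl fun t _ => ?_
  refine card_bij (fun x _ => (t, x)) ?_ ?_ ?_
  · intro x hx
    exact mem_filter.mpr ⟨(mem_filter.mp hx).2, rfl⟩
  · intro x _ y _ h
    exact (Prod.mk.inj h).2
  · rintro ⟨t', x⟩ h
    obtain ⟨h1, h2⟩ := mem_filter.mp h
    simp only at h2
    subst h2
    exact ⟨x, mem_filter.mpr ⟨mem_univ _, h1⟩, rfl⟩

/-- the instances with all vertices of `C` in `W` -/
def bx (C : Finset (Fin M)) (W : Finset (Fin 3 × Fin q)) : Finset (Fin M → Fin 3 → Fin q) :=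
  Fintype.piFinset fun e => if e ∈ C then Fintype.piFinset fun t => part W t else univ

theorem mem_bx {C : Finset (Fin M)} {W : Finset (Fin 3 × Fin q)} {a : Fin M → Fin 3 → Fin q}
    (h : ∀ e ∈ C, ∀ t, (t, a e t) ∈ W) : a ∈ bx C W := by
  unfold bx
  rw [Fintype.mem_piFinset]
  intro e
  split_ifs with he
  · rw [Fintype.mem_piFinset]
    exact fun t => mem_filter.mpr ⟨mem_univ _, h e he t⟩
  · exact mem_univ _

theorem card_bx (C : Finset (Fin M)) (W : Finset (Fin 3 × Fin q)) :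
    (bx C W).card = (∏ t, (part W t).card) ^ C.card * (q ^ 3) ^ (M - C.card) := by
  unfold bx
  rw [Fintype.card_piFinset]
  have h : ∀ e : Fin M, (if e ∈ C then Fintype.piFinset fun t => part W t
      else (univ : Finset (Fin 3 → Fin q))).card =
      if e ∈ C then ∏ t, (part W t).card else q ^ 3 := by
    intro e
    split_ifs
    · exact Fintype.card_piFinset _
    · rw [card_univ, Fintype.card_fun, Fintype.card_fin, Fintype.card_fin]
  rw [prod_congr rfl fun e _ => h e, prod_ite, prod_const, prod_const]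
  have h1 : (univ.filter fun e : Fin M => e ∈ C) = C := by
    ext e
    simp
  have h2 : (univ.filter fun e : Fin M => ¬ e ∈ C).card = M - C.card := by
    have h3 : (univ.filter fun e : Fin M => ¬ e ∈ C) = Cᶜ := by
      ext e
      simp
    rw [h3, card_compl, Fintype.card_fin]
  rw [h1, h2]

theorem amgm {x y z : ℝ} (hx : 0 ≤ x) (hy : 0 ≤ y) (hz : 0 ≤ z) :
    x * (y * z) ≤ ((x + y + z) / 3) ^ 3 := by
  have h1 := mul_nonneg hx (sq_nonneg (y - z))
  have h2 := mul_nonneg hy (sq_nonneg (x - z))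
  have h3 := mul_nonneg hz (sq_nonneg (x - y))
  have h4 := mul_nonneg (add_nonneg (add_nonneg hx hy) hz)
    (add_nonneg (add_nonneg (sq_nonneg (x - y)) (sq_nonneg (y - z))) (sq_nonneg (x - z)))
  nlinarith

theorem card_bx_le (C : Finset (Fin M)) (W : Finset (Fin 3 × Fin q)) :
    ((bx C W).card : ℝ) ≤
      (((W.card : ℝ) / 3) ^ 3) ^ C.card * ((q : ℝ) ^ 3) ^ (M - C.card) := by
  rw [card_bx]
  push_cast
  have h1 : ∏ t, ((part W t).card : ℝ) ≤ ((W.card : ℝ) / 3) ^ 3 := by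
    have h2 : (W.card : ℝ) = ((part W 0).card : ℝ) + (part W 1).card + (part W 2).card := by
      rw [← sum_part W, Fin.sum_univ_three]
      push_cast
      ring
    rw [h2, Fin.prod_univ_three, mul_assoc]
    exact amgm (Nat.cast_nonneg _) (Nat.cast_nonneg _) (Nat.cast_nonneg _)
  have h3 : 0 ≤ ∏ t, ((part W t).card : ℝ) := prod_nonneg fun t _ => Nat.cast_nonneg _
  exact mul_le_mul_of_nonneg_right (pow_le_pow_left₀ h3 h1 _) (by positivity)

/-- The numerical inequality of the union bound. -/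
theorem num_le {D k w : ℕ} (hD : 0 < D) (hq : 0 < q) (hk : 0 < k) (hw : w = 13 * k / 8)
    (hkM : k ≤ D * q) (hkq : (k : ℝ) ≤ (1 / (12 * D : ℝ)) ^ 8 * q) :
    ((D * q).choose k : ℝ) * ((3 * q).choose w : ℝ) *
      ((((w : ℝ) / 3) ^ 3) ^ k * ((q : ℝ) ^ 3) ^ (D * q - k)) ≤
        (1 / 4) ^ k * ((q : ℝ) ^ 3) ^ (D * q) := by
  have hD1 : (1 : ℝ) ≤ D := by exact_mod_cast hD
  have hq0 : (0 : ℝ) < q := by exact_mod_cast hq
  have hk0 : (0 : ℝ) < k := by exact_mod_cast hk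
  have hw1 : w ≤ 2 * k := by omega
  have hw2 : 3 * k ≤ 8 * (2 * k - w) := by omega
  have hw3 : 3 * w ≤ 6 * k := by omega
  have hwk : (w : ℝ) / 3 ≤ k := by
    have : (w : ℝ) ≤ 2 * k := by exact_mod_cast hw1
    linarith
  set g : ℝ := 1 / (12 * D : ℝ) with hg
  have hg0 : 0 < g := by positivity
  have hg1 : g ≤ 1 := by
    rw [hg, div_le_one (by positivity)]
    linarith
  have hx0 : 0 ≤ (w : ℝ) / (3 * q) := by positivity
  have hx : (w : ℝ) / (3 * q) ≤ g ^ 8 := by
    rw [div_le_iff₀ (by positivity)]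
    have : (w : ℝ) ≤ 2 * k := by exact_mod_cast hw1
    have h8 : 0 < g ^ 8 := by positivity
    nlinarith
  -- binomial coefficients
  have h1 : ((D * q).choose k : ℝ) ≤ ((D : ℝ) * q) ^ k / (k.factorial : ℝ) := by
    have := Nat.choose_le_pow_div (α := ℝ) k (D * q)
    push_cast at this
    exact this
  have h2 : ((3 * q).choose w : ℝ) ≤ ((3 : ℝ) * q) ^ w / (w.factorial : ℝ) := by
    have := Nat.choose_le_pow_div (α := ℝ) w (3 * q)
    push_cast at this
    exact this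
  have h3 : (k : ℝ) ^ k / (k.factorial : ℝ) ≤ 3 ^ k := by
    refine (Real.pow_div_factorial_le_exp _ hk0.le k).trans ?_
    rw [← Real.exp_one_pow]
    exact pow_le_pow_left₀ (Real.exp_pos _).le (by have := Real.exp_one_lt_d9; linarith) _
  have h4 : (w : ℝ) ^ w / (w.factorial : ℝ) ≤ 9 ^ k := by
    refine (Real.pow_div_factorial_le_exp _ (Nat.cast_nonneg w) w).trans ?_
    rw [← Real.exp_one_pow]
    calc Real.exp 1 ^ w ≤ 3 ^ w :=
          pow_le_pow_left₀ (Real.exp_pos _).le (by have := Real.exp_one_lt_d9; linarith) _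
      _ ≤ 3 ^ (2 * k) := pow_le_pow_right₀ (by norm_num) hw1
      _ = 9 ^ k := by rw [pow_mul]; norm_num
  have hkf : (0 : ℝ) < k.factorial := by exact_mod_cast Nat.factorial_pos k
  have hwf : (0 : ℝ) < w.factorial := by exact_mod_cast Nat.factorial_pos w
  -- exact rearrangement
  have e1 : ((D : ℝ) * q) ^ k / (k.factorial : ℝ) * (((3 : ℝ) * q) ^ w / (w.factorial : ℝ)) *
      ((((w : ℝ) / 3) ^ 3) ^ k * ((q : ℝ) ^ 3) ^ (D * q - k)) =
      (((D : ℝ) * (w / 3)) ^ k / (k.factorial : ℝ)) * ((w : ℝ) ^ w / (w.factorial : ℝ)) *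
        ((w : ℝ) / (3 * q)) ^ (2 * k - w) * ((q : ℝ) ^ 3) ^ (D * q) := by
    have e2 : ((q : ℝ) ^ 3) ^ (D * q) = ((q : ℝ) ^ 3) ^ (D * q - k) * ((q : ℝ) ^ 3) ^ k := by
      rw [← pow_add]
      congr 1
      omega
    have e3 : ((3 : ℝ) * q) ^ w * (((w : ℝ) / 3) ^ 3) ^ k * ((D : ℝ) * q) ^ k =
        (w : ℝ) ^ w * ((w : ℝ) / (3 * q)) ^ (2 * k - w) * ((D : ℝ) * (w / 3)) ^ k *
          ((q : ℝ) ^ 3) ^ k := by
      have e4 : (w : ℝ) ^ w = ((3 : ℝ) * q) ^ w * ((w : ℝ) / (3 * q)) ^ w := by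
        rw [← mul_pow]
        congr 1
        field_simp
      have e5 : ((w : ℝ) / (3 * q)) ^ w * ((w : ℝ) / (3 * q)) ^ (2 * k - w) =
          (((w : ℝ) / (3 * q)) ^ 2) ^ k := by
        rw [← pow_add, ← pow_mul]
        congr 1
        omega
      calc ((3 : ℝ) * q) ^ w * (((w : ℝ) / 3) ^ 3) ^ k * ((D : ℝ) * q) ^ k
          = ((3 : ℝ) * q) ^ w * ((((w : ℝ) / 3) ^ 3) * ((D : ℝ) * q)) ^ k := by
            rw [mul_pow]
            ring
        _ = ((3 : ℝ) * q) ^ w * ((((w : ℝ) / (3 * q)) ^ 2) * ((D : ℝ) * (w / 3)) *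
              ((q : ℝ) ^ 3)) ^ k := by
            congr 2
            field_simp
        _ = ((3 : ℝ) * q) ^ w * ((((w : ℝ) / (3 * q)) ^ 2) ^ k * ((D : ℝ) * (w / 3)) ^ k *
              ((q : ℝ) ^ 3) ^ k) := by
            congr 1
            rw [mul_pow, mul_pow]
        _ = _ := by
            rw [← e5, e4]
            ring
    rw [e2]
    have e6 : ((D : ℝ) * q) ^ k / (k.factorial : ℝ) * (((3 : ℝ) * q) ^ w / (w.factorial : ℝ)) *
      ((((w : ℝ) / 3) ^ 3) ^ k * ((q : ℝ) ^ 3) ^ (D * q - k)) =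
        (((3 : ℝ) * q) ^ w * (((w : ℝ) / 3) ^ 3) ^ k * ((D : ℝ) * q) ^ k) *
          ((q : ℝ) ^ 3) ^ (D * q - k) / (k.factorial * w.factorial) := by
      field_simp
    rw [e6, e3]
    field_simp
  have h5 : ((D : ℝ) * (w / 3)) ^ k / (k.factorial : ℝ) ≤ (3 * D) ^ k := by
    calc ((D : ℝ) * (w / 3)) ^ k / (k.factorial : ℝ) ≤ ((D : ℝ) * k) ^ k / (k.factorial : ℝ) := by
          apply div_le_div_of_nonneg_right _ hkf.le
          apply pow_le_pow_left₀ (by positivity)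
          exact mul_le_mul_of_nonneg_left hwk (by linarith)
      _ = (D : ℝ) ^ k * ((k : ℝ) ^ k / (k.factorial : ℝ)) := by rw [mul_pow]; ring
      _ ≤ (D : ℝ) ^ k * 3 ^ k := mul_le_mul_of_nonneg_left h3 (by positivity)
      _ = (3 * D) ^ k := by rw [mul_pow]; ring
  have h6 : ((w : ℝ) / (3 * q)) ^ (2 * k - w) ≤ (g ^ 3) ^ k := by
    calc ((w : ℝ) / (3 * q)) ^ (2 * k - w) ≤ (g ^ 8) ^ (2 * k - w) := pow_le_pow_left₀ hx0 hx _
      _ = g ^ (8 * (2 * k - w)) := by rw [pow_mul]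
      _ ≤ g ^ (3 * k) := pow_le_pow_of_le_one hg0.le hg1 hw2
      _ = (g ^ 3) ^ k := by rw [pow_mul]
  have h7 : (3 * D : ℝ) ^ k * 9 ^ k * (g ^ 3) ^ k ≤ (1 / 4) ^ k := by
    rw [← mul_pow, ← mul_pow]
    apply pow_le_pow_left₀ (by positivity)
    have e7 : (3 * D : ℝ) * 9 * g ^ 3 = 27 / (1728 * D ^ 2) := by
      rw [hg]
      field_simp
      norm_num
    rw [e7, div_le_div_iff₀ (by positivity) (by norm_num)]
    nlinarith
  calc ((D * q).choose k : ℝ) * ((3 * q).choose w : ℝ) *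
      ((((w : ℝ) / 3) ^ 3) ^ k * ((q : ℝ) ^ 3) ^ (D * q - k))
      ≤ ((D : ℝ) * q) ^ k / (k.factorial : ℝ) * (((3 : ℝ) * q) ^ w / (w.factorial : ℝ)) *
        ((((w : ℝ) / 3) ^ 3) ^ k * ((q : ℝ) ^ 3) ^ (D * q - k)) := by
        apply mul_le_mul_of_nonneg_right _ (by positivity)
        exact mul_le_mul h1 h2 (Nat.cast_nonneg _) (by positivity)
    _ = (((D : ℝ) * (w / 3)) ^ k / (k.factorial : ℝ)) * ((w : ℝ) ^ w / (w.factorial : ℝ)) *
        ((w : ℝ) / (3 * q)) ^ (2 * k - w) * ((q : ℝ) ^ 3) ^ (D * q) := e1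
    _ ≤ ((3 * D : ℝ) ^ k * 9 ^ k * (g ^ 3) ^ k) * ((q : ℝ) ^ 3) ^ (D * q) := by
        apply mul_le_mul_of_nonneg_right _ (by positivity)
        exact mul_le_mul (mul_le_mul h5 h4 (by positivity) (by positivity)) h6 (by positivity)
          (by positivity)
    _ ≤ (1 / 4) ^ k * ((q : ℝ) ^ 3) ^ (D * q) := mul_le_mul_of_nonneg_right h7 (by positivity)

end h32r

open Finset h32r

theorem rand_exp (D : ℕ) (hD : 0 < D) : ∃ β > (0 : ℝ), ∃ q₀ : ℕ, ∀ q : ℕ, q₀ ≤ q →
    ∃ a : Fin (D * q) → Fin 3 → Fin q, ∀ C : Finset (Fin (D * q)), C.Nonempty →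
      (C.card : ℝ) ≤ β * q →
        (C.card : ℝ) / 4 ≤ (((Finset.univ : Finset (Fin 3 × Fin q)).filter fun v =>
          Odd (C.filter fun e => a e v.1 = v.2).card).card : ℝ) := by
  have hD1 : (1 : ℝ) ≤ D := by exact_mod_cast hD
  refine ⟨(1 / (12 * D : ℝ)) ^ 8, by positivity, 1, fun q hq => ?_⟩
  have hq0 : (0 : ℝ) < q := by exact_mod_cast hq
  have hβ1 : (1 / (12 * D : ℝ)) ^ 8 ≤ 1 := by
    apply pow_le_one₀ (by positivity)
    rw [div_le_one (by positivity)]
    linarith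
  by_contra hcon
  push Not at hcon
  -- every instance lies in a box
  have hcov : (univ : Finset (Fin (D * q) → Fin 3 → Fin q)) ⊆
      ((Icc 1 (D * q)).filter fun k : ℕ => (k : ℝ) ≤ (1 / (12 * D : ℝ)) ^ 8 * q).biUnion fun k : ℕ =>
        (powersetCard k univ).biUnion fun C =>
          (powersetCard (13 * k / 8) univ).biUnion fun W => bx C W := by
    intro a _
    obtain ⟨C, hC, hC1, hC2⟩ := hcon a
    have hk : 0 < C.card := card_pos.mpr hC
    have hCM : C.card ≤ D * q := (card_le_univ C).trans (by rw [Fintype.card_fin])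
    rw [mem_biUnion]
    refine ⟨C.card, mem_filter.mpr ⟨mem_Icc.mpr ⟨hk, hCM⟩, hC1⟩, ?_⟩
    rw [mem_biUnion]
    refine ⟨C, mem_powersetCard.mpr ⟨subset_univ _, rfl⟩, ?_⟩
    rw [mem_biUnion]
    have h1 := two_card_le a C
    have h2 : ((univ.filter fun v => Odd (dg a C v)).card : ℝ) < (C.card : ℝ) / 4 := hC2
    have h3 : 4 * (univ.filter fun v => Odd (dg a C v)).card < C.card := by
      have : (4 : ℝ) * ((univ.filter fun v => Odd (dg a C v)).card : ℝ) < C.card := by linarith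
      exact_mod_cast this
    have h4 : (univ.filter fun v => 0 < dg a C v).card ≤ 13 * C.card / 8 := by omega
    have h5 : C.card ≤ q := by
      have : (C.card : ℝ) ≤ q := by nlinarith
      exact_mod_cast this
    have h6 : 13 * C.card / 8 ≤ (univ : Finset (Fin 3 × Fin q)).card := by
      rw [card_univ, Fintype.card_prod, Fintype.card_fin, Fintype.card_fin]
      omega
    obtain ⟨W, hW1, hW2, hW3⟩ := exists_subsuperset_card_eq
      (subset_univ (univ.filter fun v => 0 < dg a C v)) h4 h6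
    refine ⟨W, mem_powersetCard.mpr ⟨subset_univ _, hW3⟩, mem_bx fun e he t => ?_⟩
    apply hW1
    refine mem_filter.mpr ⟨mem_univ _, ?_⟩
    unfold dg
    exact card_pos.mpr ⟨e, mem_filter.mpr ⟨he, rfl⟩⟩
  have hcard : ((univ : Finset (Fin (D * q) → Fin 3 → Fin q)).card : ℝ) =
      ((q : ℝ) ^ 3) ^ (D * q) := by
    rw [card_univ, Fintype.card_fun, Fintype.card_fun, Fintype.card_fin, Fintype.card_fin,
      Fintype.card_fin]
    push_cast
    rfl
  have h1 : ((q : ℝ) ^ 3) ^ (D * q) ≤ ∑ k ∈ (Icc 1 (D * q)).filter fun k : ℕ =>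
      (k : ℝ) ≤ (1 / (12 * D : ℝ)) ^ 8 * q, (1 / 4 : ℝ) ^ k * ((q : ℝ) ^ 3) ^ (D * q) := by
    rw [← hcard]
    refine (Nat.cast_le.mpr (card_le_card hcov)).trans ?_
    refine (Nat.cast_le.mpr card_biUnion_le).trans ?_
    rw [Nat.cast_sum]
    refine sum_le_sum fun k hk => ?_
    obtain ⟨hk1, hk2⟩ := mem_filter.mp hk
    obtain ⟨hk3, hk4⟩ := mem_Icc.mp hk1
    rw [hcard]
    refine le_trans ?_ (num_le hD hq hk3 rfl hk4 hk2)
    refine (Nat.cast_le.mpr card_biUnion_le).trans ?_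
    rw [Nat.cast_sum]
    have h2 : ∀ C ∈ powersetCard k (univ : Finset (Fin (D * q))),
        (((powersetCard (13 * k / 8) (univ : Finset (Fin 3 × Fin q))).biUnion
          fun W => bx C W).card : ℝ) ≤ ((3 * q).choose (13 * k / 8) : ℝ) *
          (((((13 * k / 8 : ℕ) : ℝ) / 3) ^ 3) ^ k * ((q : ℝ) ^ 3) ^ (D * q - k)) := by
      intro C hC
      obtain ⟨-, hC2⟩ := mem_powersetCard.mp hC
      refine (Nat.cast_le.mpr card_biUnion_le).trans ?_
      rw [Nat.cast_sum]
      refine (sum_le_card_nsmul _ _ (((((13 * k / 8 : ℕ) : ℝ) / 3) ^ 3) ^ k *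
        ((q : ℝ) ^ 3) ^ (D * q - k)) ?_).trans ?_
      · intro W hW
        obtain ⟨-, hW2⟩ := mem_powersetCard.mp hW
        have := card_bx_le C W
        rw [hC2, hW2] at this
        exact this
      · rw [card_powersetCard, card_univ, Fintype.card_prod, Fintype.card_fin, Fintype.card_fin,
          nsmul_eq_mul]
    refine (sum_le_card_nsmul _ _ _ h2).trans ?_
    rw [card_powersetCard, card_univ, Fintype.card_fin, nsmul_eq_mul, ← mul_assoc]
  have h2 : ∑ k ∈ (Icc 1 (D * q)).filter fun k : ℕ => (k : ℝ) ≤ (1 / (12 * D : ℝ)) ^ 8 * q,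
      (1 / 4 : ℝ) ^ k * ((q : ℝ) ^ 3) ^ (D * q) ≤ 1 / 3 * ((q : ℝ) ^ 3) ^ (D * q) := by
    rw [← sum_mul]
    apply mul_le_mul_of_nonneg_right _ (by positivity)
    refine (sum_le_sum_of_subset_of_nonneg (filter_subset _ _) fun k _ _ => by positivity).trans ?_
    have h3 : ∀ n : ℕ, ∑ k ∈ Icc 1 n, (1 / 4 : ℝ) ^ k = 1 / 3 - 1 / 3 * (1 / 4) ^ n := by
      intro n
      induction n with
      | zero => simp
      | succ n ih =>
        rw [sum_Icc_succ_top (by omega), ih, pow_succ]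
        ring
    rw [h3]
    have : (0 : ℝ) < (1 / 4) ^ (D * q) := by positivity
    linarith
  have h3 : (0 : ℝ) < ((q : ℝ) ^ 3) ^ (D * q) := by positivity
  linarith

end LIFT
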