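import Pool.Agent.LIFT.Defs

/-!
# LIFT: the sum over the Fourier levels
-/

set_option autoImplicit false

open scoped BigOperators

namespace LIFT

/-- `∑ A, t ^ |A| = (1 + t) ^ m` -/
theorem sum_pow_card {m : ℕ} (t : ℝ) :
    ∑ A : Finset (Fin m), t ^ A.card = (1 + t) ^ m := by
  have h := Finset.prod_one_add (s := (Finset.univ : Finset (Fin m))) (f := fun _ => t)
  rw [Finset.prod_const, Finset.card_univ, Fintype.card_fin, Finset.powerset_univ] at h
  rw [h]
  exact Finset.sum_congr rfl fun A _ => by rw [Finset.prod_const]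

theorem vsum {m b k : ℕ} (hb : 0 < b) (δ : ℝ) (G : (Fin m → Bool) → ℝ)
    (h1 : ∀ A : Finset (Fin m), A.card < k → |SDX.coef A G| ≤ δ)
    (h2 : ∀ A : Finset (Fin m), |SDX.coef A G| ≤ 1) :
    Real.sqrt (∑ A ∈ (Finset.univ : Finset (Finset (Fin m))).erase ∅,
      SDX.coef A G ^ 2 / (b : ℝ) ^ A.card) ≤
      Real.sqrt (δ ^ 2 * ((1 + 1 / (b : ℝ)) ^ m - 1) + 2 ^ m / (b : ℝ) ^ k) := by
  refine Real.sqrt_le_sqrt ?_
  have hb1 : (1 : ℝ) ≤ b := by exact_mod_cast hb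
  have hb0 : (0 : ℝ) < b := by linarith
  have h3 : ∀ A : Finset (Fin m), SDX.coef A G ^ 2 / (b : ℝ) ^ A.card ≤
      δ ^ 2 * (1 / (b : ℝ)) ^ A.card + 1 / (b : ℝ) ^ k := by
    intro A
    rw [one_div_pow]
    rcases lt_or_ge A.card k with h | h
    · have h4 : SDX.coef A G ^ 2 ≤ δ ^ 2 := by
        rw [← sq_abs]
        exact pow_le_pow_left₀ (abs_nonneg _) (h1 A h) 2
      have h5 : SDX.coef A G ^ 2 / (b : ℝ) ^ A.card ≤ δ ^ 2 * (1 / (b : ℝ) ^ A.card) := by
        rw [div_eq_mul_one_div]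
        exact mul_le_mul_of_nonneg_right h4 (by positivity)
      have h6 : (0 : ℝ) ≤ 1 / (b : ℝ) ^ k := by positivity
      linarith
    · have h4 : SDX.coef A G ^ 2 ≤ 1 := by
        rw [← sq_abs]
        exact pow_le_one₀ (abs_nonneg _) (h2 A)
      have h5 : SDX.coef A G ^ 2 / (b : ℝ) ^ A.card ≤ 1 / (b : ℝ) ^ k :=
        div_le_div₀ zero_le_one h4 (by positivity) (pow_le_pow_right₀ hb1 h)
      have h6 : (0 : ℝ) ≤ δ ^ 2 * (1 / (b : ℝ) ^ A.card) := by positivity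
      linarith
  have h4 : ∑ A ∈ (Finset.univ : Finset (Finset (Fin m))).erase ∅, δ ^ 2 * (1 / (b : ℝ)) ^ A.card =
      δ ^ 2 * ((1 + 1 / (b : ℝ)) ^ m - 1) := by
    rw [← Finset.mul_sum]
    congr 1
    have h5 := Finset.add_sum_erase (Finset.univ : Finset (Finset (Fin m)))
      (fun A => (1 / (b : ℝ)) ^ A.card) (Finset.mem_univ ∅)
    rw [sum_pow_card] at h5
    simp only [Finset.card_empty, pow_zero] at h5
    linarith
  have h5 : ∑ _A ∈ (Finset.univ : Finset (Finset (Fin m))).erase ∅, 1 / (b : ℝ) ^ k ≤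
      2 ^ m / (b : ℝ) ^ k := by
    rw [Finset.sum_const, nsmul_eq_mul, mul_one_div]
    refine div_le_div_of_nonneg_right ?_ (by positivity)
    have h6 : ((Finset.univ : Finset (Finset (Fin m))).erase ∅).card ≤ 2 ^ m := by
      refine (Finset.card_le_univ _).trans (le_of_eq ?_)
      rw [Fintype.card_finset, Fintype.card_fin]
    exact_mod_cast h6
  calc ∑ A ∈ (Finset.univ : Finset (Finset (Fin m))).erase ∅, SDX.coef A G ^ 2 / (b : ℝ) ^ A.card
      ≤ ∑ A ∈ (Finset.univ : Finset (Finset (Fin m))).erase ∅,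
          (δ ^ 2 * (1 / (b : ℝ)) ^ A.card + 1 / (b : ℝ) ^ k) := Finset.sum_le_sum fun A _ => h3 A
    _ ≤ _ := by
        rw [Finset.sum_add_distrib, h4]
        linarith

end LIFT
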