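import Pool.Agent.LIFT.Defs
import Pool.Agent.Helper8.LIFT.PseudoXor

/-!
# LIFT, row R11: the pseudo-density of an expanding XOR instance
-/

set_option autoImplicit false

open scoped BigOperators Matrix Kronecker

namespace LIFT

theorem xor_pd {m M t w d : ℕ} (A : Fin M → Finset (Fin m)) (s : Fin M → Bool)
    (ht : 1 ≤ t) (hw : 3 ≤ w) (hd : 2 * d ≤ w) (hA : ∀ e, (A e).card = 3)
    (h1 : ∀ C : Finset (Fin M), C.Nonempty → C.card ≤ 2 * t → (odd A C).Nonempty)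
    (h2 : ∀ C : Finset (Fin M), t < C.card → C.card ≤ 2 * t → w < (odd A C).card) :
    ∃ D : (Fin m → Bool) → ℝ, (∀ B, |SDX.coef B D| ≤ 1) ∧ (∀ y, |D y| ≤ 2 ^ m) ∧
      SDX.coef ∅ D = 1 ∧ (∀ e, SDX.coef (A e) D = SDX.sg (s e)) ∧
      ∀ g ∈ SDX.Deg (Fin m) d, 0 ≤ ∑ y, D y * g y ^ 2 := by
  have hG : SDX.h8.Good A t d :=
    { inj := fun J hJ hne => h1 J hne hJ
      gap := fun J hJ h => by
        by_contra hcon
        have h3 := h2 J (not_le.1 hcon) hJ
        change w < (SDX.bsum A J).card at h3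
        omega }
  refine ⟨SDX.xpd t A s, SDX.xpd_coef_le hG s, fun y => ?_, SDX.xpd_coef_empty hG s, fun e => ?_,
    fun g hg => SDX.xpd_sq hG s hg⟩
  · have := SDX.xpd_bd hG s y
    rwa [Fintype.card_fin] at this
  · rw [SDX.h8.coef_xpd_of hG s (J := {e}) (by simpa using ht) (SDX.h8.bsum_singleton A e)]
    simp [SDX.chr]

end LIFT
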